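import Pool.Agent.Run7.h855.Basic

/-! The antichains of complete multipartite graphs. -/

namespace Pool.Agent.Run7.h855

open Pool.Agent.H175R2

variable {V W : Type} {G : SimpleGraph V} {H : SimpleGraph W}

/-- complete multipartite, all parts of size at least two -/
structure CMP {ι : Type} (G : SimpleGraph V) (p : V → ι) : Prop where
  adj : ∀ u v, G.Adj u v ↔ p u ≠ p v
  two : ∀ v, ∃ v', v' ≠ v ∧ p v' = p v

lemma CMP.dom {ι : Type} {p : V → ι} (hG : CMP G p) {f : V → W} (h : Wit G H f) {x y : V}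
    (hxy : f x = f y) (hne : x ≠ y) (w : W) (hw : w ≠ f x) : H.Adj (f x) w := by
  obtain ⟨z, hz, hxz⟩ := fib_nbr h hxy hne
  obtain ⟨v, rfl⟩ := h.surj w
  have hpp := (hG.adj _ _).1 hxz
  by_cases hv : p x = p v
  · have : G.Adj z v := (hG.adj _ _).2 (by rw [← hv]; exact hpp.symm)
    have h2 := Wit.adj_of h this (by rw [hz]; exact hw.symm)
    rwa [hz] at h2
  · exact Wit.adj_of h ((hG.adj _ _).2 hv) hw.symm

lemma CMP.iso {ι ι' : Type} {p : V → ι} {p' : W → ι'} (hG : CMP G p) (hH : CMP H p')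
    (h : IsContraction G H) : Nonempty (G ≃g H) := by
  obtain ⟨f, hf⟩ := h
  have hf : Wit G H f := hf
  apply iso_of_inj hf
  intro x y hxy
  by_contra hne
  obtain ⟨w, hw, hpw⟩ := hH.two (f x)
  have := hG.dom hf hxy hne w hw
  rw [hH.adj] at this
  exact this hpw.symm

/-- `K_{2,r}` -/
abbrev K2 (r : ℕ) : SimpleGraph (Fin 2 ⊕ Fin r) := completeBipartiteGraph (Fin 2) (Fin r)

lemma K2_cmp {r : ℕ} (hr : 2 ≤ r) : CMP (K2 r) (fun x => x.isLeft) := by
  refine ⟨?_, ?_⟩
  · rintro (a | a) (b | b) <;> simp [completeBipartiteGraph]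
  · rintro (a | a)
    · refine ⟨.inl (a + 1), ?_, rfl⟩
      fin_cases a <;> simp
    · have : Nontrivial (Fin r) := Fin.nontrivial_iff_two_le.2 hr
      obtain ⟨b, hb⟩ := exists_ne a
      exact ⟨.inr b, by simpa using hb, rfl⟩

lemma K2_connected {r : ℕ} (hr : 1 ≤ r) : (K2 r).Connected := by
  have : Nonempty (Fin r) := ⟨⟨0, hr⟩⟩
  have : Nonempty (Fin 2 ⊕ Fin r) := ⟨.inl 0⟩
  have key : ∀ x, (K2 r).Reachable x (.inl 0) := by
    rintro (a | a)
    · have h1 : (K2 r).Adj (.inl a) (.inr ⟨0, hr⟩) := by simp [completeBipartiteGraph]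
      have h2 : (K2 r).Adj (.inr ⟨0, hr⟩) (.inl 0) := by simp [completeBipartiteGraph]
      exact h1.reachable.trans h2.reachable
    · have h2 : (K2 r).Adj (.inr a) (.inl 0) := by simp [completeBipartiteGraph]
      exact h2.reachable
  exact ⟨fun x y => (key x).trans (key y).symm⟩

lemma K2_contr [Finite W] {r : ℕ} {f : Fin 2 ⊕ Fin r → W} (h : Wit (K2 r) H f)
    (hni : ¬ Function.Injective f) :
    ∃ q, Nonempty (H ≃g B 1 q) ∨ Nonempty (H ≃g B 2 q) := by
  classical
  set S : Set W := {w | w ≠ f (.inl 0) ∧ w ≠ f (.inl 1)} with hS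
  have hinl : ∀ a : Fin 2, f (.inl a) ∉ S := by
    intro a
    fin_cases a <;> simp [hS]
  have hSr : ∀ x, f x ∈ S → ∃ i, x = .inr i := by
    rintro (a | a) hx
    · exact absurd hx (hinl a)
    · exact ⟨a, rfl⟩
  have hnS : ∀ w, w ∉ S → ∃ a : Fin 2, w = f (.inl a) := by
    intro w hw
    simp only [hS, Set.mem_setOf_eq, not_and_or, not_not] at hw
    rcases hw with h | h
    · exact ⟨0, h⟩
    · exact ⟨1, h⟩
  have hAB : f (.inl 0) ≠ f (.inl 1) → H.Adj (f (.inl 0)) (f (.inl 1)) := by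
    intro hne
    rw [Function.not_injective_iff] at hni
    obtain ⟨x, y, hxy, hxy'⟩ := hni
    obtain ⟨z, hz, hxz⟩ := fib_nbr h hxy hxy'
    have : ∃ (j : Fin 2) (i : Fin r), f (.inr i) = f (.inl j) := by
      rcases x with a | a <;> rcases z with b | b
      · simp [completeBipartiteGraph] at hxz
      · exact ⟨a, b, hz⟩
      · exact ⟨b, a, hz.symm⟩
      · simp [completeBipartiteGraph] at hxz
    obtain ⟨j, i, hij⟩ := this
    have hall : ∀ j', f (.inl j) ≠ f (.inl j') → H.Adj (f (.inl j)) (f (.inl j')) := by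
      intro j' hj'
      have h2 : (K2 r).Adj (.inr i) (.inl j') := by simp [completeBipartiteGraph]
      have h3 := Wit.adj_of h h2 (by rw [hij]; exact hj')
      rwa [hij] at h3
    fin_cases j
    · exact hall 1 hne
    · exact (hall 0 hne.symm).symm
  have hadj : ∀ u v, H.Adj u v ↔ u ≠ v ∧ ¬ (u ∈ S ∧ v ∈ S) := by
    intro u v
    constructor
    · intro huv
      refine ⟨huv.ne, ?_⟩
      rintro ⟨hu, hv⟩
      obtain ⟨x, y, hx, hy, hxy⟩ := (h.2 u v huv.ne).1 huv
      obtain ⟨i, rfl⟩ := hSr x (by rw [hx]; exact hu)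
      obtain ⟨j, rfl⟩ := hSr y (by rw [hy]; exact hv)
      simp [completeBipartiteGraph] at hxy
    · rintro ⟨hne, hnS2⟩
      have main : ∀ u v, u ≠ v → u ∉ S → H.Adj u v := by
        intro u v hne hu
        obtain ⟨a, rfl⟩ := hnS u hu
        by_cases hv : v ∈ S
        · obtain ⟨y, rfl⟩ := h.surj v
          obtain ⟨j, rfl⟩ := hSr y hv
          have h2 : (K2 r).Adj (.inl a) (.inr j) := by simp [completeBipartiteGraph]
          exact Wit.adj_of h h2 hne
        · obtain ⟨b, rfl⟩ := hnS v hv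
          fin_cases a <;> fin_cases b
          · exact absurd rfl hne
          · exact hAB hne
          · exact (hAB hne.symm).symm
          · exact absurd rfl hne
      by_cases hu : u ∈ S
      · have hv : v ∉ S := fun hv => hnS2 ⟨hu, hv⟩
        exact (main v u hne.symm hv).symm
      · exact main u v hne hu
  have hSc : Sᶜ = {f (.inl 0), f (.inl 1)} := by
    ext w
    simp only [hS, Set.mem_compl_iff, Set.mem_setOf_eq, Set.mem_insert_iff,
      Set.mem_singleton_iff]
    tauto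
  by_cases hne : f (.inl 0) = f (.inl 1)
  · refine ⟨S.ncard, Or.inl (iso_B S ?_ rfl hadj)⟩
    rw [hSc, hne]; simp
  · refine ⟨S.ncard, Or.inr (iso_B S ?_ rfl hadj)⟩
    rw [hSc, Set.ncard_pair hne]

/-- isomorphism with `J r m` -/
lemma iso_J [Finite W] (τ : W → W) (hτ : ∀ x, τ (τ x) = x)
    (hadj : ∀ u v, H.Adj u v ↔ u ≠ v ∧ v ≠ τ u) :
    ∃ m, Nonempty (H ≃g J ({x | τ x = x} : Set W).ncard m) := by
  classical
  obtain ⟨N, ⟨e0⟩⟩ := Finite.exists_equiv_fin W
  set r := ({x | τ x = x} : Set W).ncard with hr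
  have e1 : Nonempty (Fin r ≃ {x // τ x = x}) := by
    have : Nat.card {x // τ x = x} = r := by rw [hr]; rfl
    exact ⟨((Finite.equivFin _).trans (finCongr this)).symm⟩
  obtain ⟨e1⟩ := e1
  let eS : {x // e0 x < e0 (τ x)} ≃ Fin (Nat.card {x // e0 x < e0 (τ x)}) := Finite.equivFin _
  set m := Nat.card {x // e0 x < e0 (τ x)} with hm
  let g : Fin r ⊕ Fin m × Fin 2 → W := fun x => match x with
    | .inl i => (e1 i).1
    | .inr (j, a) => if a = 0 then (eS.symm j).1 else τ (eS.symm j).1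
  let τ' : Fin r ⊕ Fin m × Fin 2 → Fin r ⊕ Fin m × Fin 2 := fun x => match x with
    | .inl i => .inl i
    | .inr (j, a) => .inr (j, 1 - a)
  have hgτ : ∀ x, g (τ' x) = τ (g x) := by
    rintro (i | ⟨j, a⟩)
    · exact (e1 i).2.symm
    · fin_cases a
      · simp [g, τ']
      · simp [g, τ', hτ]
  have hS : ∀ j : Fin m, e0 (eS.symm j).1 < e0 (τ (eS.symm j).1) := fun j => (eS.symm j).2
  have hne : ∀ j : Fin m, τ (eS.symm j).1 ≠ (eS.symm j).1 := by
    intro j h
    have := hS j
    rw [h] at this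
    exact lt_irrefl _ this
  have hginj : Function.Injective g := by
    rintro (i | ⟨j, a⟩) (i' | ⟨j', a'⟩) h
    · have : (e1 i).1 = (e1 i').1 := h
      rw [e1.injective (Subtype.ext this)]
    · exfalso
      have h1 := (e1 i).2
      have h2 : (e1 i).1 = g (.inr (j', a')) := h
      rw [h2] at h1
      fin_cases a'
      · exact hne j' (by simpa [g] using h1)
      · have : τ (τ (eS.symm j').1) = τ (eS.symm j').1 := by simpa [g] using h1
        rw [hτ] at this
        exact hne j' this.symm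
    · exfalso
      have h1 := (e1 i').2
      have h2 : g (.inr (j, a)) = (e1 i').1 := h
      rw [← h2] at h1
      fin_cases a
      · exact hne j (by simpa [g] using h1)
      · have : τ (τ (eS.symm j).1) = τ (eS.symm j).1 := by simpa [g] using h1
        rw [hτ] at this
        exact hne j this.symm
    · fin_cases a <;> fin_cases a'
      · have : (eS.symm j).1 = (eS.symm j').1 := by simpa [g] using h
        rw [eS.symm.injective (Subtype.ext this)]
      · exfalso
        have h1 : (eS.symm j).1 = τ (eS.symm j').1 := by simpa [g] using h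
        have h2 := hS j
        have h3 := hS j'
        rw [h1, hτ] at h2
        exact absurd (h2.trans h3) (lt_irrefl _)
      · exfalso
        have h1 : τ (eS.symm j).1 = (eS.symm j').1 := by simpa [g] using h
        have h2 := hS j
        have h3 := hS j'
        rw [← h1, hτ] at h3
        exact absurd (h2.trans h3) (lt_irrefl _)
      · have h1 : τ (eS.symm j).1 = τ (eS.symm j').1 := by simpa [g] using h
        have h2 : (eS.symm j).1 = (eS.symm j').1 := by
          rw [← hτ (eS.symm j).1, h1, hτ]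
        rw [eS.symm.injective (Subtype.ext h2)]
  have hgsurj : Function.Surjective g := by
    intro w
    rcases lt_trichotomy (e0 w) (e0 (τ w)) with h | h | h
    · refine ⟨.inr (eS ⟨w, h⟩, 0), ?_⟩
      simp [g]
    · have h' : τ w = w := (e0.injective h).symm
      refine ⟨.inl (e1.symm ⟨w, h'⟩), ?_⟩
      simp [g]
    · have h' : e0 (τ w) < e0 (τ (τ w)) := by rw [hτ]; exact h
      refine ⟨.inr (eS ⟨τ w, h'⟩, 1), ?_⟩
      simp [g, hτ]
  refine ⟨m, ⟨(⟨Equiv.ofBijective g ⟨hginj, hgsurj⟩, ?_⟩ : J r m ≃g H).symm⟩⟩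
  intro x y
  simp only [Equiv.ofBijective_apply]
  rw [hadj, ← hgτ, hginj.ne_iff, hginj.ne_iff]
  show _ ↔ (x ≠ y ∧ ¬ ∃ i a b, x = .inr (i, a) ∧ y = .inr (i, b))
  refine and_congr_right fun hxy => not_congr ?_
  rcases x with i | ⟨j, a⟩
  · constructor
    · intro h
      exact absurd (Eq.symm h) hxy
    · rintro ⟨_, _, _, h, _⟩
      cases h
  · constructor
    · rintro rfl
      exact ⟨j, a, 1 - a, rfl, rfl⟩
    · rintro ⟨i, a', b, h1, rfl⟩
      simp only [Sum.inr.injEq, Prod.mk.injEq] at h1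
      obtain ⟨rfl, rfl⟩ := h1
      have hab : a ≠ b := fun h' => hxy (by rw [h'])
      have h3 := Fin.val_ne_iff.2 hab
      have : b = 1 - a := by
        rcases (show a = 0 ∨ a = 1 by omega) with rfl | rfl
        · rcases (show b = 0 ∨ b = 1 by omega) with rfl | rfl
          · exact absurd rfl hab
          · rfl
        · rcases (show b = 0 ∨ b = 1 by omega) with rfl | rfl
          · rfl
          · exact absurd rfl hab
      show Sum.inr (j, b) = Sum.inr (j, 1 - a)
      rw [this]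

lemma J0_cmp (n : ℕ) : CMP (J 0 n) (fun x => (x.elim (fun i => i.elim0) (fun p => p.1) : Fin n)) := by
  refine ⟨?_, ?_⟩
  · rintro (a | ⟨i, a⟩) (b | ⟨j, b⟩)
    · exact a.elim0
    · exact a.elim0
    · exact b.elim0
    · show (_ ≠ _ ∧ ¬ ∃ i' a' b', _ ∧ _) ↔ _
      simp only [Sum.elim_inr, ne_eq, Sum.inr.injEq, Prod.mk.injEq, not_and, not_exists]
      constructor
      · rintro ⟨h1, h2⟩ rfl
        exact h2 i a b ⟨rfl, rfl⟩ rfl rfl
      · intro h
        refine ⟨fun h' => absurd h' h, ?_⟩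
        rintro i' a' b' ⟨rfl, rfl⟩ h' 
        exact absurd h'.symm h
  · rintro (a | ⟨i, a⟩)
    · exact a.elim0
    · refine ⟨.inr (i, a + 1), ?_, rfl⟩
      fin_cases a <;> simp

lemma J0_connected {n : ℕ} (hn : 2 ≤ n) : (J 0 n).Connected := by
  have hc := J0_cmp n
  set p := (fun x : Fin 0 ⊕ Fin n × Fin 2 => (x.elim (fun i => i.elim0) (fun p => p.1) : Fin n))
  let z : Fin n := ⟨0, by omega⟩
  let o : Fin n := ⟨1, by omega⟩
  have hzo : z ≠ o := by simp [z, o]
  have : Nonempty (Fin 0 ⊕ Fin n × Fin 2) := ⟨.inr (z, 0)⟩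
  have key : ∀ x, (J 0 n).Reachable x (.inr (z, 0)) := by
    intro x
    by_cases hx : p x = z
    · have h1 : (J 0 n).Adj x (.inr (o, 0)) := (hc.adj _ _).2 (by
        show p x ≠ o
        rw [hx]; exact hzo)
      have h2 : (J 0 n).Adj (.inr (o, 0)) (.inr (z, 0)) := (hc.adj _ _).2 hzo.symm
      exact h1.reachable.trans h2.reachable
    · exact ((hc.adj _ _).2 hx).reachable
  exact ⟨fun x y => (key x).trans (key y).symm⟩

lemma J0_contr [Finite W] {n : ℕ} {f : Fin 0 ⊕ Fin n × Fin 2 → W} (h : Wit (J 0 n) H f)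
    (hni : ¬ Function.Injective f) :
    ∃ r m, 1 ≤ r ∧ Nonempty (H ≃g J r m) := by
  classical
  have hc := J0_cmp n
  -- non-adjacent different vertices have singleton fibres
  have hsing : ∀ x y, f x ≠ f y → ¬ H.Adj (f x) (f y) → ∀ x', f x' = f x → x' = x := by
    intro x y hne hna x' hx'
    by_contra hxx
    exact hna (by
      have := hc.dom h hx' hxx (f y) (by rw [hx']; exact hne.symm)
      rwa [hx'] at this)
  have huniq : ∀ u v w, u ≠ v → ¬ H.Adj u v → u ≠ w → ¬ H.Adj u w → v = w := by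
    intro u v w huv huv' huw huw'
    obtain ⟨x, rfl⟩ := h.surj u
    obtain ⟨y, rfl⟩ := h.surj v
    obtain ⟨z, rfl⟩ := h.surj w
    have h1 : ¬ (J 0 n).Adj x y := fun h' => huv' (Wit.adj_of h h' huv)
    have h2 : ¬ (J 0 n).Adj x z := fun h' => huw' (Wit.adj_of h h' huw)
    have hxy : x ≠ y := fun h' => huv (by rw [h'])
    have hxz : x ≠ z := fun h' => huw (by rw [h'])
    rcases x with a | ⟨i, a⟩
    · exact a.elim0
    rcases y with b | ⟨j, b⟩
    · exact b.elim0
    rcases z with c | ⟨k, c⟩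
    · exact c.elim0
    rw [hc.adj, not_not] at h1 h2
    have h1' : i = j := h1
    have h2' : i = k := h2
    subst h1'; subst h2'
    have hab : a ≠ b := fun h' => hxy (by rw [h'])
    have hac : a ≠ c := fun h' => hxz (by rw [h'])
    have : b = c := by
      have h3 := Fin.val_ne_iff.2 hab
      have h4 := Fin.val_ne_iff.2 hac
      apply Fin.ext
      omega
    rw [this]
  let τ : W → W := fun u => if hu : ∃ v, u ≠ v ∧ ¬ H.Adj u v then hu.choose else u
  have hτ1 : ∀ u v, u ≠ v → ¬ H.Adj u v → τ u = v := by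
    intro u v h1 h2
    have hu : ∃ v, u ≠ v ∧ ¬ H.Adj u v := ⟨v, h1, h2⟩
    have h3 := hu.choose_spec
    have : τ u = hu.choose := by simp only [τ]; rw [dif_pos hu]
    rw [this]
    exact huniq u _ _ h3.1 h3.2 h1 h2
  have hτ2 : ∀ u, τ u ≠ u → ¬ H.Adj u (τ u) := by
    intro u hu
    by_cases h' : ∃ v, u ≠ v ∧ ¬ H.Adj u v
    · obtain ⟨v, h1, h2⟩ := h'
      rw [hτ1 u v h1 h2]; exact h2
    · exact absurd (by simp only [τ]; rw [dif_neg h']) hu
  obtain ⟨m, hm⟩ := iso_J (H := H) τ (by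
    intro u
    by_cases hu : τ u = u
    · rw [hu, hu]
    · exact hτ1 _ _ hu (fun h' => hτ2 u hu h'.symm)) (by
    intro u v
    constructor
    · intro huv
      refine ⟨huv.ne, ?_⟩
      rintro rfl
      exact hτ2 u huv.ne' huv
    · rintro ⟨h1, h2⟩
      by_contra h3
      exact h2 (hτ1 u v h1 h3).symm)
  refine ⟨_, m, ?_, hm⟩
  rw [Function.not_injective_iff] at hni
  obtain ⟨x, y, hxy, hne⟩ := hni
  rw [Nat.one_le_iff_ne_zero]
  refine Set.ncard_ne_zero_of_mem (a := f x) ?_ (Set.toFinite _)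
  show τ (f x) = f x
  by_contra hcon
  exact hτ2 _ hcon (hc.dom h hxy hne _ hcon)

end Pool.Agent.Run7.h855
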