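import Pool.Agent.Run7.h855.Defs

/-! Basic tools. -/

namespace Pool.Agent.Run7.h855

open Pool.Agent.H175R2

variable {V W : Type} {G : SimpleGraph V} {H : SimpleGraph W}

/-- an edge crossing a property inside a fibre -/
lemma fib_cross {f : V → W} (h : Wit G H f) {x y : V} (hxy : f x = f y) (P : V → Prop) (hx : P x)
    (hy : ¬ P y) : ∃ a b, f a = f x ∧ f b = f x ∧ G.Adj a b ∧ P a ∧ ¬ P b := by
  obtain ⟨w⟩ := (h.1 (f x)).preconnected ⟨x, rfl⟩ ⟨y, hxy.symm⟩
  have key : ∀ (a b : {v | f v = f x}) (_ : (G.induce {v | f v = f x}).Walk a b), P a.1 → ¬ P b.1 →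
      ∃ a b, f a = f x ∧ f b = f x ∧ G.Adj a b ∧ P a ∧ ¬ P b := by
    intro a b w
    induction w with
    | nil => intro h1 h2; exact absurd h1 h2
    | cons hadj _ ih =>
      rename_i u v w' _
      intro h1 h2
      by_cases hv : P v.1
      · exact ih hv h2
      · exact ⟨u.1, v.1, u.2, v.2, hadj, h1, hv⟩
  exact key _ _ w hx hy

lemma fib_nbr {f : V → W} (h : Wit G H f) {x y : V} (hxy : f x = f y) (hne : x ≠ y) :
    ∃ z, f z = f x ∧ G.Adj x z := by
  obtain ⟨a, b, ha, hb, hab, h1, _⟩ := fib_cross h hxy (fun z => z = x) rfl (Ne.symm hne)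
  subst h1
  exact ⟨b, hb, hab⟩

lemma Wit.adj_of {f : V → W} (h : Wit G H f) {x y : V} (hxy : G.Adj x y) (hne : f x ≠ f y) :
    H.Adj (f x) (f y) := (h.adj x y hxy).resolve_left hne

/-- an injective bag map is an isomorphism -/
lemma iso_of_inj {f : V → W} (h : Wit G H f) (hinj : Function.Injective f) :
    Nonempty (G ≃g H) := by
  refine ⟨⟨Equiv.ofBijective f ⟨hinj, h.surj⟩, ?_⟩⟩
  intro a b
  simp only [Equiv.ofBijective_apply]
  constructor
  · intro hab
    obtain ⟨v, v', hv, hv', hadj⟩ := (h.2 _ _ hab.ne).1 hab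
    rw [← hinj hv, ← hinj hv']
    exact hadj
  · intro hab
    refine (h.adj _ _ hab).resolve_left ?_
    intro he
    exact hab.ne (hinj he)

/-- build a witness from pointwise data, the connectivity being checked with a centre -/
lemma wit_of_center (f : V → W) (c : W → V) (hc : ∀ w, f (c w) = w)
    (hr : ∀ v, (G.induce {x | f x = f v}).Reachable ⟨v, rfl⟩ ⟨c (f v), hc (f v)⟩)
    (hadj : ∀ x y, G.Adj x y → f x = f y ∨ H.Adj (f x) (f y))
    (hadj' : ∀ w w', H.Adj w w' → ∃ x y, f x = w ∧ f y = w' ∧ G.Adj x y) : Wit G H f := by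
  refine ⟨fun w => ?_, fun w w' hne => ⟨hadj' w w', ?_⟩⟩
  · have : Nonempty {x | f x = w} := ⟨⟨c w, hc w⟩⟩
    have key : ∀ a : {x | f x = w}, (G.induce {x | f x = w}).Reachable a ⟨c w, hc w⟩ := by
      rintro ⟨a, ha⟩
      have ha' : f a = w := ha
      subst ha'
      exact hr a
    exact ⟨fun a b => (key a).trans (key b).symm⟩
  · rintro ⟨x, y, rfl, rfl, hxy⟩
    exact (hadj x y hxy).resolve_left hne

open Classical in
/-- isomorphism with `B k q` -/
lemma iso_B [Finite W] (S : Set W) {k q : ℕ} (hk : (Sᶜ).ncard = k) (hq : S.ncard = q)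
    (hadj : ∀ u v, H.Adj u v ↔ u ≠ v ∧ ¬ (u ∈ S ∧ v ∈ S)) : Nonempty (H ≃g B k q) := by
  have e1 : Nonempty ({x // x ∈ S} ≃ Fin q) := by
    have : Nat.card {x // x ∈ S} = q := by rw [← hq]; rfl
    exact ⟨(Finite.equivFin _).trans (finCongr this)⟩
  have e2 : Nonempty ({x // ¬ x ∈ S} ≃ Fin k) := by
    have : Nat.card {x // ¬ x ∈ S} = k := by rw [← hk]; rfl
    exact ⟨(Finite.equivFin _).trans (finCongr this)⟩
  obtain ⟨e1⟩ := e1
  obtain ⟨e2⟩ := e2
  let e : W ≃ Fin k ⊕ Fin q :=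
    (Equiv.sumCompl (fun x => x ∈ S)).symm.trans
      ((Equiv.sumComm _ _).trans (Equiv.sumCongr e2 e1))
  have he1 : ∀ x (hx : x ∈ S), e x = .inr (e1 ⟨x, hx⟩) := by
    intro x hx
    simp [e, Equiv.sumCompl_symm_apply_of_pos, hx]
  have he2 : ∀ x (hx : x ∉ S), e x = .inl (e2 ⟨x, hx⟩) := by
    intro x hx
    simp [e, Equiv.sumCompl_symm_apply_of_neg, hx]
  refine ⟨⟨e, ?_⟩⟩
  intro u v
  rw [hadj]
  show (e u ≠ e v ∧ ¬ ((∃ i, e u = .inr i) ∧ ∃ j, e v = .inr j)) ↔ _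
  have k1 : ∀ x, (∃ i, e x = .inr i) ↔ x ∈ S := by
    intro x
    constructor
    · rintro ⟨i, hi⟩
      by_contra hx
      rw [he2 x hx] at hi
      exact absurd hi (by simp)
    · intro hx
      exact ⟨_, he1 x hx⟩
  rw [k1, k1, e.injective.ne_iff]

end Pool.Agent.Run7.h855
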