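import Pool.Agent.Run7.h855.Sep

/-! The class of bundles and its series and parallel decompositions. -/

namespace Pool.Agent.Run7.h855

open Pool.Agent.H175R2 Finset Classical

/-- the interior of a piece -/
noncomputable def Ob.L (P : Ob) : Finset P.V := (P.S.erase P.u).erase P.w

lemma Ob.mem_L {P : Ob} {x : P.V} : x ∈ P.L ↔ x ∈ P.S ∧ x ≠ P.u ∧ x ≠ P.w := by
  simp only [Ob.L, mem_erase]; tauto

/-- bundles of rank at most `k` whose hanging pieces are in `𝓢` -/
structure Bd (𝓢 : Set Ob) (k : ℕ) (P : Ob) : Prop where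
  hu : P.u ∈ P.S
  hw : P.w ∈ P.S
  ne : P.u ≠ P.w
  tu : ∀ v ∈ P.L, tch P.G (cpt P.G P.L v) P.u
  tw : ∀ v ∈ P.L, tch P.G (cpt P.G P.L v) P.w
  nonem : P.e ∨ P.L.Nonempty
  k4 : ¬ K4B P.G P.S P.u P.w
  rk : ¬ Rk P.G P.S P.u P.w (k + 1)
  hang : ∀ H z, H ⊆ P.L → z ∈ H → Cn P.G H →
    (∀ x ∈ H, x ≠ z → ∀ y ∈ P.S, P.G.Adj x y → y ∈ H) → full P.G H z z ∈ 𝓢

/-- links -/
def Link (P : Ob) : Prop := P.e ∨ ¬ Cn P.G P.L

/-- with the edge between the terminals -/
def plus (P : Ob) : Ob := ⟨P.V, P.G, P.S, P.u, P.w, True⟩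

variable {𝓢 : Set Ob} {k : ℕ}

lemma mk_L {V : Type} (G : SimpleGraph V) (L : Finset V) (u w : V) (e : Prop) (hu : u ∉ L)
    (hw : w ∉ L) : (⟨V, G, L ∪ {u, w}, u, w, e⟩ : Ob).L = L := by
  ext x
  rw [Ob.mem_L]
  show (x ∈ L ∪ {u, w} ∧ x ≠ u ∧ x ≠ w) ↔ x ∈ L
  simp only [mem_union, mem_insert, mem_singleton]
  constructor
  · rintro ⟨h1 | h1 | h1, h2, h3⟩
    · exact h1
    · exact absurd h1 h2
    · exact absurd h1 h3
  · intro hx
    exact ⟨Or.inl hx, fun h => hu (h ▸ hx), fun h => hw (h ▸ hx)⟩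

lemma S_eq {P : Ob} (hu : P.u ∈ P.S) (hw : P.w ∈ P.S) : P.S = P.L ∪ {P.u, P.w} := by
  ext x
  rw [mem_union, Ob.mem_L]
  simp only [mem_insert, mem_singleton]
  constructor
  · intro hx
    by_cases h1 : x = P.u
    · exact Or.inr (Or.inl h1)
    by_cases h2 : x = P.w
    · exact Or.inr (Or.inr h2)
    exact Or.inl ⟨hx, h1, h2⟩
  · rintro (h | rfl | rfl)
    · exact h.1
    · exact hu
    · exact hw

lemma Bd.raw {P : Ob} (h : Bd 𝓢 k P) (hc : Cn P.G P.L) : Raw P.G P.L P.u P.w := by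
  obtain ⟨v, hv⟩ := hc.1
  have h1 := h.tu v hv
  have h2 := h.tw v hv
  rw [hc.cpt_eq hv] at h1 h2
  exact ⟨fun h' => (Ob.mem_L.1 h').2.1 rfl, fun h' => (Ob.mem_L.1 h').2.2 rfl, h.ne, hc, h1, h2⟩

/-- swapping the terminals -/
lemma Bd.swap {V : Type} {G : SimpleGraph V} {S : Finset V} {u w : V} {e e' : Prop}
    (h : Bd 𝓢 k ⟨V, G, S, u, w, e⟩) (he : e → e') : Bd 𝓢 k ⟨V, G, S, w, u, e'⟩ := by
  have hL : (⟨V, G, S, w, u, e'⟩ : Ob).L = (⟨V, G, S, u, w, e⟩ : Ob).L := by
    ext x; rw [Ob.mem_L, Ob.mem_L]; show (x ∈ S ∧ x ≠ w ∧ x ≠ u) ↔ (x ∈ S ∧ x ≠ u ∧ x ≠ w); tauto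
  refine ⟨h.hw, h.hu, h.ne.symm, ?_, ?_, ?_, fun h' => h.k4 h'.symm, fun h' => h.rk h'.symm, ?_⟩
  · rw [hL]; exact h.tw
  · rw [hL]; exact h.tu
  · rw [hL]
    rcases h.nonem with h1 | h1
    · exact Or.inl (he h1)
    · exact Or.inr h1
  · rw [hL]; exact h.hang

/-- the rest after the first part -/
noncomputable def rst {V : Type} (G : SimpleGraph V) (L : Finset V) (u w z : V) : Finset V :=
  (L \ sd G L z u) ∪ {w}

section first

variable {V : Type} {G : SimpleGraph V} {L : Finset V} {u w z : V}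

lemma cn_rst (h : Raw G L u w) (hs : Sep G L u w z) : Cn G (rst G L u w z) := by
  have h1 : Cn G (L \ sd G L z u) := by
    apply cn_closed h.cn hs.1 sdiff_subset (mem_sdiff.2 ⟨hs.1, z_notMem_sd⟩)
    intro v hv hvz y hy
    obtain ⟨hvL, hvA⟩ := mem_sdiff.1 hv
    have hve : v ∈ L.erase z := mem_erase.2 ⟨hvz, hvL⟩
    refine mem_sdiff.2 ⟨(mem_erase.1 (cpt_subset hy)).2, fun hyA => hvA ?_⟩
    have : v ∈ cpt G (L.erase z) y := by
      rw [cpt_eq_of_mem hve hy]; exact mem_cpt_self hve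
    exact sd_cpt hyA this
  apply h1.union (Cn.singleton w)
  left
  obtain ⟨a, ha, haw⟩ := h.tw
  refine ⟨a, mem_sdiff.2 ⟨ha, fun haA => ?_⟩, w, mem_singleton_self _, haw⟩
  exact hs.2 a haA (sd_of_adj ha (fun h' => z_notMem_sd (h' ▸ haA)) haw)

lemma rst_inter (h : Raw G L u w) (hs : Sep G L u w z) :
    ∀ x ∈ sd G L z u ∪ {u, z}, x ∈ rst G L u w z → x = z := by
  intro x hx hx'
  simp only [rst, mem_union, mem_insert, mem_singleton, mem_sdiff] at hx hx'
  rcases hx with hx | rfl | rfl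
  · rcases hx' with h1 | rfl
    · exact absurd hx h1.2
    · exact absurd (sd_subL hx) h.wL
  · rcases hx' with h1 | h1
    · exact absurd h1.1 h.uL
    · exact absurd h1 h.ne
  · rfl

end first

/-- the first part of a series decomposition is a bundle -/
lemma Bd.firstBd {P : Ob} (h : Bd 𝓢 k P) (hc : Cn P.G P.L) {z : P.V}
    (hs : Sep P.G P.L P.u P.w z) :
    Bd 𝓢 k (full P.G (sd P.G P.L z P.u ∪ {P.u, z}) P.u z) := by
  have hraw := h.raw hc
  set A := sd P.G P.L z P.u with hA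
  have huA : P.u ∉ A := fun h' => hraw.uL (sd_subL h')
  have hzA : z ∉ A := z_notMem_sd
  have huz : P.u ≠ z := by rintro h'; exact hraw.uL (h' ▸ hs.1)
  have hL : (full P.G (A ∪ {P.u, z}) P.u z).L = A := mk_L _ _ _ _ _ huA hzA
  have hcptA : ∀ v ∈ A, cpt P.G A v = cpt P.G (P.L.erase z) v := by
    intro v hv
    have hve := sd_sub hv
    apply subset_antisymm
    · exact subset_cpt (cpt_subset.trans sd_sub) (cn_cpt hv) (mem_cpt_self hv)
    · exact subset_cpt (fun x hx => sd_cpt hv hx) (cn_cpt hve) (mem_cpt_self hve)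
  have hSsub : A ∪ {P.u, z} ⊆ P.S := by
    intro x hx
    simp only [mem_union, mem_insert, mem_singleton] at hx
    rcases hx with hx | rfl | rfl
    · exact (Ob.mem_L.1 (sd_subL hx)).1
    · exact h.hu
    · exact (Ob.mem_L.1 hs.1).1
  have hRsub : rst P.G P.L P.u P.w z ⊆ P.S := by
    intro x hx
    simp only [rst, mem_union, mem_singleton, mem_sdiff] at hx
    rcases hx with hx | rfl
    · exact (Ob.mem_L.1 hx.1).1
    · exact h.hw
  have hzR : z ∈ rst P.G P.L P.u P.w z :=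
    mem_union_left _ (mem_sdiff.2 ⟨hs.1, z_notMem_sd⟩)
  have hwR : P.w ∈ rst P.G P.L P.u P.w z := mem_union_right _ (mem_singleton_self _)
  refine ⟨?_, ?_, huz, ?_, ?_, ?_, ?_, ?_, ?_⟩
  · show P.u ∈ A ∪ {P.u, z}; simp
  · show z ∈ A ∪ {P.u, z}; simp
  · rw [hL]
    intro v hv
    show tch P.G (cpt P.G A v) P.u
    rw [hcptA v hv]
    exact (mem_sd.1 hv).2
  · rw [hL]
    intro v hv
    show tch P.G (cpt P.G A v) z
    rw [hcptA v hv]
    exact cpt_touch hc hs.1 (sd_sub hv)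
  · rw [hL]
    show P.G.Adj P.u z ∨ A.Nonempty
    obtain ⟨a, ha, hau⟩ := hraw.tu
    by_cases haz : a = z
    · left; rw [← haz]; exact hau.symm
    · right; exact ⟨a, sd_of_adj ha haz hau⟩
  · intro h'
    exact h.k4 (K4B.extend h' hSsub hRsub (cn_rst hraw hs) hzR hwR (rst_inter hraw hs))
  · intro h'
    exact h.rk (Rk.extend h' hSsub hRsub (cn_rst hraw hs) hzR hwR (rst_inter hraw hs))
  · rw [hL]
    intro H z' hH hz' hcH hout
    apply h.hang H z' (hH.trans sd_subL) hz' hcH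
    intro x hx hxz' y hy hxy
    apply hout x hx hxz' y _ hxy
    show y ∈ A ∪ {P.u, z}
    simp only [mem_union, mem_insert, mem_singleton]
    have hxA : x ∈ A := hH hx
    by_cases hyu : y = P.u
    · exact Or.inr (Or.inl hyu)
    by_cases hyz : y = z
    · exact Or.inr (Or.inr hyz)
    by_cases hyw : y = P.w
    · exfalso
      subst hyw
      exact hs.2 x hxA (sd_of_adj (sd_subL hxA) (fun h' => hzA (h' ▸ hxA)) hxy)
    · exact Or.inl (sd_closed hxA (Ob.mem_L.2 ⟨hy, hyu, hyw⟩) hyz hxy)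

/-- the effective graph of a piece -/
def tgr {V : Type} (G : SimpleGraph V) (u w : V) (e : Prop) : SimpleGraph V :=
  (⟨V, G, ∅, u, w, e⟩ : Ob).gr

lemma gr_eq (P : Ob) : P.gr = tgr P.G P.u P.w P.e := rfl

lemma tgr_adj {V : Type} {G : SimpleGraph V} {u w : V} {e : Prop} {x y : V} :
    (tgr G u w e).Adj x y ↔ x ≠ y ∧ ((¬ ((x = u ∧ y = w) ∨ (x = w ∧ y = u)) ∧ G.Adj x y) ∨
      (((x = u ∧ y = w) ∨ (x = w ∧ y = u)) ∧ e)) := Iff.rfl

/-- contracting the rest onto the separator -/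
lemma first_plus_raw {V : Type} {G : SimpleGraph V} {S L : Finset V} {u w z : V}
    (hraw : Raw G L u w) (hSL : S = L ∪ {u, w}) (hs : Sep G L u w z) :
    ∃ φ : V → V, φ u = u ∧ φ w = z ∧
      CM (tgr G u w True) S (tgr G u z True) (sd G L z u ∪ {u, z}) φ := by
  set A := sd G L z u with hA
  have huA : u ∉ A := fun h' => hraw.uL (sd_subL h')
  have hzA : z ∉ A := z_notMem_sd
  have huz : u ≠ z := by rintro h'; exact hraw.uL (h' ▸ hs.1)
  set R := rst G L u w z with hR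
  have hzR : z ∈ R := mem_union_left _ (mem_sdiff.2 ⟨hs.1, z_notMem_sd⟩)
  have hwR : w ∈ R := mem_union_right _ (mem_singleton_self _)
  have huR : u ∉ R := fun h' => huz (rst_inter hraw hs u (by simp) h')
  have hmemS : ∀ x, x ∈ S ↔ x ∈ L ∨ x = u ∨ x = w := by
    intro x; rw [hSL]; simp only [mem_union, mem_insert, mem_singleton]
  have hmemR : ∀ x, x ∈ R ↔ (x ∈ L ∧ x ∉ A) ∨ x = w := by
    intro x; simp only [hR, rst, mem_union, mem_singleton, mem_sdiff, hA]
  have hmemA : ∀ x, x ∈ A ∪ {u, z} ↔ x ∈ A ∨ x = u ∨ x = z := by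
    intro x; simp only [mem_union, mem_insert, mem_singleton]
  have hRsub : R ⊆ S := by
    intro x hx
    rw [hmemR] at hx
    rw [hmemS]
    rcases hx with hx | hx
    · exact Or.inl hx.1
    · exact Or.inr (Or.inr hx)
  have hcov : ∀ x ∈ S, x ∉ R → x ∈ A ∪ {u, z} ∧ x ≠ z := by
    intro x hx hxR
    refine ⟨?_, fun h' => hxR (h' ▸ hzR)⟩
    rw [hmemR] at hxR
    rw [hmemS] at hx
    rw [hmemA]
    push Not at hxR
    rcases hx with hx | hx | hx
    · exact Or.inl (hxR.1 hx)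
    · exact Or.inr (Or.inl hx)
    · exact absurd hx hxR.2
  have hdis : ∀ x ∈ A ∪ {u, z}, x ≠ z → x ∉ R := fun x hx hxz hxR =>
    hxz (rst_inter hraw hs x hx hxR)
  have hSsub : A ∪ {u, z} ⊆ S := by
    intro x hx
    rw [hmemA] at hx
    rw [hmemS]
    rcases hx with hx | hx | hx
    · exact Or.inl (sd_subL hx)
    · exact Or.inr (Or.inl hx)
    · exact Or.inl (hx ▸ hs.1)
  -- neighbours of `A` in `R`
  have hAR : ∀ x ∈ A, ∀ y ∈ R, G.Adj x y → y = z := by
    intro x hx y hy hxy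
    by_contra hyz
    rcases (hmemR y).1 hy with ⟨h1, h2⟩ | hy'
    · exact h2 (sd_closed hx h1 hyz hxy)
    · subst hy'
      exact hs.2 x hx (sd_of_adj (sd_subL hx) (fun h' => hzA (h' ▸ hx)) hxy)
  let φ : V → V := fun v => if v ∈ R then z else v
  have f1 : ∀ v, v ∈ R → φ v = z := fun v hv => by simp [φ, hv]
  have f2 : ∀ v, v ∉ R → φ v = v := fun v hv => by simp [φ, hv]
  refine ⟨φ, f2 _ huR, f1 _ hwR, ?_, ?_, ?_⟩
  · intro v hv
    by_cases hvR : v ∈ R
    · rw [f1 v hvR]; simp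
    · rw [f2 v hvR]; exact (hcov v hv hvR).1
  · intro x hx
    by_cases hxz : x = z
    · have : S.filter (fun v => φ v = x) = R := by
        ext v
        rw [mem_filter]
        constructor
        · rintro ⟨h1, h2⟩
          by_contra hvR
          rw [f2 v hvR, hxz] at h2
          exact hvR (h2 ▸ hzR)
        · intro hv
          exact ⟨hRsub hv, by rw [f1 v hv, hxz]⟩
      rw [this]
      apply Cn.congr _ (cn_rst hraw hs)
      intro a ha b hb hab
      rw [tgr_adj]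
      refine ⟨hab.ne, Or.inl ⟨?_, hab⟩⟩
      rintro (⟨h1, -⟩ | ⟨-, h1⟩)
      · exact huR (h1 ▸ ha)
      · exact huR (h1 ▸ hb)
    · have : S.filter (fun v => φ v = x) = {x} := by
        ext v
        rw [mem_filter, mem_singleton]
        constructor
        · rintro ⟨h1, h2⟩
          by_cases hvR : v ∈ R
          · rw [f1 v hvR] at h2; exact absurd h2.symm hxz
          · rw [f2 v hvR] at h2; exact h2
        · rintro rfl
          exact ⟨hSsub hx, f2 _ (hdis _ hx hxz)⟩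
      rw [this]
      exact Cn.singleton _
  · -- adjacency; `z` versus the others
    have hz_case : ∀ x ∈ A ∪ {u, z}, x ≠ z →
        ((tgr G u z True).Adj x z ↔ ∃ b ∈ R, (tgr G u w True).Adj x b) := by
      intro x hx hxz
      rcases (hmemA x).1 hx with hxA | hxu | hxz'
      · have hxu : x ≠ u := fun h' => huA (h' ▸ hxA)
        constructor
        · intro h0
          obtain ⟨h1, h2⟩ := tgr_adj.1 h0
          rcases h2 with h2 | h2
          · refine ⟨z, hzR, tgr_adj.2 ⟨h1, Or.inl ⟨?_, h2.2⟩⟩⟩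
            rintro (⟨h3, -⟩ | ⟨-, h3⟩)
            · exact hxu h3
            · exact huz h3.symm
          · exfalso
            rcases h2.1 with h3 | h3
            · exact hxu h3.1
            · exact hxz h3.1
        · rintro ⟨b, hb, h0⟩
          obtain ⟨h1, h2⟩ := tgr_adj.1 h0
          have hG : G.Adj x b := by
            rcases h2 with h2 | h2
            · exact h2.2
            · exfalso
              rcases h2.1 with h3 | h3
              · exact hxu h3.1
              · exact huR (h3.2 ▸ hb)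
          have := hAR x hxA b hb hG
          subst this
          refine tgr_adj.2 ⟨h1, Or.inl ⟨?_, hG⟩⟩
          rintro (⟨h3, -⟩ | ⟨h3, -⟩)
          · exact hxu h3
          · exact hxz h3
      · subst hxu
        constructor
        · intro _
          exact ⟨w, hwR, tgr_adj.2 ⟨hraw.ne, Or.inr ⟨Or.inl ⟨rfl, rfl⟩, trivial⟩⟩⟩
        · intro _
          exact tgr_adj.2 ⟨hxz, Or.inr ⟨Or.inl ⟨rfl, rfl⟩, trivial⟩⟩
      · exact absurd hxz' hxz
    have fib : ∀ a, ∀ x, x ≠ z → φ a = x → a = x := by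
      intro a x hxz hax
      by_cases haR : a ∈ R
      · rw [f1 a haR] at hax; exact absurd hax.symm hxz
      · rw [f2 a haR] at hax; exact hax
    have fibz : ∀ a, φ a = z → a ∈ R := by
      intro a hax
      by_contra haR
      rw [f2 a haR] at hax
      exact haR (hax ▸ hzR)
    have hwn : ∀ t ∈ A ∪ {u, z}, t ≠ z → t ≠ w := fun t ht htz h' =>
      hdis t ht htz (h' ▸ hwR)
    intro x hx y hy hne
    by_cases hxz : x = z
    · rw [hxz, SimpleGraph.adj_comm, hz_case y hy (fun h' => hne (hxz.trans h'.symm))]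
      have hyz : y ≠ z := fun h' => hne (hxz.trans h'.symm)
      constructor
      · rintro ⟨b, hb, hyb⟩
        exact ⟨b, hRsub hb, y, hSsub hy, f1 b hb, f2 y (hdis y hy hyz), hyb.symm⟩
      · rintro ⟨a, ha, b, hb, h1, h2, h3⟩
        have := fib b y hyz h2
        subst this
        exact ⟨a, fibz a h1, h3.symm⟩
    · by_cases hyz : y = z
      · rw [hyz, hz_case x hx hxz]
        constructor
        · rintro ⟨b, hb, hyb⟩
          exact ⟨x, hSsub hx, b, hRsub hb, f2 x (hdis x hx hxz), f1 b hb, hyb⟩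
        · rintro ⟨a, ha, b, hb, h1, h2, h3⟩
          have := fib a x hxz h1
          subst this
          exact ⟨b, fibz b h2, h3⟩
      · constructor
        · intro h0
          obtain ⟨h1, h2⟩ := tgr_adj.1 h0
          have hG : G.Adj x y := by
            rcases h2 with h2 | h2
            · exact h2.2
            · exfalso
              rcases h2.1 with h3 | h3
              · exact hyz h3.2
              · exact hxz h3.1
          refine ⟨x, hSsub hx, y, hSsub hy, f2 x (hdis x hx hxz), f2 y (hdis y hy hyz),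
            tgr_adj.2 ⟨h1, Or.inl ⟨?_, hG⟩⟩⟩
          rintro (⟨-, h3⟩ | ⟨h3, -⟩)
          · exact hwn y hy hyz h3
          · exact hwn x hx hxz h3
        · rintro ⟨a, ha, b, hb, h1, h2, h3⟩
          have e1 := fib a x hxz h1
          have e2 := fib b y hyz h2
          subst e1 e2
          have hG : G.Adj a b := by
            rcases (tgr_adj.1 h3).2 with h4 | h4
            · exact h4.2
            · exfalso
              rcases h4.1 with h5 | h5
              · exact hwn b hy hyz h5.2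
              · exact hwn a hx hxz h5.1
          refine tgr_adj.2 ⟨hne, Or.inl ⟨?_, hG⟩⟩
          rintro (⟨-, h5⟩ | ⟨h5, -⟩)
          · exact hyz h5
          · exact hxz h5

lemma Bd.firstPlus {P : Ob} (h : Bd 𝓢 k P) (hc : Cn P.G P.L) {z : P.V}
    (hs : Sep P.G P.L P.u P.w z) :
    Le (plus (full P.G (sd P.G P.L z P.u ∪ {P.u, z}) P.u z)) (plus P) :=
  first_plus_raw (h.raw hc) (S_eq h.hu h.hw) hs

/-- swapping the terminals -/
def swp (P : Ob) : Ob := ⟨P.V, P.G, P.S, P.w, P.u, P.e⟩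

lemma swp_L (P : Ob) : (swp P).L = P.L := erase_right_comm

lemma gr_swap {V : Type} {G : SimpleGraph V} {S S' : Finset V} {u w : V} {e e' : Prop}
    (he : e ↔ e') : (⟨V, G, S, u, w, e⟩ : Ob).gr = (⟨V, G, S', w, u, e'⟩ : Ob).gr := by
  ext x y
  show (x ≠ y ∧ ((¬ ((x = u ∧ y = w) ∨ (x = w ∧ y = u)) ∧ G.Adj x y) ∨
      (((x = u ∧ y = w) ∨ (x = w ∧ y = u)) ∧ e))) ↔
    (x ≠ y ∧ ((¬ ((x = w ∧ y = u) ∨ (x = u ∧ y = w)) ∧ G.Adj x y) ∨
      (((x = w ∧ y = u) ∨ (x = u ∧ y = w)) ∧ e')))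
  rw [he, or_comm (a := x = u ∧ y = w)]

lemma Sep.swap {V : Type} {G : SimpleGraph V} {L : Finset V} {u w z : V} (h : Sep G L u w z) :
    Sep G L w u z := ⟨h.1, fun v h1 h2 => h.2 v h2 h1⟩

/-- the last part of a series decomposition is a bundle -/
lemma Bd.lastBd {P : Ob} (h : Bd 𝓢 k P) (hc : Cn P.G P.L) {z : P.V}
    (hs : Sep P.G P.L P.u P.w z) :
    Bd 𝓢 k (full P.G (sd P.G P.L z P.w ∪ {z, P.w}) z P.w) := by
  have h' : Bd 𝓢 k (swp P) := Bd.swap (V := P.V) (G := P.G) (S := P.S) (u := P.u) (w := P.w)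
    (e := P.e) (e' := P.e) h (fun h => h)
  have hc' : Cn (swp P).G (swp P).L := by rw [swp_L]; exact hc
  have hs' : Sep (swp P).G (swp P).L (swp P).u (swp P).w z := by rw [swp_L]; exact hs.swap
  have := h'.firstBd hc' hs'
  rw [swp_L] at this
  have h2 : Bd 𝓢 k ⟨P.V, P.G, sd P.G P.L z P.w ∪ {P.w, z}, P.w, z, P.G.Adj P.w z⟩ := this
  have h3 := Bd.swap (e' := P.G.Adj z P.w) h2 (fun h => h.symm)
  rw [pair_comm] at h3
  exact h3

lemma Bd.lastPlus {P : Ob} (h : Bd 𝓢 k P) (hc : Cn P.G P.L) {z : P.V}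
    (hs : Sep P.G P.L P.u P.w z) :
    Le (plus (full P.G (sd P.G P.L z P.w ∪ {z, P.w}) z P.w)) (plus P) := by
  have h' : Bd 𝓢 k (swp P) := Bd.swap (V := P.V) (G := P.G) (S := P.S) (u := P.u) (w := P.w)
    (e := P.e) (e' := P.e) h (fun h => h)
  have hc' : Cn (swp P).G (swp P).L := by rw [swp_L]; exact hc
  have hs' : Sep (swp P).G (swp P).L (swp P).u (swp P).w z := by rw [swp_L]; exact hs.swap
  have := h'.firstPlus hc' hs'
  rw [swp_L] at this
  obtain ⟨φ, h1, h2, h3⟩ := this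
  refine ⟨φ, h2, h1, ?_⟩
  have e1 : (plus (swp P)).gr = (plus P).gr := gr_swap Iff.rfl
  have e2 : (plus (full P.G (sd P.G P.L z P.w ∪ {z, P.w}) z P.w)).gr =
      (plus (full P.G (sd P.G P.L z P.w ∪ {P.w, z}) P.w z)).gr := gr_swap Iff.rfl
  rw [e2, ← e1]
  have e3 : (plus (full P.G (sd P.G P.L z P.w ∪ {z, P.w}) z P.w)).S =
      sd P.G P.L z P.w ∪ {P.w, z} := by
    show sd P.G P.L z P.w ∪ {z, P.w} = _
    rw [pair_comm]
  rw [e3]
  exact h3

end Pool.Agent.Run7.h855
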