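import Pool.Agent.Run7.h855.Bd

/-! Chains of links in bundles. -/

namespace Pool.Agent.Run7.h855

open Pool.Agent.H175R2 Finset Classical

variable {𝓢 : Set Ob} {k : ℕ}

/-- the hanging part at the separator -/
noncomputable def hg {V : Type} (G : SimpleGraph V) (L : Finset V) (u w z : V) : Finset V :=
  L.filter (fun v => v ∉ sd G L z u ∧ v ∉ sd G L z w)

section raw

variable {V : Type} {G : SimpleGraph V} {S L : Finset V} {u w z : V}

lemma mem_hg {v : V} : v ∈ hg G L u w z ↔ v ∈ L ∧ v ∉ sd G L z u ∧ v ∉ sd G L z w := by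
  simp [hg]

lemma z_mem_hg (hs : Sep G L u w z) : z ∈ hg G L u w z :=
  mem_hg.2 ⟨hs.1, z_notMem_sd, z_notMem_sd⟩

lemma cn_hg (h : Raw G L u w) (hs : Sep G L u w z) : Cn G (hg G L u w z) := by
  apply cn_closed h.cn hs.1 (filter_subset _ _) (z_mem_hg hs)
  intro v hv hvz y hy
  obtain ⟨hvL, hvA, hvB⟩ := mem_hg.1 hv
  have hve : v ∈ L.erase z := mem_erase.2 ⟨hvz, hvL⟩
  have hvy : v ∈ cpt G (L.erase z) y := by
    rw [cpt_eq_of_mem hve hy]; exact mem_cpt_self hve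
  exact mem_hg.2 ⟨(mem_erase.1 (cpt_subset hy)).2, fun hyA => hvA (sd_cpt hyA hvy),
    fun hyB => hvB (sd_cpt hyB hvy)⟩

/-- the edges of a series decomposition -/
lemma series_adj (h : Raw G L u w) (hSL : S = L ∪ {u, w}) (hs : Sep G L u w z) :
    ∀ x ∈ S, ∀ y ∈ S, G.Adj x y → ¬ ((x = u ∧ y = w) ∨ (x = w ∧ y = u)) →
      (x ∈ sd G L z u ∪ {u, z} ∧ y ∈ sd G L z u ∪ {u, z}) ∨
      (x ∈ hg G L u w z ∧ y ∈ hg G L u w z) ∨
      (x ∈ sd G L z w ∪ {z, w} ∧ y ∈ sd G L z w ∪ {z, w}) := by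
  have hmemS : ∀ x, x ∈ S ↔ x ∈ L ∨ x = u ∨ x = w := by
    intro x; rw [hSL]; simp only [mem_union, mem_insert, mem_singleton]
  have m1 : ∀ x, x ∈ sd G L z u ∪ {u, z} ↔ x ∈ sd G L z u ∨ x = u ∨ x = z := by
    intro x; simp only [mem_union, mem_insert, mem_singleton]
  have m2 : ∀ x, x ∈ sd G L z w ∪ {z, w} ↔ x ∈ sd G L z w ∨ x = z ∨ x = w := by
    intro x; simp only [mem_union, mem_insert, mem_singleton]
  -- classification of the vertices of `L`
  have hcl : ∀ x ∈ L, x ∈ sd G L z u ∨ x ∈ sd G L z w ∨ (x ∈ hg G L u w z) := by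
    intro x hx
    by_cases h1 : x ∈ sd G L z u
    · exact Or.inl h1
    by_cases h2 : x ∈ sd G L z w
    · exact Or.inr (Or.inl h2)
    exact Or.inr (Or.inr (mem_hg.2 ⟨hx, h1, h2⟩))
  -- both in `L`
  have hLL : ∀ x ∈ L, ∀ y ∈ L, G.Adj x y → x ≠ z →
      (x ∈ sd G L z u ∪ {u, z} ∧ y ∈ sd G L z u ∪ {u, z}) ∨
      (x ∈ hg G L u w z ∧ y ∈ hg G L u w z) ∨
      (x ∈ sd G L z w ∪ {z, w} ∧ y ∈ sd G L z w ∪ {z, w}) := by
    intro x hx y hy hxy hxz
    rw [m1, m1, m2, m2]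
    by_cases hyz : y = z
    · rcases hcl x hx with h1 | h1 | h1
      · exact Or.inl ⟨Or.inl h1, Or.inr (Or.inr hyz)⟩
      · exact Or.inr (Or.inr ⟨Or.inl h1, Or.inr (Or.inl hyz)⟩)
      · exact Or.inr (Or.inl ⟨h1, by rw [hyz]; exact z_mem_hg hs⟩)
    · rcases hcl x hx with h1 | h1 | h1
      · exact Or.inl ⟨Or.inl h1, Or.inl (sd_closed h1 hy hyz hxy)⟩
      · exact Or.inr (Or.inr ⟨Or.inl h1, Or.inl (sd_closed h1 hy hyz hxy)⟩)
      · refine Or.inr (Or.inl ⟨h1, mem_hg.2 ⟨hy, fun h' => ?_, fun h' => ?_⟩⟩)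
        · exact (mem_hg.1 h1).2.1 (sd_closed h' hx hxz hxy.symm)
        · exact (mem_hg.1 h1).2.2 (sd_closed h' hx hxz hxy.symm)
  -- `x ∈ L`, `y` a terminal
  have hLT : ∀ x ∈ L, ∀ y, (y = u ∨ y = w) → G.Adj x y →
      (x ∈ sd G L z u ∪ {u, z} ∧ y ∈ sd G L z u ∪ {u, z}) ∨
      (x ∈ sd G L z w ∪ {z, w} ∧ y ∈ sd G L z w ∪ {z, w}) := by
    intro x hx y hy hxy
    rw [m1, m1, m2, m2]
    by_cases hxz : x = z
    · rcases hy with hy | hy
      · exact Or.inl ⟨Or.inr (Or.inr hxz), Or.inr (Or.inl hy)⟩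
      · exact Or.inr ⟨Or.inr (Or.inl hxz), Or.inr (Or.inr hy)⟩
    · rcases hy with hy | hy
      · exact Or.inl ⟨Or.inl (sd_of_adj hx hxz (hy ▸ hxy)), Or.inr (Or.inl hy)⟩
      · exact Or.inr ⟨Or.inl (sd_of_adj hx hxz (hy ▸ hxy)), Or.inr (Or.inr hy)⟩
  intro x hx y hy hxy hp
  rcases (hmemS x).1 hx with hx | hx <;> rcases (hmemS y).1 hy with hy | hy
  · by_cases hxz : x = z
    · have hyz : y ≠ z := fun h' => hxy.ne (hxz.trans h'.symm)
      rcases hLL y hy x hx hxy.symm hyz with h1 | h1 | h1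
      · exact Or.inl ⟨h1.2, h1.1⟩
      · exact Or.inr (Or.inl ⟨h1.2, h1.1⟩)
      · exact Or.inr (Or.inr ⟨h1.2, h1.1⟩)
    · exact hLL x hx y hy hxy hxz
  · rcases hLT x hx y hy hxy with h1 | h1
    · exact Or.inl h1
    · exact Or.inr (Or.inr h1)
  · rcases hLT y hy x hx hxy.symm with h1 | h1
    · exact Or.inl ⟨h1.2, h1.1⟩
    · exact Or.inr (Or.inr ⟨h1.2, h1.1⟩)
  · exfalso
    rcases hx with hx | hx <;> rcases hy with hy | hy
    · exact hxy.ne (hx.trans hy.symm)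
    · exact hp (Or.inl ⟨hx, hy⟩)
    · exact hp (Or.inr ⟨hx, hy⟩)
    · exact hxy.ne (hx.trans hy.symm)

end raw

lemma Bd.hgMem {P : Ob} (h : Bd 𝓢 k P) (hc : Cn P.G P.L) {z : P.V}
    (hs : Sep P.G P.L P.u P.w z) : full P.G (hg P.G P.L P.u P.w z) z z ∈ 𝓢 := by
  have hraw := h.raw hc
  apply h.hang _ z (filter_subset _ _) (z_mem_hg hs) (cn_hg hraw hs)
  intro x hx hxz y hy hxy
  obtain ⟨hxL, hxA, hxB⟩ := mem_hg.1 hx
  have hyu : y ≠ P.u := by
    rintro rfl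
    exact hxA (sd_of_adj hxL hxz hxy)
  have hyw : y ≠ P.w := by
    rintro rfl
    exact hxB (sd_of_adj hxL hxz hxy)
  have hyL : y ∈ P.L := Ob.mem_L.2 ⟨hy, hyu, hyw⟩
  refine mem_hg.2 ⟨hyL, fun h' => ?_, fun h' => ?_⟩
  · by_cases hyz : y = z
    · exact z_notMem_sd (hyz ▸ h')
    · exact hxA (sd_closed h' hxL hxz hxy.symm)
  · by_cases hyz : y = z
    · exact z_notMem_sd (hyz ▸ h')
    · exact hxB (sd_closed h' hxL hxz hxy.symm)

/-- bundles with true adjacency are connected -/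
lemma Bd.cnS {V : Type} {G : SimpleGraph V} {S : Finset V} {u w : V}
    (h : Bd 𝓢 k (full G S u w)) : Cn G S := by
  have huS : u ∈ S := h.hu
  have hwS : w ∈ S := h.hw
  have hLS : (full G S u w).L ⊆ S := fun x hx => (Ob.mem_L.1 hx).1
  have hcu : ∀ v ∈ (full G S u w).L, Cn G (cpt G (full G S u w).L v ∪ {u}) := by
    intro v hv
    obtain ⟨a, ha, hau⟩ := h.tu v hv
    exact (cn_cpt hv).union (Cn.singleton u) (Or.inl ⟨a, ha, u, mem_singleton_self _, hau⟩)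
  apply cn_of_cover huS
  intro x hx
  by_cases hxu : x = u
  · exact ⟨{u}, by simpa using huS, Cn.singleton u, by simp, by simp [hxu]⟩
  by_cases hxw : x = w
  · subst hxw
    rcases h.nonem with h1 | ⟨v, hv⟩
    · have h1 : G.Adj u x := h1
      refine ⟨{u} ∪ {x}, ?_, (Cn.singleton u).union (Cn.singleton x)
        (Or.inl ⟨u, by simp, x, by simp, h1⟩), by simp, by simp⟩
      intro y hy
      simp only [mem_union, mem_singleton] at hy
      rcases hy with rfl | rfl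
      · exact huS
      · exact hwS
    · obtain ⟨b, hb, hbw⟩ := h.tw v hv
      refine ⟨(cpt G (full G S u x).L v ∪ {u}) ∪ {x}, ?_, (hcu v hv).union (Cn.singleton x)
        (Or.inl ⟨b, mem_union_left _ hb, x, mem_singleton_self _, hbw⟩), by simp, by simp⟩
      intro y hy
      simp only [mem_union, mem_singleton] at hy
      rcases hy with (hy | rfl) | rfl
      · exact hLS (cpt_subset hy)
      · exact huS
      · exact hwS
  · have hxL : x ∈ (full G S u w).L := Ob.mem_L.2 ⟨hx, hxu, hxw⟩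
    refine ⟨cpt G (full G S u w).L x ∪ {u}, ?_, hcu x hxL, by simp,
      mem_union_left _ (mem_cpt_self hxL)⟩
    intro y hy
    simp only [mem_union, mem_singleton] at hy
    rcases hy with hy | rfl
    · exact hLS (cpt_subset hy)
    · exact huS

/-- links occurring in a chain of `P` -/
structure GoodL (𝓢 : Set Ob) (k : ℕ) (P Q : Ob) : Prop where
  bd : Bd 𝓢 k Q
  link : Link Q
  le : Le (plus Q) (plus P)

/-- facts common to both steps of the chain decomposition -/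
lemma Bd.split {P : Ob} (h : Bd 𝓢 k P) (hc : Cn P.G P.L) :
    ∃ z, Sep P.G P.L P.u P.w z ∧
      GoodL 𝓢 k P (full P.G (sd P.G P.L z P.u ∪ {P.u, z}) P.u z) := by
  have hraw := h.raw hc
  obtain ⟨z, hs, hz⟩ := hraw.exists_sep_min (by rw [← S_eq h.hu h.hw]; exact h.k4)
    (fun z hz => (h.firstBd hc hz).k4)
  refine ⟨z, hs, h.firstBd hc hs, ?_, h.firstPlus hc hs⟩
  rcases hz with hz | hz
  · exact Or.inl hz
  · right
    have : (full P.G (sd P.G P.L z P.u ∪ {P.u, z}) P.u z).L = sd P.G P.L z P.u :=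
      mk_L _ _ _ _ _ (fun h' => hraw.uL (sd_subL h')) z_notMem_sd
    rw [this]
    exact hz

/-- the interior -/
noncomputable def Lr {V : Type} (S : Finset V) (u w : V) : Finset V := (S.erase u).erase w

lemma Bd.facts_raw {V : Type} {G : SimpleGraph V} {S : Finset V} {u w : V} {e : Prop}
    (h : Bd 𝓢 k ⟨V, G, S, u, w, e⟩) (hc : Cn G (Lr S u w)) :
    Raw G (Lr S u w) u w ∧ S = Lr S u w ∪ {u, w} ∧ ∃ z, Sep G (Lr S u w) u w z ∧
      GoodL 𝓢 k ⟨V, G, S, u, w, e⟩ (full G (sd G (Lr S u w) z u ∪ {u, z}) u z) ∧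
      Bd 𝓢 k (full G (sd G (Lr S u w) z w ∪ {z, w}) z w) ∧
      Le (plus (full G (sd G (Lr S u w) z w ∪ {z, w}) z w)) (plus ⟨V, G, S, u, w, e⟩) ∧
      full G (hg G (Lr S u w) u w z) z z ∈ 𝓢 := by
  obtain ⟨z, hs, hgood⟩ := h.split hc
  exact ⟨h.raw hc, S_eq h.hu h.hw, z, hs, hgood, h.lastBd hc hs, h.lastPlus hc hs, h.hgMem hc hs⟩

lemma series_core {V : Type} {G : SimpleGraph V} {S L : Finset V} {u w z : V}
    (hraw : Raw G L u w) (hSL : S = L ∪ {u, w}) (hs : Sep G L u w z) {M₁ T₁ : Finset V} {z₂ : V}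
    {l₁ : List (Ob × Ob)} (c1 : ∀ x, x ∈ sd G L z w ∪ {z, w} ↔ x ∈ M₁ ∨ x ∈ T₁) (c2 : z ∈ M₁)
    (c3 : z₂ ∈ M₁) (c4 : Tail G w T₁ z₂ l₁) (c5 : ∀ x, x ∈ M₁ → x ∈ T₁ → x = z₂) (c6 : z ∉ T₁)
    (c7 : ∀ x ∈ sd G L z w ∪ {z, w}, ∀ y ∈ sd G L z w ∪ {z, w}, G.Adj x y →
      (x ∈ M₁ ∧ y ∈ M₁) ∨ (x ∈ T₁ ∧ y ∈ T₁)) (c8 : Cn G M₁) :
    ∃ (M T : Finset V), M = sd G L z u ∪ {u, z} ∧ (∀ x, x ∈ S ↔ x ∈ M ∨ x ∈ T) ∧ u ∈ M ∧ z ∈ M ∧
      Tail G w T z ((full G (hg G L u w z) z z, full G M₁ z z₂) :: l₁) ∧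
      (∀ x, x ∈ M → x ∈ T → x = z) ∧ u ∉ T ∧ w ∉ M ∧
      (∀ x ∈ S, ∀ y ∈ S, G.Adj x y → ¬ ((x = u ∧ y = w) ∨ (x = w ∧ y = u)) →
        (x ∈ M ∧ y ∈ M) ∨ (x ∈ T ∧ y ∈ T)) ∧ M.card < S.card ∧
      (sd G L z w ∪ {z, w}).card < S.card := by
  set M := sd G L z u ∪ {u, z} with hM
  set H := hg G L u w z with hH
  set S₂ := sd G L z w ∪ {z, w} with hS₂
  have mS : ∀ x, x ∈ S ↔ x ∈ L ∨ x = u ∨ x = w := by
    intro x; rw [hSL]; simp only [mem_union, mem_insert, mem_singleton]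
  have mM : ∀ x, x ∈ M ↔ x ∈ sd G L z u ∨ x = u ∨ x = z := by
    intro x; simp only [hM, mem_union, mem_insert, mem_singleton]
  have mS₂ : ∀ x, x ∈ S₂ ↔ x ∈ sd G L z w ∨ x = z ∨ x = w := by
    intro x; simp only [hS₂, mem_union, mem_insert, mem_singleton]
  have mH : ∀ x, x ∈ H ↔ x ∈ L ∧ x ∉ sd G L z u ∧ x ∉ sd G L z w := fun x => mem_hg
  have huz : u ≠ z := by rintro h'; exact hraw.uL (h' ▸ hs.1)
  have hwz : w ≠ z := by rintro h'; exact hraw.wL (h' ▸ hs.1)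
  have huS : u ∈ S := (mS u).2 (Or.inr (Or.inl rfl))
  have hwS : w ∈ S := (mS w).2 (Or.inr (Or.inr rfl))
  have huS₂ : u ∉ S₂ := by
    rw [mS₂]; rintro (h1 | h1 | h1)
    · exact hraw.uL (sd_subL h1)
    · exact huz h1
    · exact hraw.ne h1
  have hwM : w ∉ M := by
    rw [mM]; rintro (h1 | h1 | h1)
    · exact hraw.wL (sd_subL h1)
    · exact hraw.ne h1.symm
    · exact hwz h1
  have huH : u ∉ H := by rw [mH]; exact fun h1 => hraw.uL h1.1
  have hS₂S : S₂ ⊆ S := by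
    intro x hx
    rw [mS]
    rcases (mS₂ x).1 hx with h1 | h1 | h1
    · exact Or.inl (sd_subL h1)
    · exact Or.inl (h1 ▸ hs.1)
    · exact Or.inr (Or.inr h1)
  have hMS : M ⊆ S := by
    intro x hx
    rw [mS]
    rcases (mM x).1 hx with h1 | h1 | h1
    · exact Or.inl (sd_subL h1)
    · exact Or.inr (Or.inl h1)
    · exact Or.inl (h1 ▸ hs.1)
  have hHsub : H ⊆ S := fun x hx => (mS x).2 (Or.inl ((mH x).1 hx).1)
  have hHS₂ : ∀ x, x ∈ H → x ∈ S₂ → x = z := by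
    intro x h1 h2
    rcases (mS₂ x).1 h2 with h3 | h3 | h3
    · exact absurd h3 ((mH x).1 h1).2.2
    · exact h3
    · subst h3; exact absurd ((mH _).1 h1).1 hraw.wL
  have hMH : ∀ x, x ∈ M → x ∈ H → x = z := by
    intro x h1 h2
    rcases (mM x).1 h1 with h3 | h3 | h3
    · exact absurd h3 ((mH x).1 h2).2.1
    · subst h3; exact absurd ((mH _).1 h2).1 hraw.uL
    · exact h3
  have hMS₂ : ∀ x, x ∈ M → x ∈ S₂ → x = z := by
    intro x h1 h2
    rcases (mM x).1 h1 with h3 | h3 | h3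
    · rcases (mS₂ x).1 h2 with h4 | h4 | h4
      · exact (hs.2 x h3 h4).elim
      · exact h4
      · subst h4; exact absurd (sd_subL h3) hraw.wL
    · subst h3; exact absurd h2 huS₂
    · exact h3
  have hadj := series_adj hraw hSL hs
  have hzS₂ : z ∈ S₂ := (mS₂ z).2 (Or.inr (Or.inl rfl))
  have hzH : z ∈ H := z_mem_hg hs
  have huT : u ∉ H ∪ S₂ := by
    rw [mem_union]
    rintro (h1 | h1)
    · exact huH h1
    · exact huS₂ h1
  refine ⟨M, H ∪ S₂, rfl, ?_, ?_, ?_, ?_, ?_, huT, hwM, ?_, ?_, ?_⟩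
  · intro x
    rw [mS, mM, mem_union, mH, mS₂]
    constructor
    · rintro (h1 | h1 | h1)
      · by_cases h2 : x ∈ sd G L z u
        · exact Or.inl (Or.inl h2)
        by_cases h3 : x ∈ sd G L z w
        · exact Or.inr (Or.inr (Or.inl h3))
        exact Or.inr (Or.inl ⟨h1, h2, h3⟩)
      · exact Or.inl (Or.inr (Or.inl h1))
      · exact Or.inr (Or.inr (Or.inr (Or.inr h1)))
    · rintro ((h1 | h1 | h1) | h1 | h1 | h1 | h1)
      · exact Or.inl (sd_subL h1)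
      · exact Or.inr (Or.inl h1)
      · exact Or.inl (h1 ▸ hs.1)
      · exact Or.inl h1.1
      · exact Or.inl (sd_subL h1)
      · exact Or.inl (h1 ▸ hs.1)
      · exact Or.inr (Or.inr h1)
  · exact (mM u).2 (Or.inr (Or.inl rfl))
  · exact (mM z).2 (Or.inr (Or.inr rfl))
  · refine Tail.cons _ H M₁ T₁ z z₂ l₁ ?_ hzH c2 c3 ?_ ?_ c5 (cn_hg hraw hs) c8 ?_ c4
    · intro x
      rw [mem_union, c1]
    · intro x h1 h2
      exact hHS₂ x h1 ((c1 x).2 (Or.inl h2))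
    · intro x h1 h2
      have := hHS₂ x h1 ((c1 x).2 (Or.inr h2))
      subst this
      exact c6 h2
    · intro x hx y hy hxy
      have hxS : x ∈ S := by
        rcases mem_union.1 hx with h1 | h1
        · exact hHsub h1
        · exact hS₂S h1
      have hyS : y ∈ S := by
        rcases mem_union.1 hy with h1 | h1
        · exact hHsub h1
        · exact hS₂S h1
      rcases hadj x hxS y hyS hxy (by
        rintro (⟨h1, -⟩ | ⟨-, h1⟩)
        · exact huT (h1 ▸ hx)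
        · exact huT (h1 ▸ hy)) with h1 | h1 | h1
      · exfalso
        have e1 : x = z := by
          rcases mem_union.1 hx with h2 | h2
          · exact hMH x h1.1 h2
          · exact hMS₂ x h1.1 h2
        have e2 : y = z := by
          rcases mem_union.1 hy with h2 | h2
          · exact hMH y h1.2 h2
          · exact hMS₂ y h1.2 h2
        exact hxy.ne (e1.trans e2.symm)
      · exact Or.inl h1
      · exact Or.inr (c7 x h1.1 y h1.2 hxy)
  · intro x h1 h2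
    rcases mem_union.1 h2 with h3 | h3
    · exact hMH x h1 h3
    · exact hMS₂ x h1 h3
  · intro x hx y hy hxy hp
    rcases hadj x hx y hy hxy hp with h1 | h1 | h1
    · exact Or.inl h1
    · exact Or.inr ⟨mem_union_left _ h1.1, mem_union_left _ h1.2⟩
    · exact Or.inr ⟨mem_union_right _ h1.1, mem_union_right _ h1.2⟩
  · exact card_lt_card ⟨hMS, fun h' => hwM (h' hwS)⟩
  · exact card_lt_card ⟨hS₂S, fun h' => huS₂ (h' huS)⟩

lemma chain_full (n : ℕ) : ∀ (V : Type) (G : SimpleGraph V) (S : Finset V) (u w : V),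
    Bd 𝓢 k (full G S u w) → S.card ≤ n →
    ∃ (M T : Finset V) (z : V) (l : List (Ob × Ob)), (∀ x, x ∈ S ↔ x ∈ M ∨ x ∈ T) ∧ u ∈ M ∧
      z ∈ M ∧ Tail G w T z l ∧ (∀ x, x ∈ M → x ∈ T → x = z) ∧ u ∉ T ∧
      (∀ x ∈ S, ∀ y ∈ S, G.Adj x y → (x ∈ M ∧ y ∈ M) ∨ (x ∈ T ∧ y ∈ T)) ∧ Cn G M ∧
      GoodL 𝓢 k (full G S u w) (full G M u z) ∧
      ∀ q ∈ l, q.1 ∈ 𝓢 ∧ GoodL 𝓢 k (full G S u w) q.2 ∧ q.2.S.card ≤ S.card := by
  induction n with
  | zero =>
    intro V G S u w h hn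
    exfalso
    have : u ∈ S := h.hu
    rw [Nat.le_zero, card_eq_zero] at hn
    rw [hn] at this
    exact absurd this (notMem_empty _)
  | succ n ih =>
    intro V G S u w h hn
    by_cases hlink : Link (full G S u w)
    · refine ⟨S, {w}, w, [], ?_, h.hu, h.hw, Tail.nil, ?_, ?_, ?_, h.cnS, ⟨h, hlink, refl _⟩, ?_⟩
      · intro x
        rw [mem_singleton]
        constructor
        · exact Or.inl
        · rintro (hx | rfl)
          · exact hx
          · exact h.hw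
      · intro x _ hx
        exact mem_singleton.1 hx
      · rw [mem_singleton]; exact h.ne
      · intro x hx y hy _
        exact Or.inl ⟨hx, hy⟩
      · intro q hq
        exact absurd hq (by simp)
    · unfold Link at hlink
      push Not at hlink
      obtain ⟨hne, hc⟩ := hlink
      have hne : ¬ G.Adj u w := hne
      have hc : Cn G (Lr S u w) := hc
      obtain ⟨hraw, hSL, z, hs, hgood, hBd2, hle2, hHS⟩ := Bd.facts_raw h hc
      obtain ⟨L, hL⟩ : ∃ L, L = Lr S u w := ⟨_, rfl⟩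
      rw [← hL] at hraw hSL hs hgood hBd2 hle2 hHS
      have hcard : (sd G L z w ∪ {z, w}).card < S.card := by
        apply card_lt_card
        refine ⟨?_, fun h' => ?_⟩
        · intro x hx
          rw [hSL]
          simp only [mem_union, mem_insert, mem_singleton] at hx ⊢
          rcases hx with h1 | h1 | h1
          · exact Or.inl (sd_subL h1)
          · exact Or.inl (h1 ▸ hs.1)
          · exact Or.inr (Or.inr h1)
        · have huS : u ∈ S := h.hu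
          have := h' huS
          simp only [mem_union, mem_insert, mem_singleton] at this
          rcases this with h1 | h1 | h1
          · exact hraw.uL (sd_subL h1)
          · exact hraw.uL (h1 ▸ hs.1)
          · exact hraw.ne h1
      obtain ⟨M₁, T₁, z₂, l₁, c1, c2, c3, c4, c5, c6, c7, c8, c9, c10⟩ :=
        ih V G (sd G L z w ∪ {z, w}) z w hBd2 (by omega)
      obtain ⟨M, T, hM, d1, d2, d3, d4, d5, d6, d7, d8, d9, d10⟩ :=
        series_core hraw hSL hs c1 c2 c3 c4 c5 c6 c7 c8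
      subst hM
      refine ⟨_, T, z, _, d1, d2, d3, d4, d5, d6, ?_, hgood.bd.cnS, hgood, ?_⟩
      · intro x hx y hy hxy
        apply d8 x hx y hy hxy
        rintro (⟨rfl, rfl⟩ | ⟨rfl, rfl⟩)
        · exact hne hxy
        · exact hne hxy.symm
      · intro q hq
        rcases List.mem_cons.1 hq with rfl | hq
        · refine ⟨hHS, ⟨c9.bd, c9.link, _root_.trans c9.le hle2⟩, ?_⟩
          have : M₁ ⊆ sd G L z w ∪ {z, w} := fun x hx => (c1 x).2 (Or.inl hx)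
          have h1 := card_le_card this
          show M₁.card ≤ S.card
          omega
        · obtain ⟨e1, e2, e3⟩ := c10 q hq
          exact ⟨e1, ⟨e2.bd, e2.link, _root_.trans e2.le hle2⟩, by omega⟩

/-- the chain decomposition of a bundle with connected interior, without the edge -/
lemma Bd.chain {P : Ob} (h : Bd 𝓢 k P) (he : ¬ P.e) (hc : Cn P.G P.L) :
    ∃ (M T : Finset P.V) (z : P.V) (l : List (Ob × Ob)), Chain P M T z l ∧
      (GoodL 𝓢 k P (full P.G M P.u z) ∧ M.card < P.S.card) ∧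
      ∀ q ∈ l, q.1 ∈ 𝓢 ∧ GoodL 𝓢 k P q.2 ∧ q.2.S.card < P.S.card := by
  obtain ⟨V, G, S, u, w, e⟩ := P
  have hc : Cn G (Lr S u w) := hc
  obtain ⟨hraw, hSL, z, hs, hgood, hBd2, hle2, hHS⟩ := Bd.facts_raw h hc
  obtain ⟨L, hL⟩ : ∃ L, L = Lr S u w := ⟨_, rfl⟩
  rw [← hL] at hraw hSL hs hgood hBd2 hle2 hHS
  obtain ⟨M₁, T₁, z₂, l₁, c1, c2, c3, c4, c5, c6, c7, c8, c9, c10⟩ :=
    chain_full (sd G L z w ∪ {z, w}).card V G (sd G L z w ∪ {z, w}) z w hBd2 (le_refl _)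
  obtain ⟨M, T, hM, d1, d2, d3, d4, d5, d6, d7, d8, d9, d10⟩ :=
    series_core hraw hSL hs c1 c2 c3 c4 c5 c6 c7 c8
  subst hM
  refine ⟨_, T, z, _, ⟨he, d1, d2, d3, d4, d5, d6, d7, ?_⟩, ⟨hgood, d9⟩, ?_⟩
  · intro x hx y hy hxy
    rcases hxy.2 with h2 | h2
    · exact d8 x hx y hy h2.2 h2.1
    · exact absurd h2.2 he
  · intro q hq
    rcases List.mem_cons.1 hq with rfl | hq
    · refine ⟨hHS, ⟨c9.bd, c9.link, _root_.trans c9.le hle2⟩, ?_⟩
      have : M₁ ⊆ sd G L z w ∪ {z, w} := fun x hx => (c1 x).2 (Or.inl hx)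
      have h1 := card_le_card this
      show M₁.card < S.card
      omega
    · obtain ⟨e1, e2, e3⟩ := c10 q hq
      exact ⟨e1, ⟨e2.bd, e2.link, _root_.trans e2.le hle2⟩, by show q.2.S.card < S.card; omega⟩

end Pool.Agent.Run7.h855
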