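import Mathlib

/-! Minimal bad sequences. -/

namespace Pool.Agent.Run7.h855

open Set.PartiallyWellOrderedOn

/-- the smaller elements below a minimal bad sequence are partially well-ordered -/
lemma pwo_sub {α : Type*} (r : α → α → Prop) [IsPreorder α r] (rk : α → ℕ) (s : Set α) (f : ℕ → α)
    (hf : IsBadSeq r s f) (hmin : ∀ n, IsMinBadSeq r rk s n f) :
    {x | x ∈ s ∧ ∃ n, r x (f n) ∧ rk x < rk (f n)}.PartiallyWellOrderedOn r := by
  rw [iff_forall_not_isBadSeq]
  rintro g ⟨hg1, hg2⟩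
  choose hgs n hgn hrk using hg1
  -- index minimising `n`
  obtain ⟨i₀, hi₀⟩ : ∃ i₀, ∀ i, n i₀ ≤ n i := by
    have hne : (Set.range n).Nonempty := ⟨n 0, 0, rfl⟩
    obtain ⟨i₀, hi₀⟩ := Nat.sInf_mem hne
    exact ⟨i₀, fun i => by rw [hi₀]; exact Nat.sInf_le ⟨i, rfl⟩⟩
  let h : ℕ → α := fun m => if m < n i₀ then f m else g (i₀ + (m - n i₀))
  have h1 : ∀ m, m < n i₀ → h m = f m := fun m hm => by simp [h, hm]
  have h2 : ∀ m, ¬ m < n i₀ → h m = g (i₀ + (m - n i₀)) := fun m hm => by simp [h, hm]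
  refine hmin (n i₀) h (fun m hm => (h1 m hm).symm) ?_ ⟨?_, ?_⟩
  · rw [h2 _ (lt_irrefl _)]
    simp only [Nat.sub_self, Nat.add_zero]
    exact hrk i₀
  · intro m
    by_cases hm : m < n i₀
    · rw [h1 m hm]; exact hf.1 m
    · rw [h2 m hm]; exact hgs _
  · intro a b hab hr
    by_cases ha : a < n i₀
    · by_cases hb : b < n i₀
      · rw [h1 a ha, h1 b hb] at hr
        exact hf.2 a b hab hr
      · rw [h1 a ha, h2 b hb] at hr
        have h3 := _root_.trans hr (hgn (i₀ + (b - n i₀)))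
        exact hf.2 a _ (lt_of_lt_of_le ha (hi₀ _)) h3
    · have hb : ¬ b < n i₀ := by omega
      rw [h2 a ha, h2 b hb] at hr
      exact hg2 _ _ (by omega) hr

/-- from a bad sequence: a minimal bad sequence together with the partially well-ordered set of
smaller elements -/
lemma exists_min_bad {α : Type*} (r : α → α → Prop) [IsPreorder α r] (rk : α → ℕ) (s : Set α)
    (h : ¬ s.PartiallyWellOrderedOn r) :
    ∃ f : ℕ → α, (∀ n, f n ∈ s) ∧ (∀ m n, m < n → ¬ r (f m) (f n)) ∧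
      {x | x ∈ s ∧ ∃ n, r x (f n) ∧ rk x < rk (f n)}.PartiallyWellOrderedOn r := by
  rw [iff_not_exists_isMinBadSeq rk, not_not] at h
  obtain ⟨f, hf, hmin⟩ := h
  exact ⟨f, hf.1, hf.2, pwo_sub r rk s f hf hmin⟩

end Pool.Agent.Run7.h855
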