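import Pool.Agent.Run7.h855.Mod

/-! Model graphs are well-quasi-ordered. -/

namespace Pool.Agent.Run7.h855

open Pool.Agent.H175R2

lemma subseq_const {F : Type} [Finite F] (f : ℕ → F) :
    ∃ g : ℕ ↪o ℕ, ∀ m n, f (g m) = f (g n) := by
  obtain ⟨g, hg⟩ := (Finite.wellQuasiOrdered (α := F) (· = ·)).exists_monotone_subseq f
  refine ⟨g, fun m n => ?_⟩
  rcases le_total m n with h | h
  · exact hg m n h
  · exact (hg n m h).symm

/-- graphs isomorphic to a model graph with parameters `N`, `c` -/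
def ModP (N c : ℕ) (isA : Fin c → Prop) {V : Type} (G : SimpleGraph V) : Prop :=
  ∃ M : MD N c, (∀ i, M.d i i = true) ∧
    (∀ i j, M.d i j = true → M.d j i = true ∨ (isA i ∧ ¬ isA j)) ∧ Nonempty (G ≃g M.graph)

open Classical in
/-- the finite data of a model -/
noncomputable def MD.fin {N c : ℕ} (M : MD N c) : (Fin N → Fin N → Bool) × (Fin N → Fin N) ×
    (Fin c → Fin c → Bool) × (Fin N → Bool) × (Fin c × (Fin N → Bool) → Bool) :=
  (M.A, M.top, M.d, fun x => decide (M.len x = 0), fun l => decide (∃ q, M.w q = l))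

theorem mod_wqo (N c : ℕ) (isA : Fin c → Prop) (V : ℕ → Type) (G : ∀ i, SimpleGraph (V i))
    (h : ∀ i, ModP N c isA (G i)) : ∃ i j, i < j ∧ IsContraction (G j) (G i) := by
  choose M hrefl hasym hiso using h
  let code : ℕ → ((Fin N → Fin N → Bool) × (Fin N → Fin N) ×
    (Fin c → Fin c → Bool) × (Fin N → Bool) × (Fin c × (Fin N → Bool) → Bool)) ×
    ((Fin N → ℕ) × List ((Fin c × (Fin N → Bool)) × Bool × Bool)) := fun i =>
    ((M i).fin, (M i).len, List.ofFn (mark (M i).w))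
  have w1 : WellQuasiOrdered (α := ((Fin N → Fin N → Bool) × (Fin N → Fin N) ×
    (Fin c → Fin c → Bool) × (Fin N → Bool) × (Fin c × (Fin N → Bool) → Bool))) (· = ·) :=
    Finite.wellQuasiOrdered _
  have w2 : WellQuasiOrdered (α := Fin N → ℕ) (· ≤ ·) := wellQuasiOrdered_le
  have w3 := listHigman ((Fin c × (Fin N → Bool)) × Bool × Bool)
  have w := w1.prod (w2.prod w3)
  obtain ⟨i, j, hij, h1, h2, h3⟩ := w code
  refine ⟨i, j, hij, ?_⟩
  have h1 : (M i).fin = (M j).fin := h1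
  have h2 : (M i).len ≤ (M j).len := h2
  have h3 : List.SublistForall₂ (· = ·) (List.ofFn (mark (M i).w)) (List.ofFn (mark (M j).w)) := h3
  unfold MD.fin at h1
  simp only [Prod.mk.injEq] at h1
  obtain ⟨hA, htop, hd, hl0, hlet⟩ := h1
  obtain ⟨e, he, hm⟩ := ofFn_sublist h3
  have hlet' : ∀ q, ∃ p, (M i).w p = (M j).w q := by
    intro q
    have := congrFun hlet ((M j).w q)
    simp only [decide_eq_decide] at this
    exact this.2 ⟨q, rfl⟩
  obtain ⟨g, hg⟩ := emb_of_mark (fun l : Fin c × (Fin N → Bool) => isA l.1) hlet' he hm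
  have hc := mod_contr (M i) (M j) hA htop hd h2 (by
    intro x hx
    have := congrFun hl0 x
    simp only [decide_eq_decide] at this
    exact this.1 hx) isA (hrefl i) (hasym i) hg
  obtain ⟨e1⟩ := hiso i
  obtain ⟨e2⟩ := hiso j
  exact ((IsContraction.of_iso e2).trans hc).trans (IsContraction.of_iso e1.symm)

/-- bounded unions -/
theorem mod_wqo' (B c : ℕ) (isA : Fin c → Prop) (V : ℕ → Type) (G : ∀ i, SimpleGraph (V i))
    (h : ∀ i, ∃ N, N ≤ B ∧ ModP N c isA (G i)) : ∃ i j, i < j ∧ IsContraction (G j) (G i) := by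
  choose N hN h using h
  obtain ⟨g, hg⟩ := subseq_const (fun i => (⟨N i, Nat.lt_succ_of_le (hN i)⟩ : Fin (B + 1)))
  have hg' : ∀ m, N (g m) = N (g 0) := fun m => congrArg Fin.val (hg m 0)
  obtain ⟨i, j, hij, hc⟩ := mod_wqo (N (g 0)) c isA (fun i => V (g i)) (fun i => G (g i))
    (fun i => by rw [← hg' i]; exact h (g i))
  exact ⟨g i, g j, g.strictMono hij, hc⟩

end Pool.Agent.Run7.h855
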