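import Pool.Agent.Run7.h855.Bd2
import Pool.Agent.Run7.h855.MinBad
import Pool.Agent.Run7.h855.ModWqo

/-! Bundles are well-quasi-ordered. -/

namespace Pool.Agent.Run7.h855

open Pool.Agent.H175R2 Finset Classical

variable {𝓢 : Set Ob} {k : ℕ}

/-- two different components increase the rank -/
lemma rk_succ {V : Type} {G : SimpleGraph V} {S L : Finset V} {u w : V} (hSL : S = L ∪ {u, w})
    {v v' : V} (hv : v ∈ L) (hv' : v' ∈ L) (hne : v' ∉ cpt G L v)
    (ht1 : tch G (cpt G L v') u) (ht2 : tch G (cpt G L v') w) (huL : u ∉ L) (hwL : w ∉ L)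
    {j : ℕ} (h : Rk G (cpt G L v ∪ {u, w}) u w j) : Rk G S u w (j + 1) := by
  obtain ⟨A, B', F, h1, h2, h3, h4, h5, h6, h7, h8, h9⟩ := h
  set D := cpt G L v with hD
  set D' := cpt G L v' with hD'
  have hsub : D ∪ {u, w} ⊆ S := by
    rw [hSL]
    exact union_subset_union cpt_subset (Subset.refl _)
  have hDD : ∀ x, x ∈ D' → x ∉ D ∪ {u, w} := by
    intro x hx
    have hxL : x ∈ L := cpt_subset hx
    simp only [mem_union, mem_insert, mem_singleton, not_or]
    refine ⟨fun hxD => hne ?_, fun h' => huL (h' ▸ hxL), fun h' => hwL (h' ▸ hxL)⟩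
    have e1 : cpt G L x = D' := cpt_eq_of_mem hv' hx
    have e2 : cpt G L x = D := cpt_eq_of_mem hv hxD
    rw [← e2, e1]
    exact mem_cpt_self hv'
  have hd : ∀ X : Finset V, X ⊆ D ∪ {u, w} → Disjoint D' X := by
    intro X hX
    rw [disjoint_left]
    exact fun x hx hxX => hDD x hx (hX hxX)
  have hFD : ∀ i, F i ⊆ D := by
    intro i x hx
    obtain ⟨k1, k2, k3, k4, -, -⟩ := h8 i
    have := k1 hx
    simp only [mem_union, mem_insert, mem_singleton] at this
    rcases this with h' | h' | h'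
    · exact h'
    · exact absurd h1 (h' ▸ disjoint_left.1 k3 hx)
    · exact absurd h2 (h' ▸ disjoint_left.1 k4 hx)
  have hnt : ∀ i, ¬ Tc G (F i) D' := by
    rintro i ⟨x, hx, y, hy, hxy⟩
    have hxD := hFD i hx
    have hyD : y ∉ D := fun h' => hDD y hy (mem_union_left _ h')
    exact not_adj_cpt hv hxD (cpt_subset hy) hyD hxy
  obtain ⟨a, ha, hau⟩ := ht1
  obtain ⟨b, hb, hbw⟩ := ht2
  refine ⟨A, B', fun i => if h : i.val < j then F ⟨i.val, h⟩ else D', h1, h2, h3, h4,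
    h5.trans hsub, h6.trans hsub, h7, ?_, ?_⟩
  · intro i
    by_cases hi : i.val < j
    · simp only [hi, dif_pos]
      exact ⟨(h8 _).1.trans hsub, (h8 _).2⟩
    · simp only [hi, dif_neg, not_false_iff]
      refine ⟨?_, cn_cpt hv', hd A h5, hd B' h6, ⟨a, ha, u, h1, hau⟩, ⟨b, hb, w, h2, hbw⟩⟩
      rw [hSL]
      exact cpt_subset.trans subset_union_left
  · intro i i' hii
    by_cases hi : i.val < j <;> by_cases hi' : i'.val < j
    · simp only [hi, hi', dif_pos]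
      apply h9
      intro h'
      exact hii (Fin.ext (by simpa using h'))
    · simp only [hi, hi', dif_pos, dif_neg, not_false_iff]
      exact ⟨(hd _ (h8 _).1).symm, hnt _⟩
    · simp only [hi, hi', dif_pos, dif_neg, not_false_iff]
      exact ⟨hd _ (h8 _).1, fun h' => hnt _ h'.symm⟩
    · exfalso
      apply hii
      have := i.isLt
      have := i'.isLt
      exact Fin.ext (by omega)

lemma cmp_L {P : Ob} {D : Finset P.V} (hu : P.u ∉ D) (hw : P.w ∉ D) : (cmp P D).L = D :=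
  mk_L _ _ _ _ _ hu hw

/-- components of bundles are bundles -/
lemma Bd.cmpBd {P : Ob} (h : Bd 𝓢 k P) {v : P.V} (hv : v ∈ P.L) {k' : ℕ}
    (hk : ¬ Rk P.G (cpt P.G P.L v ∪ {P.u, P.w}) P.u P.w (k' + 1)) :
    Bd 𝓢 k' (cmp P (cpt P.G P.L v)) := by
  set D := cpt P.G P.L v with hD
  have huD : P.u ∉ D := fun h' => (Ob.mem_L.1 (cpt_subset h')).2.1 rfl
  have hwD : P.w ∉ D := fun h' => (Ob.mem_L.1 (cpt_subset h')).2.2 rfl
  have hL : (cmp P D).L = D := cmp_L huD hwD
  have hDc : Cn P.G D := cn_cpt hv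
  have hsub : D ∪ {P.u, P.w} ⊆ P.S := by
    intro x hx
    simp only [mem_union, mem_insert, mem_singleton] at hx
    rcases hx with hx | rfl | rfl
    · exact (Ob.mem_L.1 (cpt_subset hx)).1
    · exact h.hu
    · exact h.hw
  refine ⟨?_, ?_, h.ne, ?_, ?_, ?_, fun h' => h.k4 (K4B.mono h' hsub), hk, ?_⟩
  · show P.u ∈ D ∪ {P.u, P.w}; simp
  · show P.w ∈ D ∪ {P.u, P.w}; simp
  · rw [hL]
    intro x hx
    show tch P.G (cpt P.G D x) P.u
    rw [hDc.cpt_eq hx]
    exact h.tu v hv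
  · rw [hL]
    intro x hx
    show tch P.G (cpt P.G D x) P.w
    rw [hDc.cpt_eq hx]
    exact h.tw v hv
  · rw [hL]
    exact Or.inr hDc.1
  · rw [hL]
    intro H z hH hz hcH hout
    apply h.hang H z (hH.trans cpt_subset) hz hcH
    intro x hx hxz y hy hxy
    apply hout x hx hxz y _ hxy
    show y ∈ D ∪ {P.u, P.w}
    simp only [mem_union, mem_insert, mem_singleton]
    by_cases h1 : y = P.u
    · exact Or.inr (Or.inl h1)
    by_cases h2 : y = P.w
    · exact Or.inr (Or.inr h2)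
    · left
      by_contra hyD
      exact not_adj_cpt hv (hH hx) (Ob.mem_L.2 ⟨hy, h1, h2⟩) hyD hxy

/-- the parallel decomposition -/
lemma Bd.par {P : Ob} (h : Bd 𝓢 k P) : ∃ (m : ℕ) (D : Fin m → Finset P.V), Par P D ∧ m ≤ k ∧
    (∀ i, ∃ v ∈ P.L, D i = cpt P.G P.L v) ∧ (m = 1 → Cn P.G P.L) := by
  set 𝓓 := P.L.image (cpt P.G P.L) with h𝓓
  let D : Fin 𝓓.card → Finset P.V := fun i => (𝓓.equivFin.symm i).1
  have hD : ∀ i, ∃ v ∈ P.L, D i = cpt P.G P.L v := by
    intro i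
    obtain ⟨v, hv, hv'⟩ := mem_image.1 (𝓓.equivFin.symm i).2
    exact ⟨v, hv, hv'.symm⟩
  have hDinj : ∀ i j, i ≠ j → D i ≠ D j := by
    intro i j hij h'
    exact hij (𝓓.equivFin.symm.injective (Subtype.ext h'))
  have hcov : ∀ x ∈ P.L, ∃ i, x ∈ D i := by
    intro x hx
    have : cpt P.G P.L x ∈ 𝓓 := mem_image_of_mem _ hx
    refine ⟨𝓓.equivFin ⟨_, this⟩, ?_⟩
    show x ∈ (𝓓.equivFin.symm (𝓓.equivFin ⟨_, this⟩)).1
    rw [Equiv.symm_apply_apply]
    exact mem_cpt_self hx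
  have hdisj : ∀ i j, i ≠ j → Disjoint (D i) (D j) := by
    intro i j hij
    rw [disjoint_left]
    intro x hxi hxj
    obtain ⟨v, hv, hvi⟩ := hD i
    obtain ⟨v', hv', hvj⟩ := hD j
    apply hDinj i j hij
    rw [hvi] at hxi
    rw [hvj] at hxj
    rw [hvi, hvj, ← cpt_eq_of_mem hv hxi, ← cpt_eq_of_mem hv' hxj]
  have hDL : ∀ i, D i ⊆ P.L := by
    intro i
    obtain ⟨v, hv, hvi⟩ := hD i
    rw [hvi]; exact cpt_subset
  have hpar : Par P D := by
    refine ⟨h.ne, ?_, ?_, ?_, hdisj, ?_⟩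
    · intro x
      constructor
      · intro hx
        by_cases h1 : x = P.u
        · exact Or.inl h1
        by_cases h2 : x = P.w
        · exact Or.inr (Or.inl h2)
        · exact Or.inr (Or.inr (hcov x (Ob.mem_L.2 ⟨hx, h1, h2⟩)))
      · rintro (rfl | rfl | ⟨i, hi⟩)
        · exact h.hu
        · exact h.hw
        · exact (Ob.mem_L.1 (hDL i hi)).1
    · intro i h'
      exact (Ob.mem_L.1 (hDL i h')).2.1 rfl
    · intro i h'
      exact (Ob.mem_L.1 (hDL i h')).2.2 rfl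
    · intro i j hij x hx y hy hxy
      obtain ⟨v, hv, hvi⟩ := hD i
      rw [hvi] at hx
      have hyn : y ∉ cpt P.G P.L v := by
        rw [← hvi]
        exact fun h' => disjoint_left.1 (hdisj i j hij) h' hy
      exact not_adj_cpt hv hx (hDL j hy) hyn hxy
  refine ⟨𝓓.card, D, hpar, ?_, hD, ?_⟩
  · by_contra hcon
    rw [not_le] at hcon
    apply h.rk
    apply Rk.le (k := 𝓓.card) _ hcon
    refine ⟨{P.u}, {P.w}, D, by simp, by simp, Cn.singleton _, Cn.singleton _,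
      by simpa using h.hu, by simpa using h.hw, by rw [disjoint_singleton]; exact h.ne, ?_, ?_⟩
    · intro i
      obtain ⟨v, hv, hvi⟩ := hD i
      refine ⟨fun x hx => (Ob.mem_L.1 (hDL i hx)).1, by rw [hvi]; exact cn_cpt hv, ?_, ?_, ?_, ?_⟩
      · rw [disjoint_singleton_right]; exact hpar.hu i
      · rw [disjoint_singleton_right]; exact hpar.hw i
      · obtain ⟨a, ha, hau⟩ := h.tu v hv
        exact ⟨a, by rw [hvi]; exact ha, P.u, by simp, hau⟩
      · obtain ⟨a, ha, hau⟩ := h.tw v hv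
        exact ⟨a, by rw [hvi]; exact ha, P.w, by simp, hau⟩
    · intro i j hij
      refine ⟨hdisj i j hij, ?_⟩
      rintro ⟨x, hx, y, hy, hxy⟩
      exact hpar.nadj i j hij x hx y hy hxy
  · intro hm
    have hi : 0 < 𝓓.card := by omega
    obtain ⟨v, hv, hvi⟩ := hD ⟨0, hi⟩
    have : P.L = D ⟨0, hi⟩ := by
      ext x
      constructor
      · intro hx
        obtain ⟨i, hi'⟩ := hcov x hx
        have : i = ⟨0, hi⟩ := by
          have := i.isLt
          exact Fin.ext (by simp only; omega)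
        rw [← this]; exact hi'
      · exact fun hx => hDL _ hx
    rw [this, hvi]
    exact cn_cpt hv

instance : IsPreorder (Ob × Ob) Le2 where
  refl p := ⟨refl _, refl _⟩
  trans p q r h h' := ⟨_root_.trans h.1 h'.1, _root_.trans h.2 h'.2⟩

/-- sequences of chains over partially well-ordered sets have good pairs -/
lemma chain_good {𝓣 : Set Ob} (h𝓢 : 𝓢.PartiallyWellOrderedOn Le)
    (h𝓣 : 𝓣.PartiallyWellOrderedOn Le) (P : ℕ → Ob) (M T : ∀ n, Finset (P n).V)
    (z : ∀ n, (P n).V) (l : ℕ → List (Ob × Ob)) (hch : ∀ n, Chain (P n) (M n) (T n) (z n) (l n))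
    (hM : ∀ n, full (P n).G (M n) (P n).u (z n) ∈ 𝓣)
    (hl : ∀ n, ∀ q ∈ l n, q.1 ∈ 𝓢 ∧ q.2 ∈ 𝓣) : ∃ a b, a < b ∧ Le (P a) (P b) := by
  have h1 : (𝓢 ×ˢ 𝓣).PartiallyWellOrderedOn Le2 := h𝓢.prod h𝓣
  have h2 := Set.PartiallyWellOrderedOn.partiallyWellOrderedOn_sublistForall₂ Le2 h1
  have h3 := h𝓣.prod h2
  rw [Set.partiallyWellOrderedOn_iff_exists_lt] at h3
  obtain ⟨a, b, hab, h4, h5⟩ := h3 (fun n => (full (P n).G (M n) (P n).u (z n), l n))
    (fun n => ⟨hM n, fun q hq => ⟨(hl n q hq).1, (hl n q hq).2⟩⟩)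
  exact ⟨a, b, hab, Chain.le (hch a) (hch b) h4 h5⟩

end Pool.Agent.Run7.h855
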