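import Pool.Agent.Run7.h855.BdWqo

/-! Bundles are well-quasi-ordered. -/

namespace Pool.Agent.Run7.h855

open Pool.Agent.H175R2 Finset Classical

variable {𝓢 : Set Ob} {k : ℕ}

/-- step 1: bundles with disconnected (or empty) interior -/
lemma step1 (𝓑' : Set Ob) (h𝓑' : 𝓑'.PartiallyWellOrderedOn Le)
    (hB : ∀ P, Bd 𝓢 k P → ¬ Cn P.G P.L → ∀ v ∈ P.L, cmp P (cpt P.G P.L v) ∈ 𝓑') :
    {P | Bd 𝓢 k P ∧ ¬ Cn P.G P.L}.PartiallyWellOrderedOn Le := by
  rw [Set.partiallyWellOrderedOn_iff_exists_lt]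
  intro f hf
  have hpar : ∀ n, ∃ (m : ℕ), m ≤ k ∧ ∃ D : Fin m → Finset (f n).V, Par (f n) D ∧
      ∀ i, cmp (f n) (D i) ∈ 𝓑' := by
    intro n
    obtain ⟨m, D, h1, h2, h3, h4⟩ := (hf n).1.par
    refine ⟨m, h2, D, h1, fun i => ?_⟩
    obtain ⟨v, hv, hvi⟩ := h3 i
    rw [hvi]
    exact hB _ (hf n).1 (hf n).2 v hv
  choose m hm hD using hpar
  obtain ⟨g, hg⟩ := subseq_const (fun n => (decide (f n).e,
    (⟨m n, Nat.lt_succ_of_le (hm n)⟩ : Fin (k + 1))))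
  have hge : ∀ a b, (f (g a)).e ↔ (f (g b)).e := by
    intro a b
    have := congrArg Prod.fst (hg a b)
    simpa using this
  have hgm : ∀ a, m (g a) = m (g 0) := by
    intro a
    have := congrArg Prod.snd (hg a 0)
    simpa using this
  have hD' : ∀ n, ∃ D : Fin (m (g 0)) → Finset (f (g n)).V, Par (f (g n)) D ∧
      ∀ i, cmp (f (g n)) (D i) ∈ 𝓑' := by
    intro n
    rw [← hgm n]
    exact hD (g n)
  choose D hD1 hD2 using hD'
  have hpi := Set.PartiallyWellOrderedOn.pi (ι := Fin (m (g 0))) (α := fun _ => Ob)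
    (r := fun _ => Le) (s := fun _ => 𝓑') (fun _ => h𝓑')
  rw [Set.partiallyWellOrderedOn_iff_exists_lt] at hpi
  obtain ⟨a, b, hab, hle⟩ := hpi (fun n i => cmp (f (g n)) (D n i)) (fun n i _ => hD2 n i)
  exact ⟨g a, g b, g.strictMono hab, Par.le (hD1 a) (hD1 b) (hge a b) hle⟩

/-- with the edge, a piece is `plus` of its component -/
lemma le_plus_cmp {P Q : Ob} (hu : P.u ∈ P.S) (hw : P.w ∈ P.S) (hP : P.e) (hQ : Q.e)
    (h : Le (plus Q) (plus (cmp P P.L))) : Le Q P := by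
  obtain ⟨φ, h1, h2, h3⟩ := h
  refine ⟨φ, h1, h2, ?_⟩
  have e1 : (plus Q).gr = Q.gr := by
    ext x y
    show (x ≠ y ∧ ((¬ Q.pr x y ∧ Q.G.Adj x y) ∨ (Q.pr x y ∧ True))) ↔
      (x ≠ y ∧ ((¬ Q.pr x y ∧ Q.G.Adj x y) ∨ (Q.pr x y ∧ Q.e)))
    simp only [hQ]
  have e2 : (plus (cmp P P.L)).gr = P.gr := by
    ext x y
    show (x ≠ y ∧ ((¬ P.pr x y ∧ P.G.Adj x y) ∨ (P.pr x y ∧ True))) ↔
      (x ≠ y ∧ ((¬ P.pr x y ∧ P.G.Adj x y) ∨ (P.pr x y ∧ P.e)))
    simp only [hP]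
  have e3 : (plus (cmp P P.L)).S = P.S := (S_eq hu hw).symm
  have h3' : CM (plus (cmp P P.L)).gr (plus (cmp P P.L)).S (plus Q).gr Q.S φ := h3
  rw [e1, e2, e3] at h3'
  exact h3'

/-- a bundle with the edge and connected interior is above its component -/
lemma cmp_le_of {P P' : Ob} (h : Bd 𝓢 k P) (h' : Bd 𝓢 k P') (hP : P.e ↔ P'.e)
    (hle : Le (cmp P P.L) (cmp P' P'.L)) : Le P P' := by
  have key : ∀ Q : Ob, Bd 𝓢 k Q → Par Q (fun _ : Fin 1 => Q.L) := by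
    intro Q hQ
    refine ⟨hQ.ne, ?_, ?_, ?_, ?_, ?_⟩
    · intro x
      constructor
      · intro hx
        by_cases h1 : x = Q.u
        · exact Or.inl h1
        by_cases h2 : x = Q.w
        · exact Or.inr (Or.inl h2)
        · exact Or.inr (Or.inr ⟨0, Ob.mem_L.2 ⟨hx, h1, h2⟩⟩)
      · rintro (rfl | rfl | ⟨i, hi⟩)
        · exact hQ.hu
        · exact hQ.hw
        · exact (Ob.mem_L.1 hi).1
    · intro i h1
      exact (Ob.mem_L.1 h1).2.1 rfl
    · intro i h1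
      exact (Ob.mem_L.1 h1).2.2 rfl
    · intro i j hij
      exact absurd (Subsingleton.elim i j) hij
    · intro i j hij
      exact absurd (Subsingleton.elim i j) hij
  exact Par.le (key P h) (key P' h') hP (fun _ => hle)

/-- the component of a bundle with connected interior -/
lemma Bd.cmpL {P : Ob} (h : Bd 𝓢 k P) (hc : Cn P.G P.L) :
    Bd 𝓢 k (cmp P P.L) ∧ (cmp P P.L).L = P.L := by
  obtain ⟨v, hv⟩ := hc.1
  have h1 := h.cmpBd hv (k' := k) (by
    rw [hc.cpt_eq hv, ← S_eq h.hu h.hw]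
    exact h.rk)
  rw [hc.cpt_eq hv] at h1
  refine ⟨h1, cmp_L (fun h' => (Ob.mem_L.1 h').2.1 rfl) (fun h' => (Ob.mem_L.1 h').2.2 rfl)⟩

/-- step 2: links -/
lemma step2 (h𝓢 : 𝓢.PartiallyWellOrderedOn Le)
    (h1 : {P | Bd 𝓢 k P ∧ ¬ Cn P.G P.L}.PartiallyWellOrderedOn Le) :
    {P | Bd 𝓢 k P ∧ Link P}.PartiallyWellOrderedOn Le := by
  by_contra hbad
  obtain ⟨f, hf1, hf2, hf3⟩ := exists_min_bad Le (fun P => P.S.card) _ hbad
  obtain ⟨g, hg⟩ := subseq_const (fun n => decide (Cn (f n).G (f n).L))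
  by_cases hc0 : Cn (f (g 0)).G (f (g 0)).L
  · have hc : ∀ n, Cn (f (g n)).G (f (g n)).L := by
      intro n
      have := hg 0 n
      simp only [decide_eq_decide] at this
      exact this.1 hc0
    have he : ∀ n, (f (g n)).e := fun n => (hf1 (g n)).2.resolve_right (fun h => h (hc n))
    have hBd : ∀ n, Bd 𝓢 k (f (g n)) := fun n => (hf1 (g n)).1
    set 𝓣 : Set Ob := {P | Bd 𝓢 k P ∧ ¬ Cn P.G P.L} ∪
      {x | x ∈ {P | Bd 𝓢 k P ∧ Link P} ∧ ∃ n, Le x (f n) ∧ x.S.card < (f n).S.card} with h𝓣d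
    have h𝓣 : 𝓣.PartiallyWellOrderedOn Le := h1.union hf3
    have hcmp : ∀ n, Bd 𝓢 k (cmp (f (g n)) (f (g n)).L) ∧
        (cmp (f (g n)) (f (g n)).L).L = (f (g n)).L := fun n => (hBd n).cmpL (hc n)
    have hchain : ∀ n, ∃ (M T : Finset (cmp (f (g n)) (f (g n)).L).V)
        (z : (cmp (f (g n)) (f (g n)).L).V) (l : List (Ob × Ob)),
        Chain (cmp (f (g n)) (f (g n)).L) M T z l ∧
        full (cmp (f (g n)) (f (g n)).L).G M (cmp (f (g n)) (f (g n)).L).u z ∈ 𝓣 ∧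
        ∀ q ∈ l, q.1 ∈ 𝓢 ∧ q.2 ∈ 𝓣 := by
      intro n
      have hcn : Cn (cmp (f (g n)) (f (g n)).L).G (cmp (f (g n)) (f (g n)).L).L := by
        rw [(hcmp n).2]; exact hc n
      obtain ⟨M, T, z, l, hch, ⟨hg1, hM⟩, hl⟩ := (hcmp n).1.chain (fun h => h) hcn
      have hcardS : (cmp (f (g n)) (f (g n)).L).S = (f (g n)).S :=
        (S_eq (hBd n).hu (hBd n).hw).symm
      have hgood : ∀ Q, GoodL 𝓢 k (cmp (f (g n)) (f (g n)).L) Q → Q.S.card < (f (g n)).S.card →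
          Q ∈ 𝓣 := by
        intro Q hQ hQc
        by_cases hQL : Cn Q.G Q.L
        · right
          have hQe : Q.e := hQ.link.resolve_right (fun h => h hQL)
          exact ⟨⟨hQ.bd, hQ.link⟩, g n, le_plus_cmp (hBd n).hu (hBd n).hw (he n) hQe hQ.le, hQc⟩
        · left
          exact ⟨hQ.bd, hQL⟩
      refine ⟨M, T, z, l, hch, hgood _ hg1 ?_, fun q hq => ⟨(hl q hq).1, hgood _ (hl q hq).2.1 ?_⟩⟩
      · rw [hcardS] at hM
        exact hM
      · have := (hl q hq).2.2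
        rw [hcardS] at this
        exact this
    choose M T z l h3 h4 h5 using hchain
    obtain ⟨a, b, hab, hle⟩ := chain_good h𝓢 h𝓣 _ M T z l h3 h4 h5
    exact hf2 (g a) (g b) (g.strictMono hab) (cmp_le_of (hBd a) (hBd b)
      ⟨fun _ => he b, fun _ => he a⟩ hle)
  · have hc : ∀ n, ¬ Cn (f (g n)).G (f (g n)).L := by
      intro n hn
      have := hg 0 n
      simp only [decide_eq_decide] at this
      exact hc0 (this.2 hn)
    rw [Set.partiallyWellOrderedOn_iff_exists_lt] at h1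
    obtain ⟨a, b, hab, hle⟩ := h1 (fun n => f (g n)) (fun n => ⟨(hf1 (g n)).1, hc n⟩)
    exact hf2 (g a) (g b) (g.strictMono hab) hle

/-- step 3: all bundles -/
lemma step3 (h𝓢 : 𝓢.PartiallyWellOrderedOn Le)
    (h2 : {P | Bd 𝓢 k P ∧ Link P}.PartiallyWellOrderedOn Le) :
    {P | Bd 𝓢 k P}.PartiallyWellOrderedOn Le := by
  have h3 : {P | Bd 𝓢 k P ∧ ¬ Link P}.PartiallyWellOrderedOn Le := by
    rw [Set.partiallyWellOrderedOn_iff_exists_lt]
    intro f hf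
    have hchain : ∀ n, ∃ (M T : Finset (f n).V) (z : (f n).V) (l : List (Ob × Ob)),
        Chain (f n) M T z l ∧ full (f n).G M (f n).u z ∈ {P | Bd 𝓢 k P ∧ Link P} ∧
        ∀ q ∈ l, q.1 ∈ 𝓢 ∧ q.2 ∈ {P | Bd 𝓢 k P ∧ Link P} := by
      intro n
      obtain ⟨hb, hl⟩ := hf n
      unfold Link at hl
      push Not at hl
      obtain ⟨M, T, z, l, hch, ⟨hg1, -⟩, hl'⟩ := hb.chain hl.1 hl.2
      exact ⟨M, T, z, l, hch, ⟨hg1.bd, hg1.link⟩, fun q hq =>
        ⟨(hl' q hq).1, (hl' q hq).2.1.bd, (hl' q hq).2.1.link⟩⟩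
    choose M T z l h3 h4 h5 using hchain
    exact chain_good h𝓢 h2 _ M T z l h3 h4 h5
  apply (h2.union h3).mono
  intro P hP
  by_cases hl : Link P
  · exact Or.inl ⟨hP, hl⟩
  · exact Or.inr ⟨hP, hl⟩

theorem bd_pwo (h𝓢 : 𝓢.PartiallyWellOrderedOn Le) (k : ℕ) :
    {P | Bd 𝓢 k P}.PartiallyWellOrderedOn Le := by
  induction k with
  | zero =>
    apply step3 h𝓢
    apply step2 h𝓢
    apply step1 ∅ (Set.partiallyWellOrderedOn_empty _)
    intro P hP _ v hv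
    exfalso
    apply hP.rk
    refine ⟨{P.u}, {P.w}, fun _ => cpt P.G P.L v, by simp, by simp, Cn.singleton _,
      Cn.singleton _, by simpa using hP.hu, by simpa using hP.hw,
      by rw [disjoint_singleton]; exact hP.ne, ?_, ?_⟩
    · intro _
      refine ⟨fun x hx => (Ob.mem_L.1 (cpt_subset hx)).1, cn_cpt hv, ?_, ?_, ?_, ?_⟩
      · rw [disjoint_singleton_right]
        exact fun h' => (Ob.mem_L.1 (cpt_subset h')).2.1 rfl
      · rw [disjoint_singleton_right]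
        exact fun h' => (Ob.mem_L.1 (cpt_subset h')).2.2 rfl
      · obtain ⟨a, ha, hau⟩ := hP.tu v hv
        exact ⟨a, ha, P.u, by simp, hau⟩
      · obtain ⟨a, ha, hau⟩ := hP.tw v hv
        exact ⟨a, ha, P.w, by simp, hau⟩
    · intro i j hij
      have := i.isLt
      have := j.isLt
      exact absurd (Fin.ext (by omega)) hij
  | succ k ih =>
    apply step3 h𝓢
    apply step2 h𝓢
    apply step1 _ ih
    intro P hP hL v hv
    have hne : ∃ v' ∈ P.L, v' ∉ cpt P.G P.L v := by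
      by_contra hcon
      push Not at hcon
      apply hL
      have : cpt P.G P.L v = P.L := subset_antisymm cpt_subset hcon
      exact cn_of_cpt_eq hv this
    obtain ⟨v', hv', hvn⟩ := hne
    apply hP.cmpBd hv
    intro hrk
    apply hP.rk
    exact rk_succ (S_eq hP.hu hP.hw) hv hv' hvn (hP.tu v' hv') (hP.tw v' hv')
      (fun h' => (Ob.mem_L.1 h').2.1 rfl) (fun h' => (Ob.mem_L.1 h').2.2 rfl) hrk

end Pool.Agent.Run7.h855
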