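import Pool.Agent.Run7.h855.Star

/-! Contraction maps between pieces of graphs, and their gluing. -/

namespace Pool.Agent.Run7.h855

open Pool.Agent.H175R2 Finset Classical

/-- `φ` contracts `G'[S']` onto `G[S]` -/
structure CM {V V' : Type} (G' : SimpleGraph V') (S' : Finset V') (G : SimpleGraph V)
    (S : Finset V) (φ : V' → V) : Prop where
  mem : ∀ v ∈ S', φ v ∈ S
  cn : ∀ x ∈ S, Cn G' (S'.filter (fun v => φ v = x))
  adj : ∀ x ∈ S, ∀ y ∈ S, x ≠ y →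
    (G.Adj x y ↔ ∃ a ∈ S', ∃ b ∈ S', φ a = x ∧ φ b = y ∧ G'.Adj a b)

section

variable {V V' V'' : Type} {G : SimpleGraph V} {G' : SimpleGraph V'} {G'' : SimpleGraph V''}
  {S : Finset V} {S' : Finset V'} {S'' : Finset V''}

/-- equal adjacency on a set -/
lemma Cn.congr {H : SimpleGraph V} {T : Finset V} (h : ∀ x ∈ T, ∀ y ∈ T, G.Adj x y → H.Adj x y)
    (hT : Cn G T) : Cn H T := by
  refine ⟨hT.1, fun A hA hn hn' => ?_⟩
  obtain ⟨x, hx, y, hy, hxy⟩ := hT.2 A hA hn hn'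
  exact ⟨x, hx, y, hy, h x (hA hx) y (mem_sdiff.1 hy).1 hxy⟩

lemma CM.preimage {φ : V' → V} (h : CM G' S' G S φ) {T : Finset V} (hT : T ⊆ S) (hc : Cn G T) :
    Cn G' (S'.filter (fun v => φ v ∈ T)) := by
  refine ⟨?_, ?_⟩
  · obtain ⟨t, ht⟩ := hc.1
    obtain ⟨v, hv⟩ := (h.cn t (hT ht)).1
    rw [mem_filter] at hv
    exact ⟨v, by rw [mem_filter]; exact ⟨hv.1, by rw [hv.2]; exact ht⟩⟩
  · intro A hA hn hn'
    by_cases hsplit : ∃ a ∈ A, ∃ b, b ∈ S' ∧ b ∉ A ∧ φ a = φ b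
    · obtain ⟨a, ha, b, hb, hbA, hab⟩ := hsplit
      have haS := (mem_filter.1 (hA ha))
      obtain ⟨x, hx, y, hy, hxy⟩ := (h.cn (φ a) (hT haS.2)).2
        ((S'.filter (fun v => φ v = φ a)) ∩ A) inter_subset_left
        ⟨a, mem_inter.2 ⟨mem_filter.2 ⟨haS.1, rfl⟩, ha⟩⟩
        ⟨b, mem_sdiff.2 ⟨mem_filter.2 ⟨hb, hab.symm⟩, fun h' => hbA (mem_inter.1 h').2⟩⟩
      obtain ⟨hy1, hy2⟩ := mem_sdiff.1 hy
      refine ⟨x, (mem_inter.1 hx).2, y, mem_sdiff.2 ⟨?_, fun h' => hy2 (mem_inter.2 ⟨hy1, h'⟩)⟩, hxy⟩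
      obtain ⟨hy3, hy4⟩ := mem_filter.1 hy1
      exact mem_filter.2 ⟨hy3, by rw [hy4]; exact haS.2⟩
    · push Not at hsplit
      obtain ⟨a, ha⟩ := hn
      obtain ⟨b, hb⟩ := hn'
      obtain ⟨hb1, hb2⟩ := mem_sdiff.1 hb
      obtain ⟨hbS, hbT⟩ := mem_filter.1 hb1
      obtain ⟨x, hx, y, hy, hxy⟩ := hc.2 (A.image φ) (by
          intro t ht
          obtain ⟨a', ha', rfl⟩ := mem_image.1 ht
          exact (mem_filter.1 (hA ha')).2) ⟨φ a, mem_image_of_mem _ ha⟩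
        ⟨φ b, mem_sdiff.2 ⟨hbT, fun h' => by
          obtain ⟨a', ha', hab⟩ := mem_image.1 h'
          exact hsplit a' ha' b hbS hb2 hab⟩⟩
      obtain ⟨hyT, hyA⟩ := mem_sdiff.1 hy
      obtain ⟨a', ha', rfl⟩ := mem_image.1 hx
      obtain ⟨p, hp, q, hq, hpa, hqy, hpq⟩ := (h.adj _ (hT (mem_filter.1 (hA ha')).2) y (hT hyT)
        hxy.ne).1 hxy
      refine ⟨p, ?_, q, ?_, hpq⟩
      · by_contra hpA
        exact hsplit a' ha' p hp hpA hpa.symm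
      · rw [mem_sdiff, mem_filter]
        refine ⟨⟨hq, by rw [hqy]; exact hyT⟩, fun h' => hyA ?_⟩
        rw [← hqy]
        exact mem_image_of_mem _ h'

lemma CM.comp {φ : V'' → V'} {ψ : V' → V} (h : CM G'' S'' G' S' φ) (h' : CM G' S' G S ψ) :
    CM G'' S'' G S (fun v => ψ (φ v)) := by
  refine ⟨fun v hv => h'.mem _ (h.mem _ hv), ?_, ?_⟩
  · intro x hx
    have h1 := h.preimage (T := S'.filter (fun v => ψ v = x)) (filter_subset _ _) (h'.cn x hx)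
    have : S''.filter (fun v => ψ (φ v) = x) =
        S''.filter (fun v => φ v ∈ S'.filter (fun v => ψ v = x)) := by
      ext v
      simp only [mem_filter]
      constructor
      · rintro ⟨h2, h3⟩
        exact ⟨h2, h.mem v h2, h3⟩
      · rintro ⟨h2, -, h3⟩
        exact ⟨h2, h3⟩
    rw [this]
    exact h1
  · intro x hx y hy hne
    rw [h'.adj x hx y hy hne]
    constructor
    · rintro ⟨a, ha, b, hb, rfl, rfl, hab⟩
      obtain ⟨p, hp, q, hq, hpa, hqb, hpq⟩ := (h.adj a ha b hb hab.ne).1 hab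
      exact ⟨p, hp, q, hq, by rw [hpa], by rw [hqb], hpq⟩
    · rintro ⟨p, hp, q, hq, hpx, hqy, hpq⟩
      refine ⟨φ p, h.mem p hp, φ q, h.mem q hq, hpx, hqy, ?_⟩
      have hne' : φ p ≠ φ q := by
        intro h2
        apply hne
        rw [← hpx, ← hqy, h2]
      exact (h.adj _ (h.mem p hp) _ (h.mem q hq) hne').2 ⟨p, hp, q, hq, rfl, rfl, hpq⟩

lemma CM.id' (G : SimpleGraph V) (S : Finset V) : CM G S G S (fun v => v) := by
  refine ⟨fun v hv => hv, ?_, ?_⟩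
  · intro x hx
    have : S.filter (fun v => v = x) = {x} := by
      ext v
      simp only [mem_filter, mem_singleton]
      constructor
      · exact fun h => h.2
      · rintro rfl; exact ⟨hx, rfl⟩
    rw [this]
    exact Cn.singleton x
  · intro x hx y hy _
    constructor
    · intro h; exact ⟨x, hx, y, hy, rfl, rfl, h⟩
    · rintro ⟨a, _, b, _, rfl, rfl, h⟩; exact h

/-- contraction of a connected set to a point -/
lemma CM.const (hS' : Cn G' S') (x : V) : CM G' S' G {x} (fun _ => x) := by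
  refine ⟨fun v _ => mem_singleton_self x, ?_, ?_⟩
  · intro y hy
    rw [mem_singleton] at hy
    subst hy
    simpa using hS'
  · intro y hy z hz hne
    rw [mem_singleton] at hy hz
    exact absurd (hy.trans hz.symm) hne

/-- gluing contraction maps along overlaps -/
lemma CM.glue {ι : Type} {P : ι → Finset V} {P' : ι → Finset V'} {Q : ι → SimpleGraph V}
    {Q' : ι → SimpleGraph V'} {φ : ι → V' → V} (x₀ : V)
    (hφ : ∀ i, CM (Q' i) (P' i) (Q i) (P i) (φ i))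
    (hS : ∀ x, x ∈ S ↔ ∃ i, x ∈ P i) (hS' : ∀ x, x ∈ S' ↔ ∃ i, x ∈ P' i)
    (hG : ∀ x ∈ S, ∀ y ∈ S, G.Adj x y ↔ ∃ i, x ∈ P i ∧ y ∈ P i ∧ (Q i).Adj x y)
    (hG' : ∀ x ∈ S', ∀ y ∈ S', G'.Adj x y ↔ ∃ i, x ∈ P' i ∧ y ∈ P' i ∧ (Q' i).Adj x y)
    (hov' : ∀ i j v, v ∈ P' i → v ∈ P' j → φ i v = φ j v)
    (hov : ∀ i j x, i ≠ j → x ∈ P i → x ∈ P j → ∃ t, t ∈ P' i ∧ t ∈ P' j ∧ φ i t = x) :
    ∃ Φ : V' → V, CM G' S' G S Φ ∧ ∀ i, ∀ v ∈ P' i, Φ v = φ i v := by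
  let Φ : V' → V := fun v => if h : ∃ i, v ∈ P' i then φ h.choose v else x₀
  have hΦ : ∀ i, ∀ v ∈ P' i, Φ v = φ i v := by
    intro i v hv
    have h : ∃ i, v ∈ P' i := ⟨i, hv⟩
    have h1 : Φ v = φ h.choose v := by simp only [Φ, h, dif_pos]
    rw [h1]
    exact hov' _ _ _ h.choose_spec hv
  have hP'S' : ∀ i, ∀ v ∈ P' i, v ∈ S' := fun i v hv => (hS' v).2 ⟨i, hv⟩
  have hPS : ∀ i, ∀ v ∈ P i, v ∈ S := fun i v hv => (hS v).2 ⟨i, hv⟩
  -- a crossing edge inside one piece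
  have cross : ∀ x ∈ S, ∀ T : Finset V', T ⊆ S'.filter (fun v => Φ v = x) → ∀ i a b,
      a ∈ P' i → b ∈ P' i → a ∈ T → b ∉ T → Φ a = x → Φ b = x →
      ∃ p ∈ T, ∃ q ∈ S'.filter (fun v => Φ v = x) \ T, G'.Adj p q := by
    intro x hx T hT i a b ha hb haT hbT hax hbx
    have hxi : x ∈ P i := by
      rw [← hax, hΦ i a ha]; exact (hφ i).mem a ha
    obtain ⟨p, hp, q, hq, hpq⟩ := ((hφ i).cn x hxi).2
      (((P' i).filter (fun v => φ i v = x)) ∩ T) inter_subset_left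
      ⟨a, mem_inter.2 ⟨mem_filter.2 ⟨ha, by rw [← hΦ i a ha]; exact hax⟩, haT⟩⟩
      ⟨b, mem_sdiff.2 ⟨mem_filter.2 ⟨hb, by rw [← hΦ i b hb]; exact hbx⟩,
        fun h => hbT (mem_inter.1 h).2⟩⟩
    obtain ⟨hp1, hp2⟩ := mem_inter.1 hp
    obtain ⟨hp3, hp4⟩ := mem_filter.1 hp1
    obtain ⟨hq1, hq2⟩ := mem_sdiff.1 hq
    obtain ⟨hq3, hq4⟩ := mem_filter.1 hq1
    refine ⟨p, hp2, q, ?_, ?_⟩
    · rw [mem_sdiff, mem_filter]
      exact ⟨⟨hP'S' i q hq3, by rw [hΦ i q hq3]; exact hq4⟩, fun h => hq2 (mem_inter.2 ⟨hq1, h⟩)⟩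
    · rw [hG' p (hP'S' i p hp3) q (hP'S' i q hq3)]
      exact ⟨i, hp3, hq3, hpq⟩
  refine ⟨Φ, ⟨?_, ?_, ?_⟩, hΦ⟩
  · intro v hv
    obtain ⟨i, hi⟩ := (hS' v).1 hv
    rw [hΦ i v hi]
    exact hPS i _ ((hφ i).mem v hi)
  · intro x hx
    refine ⟨?_, ?_⟩
    · obtain ⟨i, hi⟩ := (hS x).1 hx
      obtain ⟨v, hv⟩ := ((hφ i).cn x hi).1
      obtain ⟨hv1, hv2⟩ := mem_filter.1 hv
      exact ⟨v, mem_filter.2 ⟨hP'S' i v hv1, by rw [hΦ i v hv1]; exact hv2⟩⟩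
    · intro T hT hn hn'
      obtain ⟨a, ha⟩ := hn
      obtain ⟨b, hb⟩ := hn'
      obtain ⟨haS, hax⟩ := mem_filter.1 (hT ha)
      obtain ⟨hb1, hbT⟩ := mem_sdiff.1 hb
      obtain ⟨hbS, hbx⟩ := mem_filter.1 hb1
      obtain ⟨i, hi⟩ := (hS' a).1 haS
      obtain ⟨j, hj⟩ := (hS' b).1 hbS
      by_cases hij : i = j
      · subst hij
        exact cross x hx T hT i a b hi hj ha hbT hax hbx
      · have hxi : x ∈ P i := by rw [← hax, hΦ i a hi]; exact (hφ i).mem a hi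
        have hxj : x ∈ P j := by rw [← hbx, hΦ j b hj]; exact (hφ j).mem b hj
        obtain ⟨t, hti, htj, htx⟩ := hov i j x hij hxi hxj
        have htx' : Φ t = x := by rw [hΦ i t hti]; exact htx
        by_cases htT : t ∈ T
        · exact cross x hx T hT j t b htj hj htT hbT htx' hbx
        · exact cross x hx T hT i a t hi hti ha htT hax htx'
  · intro x hx y hy hne
    rw [hG x hx y hy]
    constructor
    · rintro ⟨i, hxi, hyi, hadj⟩
      obtain ⟨a, ha, b, hb, hax, hby, hab⟩ := ((hφ i).adj x hxi y hyi hne).1 hadj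
      refine ⟨a, hP'S' i a ha, b, hP'S' i b hb, by rw [hΦ i a ha]; exact hax,
        by rw [hΦ i b hb]; exact hby, ?_⟩
      rw [hG' a (hP'S' i a ha) b (hP'S' i b hb)]
      exact ⟨i, ha, hb, hab⟩
    · rintro ⟨a, ha, b, hb, hax, hby, hab⟩
      rw [hG' a ha b hb] at hab
      obtain ⟨i, hai, hbi, hab⟩ := hab
      rw [hΦ i a hai] at hax
      rw [hΦ i b hbi] at hby
      have hxi : x ∈ P i := by rw [← hax]; exact (hφ i).mem a hai
      have hyi : y ∈ P i := by rw [← hby]; exact (hφ i).mem b hbi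
      exact ⟨i, hxi, hyi, ((hφ i).adj x hxi y hyi hne).2 ⟨a, hai, b, hbi, hax, hby, hab⟩⟩

end

/-- a piece of a graph with two terminals; `e` says whether the terminals count as adjacent -/
structure Ob : Type 1 where
  V : Type
  G : SimpleGraph V
  S : Finset V
  u : V
  w : V
  e : Prop

/-- the pair of terminals -/
def Ob.pr (P : Ob) (x y : P.V) : Prop := (x = P.u ∧ y = P.w) ∨ (x = P.w ∧ y = P.u)

/-- effective adjacency -/
def Ob.gr (P : Ob) : SimpleGraph P.V where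
  Adj x y := x ≠ y ∧ ((¬ P.pr x y ∧ P.G.Adj x y) ∨ (P.pr x y ∧ P.e))
  symm := ⟨fun x y h => by
    have hp : P.pr y x ↔ P.pr x y := by unfold Ob.pr; tauto
    refine ⟨h.1.symm, ?_⟩
    rw [hp]
    rcases h.2 with h' | h'
    · exact Or.inl ⟨h'.1, h'.2.symm⟩
    · exact Or.inr h'⟩
  loopless := ⟨fun x h => h.1 rfl⟩

/-- the order of pieces -/
def Le (P P' : Ob) : Prop :=
  ∃ φ : P'.V → P.V, φ P'.u = P.u ∧ φ P'.w = P.w ∧ CM P'.gr P'.S P.gr P.S φ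

instance : IsPreorder Ob Le where
  refl P := ⟨fun v => v, rfl, rfl, CM.id' _ _⟩
  trans P Q R h h' := by
    obtain ⟨φ, h1, h2, h3⟩ := h
    obtain ⟨ψ, k1, k2, k3⟩ := h'
    exact ⟨fun v => φ (ψ v), (congrArg φ k1).trans h1, (congrArg φ k2).trans h2, k3.comp h3⟩

/-- a piece with the true adjacency of its terminals -/
def full {V : Type} (G : SimpleGraph V) (S : Finset V) (u w : V) : Ob := ⟨V, G, S, u, w, G.Adj u w⟩

lemma full_gr {V : Type} (G : SimpleGraph V) (S : Finset V) (u w : V) :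
    (full G S u w).gr = G := by
  ext x y
  show (x ≠ y ∧ ((¬ ((x = u ∧ y = w) ∨ (x = w ∧ y = u)) ∧ G.Adj x y) ∨
    (((x = u ∧ y = w) ∨ (x = w ∧ y = u)) ∧ G.Adj u w))) ↔ G.Adj x y
  constructor
  · rintro ⟨h1, h2 | ⟨h2 | h2, h3⟩⟩
    · exact h2.2
    · rw [h2.1, h2.2]; exact h3
    · rw [h2.1, h2.2]; exact h3.symm
  · intro h
    refine ⟨h.ne, ?_⟩
    by_cases hp : (x = u ∧ y = w) ∨ (x = w ∧ y = u)
    · right
      refine ⟨hp, ?_⟩
      rcases hp with hp | hp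
      · rw [hp.1, hp.2] at h; exact h
      · rw [hp.1, hp.2] at h; exact h.symm
    · exact Or.inl ⟨hp, h⟩

end Pool.Agent.Run7.h855
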