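import Pool.Agent.Run7.h855.ModIso

/-! Tools for the classes excluding a star: bags in the complement of a connected dominating set,
families of disjoint induced paths, unions of cliques. -/

namespace Pool.Agent.Run7.h855

open Pool.Agent.H175R2 Finset Classical

variable {V : Type} {G : SimpleGraph V} {X D : Finset V}

lemma Str.enlarge (h : Str G X D) {X' : Finset V} (hX : X ⊆ X') (hd : Disjoint X' D) :
    Str G X' D := by
  refine ⟨hd, h.ne.mono hX, ?_, ?_, ?_⟩
  · intro d hdD
    have : nb G (X' ∪ D) d = nb G (X ∪ D) d := by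
      ext v
      rw [mem_nb, mem_nb]
      constructor
      · rintro ⟨-, h2⟩
        exact ⟨h.out d hdD v h2, h2⟩
      · rintro ⟨h1, h2⟩
        exact ⟨union_subset_union hX (Subset.refl _) h1, h2⟩
    rw [this]
    exact h.deg d hdD
  · intro d hdD v hv
    exact union_subset_union hX (Subset.refl _) (h.out d hdD v hv)
  · intro x hx
    by_cases hxX : x ∈ X
    · exact h.one x hxX
    · have : nb G D x = ∅ := by
        rw [eq_empty_iff_forall_notMem]
        intro d hdx
        obtain ⟨h1, h2⟩ := mem_nb.1 hdx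
        rcases mem_union.1 (h.out d h1 x h2.symm) with h3 | h3
        · exact hxX h3
        · exact disjoint_left.1 hd hx h3
      rw [this]; simp

/-- contraction onto a graph with a universal vertex -/
lemma contr_center [Fintype V] {C : Finset V} (hC : Cn G C) (hdom : ∀ v, v ∉ C → ∃ c ∈ C, G.Adj v c)
    {W : Type} {H : SimpleGraph W} (w₀ : W) (h0 : ∀ w, w ≠ w₀ → H.Adj w₀ w) (β : W → Finset V)
    (hβ : ∀ w, w ≠ w₀ → Cn G (β w)) (hβC : ∀ w, w ≠ w₀ → Disjoint (β w) C)
    (hdisj : ∀ w w', w ≠ w₀ → w' ≠ w₀ → w ≠ w' → Disjoint (β w) (β w'))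
    (hadj : ∀ w w', w ≠ w₀ → w' ≠ w₀ → w ≠ w' → (H.Adj w w' ↔ Tc G (β w) (β w'))) :
    IsContraction G H := by
  let f : V → W := fun v => if h : ∃ w, w ≠ w₀ ∧ v ∈ β w then h.choose else w₀
  have hf1 : ∀ v w, w ≠ w₀ → (f v = w ↔ v ∈ β w) := by
    intro v w hw
    constructor
    · intro h
      by_cases hex : ∃ w, w ≠ w₀ ∧ v ∈ β w
      · have h1 : f v = hex.choose := by simp only [f, hex, dif_pos]
        rw [← h, h1]
        exact hex.choose_spec.2
      · have h1 : f v = w₀ := by simp only [f, hex, dif_neg, not_false_iff]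
        exact absurd (h.symm.trans h1) hw
    · intro h
      have hex : ∃ w, w ≠ w₀ ∧ v ∈ β w := ⟨w, hw, h⟩
      have h1 : f v = hex.choose := by simp only [f, hex, dif_pos]
      rw [h1]
      by_contra hne
      exact disjoint_left.1 (hdisj _ w hex.choose_spec.1 hw hne) hex.choose_spec.2 h
  have hf0 : ∀ v, (f v = w₀ ↔ ∀ w, w ≠ w₀ → v ∉ β w) := by
    intro v
    constructor
    · intro h w hw hv
      exact hw ((((hf1 v w hw).2 hv)).symm.trans h)
    · intro h
      have hex : ¬ ∃ w, w ≠ w₀ ∧ v ∈ β w := by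
        rintro ⟨w, hw, hv⟩
        exact h w hw hv
      simp only [f, hex, dif_neg, not_false_iff]
  have hfC : ∀ v ∈ C, f v = w₀ := by
    intro v hv
    rw [hf0]
    intro w hw hvw
    exact disjoint_left.1 (hβC w hw) hvw hv
  refine ⟨f, wit_of_cn ?_ ?_⟩
  · intro w
    by_cases hw : w = w₀
    · subst hw
      have : (univ.filter (fun v => f v = w)) = C ∪ (univ.filter (fun v => f v = w) \ C) := by
        rw [union_sdiff_of_subset]
        intro v hv
        rw [mem_filter]
        exact ⟨mem_univ _, hfC v hv⟩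
      rw [this]
      exact Cn.add_dom hC (fun t ht => hdom t (mem_sdiff.1 ht).2)
    · have : (univ.filter (fun v => f v = w)) = β w := by
        ext v
        rw [mem_filter, hf1 v w hw]
        simp
      rw [this]
      exact hβ w hw
  · have hcent : ∀ w, w ≠ w₀ → ∃ v v', f v = w₀ ∧ f v' = w ∧ G.Adj v v' := by
      intro w hw
      obtain ⟨v', hv'⟩ := (hβ w hw).1
      have hv'C : v' ∉ C := disjoint_left.1 (hβC w hw) hv'
      obtain ⟨c, hc, hvc⟩ := hdom v' hv'C
      exact ⟨c, v', hfC c hc, (hf1 v' w hw).2 hv', hvc.symm⟩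
    intro w w' hne
    by_cases hw : w = w₀
    · subst hw
      constructor
      · intro _
        exact hcent w' (Ne.symm hne)
      · intro _
        exact h0 w' (Ne.symm hne)
    · by_cases hw' : w' = w₀
      · subst hw'
        constructor
        · intro _
          obtain ⟨v, v', h1, h2, h3⟩ := hcent w hw
          exact ⟨v', v, h2, h1, h3.symm⟩
        · intro _
          exact (h0 w hw).symm
      · rw [hadj w w' hw hw' hne]
        constructor
        · rintro ⟨x, hx, y, hy, hxy⟩
          exact ⟨x, y, (hf1 x w hw).2 hx, (hf1 y w' hw').2 hy, hxy⟩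
        · rintro ⟨x, y, hx, hy, hxy⟩
          exact ⟨x, (hf1 x w hw).1 hx, y, (hf1 y w' hw').1 hy, hxy⟩

/-- a form of Ramsey's theorem -/
lemma ramsey (s m : ℕ) : ∃ R : ℕ, ∀ (ι : Type) (r : ι → ι → Prop), (∀ i j, r i j → r j i) →
    ∀ T : Finset ι, R ≤ T.card →
      (∃ U ⊆ T, U.card = s ∧ ∀ i ∈ U, ∀ j ∈ U, i ≠ j → ¬ r i j) ∨
      (∃ U ⊆ T, U.card = m ∧ ∀ i ∈ U, ∀ j ∈ U, i ≠ j → r i j) := by
  induction s generalizing m with
  | zero => exact ⟨0, fun ι r _ T _ => Or.inl ⟨∅, by simp, by simp, by simp⟩⟩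
  | succ s ihs =>
    induction m with
    | zero => exact ⟨0, fun ι r _ T _ => Or.inr ⟨∅, by simp, by simp, by simp⟩⟩
    | succ m ihm =>
      obtain ⟨R1, hR1⟩ := ihs (m + 1)
      obtain ⟨R2, hR2⟩ := ihm
      refine ⟨R1 + R2 + 1, fun ι r hr T hT => ?_⟩
      have hne : T.Nonempty := by rw [← card_pos]; omega
      obtain ⟨v, hv⟩ := hne
      have hsplit : ((T.erase v).filter (fun i => r v i)).card +
          ((T.erase v).filter (fun i => ¬ r v i)).card = (T.erase v).card :=
        card_filter_add_card_filter_not _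
      have hcard : (T.erase v).card = T.card - 1 := card_erase_of_mem hv
      by_cases h1 : R1 ≤ ((T.erase v).filter (fun i => ¬ r v i)).card
      · rcases hR1 ι r hr _ h1 with ⟨U, hU, hUc, hUr⟩ | ⟨U, hU, hUc, hUr⟩
        · left
          have hvU : v ∉ U := fun h => by
            have := (mem_filter.1 (hU h)).1
            exact (mem_erase.1 this).1 rfl
          refine ⟨insert v U, ?_, by rw [card_insert_of_notMem hvU, hUc], ?_⟩
          · apply insert_subset hv
            exact hU.trans ((filter_subset _ _).trans (erase_subset _ _))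
          · intro i hi j hj hij
            rcases mem_insert.1 hi with hi' | hi' <;> rcases mem_insert.1 hj with hj' | hj'
            · exact absurd (hi'.trans hj'.symm) hij
            · rw [hi']; exact (mem_filter.1 (hU hj')).2
            · rw [hj']; exact fun h => (mem_filter.1 (hU hi')).2 (hr _ _ h)
            · exact hUr i hi' j hj' hij
        · right
          exact ⟨U, hU.trans ((filter_subset _ _).trans (erase_subset _ _)), hUc, hUr⟩
      · have h2 : R2 ≤ ((T.erase v).filter (fun i => r v i)).card := by omega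
        rcases hR2 ι r hr _ h2 with ⟨U, hU, hUc, hUr⟩ | ⟨U, hU, hUc, hUr⟩
        · left
          exact ⟨U, hU.trans ((filter_subset _ _).trans (erase_subset _ _)), hUc, hUr⟩
        · right
          have hvU : v ∉ U := fun h => by
            have := (mem_filter.1 (hU h)).1
            exact (mem_erase.1 this).1 rfl
          refine ⟨insert v U, ?_, by rw [card_insert_of_notMem hvU, hUc], ?_⟩
          · apply insert_subset hv
            exact hU.trans ((filter_subset _ _).trans (erase_subset _ _))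
          · intro i hi j hj hij
            rcases mem_insert.1 hi with hi' | hi' <;> rcases mem_insert.1 hj with hj' | hj'
            · exact absurd (hi'.trans hj'.symm) hij
            · rw [hi']; exact (mem_filter.1 (hU hj')).2
            · rw [hj']; exact hr _ _ (mem_filter.1 (hU hi')).2
            · exact hUr i hi' j hj' hij

/-- induced paths `a - b - c` -/
def IsP3 (G : SimpleGraph V) (W : Finset V) (p : V × V × V) : Prop :=
  p.1 ∈ W ∧ p.2.1 ∈ W ∧ p.2.2 ∈ W ∧ G.Adj p.1 p.2.1 ∧ G.Adj p.2.1 p.2.2 ∧ p.1 ≠ p.2.2 ∧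
    ¬ G.Adj p.1 p.2.2

/-- the support of a triple -/
noncomputable def sp (p : V × V × V) : Finset V := {p.1, p.2.1, p.2.2}

lemma sp_card (p : V × V × V) : (sp p).card ≤ 3 := by
  unfold sp
  exact card_le_three

lemma IsP3.cn {W : Finset V} {p : V × V × V} (h : IsP3 G W p) : Cn G (sp p) := by
  have h1 : Cn G ({p.1} ∪ {p.2.1}) := (Cn.singleton _).union (Cn.singleton _)
    (Or.inl ⟨p.1, by simp, p.2.1, by simp, h.2.2.2.1⟩)
  have h2 : Cn G (({p.1} ∪ {p.2.1}) ∪ {p.2.2}) := h1.union (Cn.singleton _)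
    (Or.inl ⟨p.2.1, by simp, p.2.2, by simp, h.2.2.2.2.1⟩)
  have : sp p = ({p.1} ∪ {p.2.1}) ∪ {p.2.2} := by
    ext v; simp [sp]
  rw [this]
  exact h2

/-- a maximum family of disjoint induced paths -/
lemma max_fam (G : SimpleGraph V) (W : Finset V) : ∃ F : Finset (V × V × V), (∀ p ∈ F, IsP3 G W p) ∧
    (∀ p ∈ F, ∀ q ∈ F, p ≠ q → Disjoint (sp p) (sp q)) ∧
    (∀ p, IsP3 G (W \ F.biUnion sp) p → False) := by
  obtain ⟨F, hF, hmax⟩ := exists_max_image ((W ×ˢ W ×ˢ W).powerset.filter (fun F =>
    (∀ p ∈ F, IsP3 G W p) ∧ (∀ p ∈ F, ∀ q ∈ F, p ≠ q → Disjoint (sp p) (sp q))))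
    (fun F => F.card) ⟨∅, by simp⟩
  simp only [mem_filter, mem_powerset] at hF hmax
  obtain ⟨hFs, hF1, hF2⟩ := hF
  refine ⟨F, hF1, hF2, ?_⟩
  intro p hp
  have hpW : IsP3 G W p :=
    ⟨(mem_sdiff.1 hp.1).1, (mem_sdiff.1 hp.2.1).1, (mem_sdiff.1 hp.2.2.1).1, hp.2.2.2⟩
  have hpd : ∀ q ∈ F, Disjoint (sp p) (sp q) := by
    intro q hq
    rw [disjoint_left]
    intro v hv hvq
    have hvF : v ∈ F.biUnion sp := mem_biUnion.2 ⟨q, hq, hvq⟩
    simp only [sp, mem_insert, mem_singleton] at hv
    rcases hv with rfl | rfl | rfl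
    · exact (mem_sdiff.1 hp.1).2 hvF
    · exact (mem_sdiff.1 hp.2.1).2 hvF
    · exact (mem_sdiff.1 hp.2.2.1).2 hvF
  have hpF : p ∉ F := by
    intro h
    exact (mem_sdiff.1 hp.1).2 (mem_biUnion.2 ⟨p, h, by simp [sp]⟩)
  have := hmax (insert p F) ⟨by
      apply insert_subset _ hFs
      simp only [mem_product]
      exact ⟨hpW.1, hpW.2.1, hpW.2.2.1⟩, by
      intro q hq
      rcases mem_insert.1 hq with h | h
      · rw [h]; exact hpW
      · exact hF1 q h, by
      intro q hq q' hq' hne
      rcases mem_insert.1 hq with h | h <;> rcases mem_insert.1 hq' with h' | h'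
      · exact absurd (h.trans h'.symm) hne
      · rw [h]; exact hpd q' h'
      · rw [h']; exact (hpd q h).symm
      · exact hF2 q h q' h' hne⟩
  rw [card_insert_of_notMem hpF] at this
  omega

/-- a structured graph whose remainder has no induced path on three vertices is a model -/
lemma modP_cliques [Fintype V] (hG : G.Connected) (h : Str G X D) {c : ℕ}
    (hP : ∀ p, ¬ IsP3 G (X ∪ D)ᶜ p)
    (hα : ∀ U : Finset V, Ind G U → U ⊆ (X ∪ D)ᶜ → U.card ≤ c) (isA : Fin c → Prop) :
    ModP X.card c isA G := by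
  set W := (X ∪ D)ᶜ with hW
  obtain ⟨R, hRW, hR, hRmax⟩ := max_ind G W
  have hRc := hα R hR hRW
  have htrans : ∀ a b c, a ∈ W → b ∈ W → c ∈ W → G.Adj a b → G.Adj b c → a = c ∨ G.Adj a c := by
    intro a b c ha hb hc h1 h2
    by_contra hcon
    push Not at hcon
    exact hP (a, b, c) ⟨ha, hb, hc, h1, h2, hcon.1, hcon.2⟩
  have hrep : ∀ v : V, ∃ r, v ∈ W → r ∈ R ∧ (v = r ∨ G.Adj v r) := by
    intro v
    by_cases hv : v ∈ W
    · by_cases hvR : v ∈ R
      · exact ⟨v, fun _ => ⟨hvR, Or.inl rfl⟩⟩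
      · obtain ⟨r, hr, hvr⟩ := hRmax v hv hvR
        exact ⟨r, fun _ => ⟨hr, Or.inr hvr⟩⟩
    · exact ⟨v, fun h => absurd h hv⟩
  choose rep hrep using hrep
  have key : ∀ u v, u ∈ W → v ∈ W → u ≠ v → (G.Adj u v ↔ rep u = rep v) := by
    intro u v hu hv hne
    obtain ⟨hru, hur⟩ := hrep u hu
    obtain ⟨hrv, hvr⟩ := hrep v hv
    have hruW := hRW hru
    have hrvW := hRW hrv
    constructor
    · intro huv
      by_contra hne'
      apply hR _ hru _ hrv
      have h1 : rep u = v ∨ G.Adj (rep u) v := by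
        rcases hur with h | h
        · right; rw [← h]; exact huv
        · exact htrans _ _ _ hruW hu hv h.symm huv
      rcases h1 with h1 | h1
      · rcases hvr with h | h
        · exact absurd (h1.trans h) hne'
        · rw [h1]; exact h
      · rcases hvr with h | h
        · rw [← h]; exact h1
        · exact (htrans _ _ _ hruW hv hrvW h1 h).resolve_left hne'
    · intro heq
      rcases hur with h | h
      · rcases hvr with h' | h'
        · exact absurd (h.trans (heq.trans h'.symm)) hne
        · rw [h, heq]; exact h'.symm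
      · rcases hvr with h' | h'
        · rw [h', ← heq]; exact h
        · rw [heq] at h
          exact (htrans _ _ _ hu hrvW hv h h'.symm).resolve_left hne
  -- classes
  have hRcard : Fintype.card {x // x ∈ R} ≤ Fintype.card (Fin c) := by simpa using hRc
  obtain ⟨ι⟩ := Function.Embedding.nonempty_of_card_le hRcard
  let ws : Fin W.card → V := fun p => (W.equivFin.symm p).1
  have hwsW : ∀ p, ws p ∈ W := fun p => (W.equivFin.symm p).2
  have hinj : Function.Injective ws := by
    intro p q hpq
    exact W.equivFin.symm.injective (Subtype.ext hpq)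
  refine modP_of hG h ws hinj ?_ (fun p => ι ⟨rep (ws p), (hrep _ (hwsW p)).1⟩)
    (fun i j => decide (i = j)) ?_ isA (by simp) ?_
  · intro v
    constructor
    · intro hv
      have hvW : v ∈ W := by rw [hW, mem_compl]; exact hv
      exact ⟨W.equivFin ⟨v, hvW⟩, by simp [ws]⟩
    · rintro ⟨p, rfl⟩
      have := hwsW p
      rw [hW, mem_compl] at this
      exact this
  · intro p q hpq
    have hne : ws p ≠ ws q := fun h => (ne_of_lt hpq) (hinj h)
    rw [key _ _ (hwsW p) (hwsW q) hne]
    simp only [decide_eq_true_eq, ι.injective.eq_iff, Subtype.mk.injEq]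
  · intro i j hij
    left
    simp only [decide_eq_true_eq] at hij ⊢
    exact hij.symm

/-- independence number outside a connected dominating set -/
lemma alpha_of [Fintype V] {C : Finset V} (hC : Cn G C)
    (hdom : ∀ v, v ∉ C → ∃ c ∈ C, G.Adj v c) {s : ℕ} (hs : NoStar G s) {U : Finset V}
    (hU : Ind G U) (hd : U ⊆ Cᶜ) : U.card < s := by
  apply hs U hU
  have : Uᶜ = C ∪ (Uᶜ \ C) := by
    rw [union_sdiff_of_subset]
    intro z hz
    rw [mem_compl]
    exact fun h => (mem_compl.1 (hd h)) hz
  rw [this]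
  exact Cn.add_dom hC (fun t ht => hdom t (mem_sdiff.1 ht).2)

end Pool.Agent.Run7.h855
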