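import Pool.Agent.Run7.h855.Dia

/-! Cliques with hanging pieces. -/

namespace Pool.Agent.Run7.h855

open Pool.Agent.H175R2 Finset Classical

/-- `T` is a clique `K` containing `r` with pieces hanging at the vertices of `K` other than `r`;
`L` lists these pieces -/
inductive Cl {V : Type} (G : SimpleGraph V) (r : V) : Finset V → Finset V → List Ob → Prop
  | nil : Cl G r {r} {r} []
  | cons {T K Y : Finset V} {v : V} {L : List Ob} : Cl G r T K L → Disjoint T Y → v ∈ Y →
      Cn G Y → (∀ x ∈ T, ∀ y ∈ Y, (G.Adj x y ↔ x ∈ K ∧ y = v)) →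
      Cl G r (T ∪ Y) (K ∪ {v}) (full G Y v v :: L)

variable {V V' : Type} {G : SimpleGraph V} {G' : SimpleGraph V'} {r : V} {r' : V'}

lemma Cl.facts {T K : Finset V} {L : List Ob} (h : Cl G r T K L) :
    r ∈ K ∧ K ⊆ T ∧ (∀ x ∈ K, ∀ y ∈ K, x ≠ y → G.Adj x y) ∧ Cn G T := by
  induction h with
  | nil =>
    refine ⟨by simp, Subset.refl _, ?_, Cn.singleton r⟩
    intro x hx y hy hne
    rw [mem_singleton] at hx hy
    exact absurd (hx.trans hy.symm) hne
  | @cons T K Y v L hcl hd hv hc hadj ih =>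
    obtain ⟨h1, h2, h3, h4⟩ := ih
    refine ⟨mem_union_left _ h1, union_subset_union h2 (by simpa using hv), ?_, ?_⟩
    · intro x hx y hy hne
      rw [mem_union, mem_singleton] at hx hy
      rcases hx with hx | hx
      · rcases hy with hy | hy
        · exact h3 x hx y hy hne
        · rw [hy]
          exact (hadj x (h2 hx) v hv).2 ⟨hx, rfl⟩
      · rcases hy with hy | hy
        · rw [hx]
          exact ((hadj y (h2 hy) v hv).2 ⟨hy, rfl⟩).symm
        · exact absurd (hx.trans hy.symm) hne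
    · exact h4.union hc (Or.inl ⟨r, h2 h1, v, hv, (hadj r (h2 h1) v hv).2 ⟨h1, rfl⟩⟩)

/-- the good contraction maps of cliques with hanging pieces -/
def ClM (G' : SimpleGraph V') (r' : V') (T' K' : Finset V') (G : SimpleGraph V) (r : V)
    (T K : Finset V) (φ : V' → V) : Prop :=
  φ r' = r ∧ (∀ x ∈ T, (x ∈ K ↔ ∃ a ∈ K', φ a = x)) ∧ CM G' T' G T φ

lemma ClM.cons {T' K' Y' : Finset V'} {v' : V'} {T K Y : Finset V} {v : V} {φ ψ : V' → V}
    (h : ClM G' r' T' K' G r T K φ) (hr'T : r' ∈ T') (hKT : K ⊆ T) (hK'T' : K' ⊆ T')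
    (hd : Disjoint T Y) (hd' : Disjoint T' Y') (hv : v ∈ Y) (hv' : v' ∈ Y')
    (ha : ∀ x ∈ T, ∀ y ∈ Y, (G.Adj x y ↔ x ∈ K ∧ y = v))
    (ha' : ∀ x ∈ T', ∀ y ∈ Y', (G'.Adj x y ↔ x ∈ K' ∧ y = v'))
    (hψ : CM G' Y' G Y ψ) (hψv : ψ v' = v) :
    ClM G' r' (T' ∪ Y') (K' ∪ {v'}) G r (T ∪ Y) (K ∪ {v}) (fun z => if z ∈ Y' then ψ z else φ z) := by
  obtain ⟨h1, h2, h3⟩ := h
  set Φ : V' → V := fun z => if z ∈ Y' then ψ z else φ z with hΦ
  have eY : ∀ z ∈ Y', Φ z = ψ z := fun z hz => if_pos hz
  have hTY : ∀ z ∈ T', z ∉ Y' := fun z hz hz' => disjoint_left.1 hd' hz hz'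
  have eT : ∀ z ∈ T', Φ z = φ z := fun z hz => if_neg (hTY z hz)
  have hxTY : ∀ x ∈ T, x ∉ Y := fun x hx hx' => disjoint_left.1 hd hx hx'
  have fT : ∀ z ∈ T' ∪ Y', Φ z ∈ T → z ∈ T' := by
    intro z hz hzT
    rcases mem_union.1 hz with h' | h'
    · exact h'
    · rw [eY z h'] at hzT
      exact absurd (hψ.mem z h') (hxTY _ hzT)
  have fY : ∀ z ∈ T' ∪ Y', Φ z ∈ Y → z ∈ Y' := by
    intro z hz hzY
    rcases mem_union.1 hz with h' | h'
    · rw [eT z h'] at hzY
      exact absurd hzY (hxTY _ (h3.mem z h'))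
    · exact h'
  have hv'K : v' ∉ K' := fun h' => hTY v' (hK'T' h') hv'
  refine ⟨?_, ?_, ?_, ?_, ?_⟩
  · rw [eT r' hr'T]; exact h1
  · intro x hx
    rw [mem_union, mem_singleton]
    constructor
    · rintro (hxK | hxv)
      · obtain ⟨a, ha1, ha2⟩ := (h2 x (hKT hxK)).1 hxK
        exact ⟨a, mem_union_left _ ha1, by rw [eT a (hK'T' ha1)]; exact ha2⟩
      · exact ⟨v', by simp, by rw [eY v' hv', hψv, hxv]⟩
    · rintro ⟨a, haK, hax⟩
      rcases mem_union.1 haK with h' | h'
      · rw [eT a (hK'T' h')] at hax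
        have hxT : x ∈ T := hax ▸ h3.mem a (hK'T' h')
        exact Or.inl ((h2 x hxT).2 ⟨a, h', hax⟩)
      · rw [mem_singleton] at h'
        rw [h', eY v' hv', hψv] at hax
        exact Or.inr hax.symm
  · intro z hz
    rcases mem_union.1 hz with h' | h'
    · rw [eT z h']; exact mem_union_left _ (h3.mem z h')
    · rw [eY z h']; exact mem_union_right _ (hψ.mem z h')
  · intro x hx
    rcases mem_union.1 hx with h' | h'
    · have : (T' ∪ Y').filter (fun z => Φ z = x) = T'.filter (fun z => φ z = x) := by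
        ext z
        rw [mem_filter, mem_filter]
        constructor
        · rintro ⟨h4, h5⟩
          have := fT z h4 (h5 ▸ h')
          exact ⟨this, by rw [← eT z this]; exact h5⟩
        · rintro ⟨h4, h5⟩
          exact ⟨mem_union_left _ h4, by rw [eT z h4]; exact h5⟩
      rw [this]
      exact h3.cn x h'
    · have : (T' ∪ Y').filter (fun z => Φ z = x) = Y'.filter (fun z => ψ z = x) := by
        ext z
        rw [mem_filter, mem_filter]
        constructor
        · rintro ⟨h4, h5⟩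
          have := fY z h4 (h5 ▸ h')
          exact ⟨this, by rw [← eY z this]; exact h5⟩
        · rintro ⟨h4, h5⟩
          exact ⟨mem_union_right _ h4, by rw [eY z h4]; exact h5⟩
      rw [this]
      exact hψ.cn x h'
  · have mixed : ∀ x ∈ T, ∀ y ∈ Y, (G.Adj x y ↔ ∃ a ∈ T' ∪ Y', ∃ b ∈ T' ∪ Y', Φ a = x ∧ Φ b = y ∧
        G'.Adj a b) := by
      intro x hx y hy
      rw [ha x hx y hy]
      constructor
      · rintro ⟨hxK, hyv⟩
        obtain ⟨a, ha1, ha2⟩ := (h2 x hx).1 hxK
        refine ⟨a, mem_union_left _ (hK'T' ha1), v', mem_union_right _ hv', ?_, ?_, ?_⟩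
        · rw [eT a (hK'T' ha1)]; exact ha2
        · rw [eY v' hv', hψv, hyv]
        · exact (ha' a (hK'T' ha1) v' hv').2 ⟨ha1, rfl⟩
      · rintro ⟨a, haT, b, hbT, hax, hby, hab⟩
        have haT' := fT a haT (hax ▸ hx)
        have hbY' := fY b hbT (hby ▸ hy)
        obtain ⟨h5, h6⟩ := (ha' a haT' b hbY').1 hab
        rw [eT a haT'] at hax
        rw [eY b hbY', h6, hψv] at hby
        exact ⟨(h2 x hx).2 ⟨a, h5, hax⟩, hby.symm⟩
    intro x hx y hy hne
    rcases mem_union.1 hx with hx | hx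
    · rcases mem_union.1 hy with hy | hy
      · rw [h3.adj x hx y hy hne]
        constructor
        · rintro ⟨a, ha1, b, hb1, hax, hby, hab⟩
          exact ⟨a, mem_union_left _ ha1, b, mem_union_left _ hb1, by rw [eT a ha1]; exact hax,
            by rw [eT b hb1]; exact hby, hab⟩
        · rintro ⟨a, ha1, b, hb1, hax, hby, hab⟩
          have haT' := fT a ha1 (hax ▸ hx)
          have hbT' := fT b hb1 (hby ▸ hy)
          rw [eT a haT'] at hax
          rw [eT b hbT'] at hby
          exact ⟨a, haT', b, hbT', hax, hby, hab⟩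
      · exact mixed x hx y hy
    · rcases mem_union.1 hy with hy | hy
      · rw [SimpleGraph.adj_comm, mixed y hy x hx]
        constructor
        · rintro ⟨a, ha1, b, hb1, hax, hby, hab⟩
          exact ⟨b, hb1, a, ha1, hby, hax, hab.symm⟩
        · rintro ⟨a, ha1, b, hb1, hax, hby, hab⟩
          exact ⟨b, hb1, a, ha1, hby, hax, hab.symm⟩
      · rw [hψ.adj x hx y hy hne]
        constructor
        · rintro ⟨a, ha1, b, hb1, hax, hby, hab⟩
          exact ⟨a, mem_union_right _ ha1, b, mem_union_right _ hb1, by rw [eY a ha1]; exact hax,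
            by rw [eY b hb1]; exact hby, hab⟩
        · rintro ⟨a, ha1, b, hb1, hax, hby, hab⟩
          have haT' := fY a ha1 (hax ▸ hx)
          have hbT' := fY b hb1 (hby ▸ hy)
          rw [eY a haT'] at hax
          rw [eY b hbT'] at hby
          exact ⟨a, haT', b, hbT', hax, hby, hab⟩

lemma ClM.skip {T' K' Y' : Finset V'} {v' : V'} {T K : Finset V} {φ : V' → V}
    (h : ClM G' r' T' K' G r T K φ) (hr'K : r' ∈ K') (hr : r ∈ K) (hKT : K ⊆ T) (hK'T' : K' ⊆ T')
    (hKc : ∀ x ∈ K, ∀ y ∈ K, x ≠ y → G.Adj x y)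
    (hd' : Disjoint T' Y') (hv' : v' ∈ Y') (hY' : Cn G' Y')
    (ha' : ∀ x ∈ T', ∀ y ∈ Y', (G'.Adj x y ↔ x ∈ K' ∧ y = v')) :
    ClM G' r' (T' ∪ Y') (K' ∪ {v'}) G r T K (fun z => if z ∈ Y' then r else φ z) := by
  obtain ⟨h1, h2, h3⟩ := h
  set Φ : V' → V := fun z => if z ∈ Y' then r else φ z with hΦ
  have eY : ∀ z ∈ Y', Φ z = r := fun z hz => if_pos hz
  have hTY : ∀ z ∈ T', z ∉ Y' := fun z hz hz' => disjoint_left.1 hd' hz hz'
  have eT : ∀ z ∈ T', Φ z = φ z := fun z hz => if_neg (hTY z hz)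
  have fT : ∀ z ∈ T' ∪ Y', Φ z ≠ r → z ∈ T' := by
    intro z hz hzT
    rcases mem_union.1 hz with h' | h'
    · exact h'
    · exact absurd (eY z h') hzT
  have hr'T : r' ∈ T' := hK'T' hr'K
  refine ⟨?_, ?_, ?_, ?_, ?_⟩
  · rw [eT r' hr'T]; exact h1
  · intro x hx
    constructor
    · intro hxK
      obtain ⟨a, ha1, ha2⟩ := (h2 x (hKT hxK)).1 hxK
      exact ⟨a, mem_union_left _ ha1, by rw [eT a (hK'T' ha1)]; exact ha2⟩
    · rintro ⟨a, haK, hax⟩
      rcases mem_union.1 haK with h' | h'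
      · rw [eT a (hK'T' h')] at hax
        exact (h2 x hx).2 ⟨a, h', hax⟩
      · rw [mem_singleton] at h'
        rw [h', eY v' hv'] at hax
        rw [← hax]; exact hr
  · intro z hz
    rcases mem_union.1 hz with h' | h'
    · rw [eT z h']; exact h3.mem z h'
    · rw [eY z h']; exact hKT hr
  · intro x hx
    by_cases hxr : x = r
    · have : (T' ∪ Y').filter (fun z => Φ z = x) = T'.filter (fun z => φ z = r) ∪ Y' := by
        ext z
        rw [mem_filter, mem_union, mem_union, mem_filter]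
        constructor
        · rintro ⟨h4 | h4, h5⟩
          · rw [eT z h4, hxr] at h5
            exact Or.inl ⟨h4, h5⟩
          · exact Or.inr h4
        · rintro (⟨h4, h5⟩ | h4)
          · exact ⟨Or.inl h4, by rw [eT z h4, h5, hxr]⟩
          · exact ⟨Or.inr h4, by rw [eY z h4, hxr]⟩
      rw [this]
      exact (h3.cn r (hKT hr)).union hY' (Or.inl ⟨r', mem_filter.2 ⟨hr'T, h1⟩, v', hv',
        (ha' r' hr'T v' hv').2 ⟨hr'K, rfl⟩⟩)
    · have : (T' ∪ Y').filter (fun z => Φ z = x) = T'.filter (fun z => φ z = x) := by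
        ext z
        rw [mem_filter, mem_filter]
        constructor
        · rintro ⟨h4, h5⟩
          have := fT z h4 (fun h' => hxr (h5.symm.trans h'))
          exact ⟨this, by rw [← eT z this]; exact h5⟩
        · rintro ⟨h4, h5⟩
          exact ⟨mem_union_left _ h4, by rw [eT z h4]; exact h5⟩
      rw [this]
      exact h3.cn x hx
  · have half : ∀ x ∈ T, ∀ y ∈ T, x ≠ y → ∀ a ∈ Y', ∀ b ∈ T' ∪ Y', Φ a = x → Φ b = y →
        G'.Adj a b → G.Adj x y := by
      intro x hx y hy hne a haY b hb hax hby hab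
      rw [eY a haY] at hax
      have hbT := fT b hb (fun h' => hne (hax.symm.trans (h'.symm.trans hby)))
      obtain ⟨h5, h6⟩ := (ha' b hbT a haY).1 hab.symm
      rw [eT b hbT] at hby
      have hyK : y ∈ K := (h2 y hy).2 ⟨b, h5, hby⟩
      rw [← hax]
      exact hKc r hr y hyK (fun h' => hne (hax.symm.trans h'))
    intro x hx y hy hne
    constructor
    · intro hxy
      obtain ⟨a, ha1, b, hb1, hax, hby, hab⟩ := (h3.adj x hx y hy hne).1 hxy
      exact ⟨a, mem_union_left _ ha1, b, mem_union_left _ hb1, by rw [eT a ha1]; exact hax,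
        by rw [eT b hb1]; exact hby, hab⟩
    · rintro ⟨a, ha1, b, hb1, hax, hby, hab⟩
      rcases mem_union.1 ha1 with haT | haY
      · rcases mem_union.1 hb1 with hbT | hbY
        · rw [eT a haT] at hax
          rw [eT b hbT] at hby
          exact (h3.adj x hx y hy hne).2 ⟨a, haT, b, hbT, hax, hby, hab⟩
        · exact (half y hy x hx hne.symm b hbY a ha1 hby hax hab.symm).symm
      · exact half x hx y hy hne a haY b hb1 hax hby hab

theorem Cl.le {L L' : List Ob} (h : List.SublistForall₂ Le L L') :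
    ∀ (V V' : Type) (G : SimpleGraph V) (G' : SimpleGraph V') (r : V) (r' : V') (T K : Finset V)
      (T' K' : Finset V'), Cl G r T K L → Cl G' r' T' K' L' → ∃ φ, ClM G' r' T' K' G r T K φ := by
  induction h with
  | nil =>
    intro V V' G G' r r' T K T' K' h h'
    obtain ⟨k1, k2, k3, k4⟩ := h'.facts
    cases h
    refine ⟨fun _ => r, rfl, ?_, CM.const k4 r⟩
    intro x hx
    rw [mem_singleton] at hx
    rw [mem_singleton]
    exact ⟨fun _ => ⟨r', k1, hx.symm⟩, fun _ => hx⟩
  | cons hle _ ih =>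
    intro V V' G G' r r' T K T' K' h h'
    cases h with
    | cons h hd hv hc ha =>
      cases h' with
      | cons h' hd' hv' hc' ha' =>
        obtain ⟨φ, hφ⟩ := ih _ _ _ _ _ _ _ _ _ _ h h'
        obtain ⟨j1, j2, j3, j4⟩ := h.facts
        obtain ⟨k1, k2, k3, k4⟩ := h'.facts
        obtain ⟨ψ, h1, -, h2⟩ := hle
        rw [full_gr, full_gr] at h2
        exact ⟨_, hφ.cons (k2 k1) j2 k2 hd hd' hv hv' ha ha' h2 h1⟩
  | cons_right _ ih =>
    intro V V' G G' r r' T K T' K' h h'
    cases h' with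
    | cons h' hd' hv' hc' ha' =>
      obtain ⟨φ, hφ⟩ := ih _ _ _ _ _ _ _ _ _ _ h h'
      obtain ⟨j1, j2, j3, j4⟩ := h.facts
      obtain ⟨k1, k2, k3, k4⟩ := h'.facts
      exact ⟨_, hφ.skip k1 j1 j2 k2 j3 hd' hv' hc' ha'⟩

/-- a partition of the neighbourhood of `r` gives a clique with hanging pieces -/
lemma exists_cl {𝓢 : Set Ob} {D N : Finset V} {p : V → V} (hp : Prt G D N p) (hrD : r ∉ D)
    (hND : N ⊆ D) (hN : ∀ x ∈ N, G.Adj r x) (hN' : ∀ x ∈ D, G.Adj r x → x ∈ N)
    (htc : ∀ i ∈ N, ∀ j ∈ N, i ≠ j →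
      Tc G (D.filter (fun x => p x = i)) (D.filter (fun x => p x = j)))
    (honly : ∀ x ∈ D, ∀ y ∈ D, G.Adj x y → p x ≠ p y → x = p x)
    (h𝓢 : ∀ v ∈ N, full G (D.filter (fun x => p x = v)) v v ∈ 𝓢) :
    ∀ N₀ : Finset V, N₀ ⊆ N → ∃ L, Cl G r ({r} ∪ D.filter (fun x => p x ∈ N₀)) ({r} ∪ N₀) L ∧
      ∀ P ∈ L, P ∈ 𝓢 := by
  intro N₀
  induction N₀ using Finset.induction_on with
  | empty =>
    intro _
    refine ⟨[], ?_, by simp⟩
    have : ({r} : Finset V) ∪ D.filter (fun x => p x ∈ (∅ : Finset V)) = {r} := by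
      ext z; simp
    rw [this, union_empty]
    exact Cl.nil
  | insert v N₀ hv ih =>
    intro hsub
    have hvN : v ∈ N := hsub (mem_insert_self _ _)
    have hN₀ : N₀ ⊆ N := fun x hx => hsub (mem_insert_of_mem hx)
    obtain ⟨L, h1, h2⟩ := ih hN₀
    set Y := D.filter (fun x => p x = v) with hY
    have hvY : v ∈ Y := mem_filter.2 ⟨hND hvN, hp.fix v hvN⟩
    refine ⟨full G Y v v :: L, ?_, ?_⟩
    · have e1 : ({r} : Finset V) ∪ D.filter (fun x => p x ∈ insert v N₀) =
          ({r} ∪ D.filter (fun x => p x ∈ N₀)) ∪ Y := by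
        ext z
        simp only [hY, mem_union, mem_singleton, mem_filter, mem_insert]
        tauto
      have e2 : ({r} : Finset V) ∪ insert v N₀ = ({r} ∪ N₀) ∪ {v} := by
        ext z
        simp only [mem_union, mem_singleton, mem_insert]
        tauto
      rw [e1, e2]
      refine Cl.cons h1 ?_ hvY (hp.cn v hvN) ?_
      · rw [disjoint_left]
        intro z hz hzY
        obtain ⟨hzD, hzv⟩ := mem_filter.1 hzY
        rcases mem_union.1 hz with h' | h'
        · rw [mem_singleton] at h'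
          exact hrD (h' ▸ hzD)
        · have := (mem_filter.1 h').2
          rw [hzv] at this
          exact hv this
      · intro x hx y hy
        obtain ⟨hyD, hyv⟩ := mem_filter.1 hy
        rw [mem_union, mem_singleton] at hx ⊢
        rcases hx with hx | hx
        · rw [hx]
          constructor
          · intro hry
            have hyN := hN' y hyD hry
            exact ⟨Or.inl rfl, by rw [← hyv]; exact (hp.fix y hyN).symm⟩
          · rintro ⟨-, hyv'⟩
            rw [hyv']
            exact hN v hvN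
        · obtain ⟨hxD, hxN₀⟩ := mem_filter.1 hx
          have hne : p x ≠ p y := by
            intro h'
            rw [hyv] at h'
            exact hv (h' ▸ hxN₀)
          constructor
          · intro hxy
            have h3 := honly x hxD y hyD hxy hne
            have h4 := honly y hyD x hxD hxy.symm (Ne.symm hne)
            exact ⟨Or.inr (h3 ▸ hxN₀), h4.trans hyv⟩
          · rintro ⟨hx' | hx', hyv'⟩
            · exact absurd (hx' ▸ hxD) hrD
            · rw [hyv']
              have hxN := hN₀ hx'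
              obtain ⟨a, ha, b, hb, hab⟩ := htc x hxN v hvN (fun h' => hv (h' ▸ hx'))
              obtain ⟨haD, hax⟩ := mem_filter.1 ha
              obtain ⟨hbD, hbv⟩ := mem_filter.1 hb
              have hne' : p a ≠ p b := by
                rw [hax, hbv]
                exact fun h' => hv (h' ▸ hx')
              have h3 := honly a haD b hbD hab hne'
              have h4 := honly b hbD a haD hab.symm (Ne.symm hne')
              rw [hax] at h3
              rw [hbv] at h4
              rw [← h3, ← h4]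
              exact hab
    · intro P hP
      rcases List.mem_cons.1 hP with h' | h'
      · rw [h']; exact h𝓢 v hvN
      · exact h2 P h'

end Pool.Agent.Run7.h855
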