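import Pool.Agent.H175R2.Contr

/-! Definitions for MP_07dfc7_co: pairs `(H₁, H₂)` for which the connected graphs excluding both as
contractions are well-quasi-ordered by contraction. -/

namespace Pool.Agent.Run7.h855

open Pool.Agent.H175R2 (Contracts IsContraction)

/-- The join of the complete graph on `k` vertices with `q` isolated vertices: two different
vertices are adjacent unless both are among the `q` vertices.
`B 1 q = K_{1,q}`, `B 2 q = K_{1,1,q}`. -/
def B (k q : ℕ) : SimpleGraph (Fin k ⊕ Fin q) where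
  Adj x y := x ≠ y ∧ ¬ ((∃ i, x = .inr i) ∧ ∃ j, y = .inr j)
  symm := ⟨fun _ _ h => ⟨h.1.symm, fun h' => h.2 ⟨h'.2, h'.1⟩⟩⟩
  loopless := ⟨fun _ h => h.1 rfl⟩

/-- The complete multipartite graph with `r` parts of size one and `m` parts of size two: the join
of the complete graph on `r` vertices and of `m` pairs of non-adjacent vertices.
`J r 0 = K_r`, `J r 1 = K_{r+2}` minus an edge, `J r 2` is the join of `K_r` and the 4-cycle. -/
def J (r m : ℕ) : SimpleGraph (Fin r ⊕ Fin m × Fin 2) where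
  Adj x y := x ≠ y ∧ ¬ ∃ i a b, x = .inr (i, a) ∧ y = .inr (i, b)
  symm := ⟨fun _ _ h => ⟨h.1.symm, fun ⟨i, a, b, h1, h2⟩ => h.2 ⟨i, b, a, h2, h1⟩⟩⟩
  loopless := ⟨fun _ h => h.1 rfl⟩

/-- the class of finite connected graphs containing neither `H₁` nor `H₂` as a contraction is
well-quasi-ordered by the contraction relation: every infinite sequence of such graphs has an
earlier member which is a contraction of a later one. -/
def Wqo {V₁ V₂ : Type} (H₁ : SimpleGraph V₁) (H₂ : SimpleGraph V₂) : Prop :=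
  ∀ (V : ℕ → Type) (_ : ∀ i, Finite (V i)) (G : ∀ i, SimpleGraph (V i)),
    (∀ i, (G i).Connected ∧ ¬ Contracts (G i) H₁ ∧ ¬ Contracts (G i) H₂) →
      ∃ i j, i < j ∧ Contracts (G j) (G i)

/-- `H` is one of `P₁`, `P₂`, `P₃`, `C₃` and the diamond. -/
def Small {V : Type} (H : SimpleGraph V) : Prop :=
  Nonempty (H ≃g B 1 0) ∨ Nonempty (H ≃g B 1 1) ∨ Nonempty (H ≃g B 1 2) ∨
    Nonempty (H ≃g B 2 1) ∨ Nonempty (H ≃g B 2 2)

/-- The further pairs: `(K_{1,1,q}, K₄)`, `(K_{1,q}, K_r)`, `(K_{1,q}, K_{r+2} - e)` and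
`(K_{1,3}, K_r * C₄)`. -/
def Pair {V W : Type} (H : SimpleGraph V) (H' : SimpleGraph W) : Prop :=
  ∃ q : ℕ, 3 ≤ q ∧
    ((Nonempty (H ≃g B 2 q) ∧ Nonempty (H' ≃g J 4 0)) ∨
     (Nonempty (H ≃g B 1 q) ∧ ∃ r m : ℕ, 1 ≤ r ∧ Nonempty (H' ≃g J r m) ∧
        (m ≤ 1 ∨ (m = 2 ∧ q = 3))))

end Pool.Agent.Run7.h855
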