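import Pool.Agent.Run7.h855.P1

/-! Graphs without a diamond contraction: the neighbours of a vertex. -/

namespace Pool.Agent.Run7.h855

open Pool.Agent.H175R2 Finset Classical

/-- no diamond inside `S` -/
def NoDia {V : Type} (G : SimpleGraph V) (S : Finset V) : Prop :=
  ∀ A B' C E : Finset V, Cn G A → Cn G B' → Cn G C → Cn G E →
    A ⊆ S → B' ⊆ S → C ⊆ S → E ⊆ S → Disjoint A B' → Disjoint A C → Disjoint A E →
    Disjoint B' C → Disjoint B' E → Disjoint C E →
    Tc G A B' → Tc G A C → Tc G A E → Tc G B' C → Tc G B' E → Tc G C E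

variable {V W : Type} {G : SimpleGraph V} {S D M N : Finset V} {p : V → V} {r r' v : V}

lemma NoDia.mono {S' : Finset V} (h : NoDia G S) (hS : S' ⊆ S) : NoDia G S' :=
  fun A B' C E h1 h2 h3 h4 h5 h6 h7 h8 => h A B' C E h1 h2 h3 h4 (h5.trans hS) (h6.trans hS)
    (h7.trans hS) (h8.trans hS)

lemma NoDia.noBook (h : NoDia G S) : NoBook 2 G S := by
  rintro ⟨A, B', F, h1, h2, h3, h4, h5, h6, h7, h8⟩
  have h01 : (0 : Fin 2) ≠ 1 := by decide
  exact (h8 0 1 h01).2 (h A B' (F 0) (F 1) h1 h2 (h7 0).2.1 (h7 1).2.1 h3 h4 (h7 0).1 (h7 1).1 h5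
    (h7 0).2.2.1.symm (h7 1).2.2.1.symm (h7 0).2.2.2.1.symm (h7 1).2.2.2.1.symm (h8 0 1 h01).1 h6
    (h7 0).2.2.2.2.1.symm (h7 1).2.2.2.2.1.symm (h7 0).2.2.2.2.2.symm (h7 1).2.2.2.2.2.symm)

/-- if `r` has at most two neighbours then its blocks have no `K₄` -/
lemma NoDia.no_K4B (h : NoDia G M) (hr : r ∈ M) (hadj : G.Adj r r')
    (hv : ∀ x ∈ M, G.Adj r x → x = r' ∨ x = v) : ¬ K4B G M r r' := by
  rintro ⟨A, B', C, E, h1, h2, h3, h4, h5, h6, h7, h8, h9, h10, h11, h12, h13, h14, h15, h16, h17,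
    h18, h19, h20, h21⟩
  have hr'A : r' ∉ A := fun h' => disjoint_left.1 h11 h' h2
  have hr'C : r' ∉ C := fun h' => disjoint_left.1 h14 h2 h'
  have hr'E : r' ∉ E := fun h' => disjoint_left.1 h15 h2 h'
  by_cases hA : A = {r}
  · have hvC : v ∈ C := by
      obtain ⟨c, hc, x, hx, hcx⟩ := h17
      rw [hA, mem_singleton] at hx
      subst hx
      rcases hv c (h9 hc) hcx.symm with h' | h'
      · exact absurd (h' ▸ hc) hr'C
      · exact h' ▸ hc
    have hvE : v ∈ E := by
      obtain ⟨c, hc, x, hx, hcx⟩ := h19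
      rw [hA, mem_singleton] at hx
      subst hx
      rcases hv c (h10 hc) hcx.symm with h' | h'
      · exact absurd (h' ▸ hc) hr'E
      · exact h' ▸ hc
    exact disjoint_left.1 h16 hvC hvE
  · obtain ⟨a, haA, har⟩ : ∃ a ∈ A, a ≠ r := by
      by_contra hcon
      push Not at hcon
      exact hA (eq_singleton_iff_unique_mem.2 ⟨h1, hcon⟩)
    have hnA : ∀ x ∈ A, G.Adj r x → x = v := by
      intro x hx hxr
      rcases hv x (h7 hx) hxr with h' | h'
      · exact absurd (h' ▸ hx) hr'A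
      · exact h'
    have hvA : v ∈ A ∧ G.Adj r v := by
      obtain ⟨x, hx, y, hy, hxy⟩ := h3.2 {r} (by simpa using h1) ⟨r, by simp⟩
        ⟨a, by simpa using ⟨haA, har⟩⟩
      rw [mem_singleton] at hx
      subst hx
      have hyA := (mem_sdiff.1 hy).1
      have := hnA y hyA hxy
      exact ⟨this ▸ hyA, this ▸ hxy⟩
    have hvC : v ∉ C := fun h' => disjoint_left.1 h12 hvA.1 h'
    have hvE : v ∉ E := fun h' => disjoint_left.1 h13 hvA.1 h'
    have hc : Cn G (A.erase r) := by
      refine Cn.erase_leaf h3 h1 hA ?_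
      rw [card_le_one]
      intro x hx y hy
      rw [mem_nb] at hx hy
      rw [hnA x hx.1 hx.2, hnA y hy.1 hy.2]
    have hrC : ∀ x ∈ C, ¬ G.Adj r x := by
      intro x hx hrx
      rcases hv x (h9 hx) hrx with h' | h'
      · exact hr'C (h' ▸ hx)
      · exact hvC (h' ▸ hx)
    have hrE : ∀ x ∈ E, ¬ G.Adj r x := by
      intro x hx hrx
      rcases hv x (h10 hx) hrx with h' | h'
      · exact hr'E (h' ▸ hx)
      · exact hvE (h' ▸ hx)
    have tC : Tc G (A.erase r) C := by
      obtain ⟨c, hc, x, hx, hcx⟩ := h17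
      exact ⟨x, mem_erase.2 ⟨fun h' => hrC c hc (h' ▸ hcx.symm), hx⟩, c, hc, hcx.symm⟩
    have tE : Tc G (A.erase r) E := by
      obtain ⟨c, hc, x, hx, hcx⟩ := h19
      exact ⟨x, mem_erase.2 ⟨fun h' => hrE c hc (h' ▸ hcx.symm), hx⟩, c, hc, hcx.symm⟩
    have hsub : A.erase r ⊆ A := erase_subset _ _
    obtain ⟨x, hx, y, hy, hxy⟩ := h (A.erase r) (B' ∪ E) {r} C hc (h4.union h6 (Or.inl h20.symm))
      (Cn.singleton r) h5 (hsub.trans h7) (union_subset h8 h10) (by simpa using hr) h9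
      (by rw [disjoint_union_right]; exact ⟨h11.mono_left hsub, h13.mono_left hsub⟩)
      (by simp) (h12.mono_left hsub)
      (by
        rw [disjoint_singleton_right, mem_union]
        rintro (h' | h')
        · exact disjoint_left.1 h11 h1 h'
        · exact disjoint_left.1 h13 h1 h')
      (by rw [disjoint_union_left]; exact ⟨h14, h16.symm⟩)
      (by rw [disjoint_singleton_left]; exact fun h' => disjoint_left.1 h12 h1 h')
      (tE.mono (Subset.refl _) subset_union_right)
      ⟨v, mem_erase.2 ⟨hvA.2.ne.symm, hvA.1⟩, r, by simp, hvA.2.symm⟩ tC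
      ⟨r', mem_union_left _ h2, r, by simp, hadj.symm⟩
      (h18.symm.mono subset_union_left (Subset.refl _))
    rw [mem_singleton] at hx
    subst hx
    exact hrC y hy hxy

/-- a partition of `D` into connected sets, each with exactly one vertex of `N` -/
structure Prt (G : SimpleGraph V) (D N : Finset V) (p : V → V) : Prop where
  mem : ∀ x ∈ D, p x ∈ N
  fix : ∀ v ∈ N, p v = v
  cn : ∀ v ∈ N, Cn G (D.filter (fun x => p x = v))

lemma exists_prt (hD : Cn G D) (hND : N ⊆ D) (hN : N.Nonempty) : ∃ p, Prt G D N p := by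
  suffices h : ∀ (n : ℕ) (U : Finset V) (p : V → V), N ⊆ U → U ⊆ D → (D \ U).card = n →
      (∀ x ∈ U, p x ∈ N) → (∀ v ∈ N, p v = v) → (∀ v ∈ N, Cn G (U.filter (fun x => p x = v))) →
      ∃ p, Prt G D N p by
    refine h _ N (fun v => v) (Subset.refl _) hND rfl (fun v hv => hv) (fun _ _ => rfl) ?_
    intro v hv
    have : N.filter (fun x => x = v) = {v} := by
      ext x
      rw [mem_filter, mem_singleton]
      constructor
      · exact fun h => h.2
      · rintro rfl; exact ⟨hv, rfl⟩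
    rw [this]
    exact Cn.singleton v
  intro n
  induction n with
  | zero =>
    intro U p hNU hUD hcard h1 h2 h3
    have : U = D := by
      apply subset_antisymm hUD
      rw [card_eq_zero, sdiff_eq_empty_iff_subset] at hcard
      exact hcard
    subst this
    exact ⟨p, h1, h2, h3⟩
  | succ n ih =>
    intro U p hNU hUD hcard h1 h2 h3
    obtain ⟨x, hx, y, hy, hxy⟩ := hD.2 U hUD (hN.mono hNU) (by
      rw [← card_pos, hcard]; omega)
    obtain ⟨hyD, hyU⟩ := mem_sdiff.1 hy
    have e1 : ∀ z ∈ U, Function.update p y (p x) z = p z := by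
      intro z hz
      exact Function.update_of_ne (show z ≠ y from fun h' => hyU (h' ▸ hz)) _ _
    have e2 : Function.update p y (p x) y = p x := Function.update_self _ _ _
    refine ih (insert y U) (Function.update p y (p x)) (hNU.trans (subset_insert _ _))
      (insert_subset hyD hUD) ?_ ?_ ?_ ?_
    · have : D \ insert y U = (D \ U).erase y := by
        ext z
        simp only [mem_sdiff, mem_insert, mem_erase, not_or]
        tauto
      rw [this, card_erase_of_mem hy, hcard]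
      rfl
    · intro z hz
      rcases mem_insert.1 hz with h' | h'
      · rw [h', e2]; exact h1 x hx
      · rw [e1 z h']; exact h1 z h'
    · intro v hv
      rw [e1 v (hNU hv)]
      exact h2 v hv
    · intro v hv
      by_cases hxv : p x = v
      · have : (insert y U).filter (fun z => Function.update p y (p x) z = v) =
            U.filter (fun z => p z = v) ∪ {y} := by
          ext z
          simp only [mem_filter, mem_insert, mem_union, mem_singleton]
          constructor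
          · rintro ⟨h' | h', h''⟩
            · exact Or.inr h'
            · rw [e1 z h'] at h''
              exact Or.inl ⟨h', h''⟩
          · rintro (h' | h')
            · exact ⟨Or.inr h'.1, by rw [e1 z h'.1]; exact h'.2⟩
            · rw [h']; exact ⟨Or.inl rfl, by rw [e2]; exact hxv⟩
        rw [this]
        exact (h3 v hv).union (Cn.singleton y)
          (Or.inl ⟨x, mem_filter.2 ⟨hx, hxv⟩, y, by simp, hxy⟩)
      · have : (insert y U).filter (fun z => Function.update p y (p x) z = v) =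
            U.filter (fun z => p z = v) := by
          ext z
          simp only [mem_filter, mem_insert]
          constructor
          · rintro ⟨h' | h', h''⟩
            · rw [h', e2] at h''
              exact absurd h'' hxv
            · rw [e1 z h'] at h''
              exact ⟨h', h''⟩
          · rintro h'
            exact ⟨Or.inr h'.1, by rw [e1 z h'.1]; exact h'.2⟩
        rw [this]
        exact h3 v hv

lemma Prt.tc (hp : Prt G D N p) (h : NoDia G S) (hD : Cn G D) (hDS : D ⊆ S) (hr : r ∈ S)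
    (hrD : r ∉ D) (hND : N ⊆ D) (hN : ∀ x ∈ N, G.Adj r x) {i j : V} (hi : i ∈ N) (hj : j ∈ N)
    (hij : i ≠ j) : Tc G (D.filter (fun x => p x = i)) (D.filter (fun x => p x = j)) := by
  by_contra hcon
  set Y : V → Finset V := fun v => D.filter (fun x => p x = v) with hY
  have hcon : ¬ Tc G (Y i) (Y j) := hcon
  have mY : ∀ x v, x ∈ Y v ↔ x ∈ D ∧ p x = v := fun x v => mem_filter
  have hYD : ∀ v, Y v ⊆ D := fun v => filter_subset _ _
  have hYd : ∀ v w, v ≠ w → Disjoint (Y v) (Y w) := by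
    intro v w hvw
    rw [disjoint_left]
    intro x h1 h2
    exact hvw (((mY x v).1 h1).2.symm.trans ((mY x w).1 h2).2)
  obtain ⟨x, hx, y, hy, hxy⟩ := hD.2 (D.filter (fun x => p x = i ∨ Tc G (Y i) (Y (p x))))
    (filter_subset _ _) ⟨i, mem_filter.2 ⟨hND hi, Or.inl (hp.fix i hi)⟩⟩ ⟨j, by
      rw [mem_sdiff, mem_filter]
      refine ⟨hND hj, ?_⟩
      rintro ⟨-, h' | h'⟩
      · rw [hp.fix j hj] at h'; exact hij h'.symm
      · rw [hp.fix j hj] at h'; exact hcon h'⟩
  obtain ⟨hxD, hx'⟩ := mem_filter.1 hx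
  obtain ⟨hyD, hy'⟩ := mem_sdiff.1 hy
  rw [mem_filter] at hy'
  push Not at hy'
  obtain ⟨hy1, hy2⟩ := hy' hyD
  have hxy' : Tc G (Y (p x)) (Y (p y)) := ⟨x, (mY _ _).2 ⟨hxD, rfl⟩, y, (mY _ _).2 ⟨hyD, rfl⟩, hxy⟩
  rcases hx' with hx' | hx'
  · rw [hx'] at hxy'
    exact hy2 hxy'
  · have hne1 : p x ≠ i := by
      intro h'
      rw [h'] at hxy'
      exact hy2 hxy'
    have hne2 : p x ≠ p y := by
      intro h'
      rw [h'] at hx'
      exact hy2 hx'
    have hrY : ∀ v ∈ N, Tc G {r} (Y v) := by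
      intro v hv
      exact ⟨r, by simp, v, (mY _ _).2 ⟨hND hv, hp.fix v hv⟩, hN v hv⟩
    have hrd : ∀ v, Disjoint {r} (Y v) := by
      intro v
      rw [disjoint_singleton_left]
      exact fun h' => hrD (hYD v h')
    exact hy2 (h {r} (Y (p x)) (Y i) (Y (p y)) (Cn.singleton r) (hp.cn _ (hp.mem x hxD))
      (hp.cn i hi) (hp.cn _ (hp.mem y hyD)) (by simpa using hr) ((hYD _).trans hDS)
      ((hYD _).trans hDS) ((hYD _).trans hDS) (hrd _) (hrd _) (hrd _) (hYd _ _ hne1)
      (hYd _ _ hne2) (hYd _ _ (Ne.symm hy1)) (hrY _ (hp.mem x hxD)) (hrY _ hi)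
      (hrY _ (hp.mem y hyD)) hx'.symm hxy')

/-- edges between different parts only join the two roots -/
lemma Prt.only (hp : Prt G D N p) (h : NoDia G S) (hD : Cn G D) (hDS : D ⊆ S) (hr : r ∈ S)
    (hrD : r ∉ D) (hND : N ⊆ D) (hN : ∀ x ∈ N, G.Adj r x) (hN' : ∀ x ∈ D, G.Adj r x → x ∈ N)
    (h3 : 3 ≤ N.card) {x y : V} (hx : x ∈ D) (hy : y ∈ D) (hxy : G.Adj x y) (hne : p x ≠ p y) :
    x = p x := by
  by_contra hxp
  set i := p x with hi
  set j := p y with hj
  have hiN : i ∈ N := hp.mem x hx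
  have hjN : j ∈ N := hp.mem y hy
  set Y : V → Finset V := fun v => D.filter (fun x => p x = v) with hY
  have mY : ∀ x v, x ∈ Y v ↔ x ∈ D ∧ p x = v := fun x v => mem_filter
  have hYD : ∀ v, Y v ⊆ D := fun v => filter_subset _ _
  have hYd : ∀ v w, v ≠ w → Disjoint (Y v) (Y w) := by
    intro v w hvw
    rw [disjoint_left]
    intro x h1 h2
    exact hvw (((mY x v).1 h1).2.symm.trans ((mY x w).1 h2).2)
  have hYc : ∀ v ∈ N, Cn G (Y v) := hp.cn
  have hiY : i ∈ Y i := (mY _ _).2 ⟨hND hiN, hp.fix i hiN⟩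
  have hxe : x ∈ (Y i).erase i := mem_erase.2 ⟨hxp, (mY _ _).2 ⟨hx, rfl⟩⟩
  set K := cpt G ((Y i).erase i) x with hK
  have hKc : Cn G K := cn_cpt hxe
  have hxK : x ∈ K := mem_cpt_self hxe
  have hKe : K ⊆ (Y i).erase i := cpt_subset
  have hiK : i ∉ K := fun h' => (mem_erase.1 (hKe h')).1 rfl
  have hKY : K ⊆ Y i := hKe.trans (erase_subset _ _)
  have hKp : ∀ z ∈ K, p z = i := fun z hz => ((mY z i).1 (hKY hz)).2
  have hKN : ∀ z ∈ K, z ∉ N := by
    intro z hz hzN
    have h1 := hp.fix z hzN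
    rw [hKp z hz] at h1
    exact hiK (h1 ▸ hz)
  have hrest : Cn G (Y i \ K) := by
    apply cn_closed (hYc i hiN) hiY sdiff_subset (mem_sdiff.2 ⟨hiY, hiK⟩)
    intro v hv hvi z hz
    obtain ⟨hvY, hvK⟩ := mem_sdiff.1 hv
    have hve : v ∈ (Y i).erase i := mem_erase.2 ⟨hvi, hvY⟩
    refine mem_sdiff.2 ⟨(mem_erase.1 (cpt_subset hz)).2, fun hzK => hvK ?_⟩
    have h1 : cpt G ((Y i).erase i) z = K := cpt_eq_of_mem hxe hzK
    have h2 : cpt G ((Y i).erase i) z = cpt G ((Y i).erase i) v := cpt_eq_of_mem hve hz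
    rw [← h1, h2]
    exact mem_cpt_self hve
  -- the other partition
  have q1 : D.filter (fun z => (if z ∈ K then j else p z) = i) = Y i \ K := by
    ext z
    rw [mem_filter, mem_sdiff, mY]
    constructor
    · rintro ⟨h1, h2⟩
      by_cases hz : z ∈ K
      · rw [if_pos hz] at h2; exact absurd h2.symm hne
      · rw [if_neg hz] at h2; exact ⟨⟨h1, h2⟩, hz⟩
    · rintro ⟨⟨h1, h2⟩, h3⟩
      exact ⟨h1, by rw [if_neg h3]; exact h2⟩
  have q2 : D.filter (fun z => (if z ∈ K then j else p z) = j) = Y j ∪ K := by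
    ext z
    rw [mem_filter, mem_union, mY]
    constructor
    · rintro ⟨h1, h2⟩
      by_cases hz : z ∈ K
      · exact Or.inr hz
      · rw [if_neg hz] at h2; exact Or.inl ⟨h1, h2⟩
    · rintro (⟨h1, h2⟩ | h3)
      · refine ⟨h1, ?_⟩
        by_cases hz : z ∈ K
        · rw [if_pos hz]
        · rw [if_neg hz]; exact h2
      · exact ⟨hYD i (hKY h3), by rw [if_pos h3]⟩
  have q3 : ∀ l, l ≠ i → l ≠ j → D.filter (fun z => (if z ∈ K then j else p z) = l) = Y l := by
    intro l hli hlj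
    ext z
    rw [mem_filter, mY]
    constructor
    · rintro ⟨h1, h2⟩
      by_cases hz : z ∈ K
      · rw [if_pos hz] at h2; exact absurd h2.symm hlj
      · rw [if_neg hz] at h2; exact ⟨h1, h2⟩
    · rintro ⟨h1, h2⟩
      refine ⟨h1, ?_⟩
      have hz : z ∉ K := by
        intro hz
        rw [hKp z hz] at h2
        exact hli h2.symm
      rw [if_neg hz]; exact h2
  have hp' : Prt G D N (fun z => if z ∈ K then j else p z) := by
    refine ⟨?_, ?_, ?_⟩
    · intro z hz
      split_ifs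
      · exact hjN
      · exact hp.mem z hz
    · intro v hv
      rw [if_neg (fun hz => hKN v hz hv)]
      exact hp.fix v hv
    · intro l hl
      by_cases h1 : l = i
      · rw [h1, q1]; exact hrest
      · by_cases h2 : l = j
        · rw [h2, q2]
          exact (hYc j hjN).union hKc (Or.inl ⟨y, (mY _ _).2 ⟨hy, rfl⟩, x, hxK, hxy.symm⟩)
        · rw [q3 l h1 h2]; exact hYc l hl
  obtain ⟨l, hl, hlij⟩ : ∃ l ∈ N, l ∉ ({i, j} : Finset V) := by
    by_contra hcon
    push Not at hcon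
    have h1 := card_le_card hcon
    have h2 : ({i, j} : Finset V).card ≤ 2 := card_le_two
    omega
  rw [mem_insert, mem_singleton, not_or] at hlij
  have t1 := hp'.tc h hD hDS hr hrD hND hN hiN hl (Ne.symm hlij.1)
  rw [q1, q3 l hlij.1 hlij.2] at t1
  have t2 := hp.tc h hD hDS hr hrD hND hN hjN hl (Ne.symm hlij.2)
  have t2 : Tc G (Y j) (Y l) := t2
  have hjY : j ∈ Y j := (mY _ _).2 ⟨hND hjN, hp.fix j hjN⟩
  have hsub : Y i \ K ⊆ Y i := sdiff_subset
  obtain ⟨a, haK, hai⟩ := cpt_touch (hYc i hiN) hiY hxe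
  have hrd : ∀ v, Disjoint (Y v) {r} := by
    intro v
    rw [disjoint_singleton_right]
    exact fun h' => hrD (hYD v h')
  obtain ⟨s, hs, k, hk, hsk⟩ := h (Y i \ K) (Y j ∪ Y l) {r} K hrest
    ((hYc j hjN).union (hYc l hl) (Or.inl t2)) (Cn.singleton r) hKc
    (hsub.trans ((hYD i).trans hDS)) (union_subset ((hYD j).trans hDS) ((hYD l).trans hDS))
    (by simpa using hr) (hKY.trans ((hYD i).trans hDS))
    (by
      rw [disjoint_union_right]
      exact ⟨(hYd i j hne).mono_left hsub, (hYd i l (Ne.symm hlij.1)).mono_left hsub⟩)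
    ((hrd i).mono_left hsub) sdiff_disjoint
    (by rw [disjoint_union_left]; exact ⟨hrd j, hrd l⟩)
    (by
      rw [disjoint_union_left]
      exact ⟨(hYd i j hne).symm.mono_right hKY, (hYd i l (Ne.symm hlij.1)).symm.mono_right hKY⟩)
    ((hrd i).symm.mono_right hKY)
    (t1.mono (Subset.refl _) subset_union_right)
    ⟨i, mem_sdiff.2 ⟨hiY, hiK⟩, r, by simp, (hN i hiN).symm⟩
    ⟨i, mem_sdiff.2 ⟨hiY, hiK⟩, a, haK, hai.symm⟩
    ⟨j, mem_union_left _ hjY, r, by simp, (hN j hjN).symm⟩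
    ⟨y, mem_union_left _ ((mY _ _).2 ⟨hy, rfl⟩), x, hxK, hxy.symm⟩
  rw [mem_singleton] at hs
  subst hs
  exact hKN k hk (hN' k (hYD i (hKY hk)) hsk)

end Pool.Agent.Run7.h855
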