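import Pool.Agent.Run7.h855.P1

/-! The classification for pairs without one of the small graphs. -/

namespace Pool.Agent.Run7.h855

open Pool.Agent.H175R2

variable {V₁ V₂ : Type} {H₁ : SimpleGraph V₁} {H₂ : SimpleGraph V₂}

theorem Pair.wqo (h : Pair H₁ H₂) : Wqo H₁ H₂ := by
  obtain ⟨q, hq, ⟨⟨e1⟩, ⟨e2⟩⟩ | ⟨h1, r, m, hr, h2, hm⟩⟩ := h
  · exact (wqo_P1 q (by omega)).of_contr (IsContraction.of_iso e1.symm)
      (IsContraction.of_iso e2.symm)
  · exact wqo_star hr h1 h2 hm

theorem classification2 (h1 : ¬ Small H₁) (h2 : ¬ Small H₂) :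
    Wqo H₁ H₂ ↔ Pair H₁ H₂ ∨ Pair H₂ H₁ := by
  constructor
  · intro h
    rcases necessity h with h | h | h | h
    · exact absurd h h1
    · exact absurd h h2
    · exact Or.inl h
    · exact Or.inr h
  · rintro (h | h)
    · exact h.wqo
    · exact h.wqo.symm

end Pool.Agent.Run7.h855
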