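import Pool.Agent.Run7.h855.P0
import Pool.Agent.Run7.h855.Main

/-! The full classification. -/

namespace Pool.Agent.Run7.h855

open Pool.Agent.H175R2 Finset Classical

section

variable {V W : Type} {G : SimpleGraph V} {H : SimpleGraph W}

lemma Mdl.cover' [Fintype V] (hG : Cn G univ) [Nonempty W]
    (step : ∀ X, Mdl G H X → ∀ y, (∀ w, y ∉ X w) → (∃ w, Tc G {y} (X w)) →
      ∃ X', Mdl G H X' ∧ (∀ w, ∀ x ∈ X w, ∃ w', x ∈ X' w') ∧ ∃ w, y ∈ X' w) (n : ℕ) :
    ∀ X : W → Finset V, Mdl G H X → (univ.filter (fun v => ∀ w, v ∉ X w)).card = n →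
      IsContraction G H := by
  induction n using Nat.strong_induction_on with
  | _ n ih =>
    intro X h hn
    by_cases hc : ∀ v, ∃ w, v ∈ X w
    · exact h.contr hc
    · push Not at hc
      obtain ⟨v, hv⟩ := hc
      obtain ⟨w1⟩ := (inferInstance : Nonempty W)
      obtain ⟨x1, hx1⟩ := (h.1 w1).1
      obtain ⟨x, hx, y, hy, hxy⟩ := hG.2 (univ.filter (fun v => ∃ w, v ∈ X w)) (subset_univ _)
        ⟨x1, mem_filter.2 ⟨mem_univ _, w1, hx1⟩⟩ ⟨v, by
          rw [mem_sdiff, mem_filter]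
          refine ⟨mem_univ _, ?_⟩
          rintro ⟨-, w, hw⟩
          exact hv w hw⟩
      obtain ⟨-, w2, hx2⟩ := mem_filter.1 hx
      have hy' : ∀ w, y ∉ X w := by
        intro w hw
        exact (mem_sdiff.1 hy).2 (mem_filter.2 ⟨mem_univ _, w, hw⟩)
      obtain ⟨X', h1, h2, w3, h3⟩ := step X h y hy' ⟨w2, y, by simp, x, hx2, hxy.symm⟩
      refine ih _ ?_ X' h1 rfl
      rw [← hn]
      apply card_lt_card
      refine ⟨?_, ?_⟩
      · intro z hz
        obtain ⟨-, hz⟩ := mem_filter.1 hz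
        refine mem_filter.2 ⟨mem_univ _, fun w hzw => ?_⟩
        obtain ⟨w', hw'⟩ := h2 w z hzw
        exact hz w' hw'
      · intro hsub
        have := hsub (mem_filter.2 ⟨mem_univ y, hy'⟩)
        exact (mem_filter.1 this).2 w3 h3

lemma Mdl.add {X : W → Finset V} (h : Mdl G H X) {w₀ : W} {y : V} (hy : ∀ w, y ∉ X w)
    (hadj : Tc G {y} (X w₀)) (hw : ∀ w, w ≠ w₀ → Tc G {y} (X w) → H.Adj w₀ w) :
    ∃ X', Mdl G H X' ∧ (∀ w, ∀ x ∈ X w, ∃ w', x ∈ X' w') ∧ ∃ w, y ∈ X' w := by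
  refine ⟨_, h.upd hy hadj hw, ?_, w₀, ?_⟩
  · intro w x hx
    by_cases hw : w = w₀
    · subst hw
      exact ⟨w, by rw [Function.update_self]; exact mem_union_left _ hx⟩
    · exact ⟨w, by rw [Function.update_of_ne hw]; exact hx⟩
  · rw [Function.update_self]; simp

/-- four sets forming a diamond -/
lemma mdl_dia {A B' C E : Finset V} (h1 : Cn G A) (h2 : Cn G B') (h3 : Cn G C) (h4 : Cn G E)
    (h5 : Disjoint A B') (h6 : Disjoint A C) (h7 : Disjoint A E) (h8 : Disjoint B' C)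
    (h9 : Disjoint B' E) (h10 : Disjoint C E) (t1 : Tc G A B') (t2 : Tc G A C) (t3 : Tc G A E)
    (t4 : Tc G B' C) (t5 : Tc G B' E) (t6 : ¬ Tc G C E) :
    Mdl G (B 2 2) (Sum.elim ![A, B'] ![C, E]) := by
  have aL : ∀ (i : Fin 2) (w : Fin 2 ⊕ Fin 2), Sum.inl i ≠ w → (B 2 2).Adj (.inl i) w := by
    intro i w hne
    refine ⟨hne, ?_⟩
    rintro ⟨⟨j, hj⟩, -⟩
    exact absurd hj (by simp)
  have aR : ∀ i j : Fin 2, ¬ (B 2 2).Adj (.inr i) (.inr j) := by
    intro i j h'
    exact h'.2 ⟨⟨i, rfl⟩, ⟨j, rfl⟩⟩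
  set X : Fin 2 ⊕ Fin 2 → Finset V := Sum.elim ![A, B'] ![C, E] with hX
  have k0 : Disjoint (X (.inl 0)) (X (.inl 1)) ∧ Tc G (X (.inl 0)) (X (.inl 1)) := ⟨h5, t1⟩
  have k : ∀ i j : Fin 2, Disjoint (X (.inl i)) (X (.inr j)) ∧ Tc G (X (.inl i)) (X (.inr j)) := by
    intro i j
    fin_cases i <;> fin_cases j
    · exact ⟨h6, t2⟩
    · exact ⟨h7, t3⟩
    · exact ⟨h8, t4⟩
    · exact ⟨h9, t5⟩
  refine ⟨?_, ?_⟩
  · rintro (i | i)
    · fin_cases i
      · exact h1
      · exact h2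
    · fin_cases i
      · exact h3
      · exact h4
  · rintro (i | i) (j | j) hne
    · have : Disjoint (X (.inl i)) (X (.inl j)) ∧ Tc G (X (.inl i)) (X (.inl j)) := by
        fin_cases i <;> fin_cases j
        · exact absurd rfl hne
        · exact k0
        · exact ⟨k0.1.symm, k0.2.symm⟩
        · exact absurd rfl hne
      exact ⟨this.1, fun _ => this.2, fun _ => aL i _ hne⟩
    · exact ⟨(k i j).1, fun _ => (k i j).2, fun _ => aL i _ hne⟩
    · exact ⟨(k j i).1.symm, fun _ => (k j i).2.symm, fun _ => (aL j _ hne.symm).symm⟩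
    · have : Disjoint (X (.inr i)) (X (.inr j)) ∧ ¬ Tc G (X (.inr i)) (X (.inr j)) := by
        fin_cases i <;> fin_cases j
        · exact absurd rfl hne
        · exact ⟨h10, t6⟩
        · exact ⟨h10.symm, fun h' => t6 h'.symm⟩
        · exact absurd rfl hne
      exact ⟨this.1, fun h' => absurd h' (aR i j), fun h' => absurd h' this.2⟩

lemma noDia_of [Fintype V] (hG : Cn G univ) (h : ¬ IsContraction G (B 2 2)) : NoDia G univ := by
  intro A B' C E h1 h2 h3 h4 _ _ _ _ h5 h6 h7 h8 h9 h10 t1 t2 t3 t4 t5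
  by_contra t6
  apply h
  refine Mdl.cover' hG ?_ _ _ (mdl_dia h1 h2 h3 h4 h5 h6 h7 h8 h9 h10 t1 t2 t3 t4 t5 t6) rfl
  intro X hX y hy hyt
  -- adding `y` to one bag
  have add : ∀ w₀, Tc G {y} (X w₀) → (∀ w, w ≠ w₀ → Tc G {y} (X w) → (B 2 2).Adj w₀ w) →
      ∃ X', Mdl G (B 2 2) X' ∧ (∀ w, ∀ x ∈ X w, ∃ w', x ∈ X' w') ∧ ∃ w, y ∈ X' w := by
    intro w₀ h1 h2
    exact hX.add hy h1 h2
  have aL : ∀ (i : Fin 2) (w : Fin 2 ⊕ Fin 2), w ≠ .inl i → (B 2 2).Adj (.inl i) w := by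
    intro i w hne
    refine ⟨hne.symm, ?_⟩
    rintro ⟨⟨j, hj⟩, -⟩
    exact absurd hj (by simp)
  by_cases c0 : Tc G {y} (X (.inl 0))
  · exact add _ c0 (fun w hw _ => aL 0 w hw)
  by_cases c1 : Tc G {y} (X (.inl 1))
  · exact add _ c1 (fun w hw _ => aL 1 w hw)
  have c0' : ∀ i : Fin 2, ¬ Tc G {y} (X (.inl i)) := by
    intro i
    fin_cases i
    · exact c0
    · exact c1
  by_cases c2 : Tc G {y} (X (.inr 0))
  · by_cases c3 : Tc G {y} (X (.inr 1))
    · -- new diamond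
      have ht : ∀ (i : Fin 2) (w : Fin 2 ⊕ Fin 2), w ≠ .inl i →
          Disjoint (X (.inl i)) (X w) ∧ Tc G (X (.inl i)) (X w) :=
        fun i w hw => ⟨(hX.2 _ _ hw.symm).1, (hX.2 _ _ hw.symm).2.1 (aL i w hw)⟩
      have h01 := ht 0 (.inl 1) (by simp)
      have h0a := ht 0 (.inr 0) (by simp)
      have h0b := ht 0 (.inr 1) (by simp)
      have h1a := ht 1 (.inr 0) (by simp)
      have h1b := ht 1 (.inr 1) (by simp)
      have hab := hX.2 (.inr 0) (.inr 1) (by simp)
      have hyd : ∀ w, Disjoint (X w) {y} := by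
        intro w; rw [disjoint_singleton_right]; exact hy w
      refine ⟨Sum.elim ![X (.inr 0) ∪ X (.inl 0), X (.inr 1)] ![X (.inl 1), {y}],
        mdl_dia ((hX.1 _).union (hX.1 _) (Or.inl h0a.2.symm)) (hX.1 _) (hX.1 _) (Cn.singleton y)
          (by rw [disjoint_union_left]; exact ⟨hab.1, h0b.1⟩)
          (by rw [disjoint_union_left]; exact ⟨h1a.1.symm, h01.1⟩)
          (by rw [disjoint_union_left]; exact ⟨hyd _, hyd _⟩) h1b.1.symm (hyd _) (hyd _)
          (h0b.2.mono subset_union_right (Subset.refl _))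
          (h01.2.mono subset_union_right (Subset.refl _))
          (c2.symm.mono subset_union_left (Subset.refl _)) h1b.2.symm c3.symm
          (fun h' => c1 h'.symm), ?_, ⟨.inr 1, by simp⟩⟩
      rintro (i | i) x hx
      · fin_cases i
        · exact ⟨.inl 0, by simpa using Or.inr hx⟩
        · exact ⟨.inr 0, by simpa using hx⟩
      · fin_cases i
        · exact ⟨.inl 0, by simpa using Or.inl hx⟩
        · exact ⟨.inl 1, by simpa using hx⟩
    · refine add _ c2 ?_
      rintro (i | i) hne hi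
      · exact absurd hi (c0' i)
      · fin_cases i
        · exact absurd rfl hne
        · exact absurd hi c3
  · obtain ⟨w, hw⟩ := hyt
    rcases w with (i | i)
    · exact absurd hw (c0' i)
    · have c3 : Tc G {y} (X (.inr 1)) := by
        fin_cases i
        · exact absurd hw c2
        · exact hw
      refine add _ c3 ?_
      rintro (j | j) hne hj
      · exact absurd hj (c0' j)
      · fin_cases j
        · exact absurd hj c2
        · exact absurd rfl hne

end

/-- connected graphs without a diamond contraction are well-quasi-ordered -/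
theorem dia_wqo (V : ℕ → Type) (hV : ∀ i, Finite (V i)) (G : ∀ i, SimpleGraph (V i))
    (hG : ∀ i, (G i).Connected ∧ ¬ IsContraction (G i) (B 2 2)) :
    ∃ i j, i < j ∧ IsContraction (G j) (G i) := by
  have hF : ∀ i, Fintype (V i) := fun i => Fintype.ofFinite _
  have hne : ∀ i, Nonempty (V i) := fun i => (hG i).1.nonempty
  choose r _ using fun i => (⟨Classical.choice (hne i), trivial⟩ : ∃ _ : V i, True)
  let P : ℕ → Ob := fun i => ⟨V i, G i, univ, r i, r i, False⟩
  have hP : ∀ i, P i ∈ Rd := by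
    intro i
    have h1 := cn_univ (hG i).1
    exact ⟨rfl, mem_univ _, h1, noDia_of h1 (hG i).2⟩
  have hw := rd_pwo
  rw [Set.partiallyWellOrderedOn_iff_exists_lt] at hw
  obtain ⟨a, b, hab, φ, -, -, h3⟩ := hw P hP
  refine ⟨a, b, hab, φ, ?_⟩
  rw [gr_eq, gr_eq] at h3
  have h4 : CM (tgr (G b) (r b) (r b) False) univ (tgr (G a) (r a) (r a) False) univ φ := h3
  rw [tgr_self, tgr_self] at h4
  refine wit_of_cn (f := φ) (H := G a) ?_ ?_
  · intro w
    convert h4.cn w (mem_univ _)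
  · intro w w' hne
    rw [h4.adj w (mem_univ _) w' (mem_univ _) hne]
    constructor
    · rintro ⟨x, -, y, -, h⟩
      exact ⟨x, y, h⟩
    · rintro ⟨x, y, h⟩
      exact ⟨x, mem_univ _, y, mem_univ _, h⟩

/-- contracting a leaf of `B (k + 1) (q + 1)` -/
lemma Bc_leaf (k q : ℕ) : IsContraction (B (k + 1) (q + 1)) (B (k + 1) q) := by
  let f : Fin (k + 1) ⊕ Fin (q + 1) → Fin (k + 1) ⊕ Fin q := fun x => match x with
    | .inl i => .inl i
    | .inr j => if h : j.val < q then .inr ⟨j.val, h⟩ else .inl 0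
  have f1 : ∀ j : Fin q, f (.inr j.castSucc) = .inr j := by
    intro j
    simp [f]
  have f2 : ∀ j : Fin (q + 1), ¬ j.val < q → f (.inr j) = .inl 0 := by
    intro j hj
    simp [f, hj]
  let c : Fin (k + 1) ⊕ Fin q → Fin (k + 1) ⊕ Fin (q + 1) := fun x => match x with
    | .inl i => .inl i
    | .inr j => .inr j.castSucc
  have hc : ∀ w, f (c w) = w := by
    rintro (i | j)
    · rfl
    · exact f1 j
  refine ⟨f, wit_of_center (G := B (k + 1) (q + 1)) (H := B (k + 1) q) f c hc ?_ ?_ ?_⟩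
  · rintro (i | j)
    · exact SimpleGraph.Reachable.refl _
    · by_cases hj : j.val < q
      · have hj' : j = (⟨j.val, hj⟩ : Fin q).castSucc := Fin.ext rfl
        generalize (⟨j.val, hj⟩ : Fin q) = j' at hj'
        subst hj'
        have e0 : c (f (.inr j'.castSucc)) = .inr j'.castSucc := by rw [f1]
        have e1 : (⟨.inr j'.castSucc, rfl⟩ : {x | f x = f (.inr j'.castSucc)}) =
            ⟨c (f (.inr j'.castSucc)), hc _⟩ := Subtype.ext e0.symm
        rw [← e1]
      · apply SimpleGraph.Adj.reachable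
        show (B (k + 1) (q + 1)).Adj (.inr j) (c (f (.inr j)))
        rw [f2 j hj]
        refine ⟨by simp [c], ?_⟩
        rintro ⟨-, ⟨a, ha⟩⟩
        exact absurd ha (by simp [c])
  · intro x y hxy
    by_cases h : f x = f y
    · exact Or.inl h
    · right
      refine ⟨h, ?_⟩
      rintro ⟨⟨i, hi⟩, ⟨j, hj⟩⟩
      rcases x with (x | x)
      · exact absurd hi (by simp [f])
      · rcases y with (y | y)
        · exact absurd hj (by simp [f])
        · exact hxy.2 ⟨⟨x, rfl⟩, ⟨y, rfl⟩⟩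
  · rintro (i | i) (j | j) h
    · refine ⟨.inl i, .inl j, rfl, rfl, ?_, ?_⟩
      · intro h'
        exact h.1 (by rw [Sum.inl.inj h'])
      · rintro ⟨⟨a, ha⟩, -⟩
        exact absurd ha (by simp)
    · refine ⟨.inl i, .inr j.castSucc, rfl, f1 j, by simp, ?_⟩
      rintro ⟨⟨a, ha⟩, -⟩
      exact absurd ha (by simp)
    · refine ⟨.inr i.castSucc, .inl j, f1 i, rfl, by simp, ?_⟩
      rintro ⟨-, ⟨a, ha⟩⟩
      exact absurd ha (by simp)
    · exact absurd ⟨⟨i, rfl⟩, ⟨j, rfl⟩⟩ h.2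

/-- contracting the edge between the two poles -/
lemma Bc_pole (q : ℕ) : IsContraction (B 2 q) (B 1 q) := by
  let f : Fin 2 ⊕ Fin q → Fin 1 ⊕ Fin q := fun x => match x with
    | .inl _ => .inl 0
    | .inr j => .inr j
  refine ⟨f, wit_of_center (G := B 2 q) (H := B 1 q) f (fun x => match x with
    | .inl _ => .inl 0
    | .inr j => .inr j) ?_ ?_ ?_ ?_⟩
  · rintro (i | j)
    · show Sum.inl 0 = Sum.inl i
      rw [Subsingleton.elim i 0]
    · rfl
  · rintro (i | j)
    · by_cases hi : i = 0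
      · subst hi
        exact SimpleGraph.Reachable.refl _
      · apply SimpleGraph.Adj.reachable
        show (B 2 q).Adj (.inl i) (.inl 0)
        refine ⟨by simpa using hi, ?_⟩
        rintro ⟨⟨a, ha⟩, -⟩
        exact absurd ha (by simp)
    · exact SimpleGraph.Reachable.refl _
  · intro x y hxy
    by_cases h : f x = f y
    · exact Or.inl h
    · right
      refine ⟨h, ?_⟩
      rintro ⟨⟨i, hi⟩, ⟨j, hj⟩⟩
      rcases x with (x | x)
      · exact absurd hi (by simp [f])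
      · rcases y with (y | y)
        · exact absurd hj (by simp [f])
        · exact hxy.2 ⟨⟨x, rfl⟩, ⟨y, rfl⟩⟩
  · rintro (i | i) (j | j) h
    · exact absurd (by rw [Subsingleton.elim i j]) h.1
    · refine ⟨.inl 0, .inr j, ?_, rfl, by simp, ?_⟩
      · show Sum.inl 0 = Sum.inl i
        rw [Subsingleton.elim i 0]
      rintro ⟨⟨a, ha⟩, -⟩
      exact absurd ha (by simp)
    · refine ⟨.inr i, .inl 0, rfl, ?_, by simp, ?_⟩
      · show Sum.inl 0 = Sum.inl j
        rw [Subsingleton.elim j 0]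
      rintro ⟨-, ⟨a, ha⟩⟩
      exact absurd ha (by simp)
    · exact absurd ⟨⟨i, rfl⟩, ⟨j, rfl⟩⟩ h.2

variable {V₁ V₂ : Type} {H₁ : SimpleGraph V₁} {H₂ : SimpleGraph V₂}

lemma Small.contr (h : Small H₁) : IsContraction (B 2 2) H₁ := by
  have h21 : IsContraction (B 2 2) (B 2 1) := Bc_leaf 1 1
  have h12 : IsContraction (B 2 2) (B 1 2) := Bc_pole 2
  have h11 : IsContraction (B 2 2) (B 1 1) := h12.trans (Bc_leaf 0 1)
  have h10 : IsContraction (B 2 2) (B 1 0) := h11.trans (Bc_leaf 0 0)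
  rcases h with ⟨⟨e⟩⟩ | ⟨⟨e⟩⟩ | ⟨⟨e⟩⟩ | ⟨⟨e⟩⟩ | ⟨⟨e⟩⟩
  · exact h10.trans (IsContraction.of_iso e.symm)
  · exact h11.trans (IsContraction.of_iso e.symm)
  · exact h12.trans (IsContraction.of_iso e.symm)
  · exact h21.trans (IsContraction.of_iso e.symm)
  · exact IsContraction.of_iso e.symm

theorem Small.wqo (h : Small H₁) : Wqo H₁ H₂ := by
  rw [wqo_iff]
  intro V hV G hG
  exact dia_wqo V hV G (fun i => ⟨(hG i).1, fun h' => (hG i).2.1 (h'.trans h.contr)⟩)

theorem classification :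
    Wqo H₁ H₂ ↔ Small H₁ ∨ Small H₂ ∨ Pair H₁ H₂ ∨ Pair H₂ H₁ := by
  constructor
  · exact necessity
  · rintro (h | h | h | h)
    · exact h.wqo
    · exact (h.wqo).symm
    · exact h.wqo
    · exact h.wqo.symm

end Pool.Agent.Run7.h855
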