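import Pool.Agent.Run7.h855.Basic

/-! The antichain of nested lozenges. -/

namespace Pool.Agent.Run7.h855

open Pool.Agent.H175R2

variable {W : Type} {H : SimpleGraph W}

/-- adjacency of the nested lozenges in coordinates: columns `0, …, n+1` of two vertices each;
consecutive columns among `1, …, n` are completely joined, the columns `0,1` and `n,n+1` are joined
by a matching, and the two vertices of the columns `0` and `n+1` are adjacent. -/
def lozR (n i b j c : ℕ) : Prop :=
  (i + 1 = j ∧ (b = c ∨ (1 ≤ i ∧ j ≤ n))) ∨ (j + 1 = i ∧ (b = c ∨ (1 ≤ j ∧ i ≤ n))) ∨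
    (i = j ∧ b ≠ c ∧ (i = 0 ∨ i = n + 1))

/-- the nested lozenges -/
def Loz (n : ℕ) : SimpleGraph (Fin (n + 2) × Fin 2) where
  Adj x y := lozR n x.1.val x.2.val y.1.val y.2.val
  symm := ⟨fun x y h => by unfold lozR at *; omega⟩
  loopless := ⟨fun x h => by unfold lozR at *; omega⟩

lemma loz_adj {n : ℕ} {x y : Fin (n + 2) × Fin 2} :
    (Loz n).Adj x y ↔ lozR n x.1.val x.2.val y.1.val y.2.val := Iff.rfl

/-- the reversal -/
def lozRev (n : ℕ) : Loz n ≃g Loz n where
  toFun x := (x.1.rev, x.2)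
  invFun x := (x.1.rev, x.2)
  left_inv x := by simp
  right_inv x := by simp
  map_rel_iff' := by
    intro x y
    simp only [Equiv.coe_fn_mk, loz_adj, Fin.val_rev]
    have := x.1.isLt
    have := y.1.isLt
    unfold lozR
    omega

lemma wit_rev {n : ℕ} {f : Fin (n + 2) × Fin 2 → W} (h : Wit (Loz n) H f) :
    Wit (Loz n) H (f ∘ lozRev n) := by
  obtain ⟨g, hg⟩ := IsContraction.of_iso (lozRev n)
  refine Wit.trans (H := Loz n) ?_ h
  refine ⟨fun w => ?_, fun w w' _ => ?_⟩
  · have : Nonempty {v | lozRev n v = w} := ⟨⟨(lozRev n).symm w, by simp⟩⟩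
    refine ⟨fun a b => ?_⟩
    have : a = b := Subtype.ext ((lozRev n).injective (by
      have h1 := a.2
      have h2 := b.2
      simp only [Set.mem_setOf_eq] at h1 h2
      rw [h1, h2]))
    rw [this]
  · constructor
    · intro h
      exact ⟨(lozRev n).symm w, (lozRev n).symm w', by simp, by simp, (lozRev n).symm.map_adj_iff.2 h⟩
    · rintro ⟨v, v', rfl, rfl, h⟩
      exact (lozRev n).map_adj_iff.2 h

section

variable {n : ℕ} {f : Fin (n + 2) × Fin 2 → W}

/-- a fibre meeting both sides of a column meets the column -/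
lemma loz_side (h : Wit (Loz n) H f) {x y : Fin (n + 2) × Fin 2} (hxy : f x = f y) {i : ℕ}
    (hx : x.1.val ≤ i) (hy : i ≤ y.1.val) : ∃ z, z.1.val = i ∧ f z = f x := by
  by_cases h1 : x.1.val = i
  · exact ⟨x, h1, rfl⟩
  obtain ⟨a, b, ha, hb, hab, h2, h3⟩ := fib_cross h hxy (fun z => z.1.val < i) (by omega) (by omega)
  refine ⟨b, ?_, hb⟩
  rw [loz_adj] at hab
  unfold lozR at hab
  omega

/-- all fibres not meeting the column `i` are on the left of it -/
def LeftOf (f : Fin (n + 2) × Fin 2 → W) (i : ℕ) : Prop :=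
  ∀ x, (∀ z, z.1.val = i → f z ≠ f x) → x.1.val < i

/-- all fibres not meeting the column `i` are on the right of it -/
def RightOf (f : Fin (n + 2) × Fin 2 → W) (i : ℕ) : Prop :=
  ∀ x, (∀ z, z.1.val = i → f z ≠ f x) → i < x.1.val

lemma left_or_right (h : Wit (Loz n) H f) (i : ℕ)
    (hQ : ∀ x y, f x ≠ f y → (∀ z, z.1.val = i → f z ≠ f x) → (∀ z, z.1.val = i → f z ≠ f y) →
      H.Adj (f x) (f y) ∨ ∃ t, (∀ z, z.1.val = i → f z ≠ f t) ∧ H.Adj (f x) (f t) ∧ H.Adj (f t) (f y)) :
    LeftOf f i ∨ RightOf f i := by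
  by_contra hcon
  rw [not_or] at hcon
  unfold LeftOf RightOf at hcon
  push Not at hcon
  obtain ⟨⟨y, hy, hy'⟩, x, hx, hx'⟩ := hcon
  have hx2 : x.1.val < i := by
    rcases Nat.lt_or_ge x.1.val i with h1 | h1
    · exact h1
    · exact absurd rfl (hx x (by omega))
  have hy2 : i < y.1.val := by
    rcases Nat.lt_or_ge i y.1.val with h1 | h1
    · exact h1
    · exact absurd rfl (hy y (by omega))
  -- fibres stay on one side
  have hL : ∀ x x', f x = f x' → (∀ z, z.1.val = i → f z ≠ f x) → x.1.val < i → x'.1.val < i := by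
    intro x x' hxx hz hxi
    by_contra hc
    obtain ⟨z, hz1, hz2⟩ := loz_side h hxx (i := i) (by omega) (by omega)
    exact hz z hz1 hz2
  have hR : ∀ x x', f x = f x' → (∀ z, z.1.val = i → f z ≠ f x) → i < x.1.val → i < x'.1.val := by
    intro x x' hxx hz hxi
    by_contra hc
    obtain ⟨z, hz1, hz2⟩ := loz_side h hxx.symm (i := i) (by omega) (by omega)
    exact hz z hz1 (by rw [hz2, hxx])
  have hno : ∀ x y, (∀ z, z.1.val = i → f z ≠ f x) → (∀ z, z.1.val = i → f z ≠ f y) →
      x.1.val < i → i < y.1.val → ¬ H.Adj (f x) (f y) := by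
    intro x y hx hy hxi hyi hadj
    obtain ⟨a, b, ha, hb, hab⟩ := (h.2 _ _ hadj.ne).1 hadj
    have h1 := hL x a ha.symm hx hxi
    have h2 := hR y b hb.symm hy hyi
    rw [loz_adj] at hab
    unfold lozR at hab
    omega
  have hne : f x ≠ f y := by
    intro he
    have := hL x y he hx hx2
    omega
  rcases hQ x y hne hx hy with h1 | ⟨t, ht, h1, h2⟩
  · exact hno x y hx hy hx2 hy2 h1
  · rcases Nat.lt_trichotomy t.1.val i with h3 | h3 | h3
    · exact hno t y ht hy h3 hy2 h2
    · exact ht t h3 rfl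
    · exact hno x t hx ht hx2 h3 h1

/-- the image of a column -/
lemma col_eq (z : Fin (n + 2) × Fin 2) (i : Fin (n + 2)) (hz : z.1.val = i.val) :
    z = (i, 0) ∨ z = (i, 1) := by
  obtain ⟨a, b⟩ := z
  have : a = i := Fin.ext hz
  subst this
  rcases (show b = 0 ∨ b = 1 by omega) with rfl | rfl
  · exact Or.inl rfl
  · exact Or.inr rfl

/-- if the separation property holds at all columns then `H` has at most four vertices -/
lemma sweep (h : Wit (Loz n) H f) (hLR : ∀ i, i ≤ n + 1 → LeftOf f i ∨ RightOf f i) :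
    ∃ a b c d : W, ∀ w, w = a ∨ w = b ∨ w = c ∨ w = d := by
  classical
  have hex : ∃ i, i ≤ n + 1 ∧ LeftOf f i := by
    rcases hLR (n + 1) le_rfl with h1 | h1
    · exact ⟨n + 1, le_rfl, h1⟩
    · refine ⟨n + 1, le_rfl, fun x hx => ?_⟩
      have := h1 x hx
      have := x.1.isLt
      omega
  set i := Nat.find hex with hi
  obtain ⟨hi1, hi2⟩ := Nat.find_spec hex
  rw [← hi] at hi1 hi2
  let I : Fin (n + 2) := ⟨i, by omega⟩
  by_cases h0 : i = 0
  · refine ⟨f (I, 0), f (I, 1), f (I, 0), f (I, 1), fun w => ?_⟩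
    obtain ⟨x, rfl⟩ := h.surj w
    by_contra hcon
    have := hi2 x (fun z hz hzx => by
      rcases col_eq z I (by simpa [I] using hz) with rfl | rfl
      · exact hcon (Or.inl hzx.symm)
      · exact hcon (Or.inr (Or.inl hzx.symm)))
    omega
  · have hnl : ¬ LeftOf f (i - 1) := fun hc => Nat.find_min hex (m := i - 1) (by omega) ⟨by omega, hc⟩
    have hr : RightOf f (i - 1) := (hLR (i - 1) (by omega)).resolve_left hnl
    let I' : Fin (n + 2) := ⟨i - 1, by omega⟩
    refine ⟨f (I, 0), f (I, 1), f (I', 0), f (I', 1), fun w => ?_⟩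
    obtain ⟨x, rfl⟩ := h.surj w
    by_contra hcon
    push Not at hcon
    obtain ⟨c1, c2, c3, c4⟩ := hcon
    have h1 := hi2 x (fun z hz hzx => by
      rcases col_eq z I (by simpa [I] using hz) with rfl | rfl
      · exact c1 hzx.symm
      · exact c2 hzx.symm)
    have h2 := hr x (fun z hz hzx => by
      rcases col_eq z I' (by simpa [I'] using hz) with rfl | rfl
      · exact c3 hzx.symm
      · exact c4 hzx.symm)
    omega

end

/-- `J r m` with at least five vertices is not a contraction of a nested lozenge. -/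
theorem loz_J {n r m : ℕ} (hr : 5 ≤ r + 2 * m) : ¬ IsContraction (Loz n) (J r m) := by
  rintro ⟨f, hf⟩
  have hf : Wit (Loz n) (J r m) f := hf
  have hcard : Fintype.card (Fin r ⊕ Fin m × Fin 2) = r + 2 * m := by
    simp; ring
  have hJ : ∀ x y : Fin r ⊕ Fin m × Fin 2, x ≠ y → ¬ (J r m).Adj x y →
      ∃ i a b, x = .inr (i, a) ∧ y = .inr (i, b) := by
    intro x y hxy hna
    by_contra hc
    exact hna ⟨hxy, hc⟩
  have hLR : ∀ i, i ≤ n + 1 → LeftOf f i ∨ RightOf f i := by
    intro i hi
    refine left_or_right hf i fun x y hxy hx hy => ?_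
    by_cases hadj : (J r m).Adj (f x) (f y)
    · exact Or.inl hadj
    · right
      obtain ⟨j, a, b, hxa, hyb⟩ := hJ _ _ hxy hadj
      let I : Fin (n + 2) := ⟨i, by omega⟩
      have : ∃ w : Fin r ⊕ Fin m × Fin 2, w ∉ ({f x, f y, f (I, 0), f (I, 1)} : Finset _) := by
        by_contra hc
        push Not at hc
        have h1 : (Finset.univ : Finset (Fin r ⊕ Fin m × Fin 2)) ⊆ {f x, f y, f (I, 0), f (I, 1)} :=
          fun w _ => hc w
        have h2 := Finset.card_le_card h1
        rw [Finset.card_univ, hcard] at h2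
        have h3 := Finset.card_le_four (a := f x) (b := f y) (c := f (I, 0)) (d := f (I, 1))
        omega
      obtain ⟨w, hw⟩ := this
      simp only [Finset.mem_insert, Finset.mem_singleton, not_or] at hw
      obtain ⟨w1, w2, w3, w4⟩ := hw
      obtain ⟨t, rfl⟩ := hf.surj w
      have key : ∀ u v : Fin r ⊕ Fin m × Fin 2, ∀ a b, u = .inr (j, a) → v = .inr (j, b) →
          u ≠ v → ∀ w, w ≠ u → w ≠ v → (J r m).Adj u w := by
        rintro u v a b rfl rfl huv w hwu hwv
        refine ⟨Ne.symm hwu, ?_⟩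
        rintro ⟨i', a', b', h1, rfl⟩
        simp only [Sum.inr.injEq, Prod.mk.injEq] at h1
        obtain ⟨rfl, rfl⟩ := h1
        have hab : a ≠ b := fun h' => huv (by rw [h'])
        have hab1 : b' ≠ a := fun h' => hwu (by rw [h'])
        have hab2 : b' ≠ b := fun h' => hwv (by rw [h'])
        have e1 := Fin.val_ne_iff.2 hab
        have e2 := Fin.val_ne_iff.2 hab1
        have e3 := Fin.val_ne_iff.2 hab2
        omega
      refine ⟨t, fun z hz => ?_, key _ _ a b hxa hyb hxy _ w1 w2,
        (key _ _ b a hyb hxa hxy.symm _ w2 w1).symm⟩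
      rcases col_eq z I (by simpa [I] using hz) with rfl | rfl
      · exact fun h' => w3 h'.symm
      · exact fun h' => w4 h'.symm
  obtain ⟨a, b, c, d, hw⟩ := sweep hf hLR
  have h1 : (Finset.univ : Finset (Fin r ⊕ Fin m × Fin 2)) ⊆ {a, b, c, d} := by
    intro w _
    rcases hw w with h | h | h | h <;> simp [h]
  have h2 := Finset.card_le_card h1
  rw [Finset.card_univ, hcard] at h2
  have h3 := Finset.card_le_four (a := a) (b := b) (c := c) (d := d)
  omega

lemma loz_rail {n : ℕ} (i : ℕ) (hi : i + 1 < n + 2) (b : Fin 2) :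
    (Loz n).Adj (⟨i, by omega⟩, b) (⟨i + 1, hi⟩, b) := by
  rw [loz_adj]; unfold lozR; simp

lemma loz_rung {n : ℕ} : (Loz n).Adj (0, 0) (0, 1) := by
  rw [loz_adj]; unfold lozR; simp

lemma loz_connected (n : ℕ) : (Loz n).Connected := by
  have key : ∀ (b : Fin 2) (i : ℕ) (hi : i < n + 2), (Loz n).Reachable (⟨i, hi⟩, b) (0, b) := by
    intro b i
    induction i with
    | zero => intro hi; exact SimpleGraph.Reachable.refl _
    | succ i ih =>
      intro hi
      exact (loz_rail i hi b).symm.reachable.trans (ih (by omega))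
  have key2 : ∀ x, (Loz n).Reachable x (0, 0) := by
    rintro ⟨i, b⟩
    refine (key b i.1 i.2).trans ?_
    rcases (show b = 0 ∨ b = 1 by omega) with rfl | rfl
    · exact SimpleGraph.Reachable.refl _
    · exact loz_rung.symm.reachable
  have : Nonempty (Fin (n + 2) × Fin 2) := ⟨(0, 0)⟩
  exact ⟨fun x y => (key2 x).trans (key2 y).symm⟩

/-- along the columns up to `c` two non-adjacent vertices of `H` cannot share all the images -/
lemma loz_two {n : ℕ} {f : Fin (n + 2) × Fin 2 → W} (h : Wit (Loz n) H f) {w w' : W}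
    (hne : w ≠ w') (hna : ¬ H.Adj w w') (c : ℕ) (hc : c < n + 2)
    (hall : ∀ x : Fin (n + 2) × Fin 2, x.1.val ≤ c → f x = w ∨ f x = w')
    (h0 : f (⟨c, hc⟩, 0) = w) (h1 : f (⟨c, hc⟩, 1) = w') : False := by
  have key : ∀ (b : Fin 2) (u : W), f (⟨c, hc⟩, b) = u → (u = w ∨ u = w') → ∀ k (hk : k ≤ c),
      f (⟨c - k, by omega⟩, b) = u := by
    intro b u hu huw k
    induction k with
    | zero => intro _; exact hu
    | succ k ih =>
      intro hk
      have h2 := ih (by omega)
      have h3 := loz_rail (n := n) (c - (k + 1)) (by omega) b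
      have h4 := h.adj _ _ h3
      have e : (⟨c - (k + 1) + 1, by omega⟩ : Fin (n + 2)) = ⟨c - k, by omega⟩ := Fin.ext (by
        show c - (k + 1) + 1 = c - k
        omega)
      rw [e, h2] at h4
      rcases h4 with h4 | h4
      · exact h4
      · exfalso
        rcases hall (⟨c - (k + 1), by omega⟩, b) (by show c - (k + 1) ≤ c; omega) with h5 | h5 <;>
          rw [h5] at h4 <;> rcases huw with rfl | rfl
        · exact h4.ne rfl
        · exact hna h4
        · exact hna h4.symm
        · exact h4.ne rfl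
  have e0 := key 0 w h0 (Or.inl rfl) c le_rfl
  have e1 := key 1 w' h1 (Or.inr rfl) c le_rfl
  have h3 := h.adj _ _ (loz_rung (n := n))
  have e : (⟨c - c, by omega⟩ : Fin (n + 2)) = 0 := Fin.ext (by simp)
  rw [e] at e0 e1
  rw [e0, e1] at h3
  rcases h3 with h3 | h3
  · exact hne h3
  · exact hna h3

section

variable {n q : ℕ} {f : Fin (n + 2) × Fin 2 → Fin 2 ⊕ Fin q}

/-- the column `i` consists of the two poles -/
def PoleCol (f : Fin (n + 2) × Fin 2 → Fin 2 ⊕ Fin q) (i : ℕ) : Prop :=
  ∀ a : Fin 2, ∃ z, z.1.val = i ∧ f z = .inl a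

lemma pole_leaf {i : ℕ} (hi : PoleCol f i) {x : Fin (n + 2) × Fin 2} (hx : x.1.val = i) (j : Fin q) :
    f x ≠ .inr j := by
  intro hj
  obtain ⟨z0, hz0, e0⟩ := hi 0
  obtain ⟨z1, hz1, e1⟩ := hi 1
  have h0 := col_eq z0 x.1 (by omega)
  have h1 := col_eq z1 x.1 (by omega)
  have h2 := col_eq x x.1 rfl
  have hne : z0 ≠ z1 := by
    intro h
    rw [h, e1] at e0
    simp at e0
  have c0 : x ≠ z0 := by
    intro h
    rw [h, e0] at hj
    simp at hj
  have c1 : x ≠ z1 := by
    intro h
    rw [h, e1] at hj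
    simp at hj
  rcases h0 with h0 | h0 <;> rcases h1 with h1 | h1 <;> rcases h2 with h2 | h2
  · exact hne (h0.trans h1.symm)
  · exact hne (h0.trans h1.symm)
  · exact c0 (h2.trans h0.symm)
  · exact c1 (h2.trans h1.symm)
  · exact c1 (h2.trans h1.symm)
  · exact c0 (h2.trans h0.symm)
  · exact hne (h0.trans h1.symm)
  · exact hne (h0.trans h1.symm)

lemma B_leaf {q : ℕ} {i j : Fin q} : ¬ (B 2 q).Adj (.inr i) (.inr j) := fun h => h.2 ⟨⟨i, rfl⟩, j, rfl⟩

lemma B_pole {q : ℕ} {a : Fin 2} {y : Fin 2 ⊕ Fin q} (h : y ≠ .inl a) : (B 2 q).Adj (.inl a) y := by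
  refine ⟨h.symm, ?_⟩
  rintro ⟨⟨i, hi⟩, _⟩
  simp at hi

/-- columns which are not pole columns separate -/
lemma nonpole (h : Wit (Loz n) (B 2 q) f) {i : ℕ} (hi : ¬ PoleCol f i) : LeftOf f i ∨ RightOf f i := by
  refine left_or_right h i fun x y hxy hx hy => ?_
  unfold PoleCol at hi
  push Not at hi
  obtain ⟨a, ha⟩ := hi
  by_cases h1 : f x = .inl a
  · left; rw [h1]; exact B_pole (by rw [← h1]; exact hxy.symm)
  by_cases h2 : f y = .inl a
  · left; rw [h2]; exact (B_pole h1).symm
  · right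
    obtain ⟨t, ht⟩ := h.surj (.inl a)
    refine ⟨t, fun z hz => by rw [ht]; exact ha z hz, ?_, ?_⟩
    · rw [ht]; exact (B_pole h1).symm
    · rw [ht]; exact B_pole h2

/-- at most one leaf on the left of the first pole column -/
lemma one_left (h : Wit (Loz n) (B 2 q) f) {i : ℕ} (hi : PoleCol f i)
    (hmin : ∀ k < i, ¬ PoleCol f k) {x y : Fin (n + 2) × Fin 2} (hx : x.1.val < i)
    (hy : y.1.val < i) {j j' : Fin q} (hxj : f x = .inr j) (hyj : f y = .inr j') : j = j' := by
  by_contra hne
  have hi2 : i < n + 2 := by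
    obtain ⟨z, hz, _⟩ := hi 0
    rw [← hz]; exact z.1.isLt
  have hw : (Sum.inr j : Fin 2 ⊕ Fin q) ≠ .inr j' := by simpa using hne
  -- leaves stay on the left
  have stay : ∀ (u v : Fin (n + 2) × Fin 2) (l : Fin q), f u = .inr l → f v = .inr l →
      u.1.val < i → v.1.val < i := by
    intro u v l hu hv hui
    by_contra hc
    obtain ⟨z, hz1, hz2⟩ := loz_side h (hu.trans hv.symm) (i := i) (by omega) (by omega)
    exact pole_leaf hi hz1 l (by rw [hz2, hu])
  have hR : RightOf f (i - 1) := by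
    rcases nonpole h (hmin (i - 1) (by omega)) with h1 | h1
    · exfalso
      have h2 := hmin (i - 1) (by omega)
      unfold PoleCol at h2
      push Not at h2
      obtain ⟨a, ha⟩ := h2
      obtain ⟨z, hz, hza⟩ := hi a
      have := h1 z (fun z' hz' => by rw [hza]; exact ha z' hz')
      omega
    · exact h1
  let C : Fin (n + 2) := ⟨i - 1, by omega⟩
  have mem : ∀ (u : Fin (n + 2) × Fin 2) (l : Fin q), f u = .inr l → u.1.val < i →
      f (C, 0) = .inr l ∨ f (C, 1) = .inr l := by
    intro u l hu hui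
    by_contra hc
    push Not at hc
    have := hR u (fun z hz => by
      rw [hu]
      rcases col_eq z C (by simpa [C] using hz) with rfl | rfl
      · exact hc.1
      · exact hc.2)
    omega
  have m1 := mem x j hxj hx
  have m2 := mem y j' hyj hy
  have main : ∀ (w w' : Fin 2 ⊕ Fin q), w ≠ w' → ¬ (B 2 q).Adj w w' → f (C, 0) = w →
      f (C, 1) = w' → False := by
    intro w w' hww hna h0 h1
    refine loz_two h hww hna (i - 1) (by omega) ?_ h0 h1
    intro x hx
    by_contra hc
    push Not at hc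
    have := hR x (fun z hz => by
      rcases col_eq z C (by simpa [C] using hz) with rfl | rfl
      · rw [h0]; exact hc.1.symm
      · rw [h1]; exact hc.2.symm)
    omega
  rcases m1 with m1 | m1 <;> rcases m2 with m2 | m2
  · exact hw (m1.symm.trans m2)
  · exact main _ _ hw B_leaf m1 m2
  · exact main _ _ hw.symm B_leaf m2 m1
  · exact hw (m1.symm.trans m2)

end

/-- `K_{1,1,q}`, `3 ≤ q`, is not a contraction of a nested lozenge -/
theorem loz_book {n q : ℕ} (hq : 3 ≤ q) : ¬ IsContraction (Loz n) (B 2 q) := by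
  classical
  rintro ⟨f, hf⟩
  have hf : Wit (Loz n) (B 2 q) f := hf
  by_cases hex : ∃ i, PoleCol f i
  · -- first pole column
    set i0 := Nat.find hex with hi0
    have h0 : PoleCol f i0 := Nat.find_spec hex
    have hmin : ∀ k < i0, ¬ PoleCol f k := fun k hk => Nat.find_min hex hk
    -- the reversed map
    have hf' := wit_rev hf
    have rev_pole : ∀ i, i < n + 2 → (PoleCol (f ∘ lozRev n) (n + 1 - i) ↔ PoleCol f i) := by
      intro i hi
      unfold PoleCol
      refine forall_congr' fun a => ?_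
      constructor
      · rintro ⟨z, hz, hza⟩
        refine ⟨lozRev n z, ?_, hza⟩
        show (z.1.rev).val = i
        rw [Fin.val_rev]; omega
      · rintro ⟨z, hz, hza⟩
        refine ⟨lozRev n z, ?_, ?_⟩
        · show (z.1.rev).val = _
          rw [Fin.val_rev]; omega
        · show f (lozRev n (lozRev n z)) = _
          have : lozRev n (lozRev n z) = z := (lozRev n).left_inv z
          rw [this]; exact hza
    have hlt : ∀ i, PoleCol f i → i < n + 2 := by
      intro i hi
      obtain ⟨z, hz, _⟩ := hi 0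
      rw [← hz]; exact z.1.isLt
    have hex' : ∃ i, PoleCol (f ∘ lozRev n) i :=
      ⟨n + 1 - i0, (rev_pole i0 (hlt _ h0)).2 h0⟩
    set i1 := Nat.find hex' with hi1
    have h1 : PoleCol (f ∘ lozRev n) i1 := Nat.find_spec hex'
    have hmin1 : ∀ k < i1, ¬ PoleCol (f ∘ lozRev n) k := fun k hk => Nat.find_min hex' hk
    have hi1lt : i1 < n + 2 := by
      obtain ⟨z, hz, _⟩ := h1 0
      rw [← hz]; exact z.1.isLt
    have h1' : PoleCol f (n + 1 - i1) := by
      rw [← rev_pole _ (by omega)]
      have : n + 1 - (n + 1 - i1) = i1 := by omega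
      rw [this]; exact h1
    -- each leaf is on the left of `i0` or on the right of `n+1-i1`
    have side : ∀ j : Fin q, ∃ x, f x = .inr j ∧ (x.1.val < i0 ∨ n + 1 - i1 < x.1.val) := by
      intro j
      obtain ⟨x, hx⟩ := hf.surj (.inr j)
      refine ⟨x, hx, ?_⟩
      by_contra hc
      push Not at hc
      obtain ⟨c1, c2⟩ := hc
      -- the column of `x` is a pole column
      have : PoleCol f x.1.val := by
        intro a
        obtain ⟨z, hz, hza⟩ := h0 a
        obtain ⟨z', hz', hza'⟩ := h1' a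
        obtain ⟨t, ht, hta⟩ := loz_side hf (hza.trans hza'.symm) (i := x.1.val) (by omega) (by omega)
        exact ⟨t, ht, hta.trans hza⟩
      exact pole_leaf this rfl j hx
    have hL : ∀ (j j' : Fin q) (x y : Fin (n + 2) × Fin 2), f x = .inr j → f y = .inr j' →
        x.1.val < i0 → y.1.val < i0 → j = j' :=
      fun j j' x y hx hy h2 h3 => one_left hf h0 hmin h2 h3 hx hy
    have hR : ∀ (j j' : Fin q) (x y : Fin (n + 2) × Fin 2), f x = .inr j → f y = .inr j' →
        n + 1 - i1 < x.1.val → n + 1 - i1 < y.1.val → j = j' := by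
      intro j j' x y hx hy h2 h3
      refine one_left hf' h1 hmin1 (x := lozRev n x) (y := lozRev n y) ?_ ?_ ?_ ?_
      · show (x.1.rev).val < i1
        rw [Fin.val_rev]
        have := x.1.isLt
        omega
      · show (y.1.rev).val < i1
        rw [Fin.val_rev]
        have := y.1.isLt
        omega
      · show f (lozRev n (lozRev n x)) = _
        have : lozRev n (lozRev n x) = x := (lozRev n).left_inv x
        rw [this]; exact hx
      · show f (lozRev n (lozRev n y)) = _
        have : lozRev n (lozRev n y) = y := (lozRev n).left_inv y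
        rw [this]; exact hy
    let j0 : Fin q := ⟨0, by omega⟩
    let j1 : Fin q := ⟨1, by omega⟩
    let j2 : Fin q := ⟨2, by omega⟩
    obtain ⟨x0, e0, s0⟩ := side j0
    obtain ⟨x1, e1, s1⟩ := side j1
    obtain ⟨x2, e2, s2⟩ := side j2
    have n01 : j0 ≠ j1 := by simp [j0, j1]
    have n02 : j0 ≠ j2 := by simp [j0, j2]
    have n12 : j1 ≠ j2 := by simp [j1, j2]
    rcases s0 with s0 | s0 <;> rcases s1 with s1 | s1 <;> rcases s2 with s2 | s2
    · exact n01 (hL _ _ _ _ e0 e1 s0 s1)
    · exact n01 (hL _ _ _ _ e0 e1 s0 s1)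
    · exact n02 (hL _ _ _ _ e0 e2 s0 s2)
    · exact n12 (hR _ _ _ _ e1 e2 s1 s2)
    · exact n12 (hL _ _ _ _ e1 e2 s1 s2)
    · exact n02 (hR _ _ _ _ e0 e2 s0 s2)
    · exact n01 (hR _ _ _ _ e0 e1 s0 s1)
    · exact n01 (hR _ _ _ _ e0 e1 s0 s1)
  · push Not at hex
    obtain ⟨a, b, c, d, hw⟩ := sweep hf (fun i _ => nonpole hf (hex i))
    have h1 : (Finset.univ : Finset (Fin 2 ⊕ Fin q)) ⊆ {a, b, c, d} := by
      intro w _
      rcases hw w with h | h | h | h <;> simp [h]
    have h2 := Finset.card_le_card h1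
    rw [Finset.card_univ] at h2
    have h3 := Finset.card_le_four (a := a) (b := b) (c := c) (d := d)
    have h4 : Fintype.card (Fin 2 ⊕ Fin q) = 2 + q := by simp
    omega

end Pool.Agent.Run7.h855
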