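import Pool.Agent.Run7.h855.Loz

/-! The nested lozenges are pairwise incomparable. -/

namespace Pool.Agent.Run7.h855

open Pool.Agent.H175R2

section target

variable {m : ℕ}

lemma loz_tri (hm : 1 ≤ m) {p q r : Fin (m + 2) × Fin 2} (h1 : (Loz m).Adj p q)
    (h2 : (Loz m).Adj q r) (h3 : (Loz m).Adj p r) : False := by
  rw [loz_adj] at h1 h2 h3
  have := p.2.isLt
  have := q.2.isLt
  have := r.2.isLt
  unfold lozR at h1 h2 h3
  omega

/-- a list of three neighbours of an inner vertex -/
lemma loz_inner (hm : 2 ≤ m) (p : Fin (m + 2) × Fin 2) (h0 : p.1.val ≠ 0) (h1 : p.1.val ≠ m + 1) :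
    ∃ a b c, a ≠ b ∧ a ≠ c ∧ b ≠ c ∧ (Loz m).Adj p a ∧ (Loz m).Adj p b ∧ (Loz m).Adj p c := by
  obtain ⟨⟨i, hi⟩, b⟩ := p
  simp only at h0 h1
  by_cases h : i = 1
  · subst h
    refine ⟨(⟨0, by omega⟩, b), (⟨2, by omega⟩, 0), (⟨2, by omega⟩, 1), ?_, ?_, ?_, ?_, ?_, ?_⟩
    · simp
    · simp
    · simp
    · rw [loz_adj]; unfold lozR; simp
    · rw [loz_adj]; unfold lozR; simp; omega
    · rw [loz_adj]; unfold lozR; simp; omega
  · refine ⟨(⟨i + 1, by omega⟩, b), (⟨i - 1, by omega⟩, 0), (⟨i - 1, by omega⟩, 1), ?_, ?_, ?_, ?_, ?_, ?_⟩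
    · simp only [ne_eq, Prod.mk.injEq, Fin.mk.injEq, not_and]; intro h'; omega
    · simp only [ne_eq, Prod.mk.injEq, Fin.mk.injEq, not_and]; intro h'; omega
    · simp
    · rw [loz_adj]; unfold lozR; simp
    · rw [loz_adj]; unfold lozR; dsimp only; omega
    · rw [loz_adj]; unfold lozR; dsimp only; omega

/-- the other vertex of the column -/
def flip (b : Fin 2) : Fin 2 := 1 - b

lemma flip_ne (b : Fin 2) : flip b ≠ b := by fin_cases b <;> simp [flip]

lemma flip_val (b : Fin 2) : (flip b).val = 1 - b.val := by fin_cases b <;> simp [flip]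

lemma eq_or_flip (a b : Fin 2) : a = b ∨ a = flip b := by
  have h1 := flip_val b
  have := a.isLt
  have := b.isLt
  by_cases h : a.val = b.val
  · exact Or.inl (Fin.ext h)
  · right; apply Fin.ext; omega

/-- description of the neighbours of an end vertex -/
lemma loz_end (hm : 1 ≤ m) (p : Fin (m + 2) × Fin 2) (h : p.1.val = 0 ∨ p.1.val = m + 1) :
    ∃ c : Fin (m + 2), (Loz m).Adj p (p.1, flip p.2) ∧ (Loz m).Adj p (c, p.2) ∧
      (∀ x, (Loz m).Adj p x → x = (p.1, flip p.2) ∨ x = (c, p.2)) ∧
      (∀ x, (Loz m).Adj (p.1, flip p.2) x → x = p ∨ x = (c, flip p.2)) ∧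
      ¬ (Loz m).Adj (c, flip p.2) (c, p.2) ∧ c ≠ p.1 := by
  obtain ⟨⟨i, hi⟩, b⟩ := p
  have hb := b.isLt
  have hfb := flip_val b
  simp only at h
  rcases h with h | h
  · subst h
    refine ⟨⟨1, by omega⟩, ?_, ?_, ?_, ?_, ?_, ?_⟩
    · rw [loz_adj]; unfold lozR; dsimp only; omega
    · rw [loz_adj]; unfold lozR; dsimp only; omega
    · rintro ⟨⟨j, hj⟩, c⟩ hx
      rw [loz_adj] at hx; unfold lozR at hx; simp only at hx
      have := c.isLt
      rcases (show (j = 0 ∧ c.val = 1 - b.val) ∨ (j = 1 ∧ c.val = b.val) by omega) with ⟨h1, h2⟩ | ⟨h1, h2⟩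
      · left; subst h1; simp only [Prod.mk.injEq, true_and]; apply Fin.ext; omega
      · right; subst h1; simp only [Prod.mk.injEq, true_and]; apply Fin.ext; omega
    · rintro ⟨⟨j, hj⟩, c⟩ hx
      rw [loz_adj] at hx; unfold lozR at hx; simp only at hx
      have := c.isLt
      rcases (show (j = 0 ∧ c.val = b.val) ∨ (j = 1 ∧ c.val = 1 - b.val) by omega) with ⟨h1, h2⟩ | ⟨h1, h2⟩
      · left; subst h1; simp only [Prod.mk.injEq, true_and]; apply Fin.ext; omega
      · right; subst h1; simp only [Prod.mk.injEq, true_and]; apply Fin.ext; omega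
    · rw [loz_adj]; unfold lozR; dsimp only; omega
    · simp
  · subst h
    refine ⟨⟨m, by omega⟩, ?_, ?_, ?_, ?_, ?_, ?_⟩
    · rw [loz_adj]; unfold lozR; dsimp only; omega
    · rw [loz_adj]; unfold lozR; dsimp only; omega
    · rintro ⟨⟨j, hj⟩, c⟩ hx
      rw [loz_adj] at hx; unfold lozR at hx; simp only at hx
      have := c.isLt
      rcases (show (j = m + 1 ∧ c.val = 1 - b.val) ∨ (j = m ∧ c.val = b.val) by omega) with ⟨h1, h2⟩ | ⟨h1, h2⟩
      · left; subst h1; simp only [Prod.mk.injEq, true_and]; apply Fin.ext; omega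
      · right; subst h1; simp only [Prod.mk.injEq, true_and]; apply Fin.ext; omega
    · rintro ⟨⟨j, hj⟩, c⟩ hx
      rw [loz_adj] at hx; unfold lozR at hx; simp only at hx
      have := c.isLt
      rcases (show (j = m + 1 ∧ c.val = b.val) ∨ (j = m ∧ c.val = 1 - b.val) by omega) with ⟨h1, h2⟩ | ⟨h1, h2⟩
      · left; subst h1; simp only [Prod.mk.injEq, true_and]; apply Fin.ext; omega
      · right; subst h1; simp only [Prod.mk.injEq, true_and]; apply Fin.ext; omega
    · rw [loz_adj]; unfold lozR; dsimp only; omega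
    · simp

lemma two_cover {α : Type} {a b c u v : α} (hab : a ≠ b) (hac : a ≠ c) (hbc : b ≠ c)
    (ha : a = u ∨ a = v) (hb : b = u ∨ b = v) (hc : c = u ∨ c = v) : False := by
  rcases ha with rfl | rfl <;> rcases hb with rfl | rfl <;> rcases hc with rfl | rfl <;>
    first
      | exact hab rfl
      | exact hac rfl
      | exact hbc rfl

/-- every vertex has two different neighbours -/
lemma loz_deg (hm : 2 ≤ m) (p s : Fin (m + 2) × Fin 2) (h : ∀ x, (Loz m).Adj p x → x = s) : False := by
  by_cases h0 : p.1.val = 0 ∨ p.1.val = m + 1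
  · obtain ⟨c, h1, h2, _, _, _, h6⟩ := loz_end (by omega) p h0
    have e1 := h _ h1
    have e2 := h _ h2
    rw [← e2] at e1
    have := congrArg Prod.fst e1
    exact h6 this.symm
  · push Not at h0
    obtain ⟨a, b, c, hab, hac, hbc, h1, h2, h3⟩ := loz_inner hm p h0.1 h0.2
    exact hab ((h a h1).trans (h b h2).symm)

lemma loz_E1 (hm : 2 ≤ m) {P R0 R1 Z : Fin (m + 2) × Fin 2}
    (h : ∀ x, (Loz m).Adj P x → x = R0 ∨ x = R1) (hP0 : (Loz m).Adj P R0) (hP1 : (Loz m).Adj P R1)
    (hne : R0 ≠ R1) (hZ0 : (Loz m).Adj Z R0) (hZ1 : (Loz m).Adj Z R1) (hZP : Z ≠ P) : False := by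
  by_cases h0 : P.1.val = 0 ∨ P.1.val = m + 1
  · obtain ⟨c, h1, h2, h3, h4, h5, h6⟩ := loz_end (by omega) P h0
    have main : ∀ R0 R1, R0 = (P.1, flip P.2) → R1 = (c, P.2) → (Loz m).Adj Z R0 →
        (Loz m).Adj Z R1 → False := by
      rintro R0 R1 rfl rfl hZ0 hZ1
      rcases h4 Z hZ0.symm with h7 | h7
      · exact hZP h7
      · rw [h7] at hZ1; exact h5 hZ1
    rcases h3 R0 hP0 with e0 | e0 <;> rcases h3 R1 hP1 with e1 | e1
    · exact hne (e0.trans e1.symm)
    · exact main R0 R1 e0 e1 hZ0 hZ1
    · exact main R1 R0 e1 e0 hZ1 hZ0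
    · exact hne (e0.trans e1.symm)
  · push Not at h0
    obtain ⟨a, b, c, hab, hac, hbc, h1, h2, h3⟩ := loz_inner hm P h0.1 h0.2
    exact two_cover hab hac hbc (h a h1) (h b h2) (h c h3)

lemma loz_E2 (hm : 2 ≤ m) {S P T : Fin (m + 2) × Fin 2}
    (h : ∀ x, (Loz m).Adj S x → x = P ∨ x = T) :
    ∃ z, (Loz m).Adj S z ∧ ∃ u v, ∀ x, (Loz m).Adj z x → x = u ∨ x = v := by
  by_cases h0 : S.1.val = 0 ∨ S.1.val = m + 1
  · obtain ⟨c, h1, h2, h3, h4, h5, h6⟩ := loz_end (by omega) S h0
    exact ⟨_, h1, _, _, h4⟩
  · push Not at h0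
    obtain ⟨a, b, c, hab, hac, hbc, h1, h2, h3⟩ := loz_inner hm S h0.1 h0.2
    exact absurd (two_cover hab hac hbc (h a h1) (h b h2) (h c h3)) id

/-- two-connectivity -/
lemma loz_two_conn (w : Fin (m + 2) × Fin 2) (S : Fin (m + 2) × Fin 2 → Prop)
    {x y : Fin (m + 2) × Fin 2} (hx : x ≠ w) (hy : y ≠ w) (hSx : S x) (hSy : ¬ S y) :
    ∃ a b, a ≠ w ∧ b ≠ w ∧ (Loz m).Adj a b ∧ S a ∧ ¬ S b := by
  by_contra hcon
  push Not at hcon
  have hst : ∀ a b, a ≠ w → b ≠ w → (Loz m).Adj a b → (S a ↔ S b) := fun a b ha hb hab =>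
    ⟨fun h => hcon a b ha hb hab h, fun h => hcon b a hb ha hab.symm h⟩
  -- the intact rail
  set b := w.2 with hb
  set c := flip w.2 with hc
  have hcb : c ≠ b := flip_ne _
  have hrail : ∀ i (hi : i < m + 2), (S (⟨i, hi⟩, c) ↔ S (0, c)) := by
    intro i
    induction i with
    | zero => intro hi; exact Iff.rfl
    | succ i ih =>
      intro hi
      rw [← ih (by omega)]
      refine (hst _ _ ?_ ?_ (loz_rail i hi c)).symm
      · intro h; exact hcb (congrArg Prod.snd h)
      · intro h; exact hcb (congrArg Prod.snd h)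
  have hleft : ∀ i (hi : i < m + 2), i < w.1.val → (S (⟨i, hi⟩, b) ↔ S (0, c)) := by
    intro i
    induction i with
    | zero =>
      intro hi h0
      refine hst _ _ ?_ ?_ ?_
      · intro h
        have := congrArg (fun z => z.1.val) h
        simp only at this
        omega
      · intro h; exact hcb (congrArg Prod.snd h)
      · rw [loz_adj]
        have := flip_val w.2
        have := w.2.isLt
        unfold lozR
        dsimp only [hb, hc]
        rw [Fin.val_zero]
        omega
    | succ i ih =>
      intro hi h0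
      rw [← ih (by omega) (by omega)]
      refine (hst _ _ ?_ ?_ (loz_rail i hi b)).symm
      · intro h
        have := congrArg (fun z => z.1.val) h
        simp only at this
        omega
      · intro h
        have := congrArg (fun z => z.1.val) h
        simp only at this
        omega
  have hright : ∀ k (hk : k ≤ m + 1), w.1.val < m + 1 - k →
      (S (⟨m + 1 - k, by omega⟩, b) ↔ S (0, c)) := by
    intro k
    induction k with
    | zero =>
      intro hi h0
      rw [← hrail (m + 1) (by omega)]
      refine hst _ _ ?_ ?_ ?_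
      · intro h
        have := congrArg (fun z => z.1.val) h
        simp only at this
        omega
      · intro h; exact hcb (congrArg Prod.snd h)
      · rw [loz_adj]
        have := flip_val w.2
        have := w.2.isLt
        unfold lozR
        dsimp only [hb, hc]
        omega
    | succ k ih =>
      intro hk h0
      rw [← ih (by omega) (by omega)]
      have e : (⟨m + 1 - (k + 1) + 1, by omega⟩ : Fin (m + 2)) = ⟨m + 1 - k, by omega⟩ :=
        Fin.ext (by show m + 1 - (k + 1) + 1 = m + 1 - k; omega)
      have h3 := loz_rail (n := m) (m + 1 - (k + 1)) (by omega) b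
      rw [e] at h3
      refine hst _ _ ?_ ?_ h3
      · intro h
        have := congrArg (fun z => z.1.val) h
        simp only at this
        omega
      · intro h
        have := congrArg (fun z => z.1.val) h
        simp only at this
        omega
  have all : ∀ z, z ≠ w → (S z ↔ S (0, c)) := by
    rintro ⟨⟨i, hi⟩, d⟩ hz
    rcases eq_or_flip d b with h1 | h1
    · subst h1
      rcases Nat.lt_trichotomy i w.1.val with h2 | h2 | h2
      · exact hleft i hi h2
      · exact absurd (show ((⟨i, hi⟩, b) : Fin (m + 2) × Fin 2) = w from Prod.ext (Fin.ext h2) rfl) hz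
      · have := hright (m + 1 - i) (by omega) (by omega)
        have e : (⟨m + 1 - (m + 1 - i), by omega⟩ : Fin (m + 2)) = ⟨i, hi⟩ :=
          Fin.ext (by show m + 1 - (m + 1 - i) = i; omega)
        rw [e] at this
        exact this
    · rw [h1]
      exact hrail i hi
  exact hSy ((all y hy).2 ((all x hx).1 hSx))

end target

section

variable {n m : ℕ} {f : Fin (n + 2) × Fin 2 → Fin (m + 2) × Fin 2}

lemma cover7 (hm : 2 ≤ m) (h : Wit (Loz n) (Loz m) f) (c : Fin 3 → Fin (n + 2))
    (P : Fin (m + 2) × Fin 2)
    (hw : ∀ x, (∃ k b, f (c k, b) = f x) ∨ f x = P) : False := by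
  let g : (Fin 3 × Fin 2) ⊕ Unit → Fin (m + 2) × Fin 2 := fun z => match z with
    | .inl (k, b) => f (c k, b)
    | .inr _ => P
  have hs : Function.Surjective g := by
    intro w
    obtain ⟨x, rfl⟩ := h.surj w
    rcases hw x with ⟨k, b, hk⟩ | hP
    · exact ⟨.inl (k, b), hk⟩
    · exact ⟨.inr (), hP.symm⟩
  have := Fintype.card_le_of_surjective g hs
  simp at this
  omega

lemma const_lr (h : Wit (Loz n) (Loz m) f) (i : Fin (n + 2)) (hc : f (i, 0) = f (i, 1)) :
    LeftOf f i.val ∨ RightOf f i.val := by
  by_contra hcon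
  rw [not_or] at hcon
  unfold LeftOf RightOf at hcon
  push Not at hcon
  obtain ⟨⟨y, hy, hy'⟩, x, hx, hx'⟩ := hcon
  have hx2 : x.1.val < i.val := by
    rcases Nat.lt_or_ge x.1.val i.val with h1 | h1
    · exact h1
    · exact absurd rfl (hx x (by omega))
  have hy2 : i.val < y.1.val := by
    rcases Nat.lt_or_ge i.val y.1.val with h1 | h1
    · exact h1
    · exact absurd rfl (hy y (by omega))
  obtain ⟨a, b, ha, hb, hab, h1, h2⟩ := loz_two_conn (f (i, 0))
    (fun w => ∃ z, f z = w ∧ z.1.val < i.val) (x := f x) (y := f y) (Ne.symm (hx (i, 0) rfl))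
    (Ne.symm (hy (i, 0) rfl)) ⟨x, rfl, hx2⟩ (by
      rintro ⟨z, hz, hzi⟩
      obtain ⟨t, ht1, ht2⟩ := loz_side h hz (i := i.val) (by omega) (by omega)
      exact hy t ht1 (ht2.trans hz))
  obtain ⟨u, v, hu, hv, huv⟩ := (h.2 a b hab.ne).1 hab
  obtain ⟨z, hz, hzi⟩ := h1
  have hnc : ∀ t w, t.1.val = i.val → w ≠ f (i, 0) → f t ≠ w := by
    intro t w ht hw he
    rcases col_eq t i ht with rfl | rfl
    · exact hw he.symm
    · exact hw (by rw [hc]; exact he.symm)
  have hu1 : u.1.val < i.val := by
    by_contra hc'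
    obtain ⟨t, ht1, ht2⟩ := loz_side h (hz.trans hu.symm) (i := i.val) (by omega) (by omega)
    exact hnc t a ht1 ha (ht2.trans hz)
  have hv1 : ¬ v.1.val < i.val := fun hv' => h2 ⟨v, hv, hv'⟩
  have hv2 : v.1.val ≠ i.val := fun hv' => hnc v b hv' hb hv
  rw [loz_adj] at huv
  unfold lozR at huv
  omega

lemma caseA (hm : 2 ≤ m) (h : Wit (Loz n) (Loz m) f) : ∀ d k : ℕ, ∀ hk : k < n + 2, n + 1 - k ≤ d →
    f (⟨k, hk⟩, 0) = f (⟨k, hk⟩, 1) → RightOf f k → False := by
  intro d
  induction d with
  | zero =>
    intro k hk hd hc hR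
    have hk' : k = n + 1 := by omega
    refine cover7 hm h (fun _ => ⟨k, hk⟩) (f (⟨k, hk⟩, 0)) fun x => ?_
    right
    by_contra hcon
    have := hR x (fun z hz hzx => by
      rcases col_eq z ⟨k, hk⟩ hz with rfl | rfl
      · exact hcon hzx.symm
      · exact hcon (by rw [hc]; exact hzx.symm))
    have := x.1.isLt
    omega
  | succ d ih =>
    intro k hk hd hc hR
    set P := f (⟨k, hk⟩, 0) with hP
    have hcolk : ∀ z : Fin (n + 2) × Fin 2, z.1.val = k → f z = P := by
      intro z hz
      rcases col_eq z ⟨k, hk⟩ hz with rfl | rfl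
      · rfl
      · exact hc.symm
    have hle : ∀ x : Fin (n + 2) × Fin 2, x.1.val ≤ k → f x = P := by
      intro x hx
      by_contra hcon
      have := hR x (fun z hz hzx => hcon (by rw [← hzx]; exact hcolk z hz))
      omega
    by_cases hkn : k = n + 1
    · refine cover7 hm h (fun _ => ⟨k, hk⟩) P fun x => Or.inr (hle x ?_)
      have := x.1.isLt
      omega
    have hk1 : k + 1 < n + 2 := by omega
    set R : Fin 2 → _ := fun b => f (⟨k + 1, hk1⟩, b) with hRdef
    have hrailk : ∀ b, (Loz n).Adj (⟨k, hk⟩, b) (⟨k + 1, hk1⟩, b) := fun b => loz_rail k hk1 b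
    have hPR : ∀ b, R b ≠ P → (Loz m).Adj P (R b) := by
      intro b hb
      have := h.adj _ _ (hrailk b)
      rw [hcolk _ rfl] at this
      exact this.resolve_left (fun h' => hb h'.symm)
    -- when `P` does not meet column `k+1`
    have hNP : (∀ b, R b ≠ P) → ∀ w, (Loz m).Adj P w → ∃ b, w = R b := by
      intro hall w hw
      obtain ⟨a, b, ha, hb, hab⟩ := (h.2 _ _ hw.ne).1 hw
      have ha1 : a.1.val ≤ k := by
        by_contra hcon
        obtain ⟨z, hz1, hz2⟩ := loz_side h (x := (⟨k, hk⟩, 0)) (y := a) (i := k + 1)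
          (by rw [ha]) (by simp) (by omega)
        rcases col_eq z ⟨k + 1, hk1⟩ hz1 with rfl | rfl
        · exact hall 0 hz2
        · exact hall 1 hz2
      have hb1 : b.1.val = k + 1 := by
        have h1 : ¬ b.1.val ≤ k := fun h' => hw.ne (by rw [← hb, hle b h'])
        rw [loz_adj] at hab
        unfold lozR at hab
        omega
      rcases col_eq b ⟨k + 1, hk1⟩ hb1 with rfl | rfl
      · exact ⟨0, hb.symm⟩
      · exact ⟨1, hb.symm⟩
    by_cases hconst : R 0 = R 1
    · by_cases hRP : R 0 = P
      · refine ih (k + 1) hk1 (by omega) hconst ?_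
        intro x hx
        have hxP : f x ≠ P := by
          intro h'
          exact hx (⟨k + 1, hk1⟩, 0) rfl (by rw [h']; exact hRP)
        have h1 : k < x.1.val := hR x (fun z hz hzx => hxP (by rw [← hzx]; exact hcolk z hz))
        have h2 : x.1.val ≠ k + 1 := by
          intro h'
          exact hx x h' rfl
        omega
      · refine loz_deg hm P (R 0) fun w hw => ?_
        obtain ⟨b, rfl⟩ := hNP (by
          intro b
          rcases eq_or_flip b 0 with rfl | rfl
          · exact hRP
          · have : flip 0 = 1 := rfl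
            rw [this, ← hconst]; exact hRP) w hw
        rcases eq_or_flip b 0 with rfl | rfl
        · rfl
        · have : flip 0 = 1 := rfl
          rw [this, ← hconst]
    · by_cases hPin : ∃ b, R b = P
      · obtain ⟨b, hb⟩ := hPin
        set Q := R (flip b) with hQ
        have hQP : Q ≠ P := by
          intro h'
          apply hconst
          rcases eq_or_flip b 0 with rfl | rfl
          · have : flip 0 = 1 := rfl
            rw [this] at hQ
            rw [hb, ← hQ, h']
          · have e1 : flip 0 = 1 := rfl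
            have e2 : flip (flip 0) = 0 := rfl
            rw [e2] at hQ
            rw [e1] at hb
            rw [hb, ← hQ, h']
        have hPQ : (Loz m).Adj P Q := hPR _ hQP
        have hcol1 : ∀ z : Fin (n + 2) × Fin 2, z.1.val = k + 1 → f z = P ∨ f z = Q := by
          rintro ⟨i, c⟩ hz
          have : i = ⟨k + 1, hk1⟩ := Fin.ext hz
          subst this
          rcases eq_or_flip c b with rfl | rfl
          · exact Or.inl hb
          · exact Or.inr rfl
        -- all columns up to `n`
        have hall : ∀ i, ∀ x : Fin (n + 2) × Fin 2, x.1.val ≤ i → i ≤ n → f x = P ∨ f x = Q := by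
          intro i
          induction i with
          | zero =>
            intro x hx _
            exact Or.inl (hle x (by omega))
          | succ i ihi =>
            intro x hx hin
            by_cases hxi : x.1.val ≤ i
            · exact ihi x hxi (by omega)
            have hxi' : x.1.val = i + 1 := by omega
            by_cases h1 : i + 1 ≤ k
            · exact Or.inl (hle x (by omega))
            by_cases h2 : i = k
            · exact hcol1 x (by omega)
            -- now `k + 1 ≤ i`, `i + 1 ≤ n`
            have hi2 : i < n + 2 := by omega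
            have e0 := ihi (⟨i, hi2⟩, 0) le_rfl (by omega)
            have e1 := ihi (⟨i, hi2⟩, 1) le_rfl (by omega)
            have hadj : ∀ c, (Loz n).Adj x (⟨i, hi2⟩, c) := by
              intro c
              rw [loz_adj]; unfold lozR; dsimp only; omega
            by_cases hci : f (⟨i, hi2⟩, 0) = f (⟨i, hi2⟩, 1)
            · exfalso
              rcases const_lr h ⟨i, hi2⟩ hci with hL | hR'
              · -- everything is in `{P, Q}`
                refine cover7 hm h (fun _ => ⟨k + 1, hk1⟩) P fun y => ?_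
                by_cases hy : ∀ z : Fin (n + 2) × Fin 2, z.1.val = i → f z ≠ f y
                · have hyi := hL y hy
                  rcases ihi y (by have : y.1.val < i := hyi; omega) (by omega) with h5 | h5
                  · exact Or.inr h5
                  · exact Or.inl ⟨0, flip b, by rw [h5]⟩
                · push Not at hy
                  obtain ⟨z, hz, hzy⟩ := hy
                  rcases ihi z (by omega) (by omega) with h5 | h5
                  · exact Or.inr (by rw [← hzy, h5])
                  · exact Or.inl ⟨0, flip b, by rw [← hzy, h5]⟩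
              · exact ih i hi2 (by omega) hci hR'
            · by_contra hcon
              push Not at hcon
              obtain ⟨c1, c2⟩ := hcon
              have a0 := h.adj _ _ (hadj 0)
              have a1 := h.adj _ _ (hadj 1)
              rcases e0 with e0 | e0 <;> rcases e1 with e1 | e1
              · exact hci (e0.trans e1.symm)
              · rw [e0] at a0
                rw [e1] at a1
                exact loz_tri (by omega) (a0.resolve_left c1) hPQ (a1.resolve_left c2)
              · rw [e0] at a0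
                rw [e1] at a1
                exact loz_tri (by omega) (a1.resolve_left c1) hPQ (a0.resolve_left c2)
              · exact hci (e0.trans e1.symm)
        refine cover7 hm h ![⟨k + 1, hk1⟩, ⟨n + 1, by omega⟩, ⟨n + 1, by omega⟩] P fun x => ?_
        by_cases hxn : x.1.val ≤ n
        · rcases hall n x hxn le_rfl with h5 | h5
          · exact Or.inr h5
          · exact Or.inl ⟨0, flip b, by rw [h5]; rfl⟩
        · left
          have := x.1.isLt
          have hx : x.1 = ⟨n + 1, by omega⟩ := Fin.ext (by show x.1.val = n + 1; omega)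
          refine ⟨1, x.2, ?_⟩
          congr 1
          exact Prod.ext hx.symm rfl
      · push Not at hPin
        have hN : ∀ x, (Loz m).Adj P x → x = R 0 ∨ x = R 1 := by
          intro x hx
          obtain ⟨b, rfl⟩ := hNP hPin x hx
          rcases eq_or_flip b 0 with rfl | rfl
          · exact Or.inl rfl
          · exact Or.inr rfl
        by_cases hk2 : k + 2 ≤ n
        · have hk2' : k + 2 < n + 2 := by omega
          have hadj : ∀ c, (Loz n).Adj (⟨k + 2, hk2'⟩, 0) (⟨k + 1, hk1⟩, c) := by
            intro c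
            rw [loz_adj]; unfold lozR; dsimp only; omega
          set Z := f (⟨k + 2, hk2'⟩, 0) with hZ
          have z0 : Z = R 0 ∨ (Loz m).Adj Z (R 0) := h.adj _ _ (hadj 0)
          have z1 : Z = R 1 ∨ (Loz m).Adj Z (R 1) := h.adj _ _ (hadj 1)
          have hR01 : ¬ (Loz m).Adj (R 0) (R 1) := fun h' =>
            loz_tri (by omega) (hPR 0 (hPin 0)) h' (hPR 1 (hPin 1))
          have z0' : Z ≠ R 0 := by
            intro h'
            rw [h'] at z1
            exact hR01 (z1.resolve_left hconst)
          have z1' : Z ≠ R 1 := by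
            intro h'
            rw [h'] at z0
            exact hR01 (z0.resolve_left (Ne.symm hconst)).symm
          have hZP : Z ≠ P := by
            intro h'
            obtain ⟨z, hz1, hz2⟩ := loz_side h (x := (⟨k, hk⟩, 0)) (y := (⟨k + 2, hk2'⟩, 0))
              (i := k + 1) (by rw [← hZ, h']) (by simp) (by simp)
            rcases col_eq z ⟨k + 1, hk1⟩ hz1 with rfl | rfl
            · exact hPin 0 hz2
            · exact hPin 1 hz2
          exact loz_E1 hm hN (hPR 0 (hPin 0)) (hPR 1 (hPin 1)) hconst (z0.resolve_left z0')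
            (z1.resolve_left z1') hZP
        · refine cover7 hm h ![⟨k + 1, hk1⟩, ⟨n + 1, by omega⟩, ⟨n + 1, by omega⟩] P fun x => ?_
          by_cases hxk : x.1.val ≤ k
          · exact Or.inr (hle x hxk)
          left
          have := x.1.isLt
          by_cases hx1 : x.1.val = k + 1
          · refine ⟨0, x.2, ?_⟩
            congr 1
            exact Prod.ext (Fin.ext hx1.symm) rfl
          · have hx : x.1 = ⟨n + 1, by omega⟩ := Fin.ext (by show x.1.val = n + 1; omega)
            refine ⟨1, x.2, ?_⟩
            congr 1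
            exact Prod.ext hx.symm rfl

lemma caseB1 (hm : 2 ≤ m) (h : Wit (Loz n) (Loz m) f)
    (hnc : ∀ i : Fin (n + 2), f (i, 0) ≠ f (i, 1)) (i : ℕ) (hi1 : 1 ≤ i) (hin : i < n) (b c : Fin 2)
    (hbc : f (⟨i, by omega⟩, b) = f (⟨i + 1, by omega⟩, c)) : False := by
  have hnc' : ∀ (i : Fin (n + 2)) (b : Fin 2), f (i, flip b) ≠ f (i, b) := by
    intro i b
    rcases eq_or_flip b 0 with rfl | rfl
    · exact (hnc i).symm
    · exact hnc i
  have hadj : ∀ (j : ℕ) (hj : 1 ≤ j) (hjn : j < n) (b c : Fin 2),
      (Loz n).Adj (⟨j, by omega⟩, b) (⟨j + 1, by omega⟩, c) := by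
    intro j hj hjn b c
    rw [loz_adj]; unfold lozR; dsimp only; omega
  set P := f (⟨i, by omega⟩, b) with hP
  set S := f (⟨i, by omega⟩, flip b) with hS
  set T := f (⟨i + 1, by omega⟩, flip c) with hT
  have hSP : S ≠ P := hnc' _ _
  have hTP : T ≠ P := by rw [hbc]; exact hnc' _ _
  have aSP : (Loz m).Adj S P := by
    have := h.adj _ _ (hadj i hi1 hin (flip b) c)
    rw [← hbc] at this
    exact this.resolve_left hSP
  have aPT : (Loz m).Adj P T := (h.adj _ _ (hadj i hi1 hin b (flip c))).resolve_left (Ne.symm hTP)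
  have hST : S = T := by
    rcases h.adj _ _ (hadj i hi1 hin (flip b) (flip c)) with h1 | h1
    · exact h1
    · exact absurd (loz_tri (by omega) aSP aPT h1) id
  have split : ∀ (j : Fin (n + 2)), (∀ c, f (j, c) = P ∨ f (j, c) = S) → ∀ Z,
      (∀ c, Z = f (j, c) ∨ (Loz m).Adj Z (f (j, c))) → Z = P ∨ Z = S := by
    intro j hj Z hZ
    by_contra hcon
    push Not at hcon
    obtain ⟨c1, c2⟩ := hcon
    have z0 := hZ 0
    have z1 := hZ 1
    rcases hj 0 with e0 | e0 <;> rcases hj 1 with e1 | e1
    · exact hnc j (e0.trans e1.symm)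
    · rw [e0] at z0; rw [e1] at z1
      exact loz_tri (by omega) (z0.resolve_left c1) aSP.symm (z1.resolve_left c2)
    · rw [e0] at z0; rw [e1] at z1
      exact loz_tri (by omega) (z1.resolve_left c1) aSP.symm (z0.resolve_left c2)
    · exact hnc j (e0.trans e1.symm)
  have hcoli : ∀ c', f (⟨i, by omega⟩, c') = P ∨ f (⟨i, by omega⟩, c') = S := by
    intro c'
    rcases eq_or_flip c' b with rfl | rfl
    · exact Or.inl rfl
    · exact Or.inr rfl
  have up : ∀ k (hk : i + k ≤ n) (c' : Fin 2), f (⟨i + k, by omega⟩, c') = P ∨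
      f (⟨i + k, by omega⟩, c') = S := by
    intro k
    induction k with
    | zero => intro hk c'; exact hcoli c'
    | succ k ih =>
      intro hk c'
      refine split ⟨i + k, by omega⟩ (ih (by omega)) _ fun c'' => ?_
      exact h.adj _ _ (hadj (i + k) (by omega) (by omega) c'' c').symm
  have down : ∀ k (hk : k + 1 ≤ i) (c' : Fin 2), f (⟨i - k, by omega⟩, c') = P ∨
      f (⟨i - k, by omega⟩, c') = S := by
    intro k
    induction k with
    | zero => intro hk c'; exact hcoli c'
    | succ k ih =>
      intro hk c'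
      refine split ⟨i - k, by omega⟩ (ih (by omega)) _ fun c'' => ?_
      have h1 := hadj (i - (k + 1)) (by omega) (by omega) c' c''
      have e : (⟨i - (k + 1) + 1, by omega⟩ : Fin (n + 2)) = ⟨i - k, by omega⟩ :=
        Fin.ext (by show i - (k + 1) + 1 = i - k; omega)
      rw [e] at h1
      exact h.adj _ _ h1
  refine cover7 hm h ![⟨i, by omega⟩, ⟨0, by omega⟩, ⟨n + 1, by omega⟩] P fun x => ?_
  have hx := x.1.isLt
  by_cases hx0 : x.1.val = 0
  · left
    refine ⟨1, x.2, ?_⟩
    congr 1
    exact Prod.ext (Fin.ext hx0.symm) rfl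
  by_cases hxn : x.1.val = n + 1
  · left
    refine ⟨2, x.2, ?_⟩
    congr 1
    exact Prod.ext (Fin.ext hxn.symm) rfl
  have : f x = P ∨ f x = S := by
    by_cases hxi : x.1.val ≤ i
    · have := down (i - x.1.val) (by omega) x.2
      have e : (⟨i - (i - x.1.val), by omega⟩ : Fin (n + 2)) = x.1 :=
        Fin.ext (by show i - (i - x.1.val) = x.1.val; omega)
      rw [e] at this
      exact this
    · have := up (x.1.val - i) (by omega) x.2
      have e : (⟨i + (x.1.val - i), by omega⟩ : Fin (n + 2)) = x.1 :=
        Fin.ext (by show i + (x.1.val - i) = x.1.val; omega)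
      rw [e] at this
      exact this
  rcases this with h1 | h1
  · exact Or.inr h1
  · left
    exact ⟨0, flip b, by rw [h1]; rfl⟩

lemma caseB2 (hm : 2 ≤ m) (hn : 2 ≤ n) (h : Wit (Loz n) (Loz m) f)
    (hnc : ∀ i : Fin (n + 2), f (i, 0) ≠ f (i, 1))
    (hne : ∀ (i : ℕ) (hi1 : 1 ≤ i) (hin : i < n) (b c : Fin 2),
      f (⟨i, by omega⟩, b) ≠ f (⟨i + 1, by omega⟩, c)) (b : Fin 2)
    (hb : f (0, b) = f (1, b)) : False := by
  have hnc' : ∀ (i : Fin (n + 2)) (b : Fin 2), f (i, flip b) ≠ f (i, b) := by
    intro i b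
    rcases eq_or_flip b 0 with rfl | rfl
    · exact (hnc i).symm
    · exact hnc i
  have hfb := flip_val b
  have hbl := b.isLt
  have v0 : ((0 : Fin (n + 2)) : ℕ) = 0 := rfl
  have v1 : ((1 : Fin (n + 2)) : ℕ) = 1 := by simp
  have e1 : (1 : Fin (n + 2)) = ⟨1, by omega⟩ := Fin.ext v1
  have e0 : (0 : Fin (n + 2)) = ⟨0, by omega⟩ := rfl
  set P := f (0, b) with hP
  set S := f (0, flip b) with hS
  set T := f (1, flip b) with hT
  have hSP : S ≠ P := hnc' _ _
  have hTP : T ≠ P := by rw [hb]; exact hnc' _ _
  have aPS : (Loz m).Adj P S := by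
    refine (h.adj (0, b) (0, flip b) ?_).resolve_left (Ne.symm hSP)
    rw [loz_adj]; unfold lozR; dsimp only; omega
  let Z : Fin 2 → Fin (m + 2) × Fin 2 := fun c => f (⟨2, by omega⟩, c)
  have hZ : ∀ c d, Z c ≠ f (1, d) := by
    intro c d h'
    have := hne 1 le_rfl (by omega) d c
    apply this
    rw [← e1]
    exact h'.symm
  have hZadj : ∀ c d, (Loz m).Adj (f (1, d)) (Z c) := by
    intro c d
    refine (h.adj (1, d) (⟨2, by omega⟩, c) ?_).resolve_left (Ne.symm (hZ c d))
    rw [loz_adj]; unfold lozR; dsimp only; omega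
  have hZ01 : Z 0 ≠ Z 1 := hnc _
  -- no vertex right of column 1 is in the fibre of `S` (unless it meets column 1)
  by_cases hST : S = T
  · have h1 := hZadj 0 b
    rw [← hb] at h1
    have h2 := hZadj 0 (flip b)
    rw [← hT, ← hST] at h2
    exact loz_tri (by omega) aPS h2 h1
  · have hfib : ∀ x, f x = S → x = (0, flip b) := by
      intro x hx
      by_cases hx0 : x.1.val = 0
      · have : x.1 = 0 := Fin.ext hx0
        obtain ⟨i, c⟩ := x
        simp only at this
        subst this
        rcases eq_or_flip c b with rfl | rfl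
        · exact absurd hx hSP.symm
        · rfl
      · exfalso
        obtain ⟨z, hz1, hz2⟩ := loz_side h (x := (0, flip b)) (y := x) (i := 1) (by rw [hx])
          (by simp) (by omega)
        obtain ⟨i, c⟩ := z
        have : i = 1 := Fin.ext (by simpa using hz1)
        subst this
        rcases eq_or_flip c b with rfl | rfl
        · rw [← hb] at hz2; exact hSP hz2.symm
        · exact hST hz2.symm
    have aST : (Loz m).Adj S T := by
      refine (h.adj (0, flip b) (1, flip b) ?_).resolve_left hST
      rw [loz_adj]; unfold lozR; dsimp only; omega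
    have hNS : ∀ x, (Loz m).Adj S x → x = P ∨ x = T := by
      intro x hx
      obtain ⟨u, v, hu, hv, huv⟩ := (h.2 _ _ hx.ne).1 hx
      rw [hfib u hu] at huv
      rw [loz_adj] at huv
      have hv2 := v.2.isLt
      unfold lozR at huv
      simp only [v0] at huv
      rcases (show (v.1.val = 0 ∧ v.2.val = b.val) ∨ (v.1.val = 1 ∧ v.2.val = (flip b).val) by omega)
        with ⟨h1, h2⟩ | ⟨h1, h2⟩
      · left
        rw [← hv, hP]
        congr 1
        exact Prod.ext (Fin.ext h1) (Fin.ext h2)
      · right
        rw [← hv, hT]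
        congr 1
        exact Prod.ext (Fin.ext (by rw [h1, v1])) (Fin.ext h2)
    have hSZ : ∀ c, S ≠ Z c := by
      intro c h'
      have := hfib _ h'.symm
      have := congrArg (fun z => z.1.val) this
      simp at this
    obtain ⟨z, hz, u, v, huv⟩ := loz_E2 hm hNS
    rcases hNS z hz with rfl | rfl
    · have a0 := hZadj 0 b
      have a1 := hZadj 1 b
      rw [← hb] at a0 a1
      exact two_cover (hSZ 0) (hSZ 1) hZ01 (huv _ aPS) (huv _ a0) (huv _ a1)
    · exact two_cover (hSZ 0) (hSZ 1) hZ01 (huv _ aST.symm) (huv _ (hZadj 0 (flip b)))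
        (huv _ (hZadj 1 (flip b)))

end

/-- the nested lozenges form an antichain -/
theorem loz_anti {n m : ℕ} (hn : 2 ≤ n) (hm : 2 ≤ m) (hc : IsContraction (Loz n) (Loz m)) : n = m := by
  obtain ⟨f, hf⟩ := hc
  have hf : Wit (Loz n) (Loz m) f := hf
  by_cases hinj : Function.Injective f
  · have := Fintype.card_of_bijective ⟨hinj, hf.surj⟩
    simp at this
    exact this
  exfalso
  have hrev : ∀ x, lozRev n (lozRev n x) = x := fun x => (lozRev n).left_inv x
  have hf' := wit_rev hf
  by_cases hconst : ∃ i : Fin (n + 2), f (i, 0) = f (i, 1)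
  · obtain ⟨i, hi⟩ := hconst
    rcases const_lr hf i hi with h1 | h1
    · refine caseA hm hf' (n + 1) i.rev.val i.rev.isLt (by omega) ?_ ?_
      · show f (i.rev.rev, 0) = f (i.rev.rev, 1)
        rw [Fin.rev_rev]; exact hi
      · intro x hx
        have := h1 (lozRev n x) (fun z hz => by
          have h2 := hx (lozRev n z) (by
            show z.1.rev.val = i.rev.val
            rw [Fin.val_rev, Fin.val_rev]; omega)
          show f z ≠ f (lozRev n x)
          have h3 : (f ∘ lozRev n) (lozRev n z) = f z := by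
            show f (lozRev n (lozRev n z)) = _
            rw [hrev]
          rw [h3] at h2
          exact h2)
        have h4 : (lozRev n x).1.val = n + 2 - (x.1.val + 1) := Fin.val_rev _
        rw [Fin.val_rev]
        have := x.1.isLt
        omega
    · exact caseA hm hf (n + 1) i.val i.isLt (by omega) hi h1
  · push Not at hconst
    by_cases hchain : ∃ (i : ℕ) (hi1 : 1 ≤ i) (hin : i < n) (b c : Fin 2),
      f (⟨i, by omega⟩, b) = f (⟨i + 1, by omega⟩, c)
    · obtain ⟨i, hi1, hin, b, c, hbc⟩ := hchain
      exact caseB1 hm hf hconst i hi1 hin b c hbc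
    · push Not at hchain
      rw [Function.not_injective_iff] at hinj
      obtain ⟨x, y, hxy, hne⟩ := hinj
      obtain ⟨z, hz, hxz⟩ := fib_nbr hf hxy hne
      -- the reversed map has the same properties
      have hconst' : ∀ i : Fin (n + 2), (f ∘ lozRev n) (i, 0) ≠ (f ∘ lozRev n) (i, 1) :=
        fun i => hconst i.rev
      have hchain' : ∀ (i : ℕ) (hi1 : 1 ≤ i) (hin : i < n) (b c : Fin 2),
          (f ∘ lozRev n) (⟨i, by omega⟩, b) ≠ (f ∘ lozRev n) (⟨i + 1, by omega⟩, c) := by
        intro i hi1 hin b c h'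
        refine hchain (n - i) (by omega) (by omega) c b ?_
        have e1 : lozRev n (⟨i, by omega⟩, b) = (⟨n - i + 1, by omega⟩, b) := by
          refine Prod.ext (Fin.ext ?_) rfl
          show (Fin.rev (⟨i, _⟩ : Fin (n + 2))).val = n - i + 1
          rw [Fin.val_rev]; simp only; omega
        have e2 : lozRev n (⟨i + 1, by omega⟩, c) = (⟨n - i, by omega⟩, c) := by
          refine Prod.ext (Fin.ext ?_) rfl
          show (Fin.rev (⟨i + 1, _⟩ : Fin (n + 2))).val = n - i
          rw [Fin.val_rev]; simp only; omega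
        have h2 : f (lozRev n (⟨i, by omega⟩, b)) = f (lozRev n (⟨i + 1, by omega⟩, c)) := h'
        rw [e1, e2] at h2
        exact h2.symm
      have main : ∀ x z : Fin (n + 2) × Fin 2, (Loz n).Adj x z → f z = f x → x.1.val ≤ z.1.val →
          False := by
        rintro ⟨i, b⟩ ⟨j, c⟩ hxz hz hle
        have hxz' := hxz
        rw [loz_adj] at hxz'
        unfold lozR at hxz'
        simp only at hxz' hle
        have hi := i.isLt
        have hj := j.isLt
        have hb := b.isLt
        have hc := c.isLt
        by_cases hij : i.val = j.val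
        · have hij' : i = j := Fin.ext hij
          subst hij'
          rcases eq_or_flip b 0 with rfl | rfl <;> rcases eq_or_flip c 0 with rfl | rfl
          · exact hxz.ne rfl
          · exact hconst i hz.symm
          · exact hconst i hz
          · exact hxz.ne rfl
        have hj1 : j.val = i.val + 1 := by omega
        by_cases h1 : 1 ≤ i.val ∧ i.val < n
        · refine hchain i.val h1.1 h1.2 b c ?_
          have e : (⟨i.val + 1, by omega⟩ : Fin (n + 2)) = j := Fin.ext hj1.symm
          rw [e]
          exact hz.symm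
        · have hbc : b = c := Fin.ext (by omega)
          subst hbc
          by_cases h0 : i.val = 0
          · have ei : i = 0 := Fin.ext h0
            have ej : j = 1 := Fin.ext (by
              have : ((1 : Fin (n + 2)) : ℕ) = 1 := by simp
              omega)
            subst ei; subst ej
            exact caseB2 hm hn hf hconst hchain b hz.symm
          · have ei : i.val = n := by omega
            have ej : j.val = n + 1 := by omega
            refine caseB2 hm hn hf' hconst' hchain' b ?_
            show f (lozRev n (0, b)) = f (lozRev n (1, b))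
            have e1 : lozRev n (0, b) = (j, b) := by
              refine Prod.ext (Fin.ext ?_) rfl
              show (Fin.rev (0 : Fin (n + 2))).val = j.val
              rw [Fin.val_rev]
              have : ((0 : Fin (n + 2)) : ℕ) = 0 := rfl
              omega
            have e2 : lozRev n (1, b) = (i, b) := by
              refine Prod.ext (Fin.ext ?_) rfl
              show (Fin.rev (1 : Fin (n + 2))).val = i.val
              rw [Fin.val_rev]
              have : ((1 : Fin (n + 2)) : ℕ) = 1 := by simp
              omega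
            rw [e1, e2]
            exact hz
      rcases Nat.le_total x.1.val z.1.val with h1 | h1
      · exact main x z hxz hz h1
      · exact main z x hxz.symm hz.symm h1

end Pool.Agent.Run7.h855
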