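import Mathlib

/-! Words over a finite alphabet: Higman's lemma with first and last occurrences. -/

namespace Pool.Agent.Run7.h855

lemma listHigman (σ : Type) [Finite σ] :
    WellQuasiOrdered (List.SublistForall₂ (· = ·) : List σ → List σ → Prop) := by
  rw [← Set.partiallyWellOrderedOn_univ_iff]
  have h : (Set.univ : Set σ).PartiallyWellOrderedOn (· = ·) :=
    Set.finite_univ.partiallyWellOrderedOn
  have := Set.PartiallyWellOrderedOn.partiallyWellOrderedOn_sublistForall₂ (· = ·) h
  simpa using this

lemma ofFn_sublist {σ : Type} {n n' : ℕ} {m : Fin n → σ} {m' : Fin n' → σ}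
    (h : List.SublistForall₂ (· = ·) (List.ofFn m) (List.ofFn m')) :
    ∃ e : Fin n → Fin n', StrictMono e ∧ ∀ p, m' (e p) = m p := by
  rw [List.sublistForall₂_iff] at h
  obtain ⟨l, hl, hs⟩ := h
  rw [List.forall₂_eq_eq_eq] at hl
  subst hl
  rw [List.sublist_iff_exists_fin_orderEmbedding_get_eq] at hs
  obtain ⟨f, hf⟩ := hs
  refine ⟨fun p => Fin.cast (by simp) (f (Fin.cast (by simp) p)), ?_, ?_⟩
  · intro p q hpq
    have : f (Fin.cast (by simp) p) < f (Fin.cast (by simp) q) := by
      apply f.strictMono
      exact hpq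
    exact this
  · intro p
    have := hf (Fin.cast (by simp) p)
    simp only [List.get_ofFn] at this
    exact this.symm

/-- an embedding of words with a retraction -/
structure Emb {σ : Type} (isA : σ → Prop) {n n' : ℕ} (w : Fin n → σ) (w' : Fin n' → σ)
    (e : Fin n → Fin n') (g : Fin n' → Fin n) : Prop where
  mono : StrictMono e
  eq : ∀ p, w' (e p) = w p
  ge : ∀ p, g (e p) = p
  geq : ∀ q, w (g q) = w' q
  le : ∀ q, isA (w' q) → e (g q) ≤ q
  ge' : ∀ q, ¬ isA (w' q) → q ≤ e (g q)

open Classical in
/-- the word with its first and last occurrences marked -/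
noncomputable def mark {σ : Type} {n : ℕ} (w : Fin n → σ) (p : Fin n) : σ × Bool × Bool :=
  (w p, decide (∀ q, q < p → w q ≠ w p), decide (∀ q, p < q → w q ≠ w p))

lemma emb_of_mark {σ : Type} (isA : σ → Prop) {n n' : ℕ} {w : Fin n → σ} {w' : Fin n' → σ}
    (hlet : ∀ q, ∃ p, w p = w' q) {e : Fin n → Fin n'} (he : StrictMono e)
    (hm : ∀ p, mark w' (e p) = mark w p) : ∃ g, Emb isA w w' e g := by
  classical
  have hw : ∀ p, w' (e p) = w p := fun p => congrArg Prod.fst (hm p)
  have key : ∀ q, ∃ p, w p = w' q ∧ (isA (w' q) → e p ≤ q) ∧ (¬ isA (w' q) → q ≤ e p) ∧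
      ∀ p', e p' = q → p = p' := by
    intro q
    by_cases hq : ∃ p, e p = q
    · obtain ⟨p, rfl⟩ := hq
      exact ⟨p, (hw p).symm, fun _ => le_refl _, fun _ => le_refl _,
        fun p' hp' => (he.injective hp').symm⟩
    · push Not at hq
      have hne : (Finset.univ.filter (fun p => w p = w' q)).Nonempty := by
        obtain ⟨p, hp⟩ := hlet q
        exact ⟨p, by simp [hp]⟩
      by_cases hA : isA (w' q)
      · obtain ⟨p, hp, hmin⟩ := Finset.exists_min_image _ (fun p => p) hne
        simp only [Finset.mem_filter, Finset.mem_univ, true_and] at hp hmin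
        refine ⟨p, hp, fun _ => ?_, fun h => absurd hA h, fun p' hp' => absurd hp' (hq p')⟩
        have h1 : (mark w p).2.1 = true := by
          simp only [mark, decide_eq_true_eq]
          intro q' hq' h
          have := hmin q' (h.trans hp)
          exact absurd hq' (not_lt.2 this)
        rw [← hm p] at h1
        simp only [mark, decide_eq_true_eq] at h1
        by_contra hlt
        rw [not_le] at hlt
        apply h1 q hlt
        rw [hw, hp]
      · obtain ⟨p, hp, hmax⟩ := Finset.exists_max_image _ (fun p => p) hne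
        simp only [Finset.mem_filter, Finset.mem_univ, true_and] at hp hmax
        refine ⟨p, hp, fun h => absurd h hA, fun _ => ?_, fun p' hp' => absurd hp' (hq p')⟩
        have h1 : (mark w p).2.2 = true := by
          simp only [mark, decide_eq_true_eq]
          intro q' hq' h
          have := hmax q' (h.trans hp)
          exact absurd hq' (not_lt.2 this)
        rw [← hm p] at h1
        simp only [mark, decide_eq_true_eq] at h1
        by_contra hlt
        rw [not_le] at hlt
        apply h1 q hlt
        rw [hw, hp]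
  choose g h1 h2 h3 h4 using key
  exact ⟨g, he, hw, fun p => h4 _ p rfl, h1, h2, h3⟩

end Pool.Agent.Run7.h855
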