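import Pool.Agent.Run7.h855.Basic
import Pool.Agent.Run7.h855.Word

/-! Model graphs: a core on `Fin N`, paths attached to it, and a word. -/

namespace Pool.Agent.Run7.h855

open Pool.Agent.H175R2

/-- data of a model graph -/
structure MD (N c : ℕ) where
  A : Fin N → Fin N → Bool
  top : Fin N → Fin N
  len : Fin N → ℕ
  d : Fin c → Fin c → Bool
  n : ℕ
  w : Fin n → Fin c × (Fin N → Bool)

variable {N c : ℕ}

/-- vertices of the model graph -/
abbrev MD.Vx (M : MD N c) : Type := Fin N ⊕ ((Σ x : Fin N, Fin (M.len x)) ⊕ Fin M.n)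

/-- one half of the adjacency of the model graph -/
def MD.rel (M : MD N c) : M.Vx → M.Vx → Prop
  | .inl x, .inl y => M.A x y = true
  | .inl y, .inr (.inl p) => (p.2.val = 0 ∧ y = p.1) ∨ (p.2.val + 1 = M.len p.1 ∧ y = M.top p.1)
  | .inl y, .inr (.inr q) => (M.w q).2 y = true
  | .inr (.inl p), .inr (.inl p') => p.1 = p'.1 ∧ p.2.val + 1 = p'.2.val
  | .inr (.inr q), .inr (.inr q') => q < q' ∧ M.d (M.w q).1 (M.w q').1 = true
  | _, _ => False

/-- the model graph -/
def MD.graph (M : MD N c) : SimpleGraph M.Vx := SimpleGraph.fromRel M.rel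

lemma MD.adj_of_rel {M : MD N c} {a b : M.Vx} (h : M.rel a b) (hne : a ≠ b) :
    M.graph.Adj a b := by
  rw [MD.graph, SimpleGraph.fromRel_adj]; exact ⟨hne, Or.inl h⟩

lemma mod_contr (M M' : MD N c) (hA : M.A = M'.A) (htop : M.top = M'.top) (hd : M.d = M'.d)
    (hlen : ∀ x, M.len x ≤ M'.len x) (hlen0 : ∀ x, M.len x = 0 → M'.len x = 0)
    (isA : Fin c → Prop) (hrefl : ∀ i, M.d i i = true)
    (hasym : ∀ i j, M.d i j = true → M.d j i = true ∨ (isA i ∧ ¬ isA j))
    {e : Fin M.n → Fin M'.n} {g : Fin M'.n → Fin M.n}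
    (he : Emb (fun l : Fin c × (Fin N → Bool) => isA l.1) M.w M'.w e g) :
    IsContraction M'.graph M.graph := by
  have hpos : ∀ (x : Fin N) (t : ℕ), t < M'.len x → 0 < M.len x := by
    intro x t ht
    rcases Nat.eq_zero_or_pos (M.len x) with h | h
    · rw [hlen0 x h] at ht; omega
    · exact h
  let f : M'.Vx → M.Vx := fun v => match v with
    | .inl x => .inl x
    | .inr (.inl p) => .inr (.inl ⟨p.1, ⟨min p.2.val (M.len p.1 - 1), by
        have := hpos p.1 _ p.2.isLt
        omega⟩⟩)
    | .inr (.inr q) => .inr (.inr (g q))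
  let ce : M.Vx → M'.Vx := fun v => match v with
    | .inl x => .inl x
    | .inr (.inl p) => .inr (.inl ⟨p.1, ⟨p.2.val, lt_of_lt_of_le p.2.isLt (hlen _)⟩⟩)
    | .inr (.inr q) => .inr (.inr (e q))
  have hc : ∀ w, f (ce w) = w := by
    rintro (x | ⟨x, t⟩ | q)
    · rfl
    · show (.inr (.inl ⟨x, ⟨min t.val (M.len x - 1), _⟩⟩) : M.Vx) = .inr (.inl ⟨x, t⟩)
      congr 3
      have := t.isLt
      exact Fin.ext (by simp only; omega)
    · show (.inr (.inr (g (e q))) : M.Vx) = _
      rw [he.ge]
  -- half of the adjacency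
  have hadj1 : ∀ a b, M'.rel a b → f a = f b ∨ M.graph.Adj (f a) (f b) := by
    intro a b hab
    by_cases hne : f a = f b
    · exact Or.inl hne
    right
    rcases a with x | ⟨x, t⟩ | q <;> rcases b with y | ⟨y, t'⟩ | q'
    · apply MD.adj_of_rel _ hne
      show M.A x y = true
      rw [hA]; exact hab
    · apply MD.adj_of_rel _ hne
      have hab : (t'.val = 0 ∧ x = y) ∨ (t'.val + 1 = M'.len y ∧ x = M'.top y) := hab
      show (min t'.val (M.len y - 1) = 0 ∧ x = y) ∨ (min t'.val (M.len y - 1) + 1 = M.len y ∧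
        x = M.top y)
      have h1 := hpos y _ t'.isLt
      have h2 := hlen y
      rcases hab with h | h
      · left; exact ⟨by omega, h.2⟩
      · right; exact ⟨by omega, by rw [htop]; exact h.2⟩
    · apply MD.adj_of_rel _ hne
      show (M.w (g q')).2 x = true
      rw [he.geq]; exact hab
    · exact absurd hab (fun h => h)
    · have hab : x = y ∧ t.val + 1 = t'.val := hab
      obtain ⟨rfl, hab⟩ := hab
      have h1 := hpos x _ t'.isLt
      apply MD.adj_of_rel _ hne
      show x = x ∧ min t.val (M.len x - 1) + 1 = min t'.val (M.len x - 1)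
      refine ⟨rfl, ?_⟩
      by_contra hcon
      apply hne
      show (.inr (.inl ⟨x, ⟨min t.val (M.len x - 1), _⟩⟩) : M.Vx) =
        .inr (.inl ⟨x, ⟨min t'.val (M.len x - 1), _⟩⟩)
      congr 3
      exact Fin.ext (by simp only; omega)
    · exact absurd hab (fun h => h)
    · exact absurd hab (fun h => h)
    · exact absurd hab (fun h => h)
    · have hab : q < q' ∧ M'.d (M'.w q).1 (M'.w q').1 = true := hab
      obtain ⟨hlt, hdd⟩ := hab
      rw [← he.geq q, ← he.geq q', ← hd] at hdd
      have hgne : g q ≠ g q' := fun h => hne (by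
        show (.inr (.inr (g q)) : M.Vx) = .inr (.inr (g q')); rw [h])
      rcases lt_or_gt_of_ne hgne with h | h
      · apply MD.adj_of_rel _ hne
        exact ⟨h, hdd⟩
      · rcases hasym _ _ hdd with h1 | ⟨h1, h2⟩
        · apply SimpleGraph.Adj.symm
          apply MD.adj_of_rel _ (Ne.symm hne)
          exact ⟨h, h1⟩
        · exfalso
          rw [he.geq] at h1 h2
          have h3 := he.le q h1
          have h4 := he.ge' q' h2
          have h5 := he.mono h
          exact absurd (lt_of_le_of_lt h3 (lt_of_lt_of_le hlt h4)) (not_lt.2 (le_of_lt h5))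
  have hadj2 : ∀ w w', M.rel w w' → w ≠ w' →
      ∃ x y, f x = w ∧ f y = w' ∧ M'.graph.Adj x y := by
    intro a b hab hne
    have hne' : ce a ≠ ce b := fun h => hne (by rw [← hc a, h, hc b])
    rcases a with x | ⟨x, t⟩ | q <;> rcases b with y | ⟨y, t'⟩ | q'
    · refine ⟨_, _, hc _, hc _, MD.adj_of_rel ?_ hne'⟩
      show M'.A x y = true
      rw [← hA]; exact hab
    · have hab : (t'.val = 0 ∧ x = y) ∨ (t'.val + 1 = M.len y ∧ x = M.top y) := hab
      rcases hab with h | h
      · refine ⟨_, _, hc _, hc _, MD.adj_of_rel (Or.inl h) hne'⟩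
      · have h0 : 0 < M.len y := by have := t'.isLt; omega
        have h1 : M'.len y - 1 < M'.len y := by have := hlen y; omega
        refine ⟨.inl x, .inr (.inl ⟨y, ⟨M'.len y - 1, h1⟩⟩), rfl, ?_,
          MD.adj_of_rel (Or.inr ?_) (by simp)⟩
        · show (.inr (.inl ⟨y, ⟨min (M'.len y - 1) (M.len y - 1), _⟩⟩) : M.Vx) =
            .inr (.inl ⟨y, t'⟩)
          congr 3
          have := hlen y
          exact Fin.ext (by simp only; omega)
        · exact ⟨by simp only; omega, by rw [← htop]; exact h.2⟩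
    · refine ⟨_, _, hc _, hc _, MD.adj_of_rel ?_ hne'⟩
      show (M'.w (e q')).2 x = true
      rw [he.eq]; exact hab
    · exact absurd hab (fun h => h)
    · exact ⟨_, _, hc _, hc _, MD.adj_of_rel hab hne'⟩
    · exact absurd hab (fun h => h)
    · exact absurd hab (fun h => h)
    · exact absurd hab (fun h => h)
    · refine ⟨_, _, hc _, hc _, MD.adj_of_rel ?_ hne'⟩
      have hab : q < q' ∧ M.d (M.w q).1 (M.w q').1 = true := hab
      show e q < e q' ∧ M'.d (M'.w (e q)).1 (M'.w (e q')).1 = true
      rw [he.eq, he.eq, ← hd]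
      exact ⟨he.mono hab.1, hab.2⟩
  refine ⟨f, wit_of_center (G := M'.graph) (H := M.graph) f ce hc ?_ ?_ ?_⟩
  · -- connectivity of the fibres
    rintro (x | ⟨x, t⟩ | q)
    · exact SimpleGraph.Reachable.refl _
    · have h0 := hpos x _ t.isLt
      have hl := hlen x
      have key : ∀ (t₂ : ℕ) (h₂ : t₂ < M'.len x), M.len x - 1 ≤ t₂ → ∀ (r : M.Vx)
          (h1 : f (.inr (.inl ⟨x, ⟨t₂, h₂⟩⟩)) = r)
          (h3 : f (.inr (.inl ⟨x, ⟨M.len x - 1, by omega⟩⟩)) = r),
          (M'.graph.induce {y | f y = r}).Reachable ⟨.inr (.inl ⟨x, ⟨t₂, h₂⟩⟩), h1⟩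
            ⟨.inr (.inl ⟨x, ⟨M.len x - 1, by omega⟩⟩), h3⟩ := by
        intro t₂
        induction t₂ with
        | zero =>
          intro h₂ hle r h1 h3
          have : M.len x - 1 = 0 := by omega
          convert SimpleGraph.Reachable.refl _ using 6
        | succ t₂ ih =>
          intro h₂ hle r h1 h3
          by_cases heq : M.len x - 1 = t₂ + 1
          · convert SimpleGraph.Reachable.refl _ using 6
          · have hb : f (.inr (.inl ⟨x, ⟨t₂, by omega⟩⟩)) = r := by
              rw [← h1]
              show (.inr (.inl ⟨x, ⟨min t₂ (M.len x - 1), _⟩⟩) : M.Vx) =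
                .inr (.inl ⟨x, ⟨min (t₂ + 1) (M.len x - 1), _⟩⟩)
              congr 3
              exact Fin.ext (by simp only; omega)
            have h4 := ih (by omega) (by omega) r hb h3
            refine SimpleGraph.Reachable.trans (SimpleGraph.Adj.reachable ?_) h4
            show M'.graph.Adj _ _
            apply SimpleGraph.Adj.symm
            apply MD.adj_of_rel
            · exact ⟨rfl, rfl⟩
            · simp
      by_cases hle : t.val ≤ M.len x - 1
      · convert SimpleGraph.Reachable.refl _ using 2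
        show (.inr (.inl ⟨x, ⟨min t.val (M.len x - 1), _⟩⟩) : M'.Vx) = .inr (.inl ⟨x, t⟩)
        congr 3
        exact Fin.ext (by simp only; omega)
      · have h5 := key t.val t.isLt (by omega) (f (.inr (.inl ⟨x, t⟩))) rfl (by
          show (.inr (.inl ⟨x, ⟨min (M.len x - 1) (M.len x - 1), _⟩⟩) : M.Vx) =
                .inr (.inl ⟨x, ⟨min t.val (M.len x - 1), _⟩⟩)
          congr 3
          exact Fin.ext (by simp only; omega))
        convert h5 using 2
        show (.inr (.inl ⟨x, ⟨min t.val (M.len x - 1), _⟩⟩) : M'.Vx) =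
          .inr (.inl ⟨x, ⟨M.len x - 1, _⟩⟩)
        congr 3
        exact Fin.ext (by simp only; omega)
    · by_cases heq : q = e (g q)
      · have : ce (f (.inr (.inr q))) = .inr (.inr q) := by
          show (.inr (.inr (e (g q))) : M'.Vx) = _
          rw [← heq]
        convert SimpleGraph.Reachable.refl _ using 2
      · apply SimpleGraph.Adj.reachable
        show M'.graph.Adj (.inr (.inr q)) (.inr (.inr (e (g q))))
        have hl : M'.w (e (g q)) = M'.w q := by rw [he.eq, he.geq]
        rcases lt_or_gt_of_ne heq with h | h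
        · apply MD.adj_of_rel
          · refine ⟨h, ?_⟩
            rw [hl, ← hd]; exact hrefl _
          · simpa using heq
        · apply SimpleGraph.Adj.symm
          apply MD.adj_of_rel
          · refine ⟨h, ?_⟩
            rw [hl, ← hd]; exact hrefl _
          · simpa using fun h' => heq h'.symm
  · intro x y hxy
    rw [MD.graph, SimpleGraph.fromRel_adj] at hxy
    rcases hxy.2 with h | h
    · exact hadj1 _ _ h
    · rcases hadj1 _ _ h with h' | h'
      · exact Or.inl h'.symm
      · exact Or.inr h'.symm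
  · intro w w' hww
    rw [MD.graph, SimpleGraph.fromRel_adj] at hww
    rcases hww.2 with h | h
    · exact hadj2 _ _ h hww.1
    · obtain ⟨x, y, h1, h2, h3⟩ := hadj2 _ _ h (Ne.symm hww.1)
      exact ⟨y, x, h2, h1, h3.symm⟩

end Pool.Agent.Run7.h855
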