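import Pool.Agent.Run7.h855.Paths
import Pool.Agent.Run7.h855.ModWqo

/-! Structured graphs are model graphs. -/

namespace Pool.Agent.Run7.h855

open Pool.Agent.H175R2 Finset Classical

variable {V : Type} {G : SimpleGraph V} {X D : Finset V}

theorem modP_of [Fintype V] (hG : G.Connected) (h : Str G X D) {c n : ℕ} (ws : Fin n → V)
    (hws : Function.Injective ws) (hmem : ∀ v, v ∉ X ∪ D ↔ ∃ p, ws p = v) (cl : Fin n → Fin c)
    (d : Fin c → Fin c → Bool)
    (hd : ∀ p q, p < q → (G.Adj (ws p) (ws q) ↔ d (cl p) (cl q) = true))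
    (isA : Fin c → Prop) (hrefl : ∀ i, d i i = true)
    (hasym : ∀ i j, d i j = true → d j i = true ∨ (isA i ∧ ¬ isA j)) :
    ModP X.card c isA G := by
  set N := X.card with hN
  let ex : Fin N ≃ {x // x ∈ X} := X.equivFin.symm
  have hXD : ∀ v, v ∈ X → v ∉ D := fun v h1 h2 => disjoint_left.1 h.disj h1 h2
  -- paths
  have hpath : ∀ x : Fin N, ∃ (n : ℕ) (q : ℕ → V), (∃ d₀ ∈ D, G.Adj (ex x).1 d₀) →
      1 ≤ n ∧ q 0 = (ex x).1 ∧ q (n + 1) ∈ X ∧ (∀ t, 1 ≤ t → t ≤ n → q t ∈ D) ∧
      (∀ s t, s ≤ n → t ≤ n → q s = q t → s = t) ∧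
      (∀ t, 1 ≤ t → t ≤ n → ∀ v, G.Adj (q t) v ↔ (v = q (t - 1) ∨ v = q (t + 1))) := by
    intro x
    by_cases hx : ∃ d₀ ∈ D, G.Adj (ex x).1 d₀
    · obtain ⟨d₀, hd₀, hadj⟩ := hx
      obtain ⟨n, q, hh⟩ := h.path_from (ex x).2 hd₀ hadj
      exact ⟨n, q, fun _ => hh⟩
    · exact ⟨0, fun _ => (ex x).1, fun h' => absurd h' hx⟩
  choose np q hq using hpath
  -- bottoms
  let E : V → Finset (Fin N) := fun v =>
    univ.filter (fun x => ∃ u ∈ cpt G D v, G.Adj (ex x).1 u)
  have hE : ∀ v ∈ D, (E v).Nonempty := by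
    intro v hv
    obtain ⟨x₀, hx₀⟩ := h.ne
    obtain ⟨a, ha, b, hb, hab⟩ := (cn_univ hG).2 (cpt G D v) (subset_univ _)
      ⟨v, mem_cpt_self hv⟩ ⟨x₀, mem_sdiff.2 ⟨mem_univ _, fun h' => hXD x₀ hx₀ (cpt_subset h')⟩⟩
    have hbc := (mem_sdiff.1 hb).2
    have hbX : b ∈ X := by
      rcases mem_union.1 (h.out a (cpt_subset ha) b hab) with h1 | h1
      · exact h1
      · exact absurd hab (not_adj_cpt hv ha h1 hbc)
    refine ⟨ex.symm ⟨b, hbX⟩, ?_⟩
    simp only [E, mem_filter, mem_univ, true_and]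
    exact ⟨a, ha, by simpa using hab.symm⟩
  let bot : V → Fin N := fun v => if hv : (E v).Nonempty then (E v).min' hv else
    (X.equivFin ⟨_, h.ne.choose_spec⟩)
  have hbot : ∀ v ∈ D, bot v ∈ E v := by
    intro v hv
    have : bot v = (E v).min' (hE v hv) := by simp [bot, hE v hv]
    rw [this]
    exact min'_mem _ _
  have hbotc : ∀ u v, cpt G D u = cpt G D v → bot u = bot v := by
    intro u v huv
    have : E u = E v := by simp only [E, huv]
    simp only [bot, this]
  -- the component of a path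
  have hne_of : ∀ (x : Fin N) (v : V), v ∈ D → bot v = x → ∃ d₀ ∈ D, G.Adj (ex x).1 d₀ := by
    intro x v hv hx
    have := hbot v hv
    rw [hx] at this
    simp only [E, mem_filter, mem_univ, true_and] at this
    obtain ⟨u, hu, hadj⟩ := this
    exact ⟨u, cpt_subset hu, hadj⟩
  have hcq : ∀ (x : Fin N) (v : V), v ∈ D → bot v = x → cpt G D v = cpt G D (q x 1) := by
    intro x v hv hx
    have hb := hbot v hv
    rw [hx] at hb
    simp only [E, mem_filter, mem_univ, true_and] at hb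
    obtain ⟨u, hu, hadj⟩ := hb
    have huD := cpt_subset hu
    obtain ⟨h1, h2, h3, h4, h5, h6⟩ := hq x ⟨u, huD, hadj⟩
    have hq1 : q x 1 ∈ D := h4 1 (le_refl _) h1
    have hadj1 : G.Adj (ex x).1 (q x 1) := by
      have := (h6 1 (le_refl _) h1 (q x 0)).2 (Or.inl rfl)
      rw [h2] at this
      exact this.symm
    have : u = q x 1 := card_le_one.1 (h.one _ (ex x).2) u (mem_nb.2 ⟨huD, hadj⟩) _
      (mem_nb.2 ⟨hq1, hadj1⟩)
    subst this
    exact (cpt_eq_of_mem hv hu).symm
  let len : Fin N → ℕ := fun x => if ∃ v ∈ D, bot v = x then np x else 0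
  have hlen : ∀ x t, t < len x → (∃ v ∈ D, bot v = x) ∧ len x = np x := by
    intro x t ht
    by_cases hx : ∃ v ∈ D, bot v = x
    · exact ⟨hx, by simp [len, hx]⟩
    · simp [len, hx] at ht
  have hfacts : ∀ x t, t < len x → (1 ≤ np x ∧ q x 0 = (ex x).1 ∧ q x (np x + 1) ∈ X ∧
      (∀ t, 1 ≤ t → t ≤ np x → q x t ∈ D) ∧
      (∀ s t, s ≤ np x → t ≤ np x → q x s = q x t → s = t) ∧
      (∀ t, 1 ≤ t → t ≤ np x → ∀ v, G.Adj (q x t) v ↔ (v = q x (t - 1) ∨ v = q x (t + 1)))) := by
    intro x t ht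
    obtain ⟨⟨v, hv, hvx⟩, -⟩ := hlen x t ht
    exact hq x (hne_of x v hv hvx)
  have hbotq : ∀ x t, t < len x → bot (q x (t + 1)) = x := by
    intro x t ht
    obtain ⟨⟨v, hv, hvx⟩, hl⟩ := hlen x t ht
    obtain ⟨h1, h2, h3, h4, h5, h6⟩ := hfacts x t ht
    have hc := hcq x v hv hvx
    have hmem : q x (t + 1) ∈ cpt G D (q x 1) :=
      (h.path_cpt h1 (by rw [h2]; exact (ex x).2) h3 h4 h6 _).2 ⟨t + 1, by omega, by omega, rfl⟩
    have h7 : bot (q x (t + 1)) = bot v := hbotc _ _ (by
      rw [hc]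
      exact cpt_eq_of_mem (h4 1 (le_refl _) h1) hmem)
    rw [h7, hvx]
  let top : Fin N → Fin N := fun x => if hx : q x (np x + 1) ∈ X then
    ex.symm ⟨q x (np x + 1), hx⟩ else x
  have htop : ∀ x t, t < len x → (ex (top x)).1 = q x (np x + 1) := by
    intro x t ht
    obtain ⟨h1, h2, h3, h4, h5, h6⟩ := hfacts x t ht
    simp [top, h3]
  let M : MD N c :=
    { A := fun x y => decide (G.Adj (ex x).1 (ex y).1)
      top := top
      len := len
      d := d
      n := n
      w := fun p => (cl p, fun x => decide (G.Adj (ex x).1 (ws p))) }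
  let φ : M.Vx → V := fun v => match v with
    | .inl x => (ex x).1
    | .inr (.inl p) => q p.1 (p.2.val + 1)
    | .inr (.inr p) => ws p
  have hφD : ∀ p : (Σ x : Fin N, Fin (len x)), q p.1 (p.2.val + 1) ∈ D := by
    rintro ⟨x, t⟩
    obtain ⟨h1, h2, h3, h4, h5, h6⟩ := hfacts x t t.isLt
    have := (hlen x t t.isLt).2
    exact h4 _ (by omega) (by have := t.isLt; simp only; omega)
  have hφW : ∀ p, ws p ∉ X ∪ D := fun p => (hmem _).2 ⟨p, rfl⟩
  have hqinj : ∀ (x x' : Fin N) (t t' : ℕ), t < len x → t' < len x' →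
      q x (t + 1) = q x' (t' + 1) → x = x' ∧ t = t' := by
    intro x x' t t' ht ht' heq
    have e1 := hbotq x t ht
    have e2 := hbotq x' t' ht'
    rw [heq, e2] at e1
    subst e1
    obtain ⟨h1, h2, h3, h4, h5, h6⟩ := hfacts _ t ht
    have hl := (hlen _ t ht).2
    have := h5 (t + 1) (t' + 1) (by omega) (by omega) heq
    exact ⟨rfl, by omega⟩
  have hinj : Function.Injective φ := by
    intro a b hab
    rcases a with x | ⟨x, t⟩ | p <;> rcases b with y | ⟨y, t'⟩ | p'
    · have hab : (ex x).1 = (ex y).1 := hab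
      rw [ex.injective (Subtype.ext hab)]
    · have hab : (ex x).1 = q y (t'.val + 1) := hab
      exact absurd (hφD ⟨y, t'⟩) (hab ▸ hXD _ (ex x).2)
    · have hab : (ex x).1 = ws p' := hab
      exact absurd (mem_union_left _ (ex x).2) (hab ▸ hφW p')
    · have hab : q x (t.val + 1) = (ex y).1 := hab
      exact absurd (hφD ⟨x, t⟩) (hab ▸ hXD _ (ex y).2)
    · have hab : q x (t.val + 1) = q y (t'.val + 1) := hab
      obtain ⟨rfl, h2⟩ := hqinj _ _ _ _ t.isLt t'.isLt hab
      rw [Fin.ext h2]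
    · have hab : q x (t.val + 1) = ws p' := hab
      exact absurd (mem_union_right _ (hφD ⟨x, t⟩)) (hab ▸ hφW p')
    · have hab : ws p = (ex y).1 := hab
      exact absurd (mem_union_left _ (ex y).2) (hab ▸ hφW p)
    · have hab : ws p = q y (t'.val + 1) := hab
      exact absurd (mem_union_right _ (hφD ⟨y, t'⟩)) (hab ▸ hφW p)
    · have hab : ws p = ws p' := hab
      rw [hws hab]
  have hsurj : Function.Surjective φ := by
    intro v
    by_cases hv : v ∈ X ∪ D
    · rcases mem_union.1 hv with hvX | hvD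
      · exact ⟨.inl (ex.symm ⟨v, hvX⟩), by simp [φ]⟩
      · have hx : ∃ u ∈ D, bot u = bot v := ⟨v, hvD, rfl⟩
        have hl : len (bot v) = np (bot v) := by simp only [len, hx, if_true]
        obtain ⟨h1, h2, h3, h4, h5, h6⟩ := hq (bot v) (hne_of _ v hvD rfl)
        have hc := hcq _ v hvD rfl
        have hm : v ∈ cpt G D (q (bot v) 1) := hc ▸ mem_cpt_self hvD
        obtain ⟨t, ht1, htn, hvt⟩ := (h.path_cpt h1 (by rw [h2]; exact (ex _).2) h3 h4 h6 v).1 hm
        refine ⟨.inr (.inl ⟨bot v, ⟨t - 1, by show t - 1 < len (bot v); omega⟩⟩), ?_⟩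
        show q (bot v) (t - 1 + 1) = v
        rw [Nat.sub_add_cancel ht1, ← hvt]
    · obtain ⟨p, hp⟩ := (hmem v).1 hv
      exact ⟨.inr (.inr p), hp⟩
  -- adjacency
  have hdec : ∀ x y : V, decide (G.Adj x y) = true ↔ G.Adj x y := fun x y => by simp
  have hfwd : ∀ a b : M.Vx, M.rel a b → a ≠ b → G.Adj (φ a) (φ b) := by
    intro a b hab hne
    rcases a with x | ⟨x, t⟩ | p <;> rcases b with y | ⟨y, t'⟩ | p'
    · exact (hdec _ _).1 hab
    · have hab : (t'.val = 0 ∧ x = y) ∨ (t'.val + 1 = len y ∧ x = top y) := hab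
      obtain ⟨h1, h2, h3, h4, h5, h6⟩ := hfacts y t' t'.isLt
      have hl := (hlen y t' t'.isLt).2
      have ht : t'.val < len y := t'.isLt
      show G.Adj (ex x).1 (q y (t'.val + 1))
      apply SimpleGraph.Adj.symm
      rw [h6 _ (by omega) (by omega)]
      rcases hab with ⟨e1, rfl⟩ | ⟨e1, rfl⟩
      · left; rw [e1]; simp [h2]
      · right
        rw [htop y t' ht]
        congr 1
        omega
    · exact (hdec _ _).1 hab
    · exact absurd hab (fun h => h)
    · have hab : x = y ∧ t.val + 1 = t'.val := hab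
      obtain ⟨rfl, hab⟩ := hab
      obtain ⟨h1, h2, h3, h4, h5, h6⟩ := hfacts x t t.isLt
      have hl := (hlen x t t.isLt).2
      have ht : t.val < len x := t.isLt
      show G.Adj (q x (t.val + 1)) (q x (t'.val + 1))
      rw [h6 _ (by omega) (by omega)]
      right
      congr 1
      omega
    · exact absurd hab (fun h => h)
    · exact absurd hab (fun h => h)
    · exact absurd hab (fun h => h)
    · have hab : p < p' ∧ d (cl p) (cl p') = true := hab
      exact (hd p p' hab.1).2 hab.2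
  have hxq : ∀ (y : Fin N) (x : Fin N) (t : Fin (len x)), G.Adj (q x (t.val + 1)) (ex y).1 →
      M.rel (.inl y) (.inr (.inl ⟨x, t⟩)) := by
    intro y x t hadj
    obtain ⟨h1, h2, h3, h4, h5, h6⟩ := hfacts x t t.isLt
    have hl := (hlen x t t.isLt).2
    have ht := t.isLt
    show (t.val = 0 ∧ y = x) ∨ (t.val + 1 = len x ∧ y = top x)
    rw [h6 _ (by omega) (by omega)] at hadj
    rcases hadj with hadj | hadj
    · left
      rcases Nat.eq_zero_or_pos t.val with h0 | h0
      · refine ⟨h0, ?_⟩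
        rw [h0] at hadj
        simp only [Nat.zero_add, Nat.sub_self] at hadj
        rw [h2] at hadj
        exact ex.injective (Subtype.ext hadj)
      · exfalso
        have := h4 t.val h0 (by omega)
        rw [Nat.add_sub_cancel] at hadj
        rw [← hadj] at this
        exact hXD _ (ex y).2 this
    · right
      by_cases h0 : t.val + 1 = np x
      · refine ⟨by omega, ?_⟩
        apply ex.injective
        apply Subtype.ext
        rw [htop x t t.isLt, hadj, h0]
      · exfalso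
        have := h4 (t.val + 1 + 1) (by omega) (by omega)
        rw [← hadj] at this
        exact hXD _ (ex y).2 this
  have hback : ∀ a b : M.Vx, G.Adj (φ a) (φ b) → M.rel a b ∨ M.rel b a := by
    intro a b hab
    rcases a with x | ⟨x, t⟩ | p <;> rcases b with y | ⟨y, t'⟩ | p'
    · exact Or.inl ((hdec _ _).2 hab)
    · exact Or.inl (hxq x y t' (SimpleGraph.Adj.symm hab))
    · exact Or.inl ((hdec _ _).2 hab)
    · exact Or.inr (hxq y x t hab)
    · have hab : G.Adj (q x (t.val + 1)) (q y (t'.val + 1)) := hab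
      obtain ⟨h1, h2, h3, h4, h5, h6⟩ := hfacts x t t.isLt
      have hl := (hlen x t t.isLt).2
      have ht : t.val < len x := t.isLt
      have ht' : t'.val < len y := t'.isLt
      rw [h6 _ (by omega) (by omega)] at hab
      have hD' := hφD ⟨y, t'⟩
      simp only at hD'
      rcases hab with hab | hab
      · right
        rw [Nat.add_sub_cancel] at hab
        rcases Nat.eq_zero_or_pos t.val with h0 | h0
        · rw [h0, h2] at hab
          rw [hab] at hD'
          exact absurd hD' (hXD _ (ex x).2)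
        · have : q y (t'.val + 1) = q x ((t.val - 1) + 1) := by
            rw [Nat.sub_add_cancel h0]; exact hab
          obtain ⟨e1, e2⟩ := hqinj _ _ _ _ ht' (by omega) this
          exact ⟨e1, by simp only; omega⟩
      · left
        by_cases h0 : t.val + 1 = np x
        · rw [h0] at hab
          rw [hab] at hD'
          exact absurd hD' (hXD _ h3)
        · obtain ⟨e1, e2⟩ := hqinj _ _ _ _ ht' (by omega) hab
          exact ⟨e1.symm, by simp only; omega⟩
    · exact absurd (h.out _ (hφD ⟨x, t⟩) _ hab) (hφW p')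
    · exact Or.inr ((hdec _ _).2 (SimpleGraph.Adj.symm hab))
    · exact absurd (h.out _ (hφD ⟨y, t'⟩) _ (SimpleGraph.Adj.symm hab)) (hφW p)
    · have hab : G.Adj (ws p) (ws p') := hab
      have hne : p ≠ p' := fun h' => hab.ne (by rw [h'])
      rcases lt_or_gt_of_ne hne with hlt | hlt
      · exact Or.inl ⟨hlt, (hd p p' hlt).1 hab⟩
      · exact Or.inr ⟨hlt, (hd p' p hlt).1 hab.symm⟩
  refine ⟨M, hrefl, hasym, ⟨SimpleGraph.Iso.symm ⟨Equiv.ofBijective φ ⟨hinj, hsurj⟩, ?_⟩⟩⟩
  intro a b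
  show G.Adj (φ a) (φ b) ↔ M.graph.Adj a b
  rw [MD.graph, SimpleGraph.fromRel_adj]
  constructor
  · intro hab
    exact ⟨fun h' => hab.ne (by rw [h']), hback a b hab⟩
  · rintro ⟨hne, hab | hab⟩
    · exact hfwd a b hab hne
    · exact (hfwd b a hab (Ne.symm hne)).symm

end Pool.Agent.Run7.h855
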