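import Pool.Agent.Run7.h855.Osc

/-! The oscillations are pairwise incomparable. -/

namespace Pool.Agent.Run7.h855

open Pool.Agent.H175R2

lemma mono_seq (m : ℕ) (g : ℕ → ℕ) (h1 : ∀ i, i + 1 < m → g (i + 1) = g i + 1 ∨ g (i + 1) + 1 = g i)
    (hinj : ∀ i j, i < m → j < m → g i = g j → i = j) :
    (∀ i, i < m → g i = g 0 + i) ∨ (∀ i, i < m → g i + i = g 0) := by
  by_cases hm : m ≤ 1
  · left
    intro i hi
    have : i = 0 := by omega
    subst this; simp
  rcases h1 0 (by omega) with h0 | h0
  · left
    have key : ∀ i, i + 1 < m → g (i + 1) = g i + 1 := by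
      intro i
      induction i with
      | zero => intro _; exact h0
      | succ i ih =>
        intro hi
        have h2 := ih (by omega)
        rcases h1 (i + 1) hi with h3 | h3
        · exact h3
        · have := hinj (i + 1 + 1) i hi (by omega) (by omega)
          omega
    intro i
    induction i with
    | zero => intro _; rfl
    | succ i ih =>
      intro hi
      rw [key i hi, ih (by omega)]; omega
  · right
    have key : ∀ i, i + 1 < m → g (i + 1) + 1 = g i := by
      intro i
      induction i with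
      | zero => intro _; exact h0
      | succ i ih =>
        intro hi
        have h2 := ih (by omega)
        rcases h1 (i + 1) hi with h3 | h3
        · have := hinj (i + 1 + 1) i hi (by omega) (by omega)
          omega
        · exact h3
    intro i
    induction i with
    | zero => intro _; rfl
    | succ i ih =>
      intro hi
      have := key i hi
      have := ih (by omega)
      omega

section

variable {n m : ℕ} {p : Prop} {f : Fin n ⊕ Fin (n + 2) → Fin m ⊕ Fin (m + 2)}

/-- every line misses a point -/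
lemma line_miss (hm : 3 ≤ m) (k : Fin (m + 2)) : ∃ i : Fin m, ¬ oscR i.val k.val := by
  have := k.isLt
  by_cases h : k.val ≤ 2
  · exact ⟨⟨1, by omega⟩, by unfold oscR; dsimp only; omega⟩
  · exact ⟨⟨k.val - 3, by omega⟩, by unfold oscR; dsimp only; omega⟩

lemma types_true (hm : 3 ≤ m) (h : Wit (Osc n True) (Osc m True) f) :
    (∀ i x, f x = .inl i → ∃ j, x = .inl j) ∧ (∀ k x, f x = .inr k → ∃ l, x = .inr l) := by
  -- no mixed fibres
  have nomix : ∀ (i : Fin n) (k : Fin (n + 2)), f (.inl i) ≠ f (.inr k) := by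
    intro i k hik
    have hd := mixed_dom h hik
    rcases hw : f (.inl i) with a | b
    · have := hd (.inr ⟨0, by omega⟩) (by rw [hw]; simp)
      rw [hw, osc_lr] at this
      unfold oscR at this
      dsimp only at this
      omega
    · obtain ⟨j, hj⟩ := line_miss hm b
      have := hd (.inl j) (by rw [hw]; simp)
      rw [hw, osc_rl] at this
      exact hj this
  have ty : ∀ x y, f x ≠ f y → ¬ (Osc m True).Adj (f x) (f y) → x.isLeft ≠ y.isLeft := by
    intro x y hxy hna he
    apply hna
    refine Wit.adj_of h ?_ hxy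
    rcases x with x | x <;> rcases y with y | y
    · exact osc_ll.2 (fun h' => hxy (by rw [h']))
    · simp at he
    · simp at he
    · exact osc_rr.2 ⟨fun h' => hxy (by rw [h']), Or.inl trivial⟩
  obtain ⟨z, hz⟩ := h.surj (.inr ⟨0, by omega⟩)
  have hza : ∀ i x, f x = .inl i → x.isLeft ≠ z.isLeft := by
    intro i x hx
    refine ty x z ?_ ?_
    · rw [hx, hz]; simp
    · rw [hx, hz, osc_lr]; unfold oscR; dsimp only; omega
  have hzb : ∀ k x, f x = .inr k → x.isLeft = z.isLeft := by
    intro k x hx
    obtain ⟨j, hj⟩ := line_miss hm k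
    obtain ⟨y, hy⟩ := h.surj (.inl j)
    have h1 := hza j y hy
    have h2 := ty x y (by rw [hx, hy]; simp) (by rw [hx, hy, osc_rl]; exact hj)
    revert h1 h2
    generalize x.isLeft = a
    generalize y.isLeft = b
    generalize z.isLeft = c
    revert a b c
    decide
  have hzr : z.isLeft = false := by
    rcases z with i | k
    · exfalso
      have hadj : (Osc n True).Adj (.inl i) (.inr ⟨i.val + 2, by omega⟩) := by
        rw [osc_lr]; exact Or.inl rfl
      have h1 := h.adj _ _ hadj
      rcases hw : f (.inr ⟨i.val + 2, by omega⟩) with a | b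
      · rw [hz, hw] at h1
        rcases h1 with h1 | h1
        · simp at h1
        · rw [osc_rl] at h1
          unfold oscR at h1
          dsimp only at h1
          omega
      · have := hzb b _ hw
        simp at this
    · rfl
  refine ⟨fun i x hx => ?_, fun k x hx => ?_⟩
  · have := hza i x hx
    rw [hzr] at this
    rcases x with j | l
    · exact ⟨j, rfl⟩
    · simp at this
  · have := hzb k x hx
    rw [hzr] at this
    rcases x with j | l
    · simp at this
    · exact ⟨l, rfl⟩

lemma types_false (hm : 3 ≤ m) (h : Wit (Osc n False) (Osc m False) f) :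
    (∀ i x, f x = .inl i → ∃ j, x = .inl j) ∧ (∀ k x, f x = .inr k → ∃ l, x = .inr l) := by
  obtain ⟨z0, hz0⟩ := h.surj (.inr ⟨0, by omega⟩)
  obtain ⟨z1, hz1⟩ := h.surj (.inr ⟨1, by omega⟩)
  have n01 : oty z0 ≠ oty z1 := by
    refine oty_ne h (by rw [hz0, hz1]; simp) ?_
    rw [hz0, hz1, osc_rr]
    simp
  have hA : ∀ i x, f x = .inl i → oty x ≠ oty z0 ∧ oty x ≠ oty z1 := by
    intro i x hx
    refine ⟨oty_ne h (by rw [hx, hz0]; simp) ?_, oty_ne h (by rw [hx, hz1]; simp) ?_⟩
    · rw [hx, hz0, osc_lr]; unfold oscR; dsimp only; omega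
    · rw [hx, hz1, osc_lr]; unfold oscR; dsimp only; omega
  have hB : ∀ k x, f x = .inr k → ∃ y i, f y = .inl i ∧ oty x ≠ oty y ∧
      (k.val % 2 = 0 → oty x ≠ oty z1) ∧ (k.val % 2 = 1 → oty x ≠ oty z0) := by
    intro k x hx
    obtain ⟨j, hj⟩ := line_miss hm k
    obtain ⟨y, hy⟩ := h.surj (.inl j)
    refine ⟨y, j, hy, oty_ne h (by rw [hx, hy]; simp) (by rw [hx, hy, osc_rl]; exact hj), ?_, ?_⟩
    · intro hk
      refine oty_ne h ?_ ?_
      · rw [hx, hz1]; intro h'
        have := congrArg (fun z => Sum.elim (fun _ => 0) Fin.val z) h'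
        simp only [Sum.elim_inr] at this
        omega
      · rw [hx, hz1, osc_rr]
        rintro ⟨_, h' | h'⟩
        · exact h'
        · dsimp only at h'; omega
    · intro hk
      refine oty_ne h ?_ ?_
      · rw [hx, hz0]; intro h'
        have := congrArg (fun z => Sum.elim (fun _ => 0) Fin.val z) h'
        simp only [Sum.elim_inr] at this
        omega
      · rw [hx, hz0, osc_rr]
        rintro ⟨_, h' | h'⟩
        · exact h'
        · dsimp only at h'; omega
  have lt0 := oty_lt z0
  have lt1 := oty_lt z1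
  have hB' : ∀ k x, f x = .inr k → (k.val % 2 = 0 → oty x = oty z0) ∧ (k.val % 2 = 1 → oty x = oty z1) := by
    intro k x hx
    obtain ⟨y, i, hy, h1, h2, h3⟩ := hB k x hx
    have h4 := hA i y hy
    have := oty_lt x
    have := oty_lt y
    constructor
    · intro hk
      have := h2 hk
      omega
    · intro hk
      have := h3 hk
      omega
  -- adjacency between lines of different parity is impossible
  have nopar : ∀ x y : Fin n ⊕ Fin (n + 2), (Osc n False).Adj x y → oty x ≠ 2 → oty y ≠ 2 →
      oty x = oty y := by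
    rintro (x | x) (y | y) hxy hx hy
    · simp [oty] at hx
    · simp [oty] at hx
    · simp [oty] at hy
    · rw [osc_rr] at hxy
      exact hxy.2.resolve_left id
  have c0 : oty z0 ≠ 2 := by
    intro hc
    have hadj : (Osc m False).Adj (.inl ⟨1, by omega⟩) (.inr ⟨3, by omega⟩) := by
      rw [osc_lr]; exact Or.inl rfl
    obtain ⟨x, y, hx, hy, hxy⟩ := (h.2 _ _ hadj.ne).1 hadj
    have h1 := hA _ x hx
    have h2 := (hB' _ y hy).2 (by norm_num)
    have := oty_lt x
    have := nopar x y hxy (by omega) (by omega)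
    omega
  have c1 : oty z1 ≠ 2 := by
    intro hc
    have hadj : (Osc m False).Adj (.inl ⟨0, by omega⟩) (.inr ⟨2, by omega⟩) := by
      rw [osc_lr]; exact Or.inl rfl
    obtain ⟨x, y, hx, hy, hxy⟩ := (h.2 _ _ hadj.ne).1 hadj
    have h1 := hA _ x hx
    have h2 := (hB' _ y hy).1 (by norm_num)
    have := oty_lt x
    have := nopar x y hxy (by omega) (by omega)
    omega
  refine ⟨fun i x hx => ?_, fun k x hx => ?_⟩
  · have h1 := hA i x hx
    rcases x with j | l
    · exact ⟨j, rfl⟩
    · have : oty (n := n) (.inr l) < 2 := by simp only [oty]; omega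
      omega
  · have h1 := hB' k x hx
    rcases x with j | l
    · exfalso
      have h2 : oty (n := n) (.inl j) = 2 := rfl
      rcases Nat.mod_two_eq_zero_or_one k.val with hk | hk
      · have := h1.1 hk; omega
      · have := h1.2 hk; omega
    · exact ⟨l, rfl⟩

lemma osc_anti_core (hm : 3 ≤ m) (h : Wit (Osc n p) (Osc m p) f)
    (hA : ∀ i x, f x = .inl i → ∃ j, x = .inl j) (hB : ∀ k x, f x = .inr k → ∃ l, x = .inr l) :
    n = m := by
  have ex1 : ∀ i : Fin m, ∃ j : Fin n, f (.inl j) = .inl i := by
    intro i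
    obtain ⟨x, hx⟩ := h.surj (.inl i)
    obtain ⟨j, rfl⟩ := hA i x hx
    exact ⟨j, hx⟩
  have ex2 : ∀ k : Fin (m + 2), ∃ j : Fin (n + 2), f (.inr j) = .inr k := by
    intro k
    obtain ⟨x, hx⟩ := h.surj (.inr k)
    obtain ⟨j, rfl⟩ := hB k x hx
    exact ⟨j, hx⟩
  choose μ hμ hμ' using fun i => exists_mu (ex1 i)
  choose ν hν hν' using fun k => exists_nu (ex2 k)
  have hPL : ∀ i k, PL f (.inl i) (.inr k) (μ i) (ν k) := fun i k =>
    ⟨hA i, hB k, hμ i, hν k, hμ' i, hν' k⟩
  have μinj : Function.Injective μ := by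
    intro i j hij
    have h1 := hμ i
    rw [hij, hμ j] at h1
    exact (Sum.inl.inj h1).symm
  have νinj : Function.Injective ν := by
    intro i j hij
    have h1 := hν i
    rw [hij, hν j] at h1
    exact (Sum.inr.inj h1).symm
  have hnm : m ≤ n := by
    have := Fintype.card_le_of_injective μ μinj
    simpa using this
  by_contra hne
  have hlt : m < n := lt_of_le_of_ne hnm (Ne.symm hne)
  have adj : ∀ (i : Fin m) (k : Fin (m + 2)), oscR i.val k.val → (μ i).val + 2 ≤ (ν k).val :=
    fun i k hik => (hPL i k).adj h (osc_lr.2 hik)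
  have nadj : ∀ (i : Fin m) (k : Fin (m + 2)), ¬ oscR i.val k.val →
      (ν k).val ≤ (μ i).val + 1 ∨ (ν k).val = (μ i).val + 3 :=
    fun i k hik => (hPL i k).nonadj h (fun h' => hik (osc_lr.1 h')) (by simp)
  have twoK : ∀ (a a' : Fin m) (b b' : Fin (m + 2)), a ≠ a' → b ≠ b' → oscR a.val b.val →
      oscR a'.val b'.val → ¬ oscR a.val b'.val → ¬ oscR a'.val b.val →
      ((μ a').val = (μ a).val + 1 ∨ (μ a').val + 1 = (μ a).val) ∧
      ((ν b').val = (ν b).val + 1 ∨ (ν b').val + 1 = (ν b).val) := by
    intro a a' b b' haa hbb h1 h2 h3 h4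
    have e1 := adj a b h1
    have e2 := adj a' b' h2
    have e3 := nadj a b' h3
    have e4 := nadj a' b h4
    have e5 : (μ a).val ≠ (μ a').val := fun h' => haa (μinj (Fin.ext h'))
    have e6 : (ν b).val ≠ (ν b').val := fun h' => hbb (νinj (Fin.ext h'))
    omega
  -- sequences
  let g : ℕ → ℕ := fun i => if hi : i < m then (μ ⟨i, hi⟩).val else 0
  let g' : ℕ → ℕ := fun i => if hi : i < m then (ν ⟨i + 2, by omega⟩).val else 0
  have hg : ∀ i (hi : i < m), g i = (μ ⟨i, hi⟩).val := fun i hi => by simp [g, hi]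
  have hg' : ∀ i (hi : i < m), g' i = (ν ⟨i + 2, by omega⟩).val := fun i hi => by simp [g', hi]
  have step : ∀ i, i + 1 < m → (g (i + 1) = g i + 1 ∨ g (i + 1) + 1 = g i) ∧
      (g' (i + 1) = g' i + 1 ∨ g' (i + 1) + 1 = g' i) := by
    intro i hi
    have := twoK ⟨i, by omega⟩ ⟨i + 1, hi⟩ ⟨i + 2, by omega⟩ ⟨i + 1 + 2, by omega⟩ (by simp)
      (by simp) (by unfold oscR; dsimp only; omega) (by unfold oscR; dsimp only; omega)
      (by unfold oscR; dsimp only; omega) (by unfold oscR; dsimp only; omega)
    rw [hg i (by omega), hg (i + 1) hi, hg' i (by omega), hg' (i + 1) hi]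
    exact this
  have s1 := mono_seq m g (fun i hi => (step i hi).1) (by
    intro i j hi hj hij
    rw [hg i hi, hg j hj] at hij
    have := μinj (Fin.ext hij)
    simpa using this)
  have s2 := mono_seq m g' (fun i hi => (step i hi).2) (by
    intro i j hi hj hij
    rw [hg' i hi, hg' j hj] at hij
    have := νinj (Fin.ext hij)
    simp at this
    exact this)
  -- the smallest point and the largest line
  have hmin : ∃ i, i < m ∧ g i = 0 := by
    rcases hw : f (.inl ⟨0, by omega⟩) with i | k
    · refine ⟨i.val, i.isLt, ?_⟩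
      rw [hg _ i.isLt]
      have h1 := hμ' i ⟨0, by omega⟩ hw
      have h2 : (μ i).val ≤ 0 := h1
      exact Nat.le_zero.1 h2
    · obtain ⟨l, hl⟩ := hB k _ hw
      simp at hl
  have hmax : ∃ i, i < m ∧ g' i = n + 1 := by
    rcases hw : f (.inr ⟨n + 1, by omega⟩) with i | k
    · obtain ⟨l, hl⟩ := hA i _ hw
      simp at hl
    · rcases hw2 : f (.inl ⟨n - 1, by omega⟩) with i | k'
      · have hadj : (Osc n p).Adj (.inl ⟨n - 1, by omega⟩) (.inr ⟨n + 1, by omega⟩) := by
          rw [osc_lr]; unfold oscR; dsimp only; omega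
        have h1 := h.adj _ _ hadj
        rw [hw, hw2] at h1
        have h2 : oscR i.val k.val := by
          rcases h1 with h1 | h1
          · simp at h1
          · exact osc_lr.1 h1
        have hk := k.isLt
        have hi := i.isLt
        have hk2 : 2 ≤ k.val := by unfold oscR at h2; omega
        refine ⟨k.val - 2, by omega, ?_⟩
        rw [hg' _ (by omega)]
        have e : (⟨k.val - 2 + 2, by omega⟩ : Fin (m + 2)) = k := Fin.ext (by
          show k.val - 2 + 2 = k.val; omega)
        rw [e]
        have h3 : n + 1 ≤ (ν k).val := hν' k ⟨n + 1, by omega⟩ hw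
        have := (ν k).isLt
        omega
      · obtain ⟨l, hl⟩ := hB k' _ hw2
        simp at hl
  obtain ⟨i0, hi0, hi0'⟩ := hmin
  obtain ⟨k0, hk0, hk0'⟩ := hmax
  have bound : ∀ i, i < m → g' i ≤ n + 1 := by
    intro i hi
    rw [hg' i hi]
    have := (ν ⟨i + 2, by omega⟩).isLt
    omega
  -- adjacency in terms of `g`, `g'`
  have adj' : ∀ i k, i < m → k < m → oscR i (k + 2) → g i + 2 ≤ g' k := by
    intro i k hi hk hik
    rw [hg i hi, hg' k hk]
    exact adj ⟨i, hi⟩ ⟨k + 2, by omega⟩ hik
  have nadj' : ∀ i k, i < m → k < m → ¬ oscR i (k + 2) → g' k ≤ g i + 1 ∨ g' k = g i + 3 := by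
    intro i k hi hk hik
    rw [hg i hi, hg' k hk]
    exact nadj ⟨i, hi⟩ ⟨k + 2, by omega⟩ hik
  rcases s1 with s1 | s1 <;> rcases s2 with s2 | s2
  · have a1 := s1 i0 hi0
    have a2 := s2 k0 hk0
    have a3 := s2 (m - 1) (by omega)
    have a4 := bound (m - 1) (by omega)
    have a5 := nadj' 0 1 (by omega) (by omega) (by unfold oscR; omega)
    have a6 := s2 1 (by omega)
    omega
  · have a1 := s1 i0 hi0
    have a2 := s2 k0 hk0
    have a3 := bound 0 (by omega)
    have a5 := nadj' 0 1 (by omega) (by omega) (by unfold oscR; omega)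
    have a6 := s2 1 (by omega)
    omega
  · have a1 := s1 i0 hi0
    have a2 := s2 k0 hk0
    have a3 := s2 (m - 1) (by omega)
    have a4 := bound (m - 1) (by omega)
    have a7 := s1 (m - 1) (by omega)
    have a5 := adj' 0 0 (by omega) (by omega) (by unfold oscR; omega)
    have a6 := nadj' (m - 1) 0 (by omega) (by omega) (by unfold oscR; omega)
    omega
  · have a1 := s1 i0 hi0
    have a2 := s2 k0 hk0
    have a3 := bound 0 (by omega)
    have a7 := s1 (m - 1) (by omega)
    have a5 := nadj' (m - 1) (m - 2) (by omega) (by omega) (by unfold oscR; omega)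
    have a6 := s2 (m - 2) (by omega)
    omega

end

/-- the oscillations form antichains -/
theorem osc_anti {n m : ℕ} {p : Prop} (hp : p = True ∨ p = False) (hm : 3 ≤ m)
    (hc : IsContraction (Osc n p) (Osc m p)) : n = m := by
  obtain ⟨f, hf⟩ := hc
  have hf : Wit (Osc n p) (Osc m p) f := hf
  rcases hp with rfl | rfl
  · obtain ⟨h1, h2⟩ := types_true hm hf
    exact osc_anti_core hm hf h1 h2
  · obtain ⟨h1, h2⟩ := types_false hm hf
    exact osc_anti_core hm hf h1 h2

end Pool.Agent.Run7.h855
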