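import Pool.Agent.Run7.h855.Anti12
import Pool.Agent.Run7.h855.LozAnti
import Pool.Agent.Run7.h855.OscAnti

/-! Necessity: if `Wqo H₁ H₂` then the pair is in the list. -/

namespace Pool.Agent.Run7.h855

open Pool.Agent.H175R2

variable {V₁ V₂ : Type} {H₁ : SimpleGraph V₁} {H₂ : SimpleGraph V₂}

lemma Wqo.symm (h : Wqo H₁ H₂) : Wqo H₂ H₁ := by
  intro V hV G hG
  exact h V hV G (fun i => ⟨(hG i).1, (hG i).2.2, (hG i).2.1⟩)

lemma IsContraction.finite {V W : Type} [Finite V] {G : SimpleGraph V} {H : SimpleGraph W}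
    (h : IsContraction G H) : Finite W := by
  obtain ⟨f, hf⟩ := h
  have hf : Wit G H f := hf
  exact Finite.of_surjective f hf.surj

/-- from an antichain of connected graphs -/
lemma exists_of_anti (h : Wqo H₁ H₂) (A : ℕ → Type) (hA : ∀ n, Finite (A n))
    (F : ∀ n, SimpleGraph (A n)) (n₀ : ℕ) (hconn : ∀ n, n₀ ≤ n → (F n).Connected)
    (hanti : ∀ n m, n₀ ≤ n → n₀ ≤ m → IsContraction (F n) (F m) → n = m) :
    ∀ N, ∃ n, N ≤ n ∧ n₀ ≤ n ∧ (IsContraction (F n) H₁ ∨ IsContraction (F n) H₂) := by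
  intro N
  by_contra hcon
  have hcon : ∀ n, N ≤ n → n₀ ≤ n → ¬ IsContraction (F n) H₁ ∧ ¬ IsContraction (F n) H₂ := by
    intro n h1 h2
    constructor
    · intro h'; exact hcon ⟨n, h1, h2, Or.inl h'⟩
    · intro h'; exact hcon ⟨n, h1, h2, Or.inr h'⟩
  have hfin : ∀ n, Finite (A n) := hA
  obtain ⟨i, j, hij, hc⟩ := h (fun i => A (N + n₀ + i)) (fun i => hA _) (fun i => F (N + n₀ + i)) (by
    intro i
    have := hA (N + n₀ + i)
    refine ⟨hconn _ (by omega), ?_, ?_⟩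
    · rw [contracts_iff]; exact (hcon _ (by omega) (by omega)).1
    · rw [contracts_iff]; exact (hcon _ (by omega) (by omega)).2)
  have := hA (N + n₀ + j)
  rw [contracts_iff] at hc
  have := hanti _ _ (by omega) (by omega) hc
  omega

lemma not_inj_of_card {V W : Type} [Finite W] [Finite V] (h : Nat.card W < Nat.card V)
    (f : V → W) : ¬ Function.Injective f := by
  intro hf
  have := Nat.card_le_card_of_injective f hf
  omega

lemma J_small0 {r k q : ℕ} (h : r = k + q) (hq : q ≤ 1) : Nonempty (J r 0 ≃g B k q) := by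
  have hcard : Fintype.card (Fin r ⊕ Fin 0 × Fin 2) = Fintype.card (Fin k ⊕ Fin q) := by
    simp [h]
  let e := Fintype.equivOfCardEq hcard
  refine ⟨⟨e, ?_⟩⟩
  intro a b
  show (e a ≠ e b ∧ ¬ ((∃ i, e a = .inr i) ∧ ∃ j, e b = .inr j)) ↔
    (a ≠ b ∧ ¬ ∃ i c d, a = .inr (i, c) ∧ b = .inr (i, d))
  constructor
  · rintro ⟨h1, h2⟩
    refine ⟨fun h => h1 (by rw [h]), ?_⟩
    rintro ⟨i, -⟩
    exact i.elim0
  · rintro ⟨h1, h2⟩
    have h3 : e a ≠ e b := fun h => h1 (e.injective h)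
    refine ⟨h3, ?_⟩
    rintro ⟨⟨i, hi⟩, j, hj⟩
    apply h3
    rw [hi, hj]
    have : i = j := by
      have := i.isLt; have := j.isLt
      exact Fin.ext (by omega)
    rw [this]

lemma J_small1 (r : ℕ) : Nonempty (J r 1 ≃g B r 2) := by
  let e : Fin r ⊕ Fin 1 × Fin 2 ≃ Fin r ⊕ Fin 2 :=
    Equiv.sumCongr (Equiv.refl _) (Equiv.uniqueProd (Fin 2) (Fin 1))
  refine ⟨⟨e, ?_⟩⟩
  intro a b
  show (e a ≠ e b ∧ ¬ ((∃ i, e a = .inr i) ∧ ∃ j, e b = .inr j)) ↔
    (a ≠ b ∧ ¬ ∃ i c d, a = .inr (i, c) ∧ b = .inr (i, d))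
  rw [e.injective.ne_iff]
  apply and_congr_right
  intro _
  apply not_congr
  constructor
  · rintro ⟨⟨i, hi⟩, j, hj⟩
    rcases a with a | ⟨a, a'⟩
    · simp [e] at hi
    · rcases b with b | ⟨b, b'⟩
      · simp [e] at hj
      · exact ⟨a, a', b', rfl, by rw [Subsingleton.elim b a]⟩
  · rintro ⟨i, c, d, rfl, rfl⟩
    exact ⟨⟨c, rfl⟩, d, rfl⟩

lemma B20 : Nonempty (B 2 0 ≃g B 1 1) := by
  have hcard : Fintype.card (Fin 2 ⊕ Fin 0) = Fintype.card (Fin 1 ⊕ Fin 1) := by simp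
  let e := Fintype.equivOfCardEq hcard
  refine ⟨⟨e, ?_⟩⟩
  intro a b
  show (e a ≠ e b ∧ ¬ ((∃ i, e a = .inr i) ∧ ∃ j, e b = .inr j)) ↔
    (a ≠ b ∧ ¬ ((∃ i, a = .inr i) ∧ ∃ j, b = .inr j))
  constructor
  · rintro ⟨h1, h2⟩
    refine ⟨fun h => h1 (by rw [h]), ?_⟩
    rintro ⟨⟨i, -⟩, -⟩
    exact i.elim0
  · rintro ⟨h1, h2⟩
    have h3 : e a ≠ e b := fun h => h1 (e.injective h)
    refine ⟨h3, ?_⟩
    rintro ⟨⟨i, hi⟩, j, hj⟩
    apply h3
    rw [hi, hj, Subsingleton.elim i j]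

lemma iso_trans' {A B' C : Type} {G : SimpleGraph A} {H : SimpleGraph B'} {K : SimpleGraph C}
    (h1 : Nonempty (G ≃g H)) (h2 : Nonempty (H ≃g K)) : Nonempty (G ≃g K) := by
  obtain ⟨e1⟩ := h1
  obtain ⟨e2⟩ := h2
  exact ⟨e1.trans e2⟩

/-- `q ≥ 3` independent vertices do not exist in `J r m` -/
lemma J_not_B {V : Type} {H : SimpleGraph V} {k q r m : ℕ} (hq : 3 ≤ q)
    (h1 : Nonempty (H ≃g B k q)) (h2 : Nonempty (H ≃g J r m)) : False := by
  obtain ⟨e1⟩ := h1
  obtain ⟨e2⟩ := h2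
  let e : B k q ≃g J r m := e1.symm.trans e2
  have key : ∀ a b : Fin q, a ≠ b → ∃ i c d, e (.inr a) = .inr (i, c) ∧ e (.inr b) = .inr (i, d) := by
    intro a b hab
    by_contra hcon
    have h1 : (J r m).Adj (e (.inr a)) (e (.inr b)) := by
      refine ⟨?_, hcon⟩
      intro h
      exact hab (Sum.inr.inj (e.injective h))
    rw [e.map_adj_iff] at h1
    exact h1.2 ⟨⟨a, rfl⟩, ⟨b, rfl⟩⟩
  let x0 : Fin q := ⟨0, by omega⟩
  let x1 : Fin q := ⟨1, by omega⟩
  let x2 : Fin q := ⟨2, by omega⟩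
  have n01 : x0 ≠ x1 := by simp [x0, x1]
  have n02 : x0 ≠ x2 := by simp [x0, x2]
  have n12 : x1 ≠ x2 := by simp [x1, x2]
  obtain ⟨i, c, d, h01, h01'⟩ := key x0 x1 n01
  obtain ⟨i', c', d', h02, h02'⟩ := key x0 x2 n02
  rw [h01] at h02
  obtain ⟨rfl, rfl⟩ := Prod.mk.inj (Sum.inr.inj h02)
  have e1 : c ≠ d := by
    rintro rfl
    exact n01 (Sum.inr.inj (e.injective (h01.trans h01'.symm)))
  have e2 : c ≠ d' := by
    rintro rfl
    exact n02 (Sum.inr.inj (e.injective (h01.trans h02'.symm)))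
  have e3 : d ≠ d' := by
    rintro rfl
    exact n12 (Sum.inr.inj (e.injective (h01'.trans h02'.symm)))
  omega

theorem nec_aux (h : Wqo H₁ H₂)
    (hq : ∃ q, Nonempty (H₁ ≃g B 1 q) ∨ Nonempty (H₁ ≃g B 2 q)) :
    Small H₁ ∨ Small H₂ ∨ Pair H₁ H₂ := by
  obtain ⟨q, hq⟩ := hq
  by_cases hq3 : q < 3
  · left
    interval_cases q
    · rcases hq with hq | hq
      · exact Or.inl hq
      · exact Or.inr (Or.inl (iso_trans' hq B20))
    · rcases hq with hq | hq
      · exact Or.inr (Or.inl hq)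
      · exact Or.inr (Or.inr (Or.inr (Or.inl hq)))
    · rcases hq with hq | hq
      · exact Or.inr (Or.inr (Or.inl hq))
      · exact Or.inr (Or.inr (Or.inr (Or.inr hq)))
  right
  have hq3 : 3 ≤ q := by omega
  -- the family `J 0 n`
  have hJ : ∃ r m, 1 ≤ r ∧ Nonempty (H₂ ≃g J r m) := by
    obtain ⟨n, hn1, hn2, hn3⟩ := exists_of_anti h _ (fun n => inferInstance) (fun n => J 0 n) 2
      (fun n hn => J0_connected hn) (by
        intro n m hn hm hc
        obtain ⟨e⟩ := (J0_cmp n).iso (J0_cmp m) hc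
        have := Fintype.card_congr e.toEquiv
        simp at this
        omega) (Nat.card V₁ + Nat.card V₂ + 1)
    have hcard : Nat.card (Fin 0 ⊕ Fin n × Fin 2) = n * 2 := by simp
    rcases hn3 with hc | hc
    · exfalso
      have := IsContraction.finite hc
      obtain ⟨f, hf⟩ := hc
      have hf : Wit (J 0 n) H₁ f := hf
      obtain ⟨r, m, _, hi⟩ := J0_contr hf (not_inj_of_card (by rw [hcard]; omega) f)
      rcases hq with hq | hq
      · exact J_not_B hq3 hq hi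
      · exact J_not_B hq3 hq hi
    · have := IsContraction.finite hc
      obtain ⟨f, hf⟩ := hc
      have hf : Wit (J 0 n) H₂ f := hf
      exact J0_contr hf (not_inj_of_card (by rw [hcard]; omega) f)
  obtain ⟨r, m, hr, hJ⟩ := hJ
  rcases hq with hq | hq
  · -- stars
    right
    refine ⟨q, hq3, Or.inr ⟨hq, r, m, hr, hJ, ?_⟩⟩
    by_contra hcon
    -- a family excluding both
    have main : ∀ p : Prop, (p = True ∨ p = False) →
        (∀ n, ¬ IsContraction (Osc n p) (B 1 q)) → (∀ n, ¬ IsContraction (Osc n p) (J r m)) →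
        False := by
      intro p hp h1 h2
      obtain ⟨n, hn1, hn2, hn3⟩ := exists_of_anti h _ (fun n => inferInstance) (fun n => Osc n p) 3
        (fun n hn => osc_connected (by omega)) (fun n m _ hm hc => osc_anti hp hm hc) 0
      obtain ⟨e1⟩ := hq
      obtain ⟨e2⟩ := hJ
      rcases hn3 with hc | hc
      · exact h1 n (hc.trans (IsContraction.of_iso e1))
      · exact h2 n (hc.trans (IsContraction.of_iso e2))
    by_cases hq4 : 4 ≤ q
    · exact main False (Or.inr rfl) (fun n => osc_star4 hq4) (fun n => osc_J2 (by omega))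
    · exact main True (Or.inl rfl) (fun n => osc_star3 hq3) (fun n => osc_J3 (by omega))
  · -- books
    have hrm : r + 2 * m ≤ 4 := by
      by_contra hcon
      obtain ⟨n, hn1, hn2, hn3⟩ := exists_of_anti h _ (fun n => inferInstance) (fun n => Loz n) 2
        (fun n hn => loz_connected n) (fun n m hn hm hc => loz_anti hn hm hc) 0
      obtain ⟨e1⟩ := hq
      obtain ⟨e2⟩ := hJ
      rcases hn3 with hc | hc
      · exact loz_book hq3 (hc.trans (IsContraction.of_iso e1))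
      · exact loz_J (by omega) (hc.trans (IsContraction.of_iso e2))
    have hcases : (m = 0 ∧ r = 4) ∨ (m = 0 ∧ r = 1) ∨ (m = 0 ∧ r = 2) ∨ (m = 0 ∧ r = 3) ∨
        (m = 1 ∧ r = 1) ∨ (m = 1 ∧ r = 2) := by omega
    rcases hcases with ⟨rfl, rfl⟩ | ⟨rfl, rfl⟩ | ⟨rfl, rfl⟩ | ⟨rfl, rfl⟩ | ⟨rfl, rfl⟩ | ⟨rfl, rfl⟩
    · right
      exact ⟨q, hq3, Or.inl ⟨hq, hJ⟩⟩
    · left
      exact Or.inl (iso_trans' hJ (J_small0 rfl (by omega)))
    · left
      exact Or.inr (Or.inl (iso_trans' hJ (J_small0 rfl (by omega))))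
    · left
      exact Or.inr (Or.inr (Or.inr (Or.inl (iso_trans' hJ (J_small0 rfl (by omega))))))
    · left
      exact Or.inr (Or.inr (Or.inl (iso_trans' hJ (J_small1 1))))
    · left
      exact Or.inr (Or.inr (Or.inr (Or.inr (iso_trans' hJ (J_small1 2)))))

/-- necessity -/
theorem necessity (h : Wqo H₁ H₂) :
    Small H₁ ∨ Small H₂ ∨ Pair H₁ H₂ ∨ Pair H₂ H₁ := by
  obtain ⟨n, hn1, hn2, hn3⟩ := exists_of_anti h _ (fun n => inferInstance) (fun n => K2 n) 2
    (fun n hn => K2_connected (by omega)) (by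
      intro n m hn hm hc
      obtain ⟨e⟩ := (K2_cmp hn).iso (K2_cmp hm) hc
      have := Fintype.card_congr e.toEquiv
      simpa using this) (Nat.card V₁ + Nat.card V₂)
  have hcard : Nat.card (Fin 2 ⊕ Fin n) = 2 + n := by simp
  rcases hn3 with hc | hc
  · have := IsContraction.finite hc
    obtain ⟨f, hf⟩ := hc
    have hf : Wit (K2 n) H₁ f := hf
    have := nec_aux h (K2_contr hf (not_inj_of_card (by rw [hcard]; omega) f))
    tauto
  · have := IsContraction.finite hc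
    obtain ⟨f, hf⟩ := hc
    have hf : Wit (K2 n) H₂ f := hf
    have := nec_aux h.symm (K2_contr hf (not_inj_of_card (by rw [hcard]; omega) f))
    tauto

end Pool.Agent.Run7.h855
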