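import Pool.Agent.Run7.h855.Basic

/-! The antichains of oscillations. -/

namespace Pool.Agent.Run7.h855

open Pool.Agent.H175R2

variable {W : Type} {H : SimpleGraph W}

/-- adjacency between the `i`-th point and the `k`-th line -/
def oscR (i k : ℕ) : Prop := k = i + 2 ∨ i + 4 ≤ k

/-- `n` points forming a clique, `n+2` lines forming a clique (`p = True`) or two anticomplete
cliques according to parity (`p = False`). -/
def Osc (n : ℕ) (p : Prop) : SimpleGraph (Fin n ⊕ Fin (n + 2)) where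
  Adj x y := match x, y with
    | .inl i, .inl j => i ≠ j
    | .inr k, .inr l => k ≠ l ∧ (p ∨ k.val % 2 = l.val % 2)
    | .inl i, .inr k => oscR i.val k.val
    | .inr k, .inl i => oscR i.val k.val
  symm := ⟨by
    rintro (i | i) (j | j) h
    · exact Ne.symm h
    · exact h
    · exact h
    · exact ⟨Ne.symm h.1, h.2.imp_right Eq.symm⟩⟩
  loopless := ⟨by
    rintro (i | i) h
    · exact h rfl
    · exact h.1 rfl⟩

section

variable {n : ℕ} {p : Prop}

@[simp] lemma osc_ll {i j : Fin n} : (Osc n p).Adj (.inl i) (.inl j) ↔ i ≠ j := Iff.rfl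
@[simp] lemma osc_rr {k l : Fin (n + 2)} :
    (Osc n p).Adj (.inr k) (.inr l) ↔ k ≠ l ∧ (p ∨ k.val % 2 = l.val % 2) := Iff.rfl
@[simp] lemma osc_lr {i : Fin n} {k : Fin (n + 2)} :
    (Osc n p).Adj (.inl i) (.inr k) ↔ oscR i.val k.val := Iff.rfl
@[simp] lemma osc_rl {i : Fin n} {k : Fin (n + 2)} :
    (Osc n p).Adj (.inr k) (.inl i) ↔ oscR i.val k.val := Iff.rfl

lemma osc_connected (hn : 2 ≤ n) : (Osc n p).Connected := by
  let z : Fin n := ⟨0, by omega⟩
  have : Nonempty (Fin n ⊕ Fin (n + 2)) := ⟨.inl z⟩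
  have kl : ∀ i : Fin n, (Osc n p).Reachable (.inl i) (.inl z) := by
    intro i
    by_cases h : i = z
    · rw [h]
    · exact SimpleGraph.Adj.reachable (osc_ll.2 h)
  have kr : ∀ k : Fin (n + 2), 2 ≤ k.val → (Osc n p).Reachable (.inr k) (.inl z) := by
    intro k hk
    have : (Osc n p).Adj (.inr k) (.inl ⟨k.val - 2, by omega⟩) := by
      rw [osc_rl]; left; show k.val = k.val - 2 + 2; omega
    exact this.reachable.trans (kl _)
  have key : ∀ x, (Osc n p).Reachable x (.inl z) := by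
    rintro (i | k)
    · exact kl i
    · by_cases hk : 2 ≤ k.val
      · exact kr k hk
      · have : (Osc n p).Adj (.inr k) (.inr ⟨k.val + 2, by omega⟩) := by
          rw [osc_rr]
          refine ⟨fun h => ?_, Or.inr ?_⟩
          · have := congrArg Fin.val h
            simp at this
          · show k.val % 2 = (k.val + 2) % 2
            omega
        exact this.reachable.trans (kr _ (by show 2 ≤ k.val + 2; omega))
  exact ⟨fun x y => (key x).trans (key y).symm⟩

/-- smallest point of a fibre containing points -/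
lemma exists_mu {f : Fin n ⊕ Fin (n + 2) → W} {w : W} (h : ∃ i : Fin n, f (.inl i) = w) :
    ∃ i : Fin n, f (.inl i) = w ∧ ∀ j : Fin n, f (.inl j) = w → i ≤ j := by
  classical
  obtain ⟨i, hi, hmin⟩ := ((Finset.univ : Finset (Fin n)).filter (fun i => f (.inl i) = w)).exists_min_image
    (fun i => i) (by obtain ⟨i, hi⟩ := h; exact ⟨i, by simp [hi]⟩)
  simp only [Finset.mem_filter, Finset.mem_univ, true_and] at hi hmin
  exact ⟨i, hi, hmin⟩

/-- largest line of a fibre containing lines -/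
lemma exists_nu {f : Fin n ⊕ Fin (n + 2) → W} {w : W} (h : ∃ k : Fin (n + 2), f (.inr k) = w) :
    ∃ k : Fin (n + 2), f (.inr k) = w ∧ ∀ j : Fin (n + 2), f (.inr j) = w → j ≤ k := by
  classical
  obtain ⟨i, hi, hmin⟩ := ((Finset.univ : Finset (Fin (n + 2))).filter (fun i => f (.inr i) = w)).exists_max_image
    (fun i => i) (by obtain ⟨i, hi⟩ := h; exact ⟨i, by simp [hi]⟩)
  simp only [Finset.mem_filter, Finset.mem_univ, true_and] at hi hmin
  exact ⟨i, hi, hmin⟩

/-- `a` is a fibre of points with minimum `i`, `b` a fibre of lines with maximum `k` -/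
structure PL (f : Fin n ⊕ Fin (n + 2) → W) (a b : W) (i : Fin n) (k : Fin (n + 2)) : Prop where
  pa : ∀ x, f x = a → ∃ j, x = .inl j
  pb : ∀ x, f x = b → ∃ l, x = .inr l
  hi : f (.inl i) = a
  hk : f (.inr k) = b
  mini : ∀ j : Fin n, f (.inl j) = a → i ≤ j
  maxk : ∀ j : Fin (n + 2), f (.inr j) = b → j ≤ k

lemma PL.nonadj {f : Fin n ⊕ Fin (n + 2) → W} (h : Wit (Osc n p) H f) {a b : W} {i : Fin n}
    {k : Fin (n + 2)} (hp : PL f a b i k) (hna : ¬ H.Adj a b) (hab : a ≠ b) :
    k.val ≤ i.val + 1 ∨ k.val = i.val + 3 := by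
  by_contra hcon
  apply hna
  have := Wit.adj_of (G := Osc n p) h (x := .inl i) (y := .inr k) (by
    rw [osc_lr]; unfold oscR; omega) (by rw [hp.hi, hp.hk]; exact hab)
  rwa [hp.hi, hp.hk] at this

lemma PL.adj {f : Fin n ⊕ Fin (n + 2) → W} (h : Wit (Osc n p) H f) {a b : W} {i : Fin n}
    {k : Fin (n + 2)} (hp : PL f a b i k) (hadj : H.Adj a b) : i.val + 2 ≤ k.val := by
  by_contra hcon
  obtain ⟨x, y, hx, hy, hxy⟩ := (h.2 a b hadj.ne).1 hadj
  obtain ⟨j, rfl⟩ := hp.pa x hx
  obtain ⟨l, rfl⟩ := hp.pb y hy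
  have h1 : i.val ≤ j.val := hp.mini j hx
  have h2 : l.val ≤ k.val := hp.maxk l hy
  rw [osc_lr] at hxy
  unfold oscR at hxy
  omega

/-- a fibre containing both points and lines dominates, in the two-clique case -/
lemma mixed_dom {f : Fin n ⊕ Fin (n + 2) → W} (h : Wit (Osc n True) H f) {i : Fin n}
    {k : Fin (n + 2)} (hik : f (.inl i) = f (.inr k)) (w : W) (hw : w ≠ f (.inl i)) :
    H.Adj (f (.inl i)) w := by
  obtain ⟨x, rfl⟩ := h.surj w
  rcases x with j | l
  · exact Wit.adj_of h (osc_ll.2 (fun h' => hw (by rw [h']))) hw.symm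
  · rw [hik] at hw ⊢
    exact Wit.adj_of h (osc_rr.2 ⟨fun h' => hw (by rw [h']), Or.inl trivial⟩) hw.symm

/-- `K_{1,q}`, `3 ≤ q`, is not a contraction in the two-clique case -/
theorem osc_star3 {q : ℕ} (hq : 3 ≤ q) : ¬ IsContraction (Osc n True) (B 1 q) := by
  rintro ⟨f, hf⟩
  have hf : Wit (Osc n True) (B 1 q) f := hf
  have key : ∀ a b c : Fin q, a ≠ b → a ≠ c → b ≠ c → False := by
    intro a b c hab hac hbc
    obtain ⟨x, hx⟩ := hf.surj (.inr a)
    obtain ⟨y, hy⟩ := hf.surj (.inr b)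
    obtain ⟨z, hz⟩ := hf.surj (.inr c)
    have nl : ∀ a b : Fin q, ∀ x y, f x = .inr a → f y = .inr b → a ≠ b → ¬ (Osc n True).Adj x y := by
      intro a b x y hx hy hab hadj
      have := Wit.adj_of hf hadj (by rw [hx, hy]; simpa using hab)
      rw [hx, hy] at this
      exact this.2 ⟨⟨a, rfl⟩, b, rfl⟩
    have same : ∀ x y, x ≠ y → x.isLeft = y.isLeft → (Osc n True).Adj x y := by
      rintro (i | i) (j | j) hxy he
      · exact osc_ll.2 (fun h' => hxy (by rw [h']))
      · simp at he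
      · simp at he
      · exact osc_rr.2 ⟨fun h' => hxy (by rw [h']), Or.inl trivial⟩
    have d : ∀ a b : Fin q, ∀ x y, f x = .inr a → f y = .inr b → a ≠ b → x ≠ y := by
      rintro a b x y hx hy hab rfl
      rw [hx] at hy
      simp at hy
      exact hab hy
    have h1 : x.isLeft ≠ y.isLeft := fun he => nl a b x y hx hy hab (same x y (d a b x y hx hy hab) he)
    have h2 : x.isLeft ≠ z.isLeft := fun he => nl a c x z hx hz hac (same x z (d a c x z hx hz hac) he)
    have h3 : y.isLeft ≠ z.isLeft := fun he => nl b c y z hy hz hbc (same y z (d b c y z hy hz hbc) he)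
    have : ∀ a b c : Bool, a ≠ b → a ≠ c → b ≠ c → False := by decide
    exact this _ _ _ h1 h2 h3
  exact key ⟨0, by omega⟩ ⟨1, by omega⟩ ⟨2, by omega⟩ (by simp) (by simp) (by simp)

/-- the type of a vertex -/
def oty (x : Fin n ⊕ Fin (n + 2)) : ℕ := match x with
  | .inl _ => 2
  | .inr k => k.val % 2

lemma oty_lt (x : Fin n ⊕ Fin (n + 2)) : oty x < 3 := by
  rcases x with i | k
  · simp [oty]
  · simp only [oty]; omega

lemma oty_adj {x y : Fin n ⊕ Fin (n + 2)} (h : oty x = oty y) (hxy : x ≠ y) : (Osc n p).Adj x y := by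
  rcases x with i | k <;> rcases y with j | l
  · exact osc_ll.2 (fun h' => hxy (by rw [h']))
  · simp only [oty] at h; omega
  · simp only [oty] at h; omega
  · exact osc_rr.2 ⟨fun h' => hxy (by rw [h']), Or.inr h⟩

/-- non-adjacent fibres have no common type -/
lemma oty_ne {f : Fin n ⊕ Fin (n + 2) → W} (h : Wit (Osc n p) H f) {x y : Fin n ⊕ Fin (n + 2)}
    (hne : f x ≠ f y) (hna : ¬ H.Adj (f x) (f y)) : oty x ≠ oty y := fun he =>
  hna (Wit.adj_of (G := Osc n p) h (oty_adj he (fun h' => hne (by rw [h']))) hne)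

/-- `K_{1,q}`, `4 ≤ q`, is not a contraction -/
theorem osc_star4 {q : ℕ} (hq : 4 ≤ q) : ¬ IsContraction (Osc n p) (B 1 q) := by
  rintro ⟨f, hf⟩
  have hf : Wit (Osc n p) (B 1 q) f := hf
  choose g hg using fun a : Fin q => hf.surj (.inr a)
  have hty : ∀ a b : Fin q, a ≠ b → oty (g a) ≠ oty (g b) := by
    intro a b hab
    refine oty_ne hf ?_ ?_
    · rw [hg, hg]; simpa using hab
    · rw [hg, hg]; exact fun h => h.2 ⟨⟨a, rfl⟩, b, rfl⟩
  have l0 := oty_lt (g ⟨0, by omega⟩)
  have l1 := oty_lt (g ⟨1, by omega⟩)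
  have l2 := oty_lt (g ⟨2, by omega⟩)
  have l3 := oty_lt (g ⟨3, by omega⟩)
  have h01 := hty ⟨0, by omega⟩ ⟨1, by omega⟩ (by simp)
  have h02 := hty ⟨0, by omega⟩ ⟨2, by omega⟩ (by simp)
  have h03 := hty ⟨0, by omega⟩ ⟨3, by omega⟩ (by simp)
  have h12 := hty ⟨1, by omega⟩ ⟨2, by omega⟩ (by simp)
  have h13 := hty ⟨1, by omega⟩ ⟨3, by omega⟩ (by simp)
  have h23 := hty ⟨2, by omega⟩ ⟨3, by omega⟩ (by simp)
  omega

lemma J_pair {r m : ℕ} {i : Fin m} {a b : Fin 2} : ¬ (J r m).Adj (.inr (i, a)) (.inr (i, b)) :=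
  fun h => h.2 ⟨i, a, b, rfl, rfl⟩

lemma J_cross {r m : ℕ} {i j : Fin m} {a b : Fin 2} (h : i ≠ j) :
    (J r m).Adj (.inr (i, a)) (.inr (j, b)) := by
  refine ⟨by simp [h], ?_⟩
  rintro ⟨i', a', b', h1, h2⟩
  simp only [Sum.inr.injEq, Prod.mk.injEq] at h1 h2
  exact h (h1.1.trans h2.1.symm)

/-- `J r m`, `3 ≤ m`, is not a contraction in the two-clique case -/
theorem osc_J3 {r m : ℕ} (hm : 3 ≤ m) : ¬ IsContraction (Osc n True) (J r m) := by
  rintro ⟨f, hf⟩
  have hf : Wit (Osc n True) (J r m) f := hf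
  -- for every pair a point part and a line part
  have key : ∀ j : Fin m, ∃ (a : Fin 2) (i : Fin n) (k : Fin (n + 2)),
      PL f (.inr (j, a)) (.inr (j, 1 - a)) i k := by
    intro j
    have pure : ∀ a b : Fin 2, a ≠ b → ∀ (i : Fin n) (k : Fin (n + 2)), f (.inl i) = .inr (j, a) →
        f (.inr k) = .inr (j, a) → False := by
      intro a b hab i k hi hk
      have := mixed_dom hf (hi.trans hk.symm) (.inr (j, b)) (by rw [hi]; simpa using hab.symm)
      rw [hi] at this
      exact J_pair this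
    have both : ∀ a b : Fin 2, a ≠ b → ∀ x, f x = .inr (j, a) → ∀ y, f y = .inr (j, b) →
        x.isLeft ≠ y.isLeft := by
      intro a b hab x hx y hy he
      have hxy : f x ≠ f y := by rw [hx, hy]; simpa using hab
      have : (Osc n True).Adj x y := by
        rcases x with x | x <;> rcases y with y | y
        · exact osc_ll.2 (fun h' => hxy (by rw [h']))
        · simp at he
        · simp at he
        · exact osc_rr.2 ⟨fun h' => hxy (by rw [h']), Or.inl trivial⟩
      have := Wit.adj_of hf this hxy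
      rw [hx, hy] at this
      exact J_pair this
    have mk : ∀ a b : Fin 2, a ≠ b → b = 1 - a → (∃ i, f (.inl i) = .inr (j, a)) →
        (∃ k, f (.inr k) = .inr (j, b)) → ∃ (a : Fin 2) (i : Fin n) (k : Fin (n + 2)),
          PL f (.inr (j, a)) (.inr (j, 1 - a)) i k := by
      rintro a b hab rfl h1 h2
      obtain ⟨i, hi, hi'⟩ := exists_mu h1
      obtain ⟨k, hk, hk'⟩ := exists_nu h2
      refine ⟨a, i, k, ?_, ?_, hi, hk, hi', hk'⟩
      · rintro (x | x) hx
        · exact ⟨x, rfl⟩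
        · exact (pure a (1 - a) hab i x hi hx).elim
      · rintro (x | x) hx
        · exact (pure (1 - a) a hab.symm x k hx hk).elim
        · exact ⟨x, rfl⟩
    obtain ⟨x, hx⟩ := hf.surj (.inr (j, 0))
    obtain ⟨y, hy⟩ := hf.surj (.inr (j, 1))
    have hxy := both 0 1 (by simp) x hx y hy
    rcases x with x | x <;> rcases y with y | y
    · simp at hxy
    · exact mk 0 1 (by simp) rfl ⟨x, hx⟩ ⟨y, hy⟩
    · exact mk 1 0 (by simp) rfl ⟨y, hy⟩ ⟨x, hx⟩
    · simp at hxy
  choose a i k hPL using key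
  have h1 : ∀ j, (k j).val ≤ (i j).val + 3 := by
    intro j
    have := (hPL j).nonadj hf J_pair (by
      simp only [ne_eq, Sum.inr.injEq, Prod.mk.injEq, true_and]
      have := (a j).isLt
      intro h
      have h2 := congrArg Fin.val h
      have h3 : (1 - a j).val = 1 - (a j).val := by
        rcases (show a j = 0 ∨ a j = 1 by omega) with h4 | h4 <;> rw [h4] <;> rfl
      omega)
    omega
  have h2 : ∀ j l, j ≠ l → (i j).val + 2 ≤ (k l).val := by
    intro j l hjl
    refine PL.adj hf (a := .inr (j, a j)) (b := .inr (l, 1 - a l))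
      ⟨(hPL j).pa, (hPL l).pb, (hPL j).hi, (hPL l).hk, (hPL j).mini, (hPL l).maxk⟩ (J_cross hjl)
  have h3 : ∀ j l, j ≠ l → (i j).val ≠ (i l).val := by
    intro j l hjl he
    have e1 := (hPL j).hi
    have e2 := (hPL l).hi
    rw [Fin.ext he] at e1
    rw [e1] at e2
    simp only [Sum.inr.injEq, Prod.mk.injEq] at e2
    exact hjl e2.1
  have a1 := h1 ⟨0, by omega⟩
  have a2 := h1 ⟨1, by omega⟩
  have a3 := h1 ⟨2, by omega⟩
  have b1 := h2 ⟨0, by omega⟩ ⟨1, by omega⟩ (by simp)
  have b2 := h2 ⟨0, by omega⟩ ⟨2, by omega⟩ (by simp)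
  have b3 := h2 ⟨1, by omega⟩ ⟨0, by omega⟩ (by simp)
  have b4 := h2 ⟨1, by omega⟩ ⟨2, by omega⟩ (by simp)
  have b5 := h2 ⟨2, by omega⟩ ⟨0, by omega⟩ (by simp)
  have b6 := h2 ⟨2, by omega⟩ ⟨1, by omega⟩ (by simp)
  have c1 := h3 ⟨0, by omega⟩ ⟨1, by omega⟩ (by simp)
  have c2 := h3 ⟨0, by omega⟩ ⟨2, by omega⟩ (by simp)
  have c3 := h3 ⟨1, by omega⟩ ⟨2, by omega⟩ (by simp)
  omega

/-- no induced 4-cycle in a contraction, in the three-clique case -/
lemma osc_noC4 {f : Fin n ⊕ Fin (n + 2) → W} (h : Wit (Osc n False) H f) {P1 P2 P3 P4 : W}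
    (h13 : ¬ H.Adj P1 P3) (n13 : P1 ≠ P3) (h24 : ¬ H.Adj P2 P4) (n24 : P2 ≠ P4)
    (h12 : H.Adj P1 P2) (h23 : H.Adj P2 P3) (h34 : H.Adj P3 P4) (h41 : H.Adj P4 P1) : False := by
  -- `P3`, `P4` without points
  have main : ∀ {P1 P2 P3 P4 : W}, ¬ H.Adj P1 P3 → P1 ≠ P3 → ¬ H.Adj P2 P4 → P2 ≠ P4 →
      H.Adj P2 P3 → H.Adj P3 P4 → H.Adj P4 P1 → (∀ i, f (.inl i) ≠ P3) → (∀ i, f (.inl i) ≠ P4) →
      False := by
    intro P1 P2 P3 P4 h13 n13 h24 n24 h23 h34 h41 h3 h4
    -- an edge between P3 and P4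
    obtain ⟨x, y, hx, hy, hxy⟩ := (h.2 _ _ h34.ne).1 h34
    rcases x with x | x
    · exact h3 x hx
    rcases y with y | y
    · exact h4 y hy
    rw [osc_rr] at hxy
    have hpar : x.val % 2 = y.val % 2 := hxy.2.resolve_left id
    -- parities inside a line fibre
    have par : ∀ (P : W), (∀ i, f (.inl i) ≠ P) → ∀ u v, f (.inr u) = P → f (.inr v) = P →
        u.val % 2 = v.val % 2 := by
      intro P hP u v hu hv
      by_contra hne
      obtain ⟨a, b, ha, hb, hab, h5, h6⟩ := fib_cross h (hu.trans hv.symm)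
        (fun z => oty z = u.val % 2) rfl (by
          show ¬ (v.val % 2 = u.val % 2)
          exact fun h' => hne h'.symm)
      rcases a with a | a
      · exact hP a (ha.trans hu)
      rcases b with b | b
      · exact hP b (hb.trans hu)
      rw [osc_rr] at hab
      have h7 := hab.2.resolve_left id
      simp only [oty] at h5 h6
      omega
    -- `P1` and `P2` have no line of that parity
    have no1 : ∀ k : Fin (n + 2), f (.inr k) = P1 → k.val % 2 ≠ x.val % 2 := by
      intro k hk hpk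
      apply h13
      have := Wit.adj_of (G := Osc n False) h (x := .inr k) (y := .inr x)
        (oty_adj hpk (fun h' => n13 (by rw [← hk, ← hx, h']))) (by rw [hk, hx]; exact n13)
      rwa [hk, hx] at this
    have no2 : ∀ k : Fin (n + 2), f (.inr k) = P2 → k.val % 2 ≠ x.val % 2 := by
      intro k hk hpk
      apply h24
      have := Wit.adj_of (G := Osc n False) h (x := .inr k) (y := .inr y)
        (oty_adj (hpk.trans hpar) (fun h' => n24 (by rw [← hk, ← hy, h']))) (by rw [hk, hy]; exact n24)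
      rwa [hk, hy] at this
    -- edges P4 - P1 and P2 - P3
    obtain ⟨u, v, hu, hv, huv⟩ := (h.2 _ _ h41.ne).1 h41
    obtain ⟨u', v', hu', hv', huv'⟩ := (h.2 _ _ h23.ne).1 h23
    rcases u with u | u
    · exact h4 u hu
    rcases v' with v' | v'
    · exact h3 v' hv'
    have pu := par P4 h4 y u hy hu
    have pv := par P3 h3 x v' hx hv'
    rcases v with v | v
    · rcases u' with u' | u'
      · rw [osc_rl] at huv
        rw [osc_lr] at huv'
        have hne : u.val ≠ v'.val := by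
          intro he
          have : u = v' := Fin.ext he
          subst this
          exact h34.ne (hv'.symm.trans hu)
        unfold oscR at huv huv'
        rcases Nat.lt_or_gt_of_ne hne with h8 | h8
        · -- `u < v'`: `v` adjacent to `v'`
          apply h13
          have := Wit.adj_of (G := Osc n False) h (x := .inl v) (y := .inr v') (by
            rw [osc_lr]; unfold oscR; omega) (by rw [hv, hv']; exact n13)
          rwa [hv, hv'] at this
        · apply h24
          have := Wit.adj_of (G := Osc n False) h (x := .inl u') (y := .inr u) (by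
            rw [osc_lr]; unfold oscR; omega) (by rw [hu', hu]; exact n24)
          rwa [hu', hu] at this
      · rw [osc_rr] at huv'
        have := huv'.2.resolve_left id
        exact no2 u' hu' (this.trans pv.symm)
    · rw [osc_rr] at huv
      have := huv.2.resolve_left id
      exact no1 v hv (by omega)
  have one : ∀ {P Q : W}, ¬ H.Adj P Q → P ≠ Q → (∀ i, f (.inl i) ≠ P) ∨ (∀ i, f (.inl i) ≠ Q) := by
    intro P Q hPQ hne
    by_contra hcon
    push Not at hcon
    obtain ⟨⟨i, hi⟩, j, hj⟩ := hcon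
    apply hPQ
    have := Wit.adj_of (G := Osc n False) h (x := .inl i) (y := .inl j)
      (osc_ll.2 (fun h' => hne (by rw [← hi, ← hj, h']))) (by rw [hi, hj]; exact hne)
    rwa [hi, hj] at this
  have s13 : ¬ H.Adj P3 P1 := fun h' => h13 h'.symm
  have s24 : ¬ H.Adj P4 P2 := fun h' => h24 h'.symm
  rcases one h13 n13 with a | a <;> rcases one h24 n24 with b | b
  · exact main s13 n13.symm s24 n24.symm h41 h12 h23 a b
  · exact main s13 n13.symm h24 n24 h12.symm h41.symm h34.symm a b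
  · exact main h13 n13 s24 n24.symm h34.symm h23.symm h12.symm a b
  · exact main h13 n13 h24 n24 h23 h34 h41 a b

/-- `J r m`, `2 ≤ m`, is not a contraction in the three-clique case -/
theorem osc_J2 {r m : ℕ} (hm : 2 ≤ m) : ¬ IsContraction (Osc n False) (J r m) := by
  rintro ⟨f, hf⟩
  have hf : Wit (Osc n False) (J r m) f := hf
  let i0 : Fin m := ⟨0, by omega⟩
  let i1 : Fin m := ⟨1, by omega⟩
  have h01 : i0 ≠ i1 := by simp [i0, i1]
  exact osc_noC4 hf (P1 := .inr (i0, 0)) (P3 := .inr (i0, 1)) (P2 := .inr (i1, 0))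
    (P4 := .inr (i1, 1)) J_pair (by simp) J_pair (by simp) (J_cross h01) (J_cross h01.symm)
    (J_cross h01) (J_cross h01.symm)

end

end Pool.Agent.Run7.h855
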