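import Pool.Agent.Run7.h855.BdWqo2

/-! Rooted graphs without `K₄` and `K_{1,1,q}` are well-quasi-ordered. -/

namespace Pool.Agent.Run7.h855

open Pool.Agent.H175R2 Finset Classical

/-- no `K₄` minor inside `S` -/
def NoK4 {V : Type} (G : SimpleGraph V) (S : Finset V) : Prop :=
  ¬ ∃ A B' C E : Finset V, Cn G A ∧ Cn G B' ∧ Cn G C ∧ Cn G E ∧
    A ⊆ S ∧ B' ⊆ S ∧ C ⊆ S ∧ E ⊆ S ∧ Disjoint A B' ∧ Disjoint A C ∧ Disjoint A E ∧
    Disjoint B' C ∧ Disjoint B' E ∧ Disjoint C E ∧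
    Tc G A B' ∧ Tc G C A ∧ Tc G C B' ∧ Tc G E A ∧ Tc G E B' ∧ Tc G C E

/-- no induced book inside `S` -/
def NoBook {V : Type} (q : ℕ) (G : SimpleGraph V) (S : Finset V) : Prop :=
  ¬ ∃ (A B' : Finset V) (F : Fin q → Finset V), Cn G A ∧ Cn G B' ∧ A ⊆ S ∧ B' ⊆ S ∧
    Disjoint A B' ∧ Tc G A B' ∧
    (∀ i, F i ⊆ S ∧ Cn G (F i) ∧ Disjoint (F i) A ∧ Disjoint (F i) B' ∧ Tc G (F i) A ∧
      Tc G (F i) B') ∧
    ∀ i j, i ≠ j → Disjoint (F i) (F j) ∧ ¬ Tc G (F i) (F j)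

lemma NoK4.mono {V : Type} {G : SimpleGraph V} {S S' : Finset V} (h : NoK4 G S) (hS : S' ⊆ S) :
    NoK4 G S' := by
  rintro ⟨A, B', C, E, h1, h2, h3, h4, h5, h6, h7, h8, h9⟩
  exact h ⟨A, B', C, E, h1, h2, h3, h4, h5.trans hS, h6.trans hS, h7.trans hS, h8.trans hS, h9⟩

lemma NoBook.mono {V : Type} {G : SimpleGraph V} {S S' : Finset V} {q : ℕ} (h : NoBook q G S)
    (hS : S' ⊆ S) : NoBook q G S' := by
  rintro ⟨A, B', F, h1, h2, h3, h4, h5, h6, h7, h8⟩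
  exact h ⟨A, B', F, h1, h2, h3.trans hS, h4.trans hS, h5, h6,
    fun i => ⟨(h7 i).1.trans hS, (h7 i).2⟩, h8⟩

/-- rooted connected graphs without `K₄` and `K_{1,1,q}` -/
def Rt (q : ℕ) : Set Ob :=
  {P | P.u = P.w ∧ P.u ∈ P.S ∧ Cn P.G P.S ∧ NoK4 P.G P.S ∧ NoBook q P.G P.S}

lemma tgr_self {V : Type} (G : SimpleGraph V) (r : V) (e : Prop) : tgr G r r e = G := by
  ext x y
  rw [tgr_adj]
  constructor
  · rintro ⟨h1, h2 | ⟨h2 | h2, -⟩⟩
    · exact h2.2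
    · exact absurd (h2.1.trans h2.2.symm) h1
    · exact absurd (h2.1.trans h2.2.symm) h1
  · intro h
    refine ⟨h.ne, Or.inl ⟨?_, h⟩⟩
    rintro (h2 | h2)
    · exact h.ne (h2.1.trans h2.2.symm)
    · exact h.ne (h2.1.trans h2.2.symm)

/-- the complement of a hanging piece -/
lemma cn_rest {V : Type} {G : SimpleGraph V} {S H : Finset V} {z : V} (hS : Cn G S) (hH : H ⊆ S)
    (hz : z ∈ H) (hout : ∀ x ∈ H, x ≠ z → ∀ y ∈ S, G.Adj x y → y ∈ H) :
    Cn G ((S \ H) ∪ {z}) := by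
  have hm : ∀ x, x ∈ (S \ H) ∪ {z} ↔ (x ∈ S ∧ x ∉ H) ∨ x = z := by
    intro x; simp only [mem_union, mem_sdiff, mem_singleton]
  refine ⟨⟨z, (hm z).2 (Or.inr rfl)⟩, fun T hT hn hn' => ?_⟩
  obtain ⟨t, ht⟩ := hn
  obtain ⟨b, hb⟩ := hn'
  obtain ⟨hb1, hbT⟩ := mem_sdiff.1 hb
  have hTS : T ⊆ S := by
    intro x hx
    rcases (hm x).1 (hT hx) with h1 | h1
    · exact h1.1
    · rw [h1]; exact hH hz
  by_cases hzT : z ∈ T
  · have hbH : b ∉ H := by
      intro hbH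
      rcases (hm b).1 hb1 with h1 | h1
      · exact h1.2 hbH
      · exact hbT (h1 ▸ hzT)
    have hbS : b ∈ S := by
      rcases (hm b).1 hb1 with h1 | h1
      · exact h1.1
      · exact absurd (h1 ▸ hzT) hbT
    obtain ⟨x, hx, y, hy, hxy⟩ := hS.2 (T ∪ H) (union_subset hTS hH) ⟨t, mem_union_left _ ht⟩
      ⟨b, mem_sdiff.2 ⟨hbS, by rw [mem_union]; push Not; exact ⟨hbT, hbH⟩⟩⟩
    obtain ⟨hyS, hy'⟩ := mem_sdiff.1 hy
    rw [mem_union] at hy'
    push Not at hy'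
    have hxT : x ∈ T := by
      rcases mem_union.1 hx with h1 | h1
      · exact h1
      · by_cases hxz : x = z
        · rw [hxz]; exact hzT
        · exact absurd (hout x h1 hxz y hyS hxy) hy'.2
    exact ⟨x, hxT, y, mem_sdiff.2 ⟨(hm y).2 (Or.inl ⟨hyS, hy'.2⟩), hy'.1⟩, hxy⟩
  · have hzS : z ∈ S \ T := mem_sdiff.2 ⟨hH hz, hzT⟩
    obtain ⟨x, hx, y, hy, hxy⟩ := hS.2 T hTS ⟨t, ht⟩ ⟨z, hzS⟩
    obtain ⟨hyS, hyT⟩ := mem_sdiff.1 hy
    have hxH : x ∉ H := by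
      intro hxH
      rcases (hm x).1 (hT hx) with h1 | h1
      · exact h1.2 hxH
      · exact hzT (h1 ▸ hx)
    refine ⟨x, hx, y, mem_sdiff.2 ⟨(hm y).2 ?_, hyT⟩, hxy⟩
    by_cases hyz : y = z
    · exact Or.inr hyz
    · left
      refine ⟨hyS, fun hyH => ?_⟩
      exact hxH (hout y hyH hyz x (hTS hx) hxy.symm)

/-- contracting everything but a hanging piece -/
lemma hang_le {V : Type} {G : SimpleGraph V} {S H : Finset V} {z r : V} {e : Prop} (hS : Cn G S)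
    (hH : H ⊆ S) (hz : z ∈ H) (hout : ∀ x ∈ H, x ≠ z → ∀ y ∈ S, G.Adj x y → y ∈ H)
    (hr : r = z ∨ r ∉ H) : Le (full G H z z) ⟨V, G, S, r, r, e⟩ := by
  set R := (S \ H) ∪ {z} with hR
  have hcR : Cn G R := cn_rest hS hH hz hout
  have hm : ∀ x, x ∈ R ↔ (x ∈ S ∧ x ∉ H) ∨ x = z := by
    intro x; simp only [hR, mem_union, mem_sdiff, mem_singleton]
  let φ : V → V := fun v => if v ∈ H then v else z
  have f1 : ∀ v, v ∈ H → φ v = v := fun v hv => by simp [φ, hv]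
  have f2 : ∀ v, v ∉ H → φ v = z := fun v hv => by simp [φ, hv]
  have hφr : φ r = z := by
    rcases hr with rfl | h1
    · exact f1 r hz
    · exact f2 r h1
  have fib : ∀ a, ∀ x, x ≠ z → φ a = x → a = x := by
    intro a x hxz hax
    by_cases haR : a ∈ H
    · rw [f1 a haR] at hax; exact hax
    · rw [f2 a haR] at hax; exact absurd hax.symm hxz
  refine ⟨φ, hφr, hφr, ?_⟩
  rw [full_gr, gr_eq]
  show CM (tgr G r r e) S G H φ
  rw [tgr_self]
  refine ⟨?_, ?_, ?_⟩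
  · intro v hv
    by_cases hvH : v ∈ H
    · rw [f1 v hvH]; exact hvH
    · rw [f2 v hvH]; exact hz
  · intro x hx
    by_cases hxz : x = z
    · have : S.filter (fun v => φ v = x) = R := by
        ext v
        rw [mem_filter, hm]
        constructor
        · rintro ⟨h1, h2⟩
          by_cases hvH : v ∈ H
          · rw [f1 v hvH] at h2; exact Or.inr (h2.trans hxz)
          · exact Or.inl ⟨h1, hvH⟩
        · rintro (h1 | h1)
          · exact ⟨h1.1, (f2 v h1.2).trans hxz.symm⟩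
          · rw [h1]
            exact ⟨hH hz, (f1 z hz).trans hxz.symm⟩
      rw [this]
      exact hcR
    · have : S.filter (fun v => φ v = x) = {x} := by
        ext v
        rw [mem_filter, mem_singleton]
        constructor
        · rintro ⟨-, h2⟩
          exact fib v x hxz h2
        · rintro rfl
          exact ⟨hH hx, f1 v hx⟩
      rw [this]
      exact Cn.singleton _
  · intro x hx y hy hne
    constructor
    · intro hxy
      exact ⟨x, hH hx, y, hH hy, f1 x hx, f1 y hy, hxy⟩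
    · rintro ⟨a, ha, b, hb, h1, h2, h3⟩
      by_cases hxz : x = z
      · have hyz : y ≠ z := fun h' => hne (hxz.trans h'.symm)
        have := fib b y hyz h2
        subst this
        have haH := hout b hy hyz a ha h3.symm
        rw [f1 a haH] at h1
        rw [← h1]; exact h3
      · have := fib a x hxz h1
        subst this
        have hbH := hout a hx hxz b hb h3
        rw [f1 b hbH] at h2
        rw [← h2]; exact h3

/-- decomposition of a rooted connected graph at an edge of the root -/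
lemma rooted_split {V : Type} {G : SimpleGraph V} {S : Finset V} {r : V} (hr : r ∈ S)
    (hS : Cn G S) (hne : S ≠ {r}) : ∃ (r' : V) (S₁ M S₂ A : Finset V),
    (∀ x, x ∈ S ↔ x ∈ S₁ ∨ x ∈ M ∨ x ∈ S₂) ∧
    (∀ x ∈ S, ∀ y ∈ S, G.Adj x y → (x ∈ S₁ ∧ y ∈ S₁) ∨ (x ∈ M ∧ y ∈ M) ∨ (x ∈ S₂ ∧ y ∈ S₂)) ∧
    r ∈ S₁ ∧ r' ∈ S₂ ∧ (∀ x, x ∈ S₁ → x ∈ M → x = r) ∧ (∀ x, x ∈ S₁ → x ∈ S₂ → False) ∧
    (∀ x, x ∈ M → x ∈ S₂ → x = r') ∧ Cn G S₁ ∧ Cn G S₂ ∧ G.Adj r r' ∧ M = A ∪ {r, r'} ∧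
    r ∉ A ∧ r' ∉ A ∧ (∀ v ∈ A, tch G (cpt G A v) r) ∧ (∀ v ∈ A, tch G (cpt G A v) r') ∧
    (∀ x ∈ A, ∀ y ∈ S, G.Adj x y → y ∈ M) := by
  obtain ⟨r0, hr0, r', hr', hadj⟩ := hS.2 {r} (by simpa using hr) ⟨r, by simp⟩ (by
    by_contra hcon
    rw [not_nonempty_iff_eq_empty, sdiff_eq_empty_iff_subset] at hcon
    exact hne (subset_antisymm hcon (by simpa using hr)))
  rw [mem_singleton] at hr0
  subst hr0
  obtain ⟨hr'S, hr'n⟩ := mem_sdiff.1 hr'
  rw [mem_singleton] at hr'n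
  have hr'e : r' ∈ S.erase r0 := mem_erase.2 ⟨hr'n, hr'S⟩
  set K := cpt G (S.erase r0) r' with hK
  have hKc : Cn G K := cn_cpt hr'e
  have hr'K : r' ∈ K := mem_cpt_self hr'e
  have hrK : r0 ∉ K := fun h => (mem_erase.1 (cpt_subset h)).1 rfl
  have hKS : K ⊆ S := cpt_subset.trans (erase_subset _ _)
  have hKadj : ∀ x ∈ K, ∀ y ∈ S, G.Adj x y → y ≠ r0 → y ∈ K := by
    intro x hx y hy hxy hyr
    by_contra hyK
    exact not_adj_cpt hr'e hx (mem_erase.2 ⟨hyr, hy⟩) hyK hxy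
  set A := sd G K r' r0 with hA
  have hAK : A ⊆ K := sd_subL
  have hr'A : r' ∉ A := z_notMem_sd
  have hrA : r0 ∉ A := fun h => hrK (hAK h)
  have mM : ∀ x, x ∈ A ∪ {r0, r'} ↔ x ∈ A ∨ x = r0 ∨ x = r' := by
    intro x; simp only [mem_union, mem_insert, mem_singleton]
  have hcptA : ∀ v ∈ A, cpt G A v = cpt G (K.erase r') v := by
    intro v hv
    have hve := sd_sub hv
    apply subset_antisymm
    · exact subset_cpt (cpt_subset.trans sd_sub) (cn_cpt hv) (mem_cpt_self hv)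
    · exact subset_cpt (fun x hx => sd_cpt hv hx) (cn_cpt hve) (mem_cpt_self hve)
  refine ⟨r', S \ K, A ∪ {r0, r'}, K \ A, A, ?_, ?_, mem_sdiff.2 ⟨hr, hrK⟩,
    mem_sdiff.2 ⟨hr'K, hr'A⟩, ?_, ?_, ?_, ?_, ?_, hadj, rfl, hrA, hr'A, ?_, ?_, ?_⟩
  · intro x
    rw [mem_sdiff, mM, mem_sdiff]
    constructor
    · intro hx
      by_cases h1 : x ∈ K
      · by_cases h2 : x ∈ A
        · exact Or.inr (Or.inl (Or.inl h2))
        · exact Or.inr (Or.inr ⟨h1, h2⟩)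
      · exact Or.inl ⟨hx, h1⟩
    · rintro (h1 | (h1 | h1 | h1) | h1)
      · exact h1.1
      · exact hKS (hAK h1)
      · rw [h1]; exact hr
      · rw [h1]; exact hr'S
      · exact hKS h1.1
  · -- edges
    have half : ∀ x ∈ S, ∀ y ∈ S, G.Adj x y → x ∈ K →
        (x ∈ S \ K ∧ y ∈ S \ K) ∨ (x ∈ A ∪ {r0, r'} ∧ y ∈ A ∪ {r0, r'}) ∨
          (x ∈ K \ A ∧ y ∈ K \ A) := by
      intro x hx y hy hxy hxK
      by_cases hyr : y = r0
      · right; left
        rw [mM, mM]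
        refine ⟨?_, Or.inr (Or.inl hyr)⟩
        by_cases hxr' : x = r'
        · exact Or.inr (Or.inr hxr')
        · exact Or.inl (sd_of_adj hxK hxr' (hyr ▸ hxy))
      · have hyK := hKadj x hxK y hy hxy hyr
        by_cases hxA : x ∈ A
        · right; left
          rw [mM, mM]
          refine ⟨Or.inl hxA, ?_⟩
          by_cases hyr' : y = r'
          · exact Or.inr (Or.inr hyr')
          · exact Or.inl (sd_closed hxA hyK hyr' hxy)
        · by_cases hyA : y ∈ A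
          · right; left
            rw [mM, mM]
            refine ⟨?_, Or.inl hyA⟩
            by_cases hxr' : x = r'
            · exact Or.inr (Or.inr hxr')
            · exact Or.inl (sd_closed hyA hxK hxr' hxy.symm)
          · right; right
            exact ⟨mem_sdiff.2 ⟨hxK, hxA⟩, mem_sdiff.2 ⟨hyK, hyA⟩⟩
    intro x hx y hy hxy
    by_cases hxK : x ∈ K
    · exact half x hx y hy hxy hxK
    · by_cases hyK : y ∈ K
      · rcases half y hy x hx hxy.symm hyK with h1 | h1 | h1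
        · exact Or.inl ⟨h1.2, h1.1⟩
        · exact Or.inr (Or.inl ⟨h1.2, h1.1⟩)
        · exact Or.inr (Or.inr ⟨h1.2, h1.1⟩)
      · exact Or.inl ⟨mem_sdiff.2 ⟨hx, hxK⟩, mem_sdiff.2 ⟨hy, hyK⟩⟩
  · intro x h1 h2
    obtain ⟨hxS, hxK⟩ := mem_sdiff.1 h1
    rcases (mM x).1 h2 with h3 | h3 | h3
    · exact absurd (hAK h3) hxK
    · exact h3
    · exact absurd (h3 ▸ hr'K) hxK
  · intro x h1 h2
    exact (mem_sdiff.1 h1).2 (mem_sdiff.1 h2).1
  · intro x h1 h2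
    obtain ⟨hxK, hxA⟩ := mem_sdiff.1 h2
    rcases (mM x).1 h1 with h3 | h3 | h3
    · exact absurd h3 hxA
    · exact absurd (h3 ▸ hxK) hrK
    · exact h3
  · -- `S \ K` is connected
    have := cn_rest (G := G) (S := S) (H := K ∪ {r0}) (z := r0) hS
      (union_subset hKS (by simpa using hr)) (by simp) (by
        intro x hx hxr y hy hxy
        have hxK : x ∈ K := by
          rcases mem_union.1 hx with h1 | h1
          · exact h1
          · exact absurd (mem_singleton.1 h1) hxr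
        by_cases hyr : y = r0
        · rw [hyr]; simp
        · exact mem_union_left _ (hKadj x hxK y hy hxy hyr))
    have he : (S \ (K ∪ {r0})) ∪ {r0} = S \ K := by
      ext x
      simp only [mem_union, mem_sdiff, mem_singleton, not_or]
      constructor
      · rintro (h1 | rfl)
        · exact ⟨h1.1, h1.2.1⟩
        · exact ⟨hr, hrK⟩
      · rintro ⟨h1, h2⟩
        by_cases hxr : x = r0
        · exact Or.inr hxr
        · exact Or.inl ⟨h1, h2, hxr⟩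
    rw [he] at this
    exact this
  · apply cn_closed hKc hr'K sdiff_subset (mem_sdiff.2 ⟨hr'K, hr'A⟩)
    intro v hv hvz y hy
    obtain ⟨hvK, hvA⟩ := mem_sdiff.1 hv
    have hve : v ∈ K.erase r' := mem_erase.2 ⟨hvz, hvK⟩
    refine mem_sdiff.2 ⟨(mem_erase.1 (cpt_subset hy)).2, fun hyA => hvA ?_⟩
    have : v ∈ cpt G (K.erase r') y := by
      rw [cpt_eq_of_mem hve hy]; exact mem_cpt_self hve
    exact sd_cpt hyA this
  · intro v hv
    rw [hcptA v hv]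
    exact (mem_sd.1 hv).2
  · intro v hv
    rw [hcptA v hv]
    exact cpt_touch hKc hr'K (sd_sub hv)
  · intro x hx y hy hxy
    rw [mM]
    by_cases hyr : y = r0
    · exact Or.inr (Or.inl hyr)
    by_cases hyr' : y = r'
    · exact Or.inr (Or.inr hyr')
    · exact Or.inl (sd_closed hx (hKadj x (hAK hx) y hy hxy hyr) hyr' hxy)

theorem rooted_pwo (q : ℕ) (hq : 1 ≤ q) : (Rt q).PartiallyWellOrderedOn Le := by
  by_contra hbad
  obtain ⟨f, hf1, hf2, hf3⟩ := exists_min_bad Le (fun P => P.S.card) _ hbad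
  set 𝓢 : Set Ob := {x | x ∈ Rt q ∧ ∃ n, Le x (f n) ∧ x.S.card < (f n).S.card} with h𝓢
  have hB := bd_pwo hf3 (q - 1)
  -- decomposition
  have hdec : ∀ n, ∃ (r' : (f n).V) (S₁ M S₂ : Finset (f n).V),
      (∀ x, x ∈ (f n).S ↔ x ∈ S₁ ∨ x ∈ M ∨ x ∈ S₂) ∧
      (∀ x ∈ (f n).S, ∀ y ∈ (f n).S, (f n).G.Adj x y →
        (x ∈ S₁ ∧ y ∈ S₁) ∨ (x ∈ M ∧ y ∈ M) ∨ (x ∈ S₂ ∧ y ∈ S₂)) ∧
      (f n).u ∈ S₁ ∧ (f n).u ∈ M ∧ r' ∈ M ∧ r' ∈ S₂ ∧ (∀ x, x ∈ S₁ → x ∈ M → x = (f n).u) ∧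
      (∀ x, x ∈ S₁ → x ∈ S₂ → False) ∧ (∀ x, x ∈ M → x ∈ S₂ → x = r') ∧
      full (f n).G S₁ (f n).u (f n).u ∈ 𝓢 ∧ full (f n).G M (f n).u r' ∈ {P | Bd 𝓢 (q - 1) P} ∧
      full (f n).G S₂ r' r' ∈ 𝓢 := by
    intro n
    obtain ⟨huw, huS, hcn, hK4, hBook⟩ := hf1 n
    have hne : (f n).S ≠ {(f n).u} := by
      intro heq
      apply hf2 n (n + 1) (by omega)
      obtain ⟨huw', huS', hcn', -, -⟩ := hf1 (n + 1)
      refine ⟨fun _ => (f n).u, rfl, huw, ?_⟩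
      have e1 : (f (n + 1)).gr = (f (n + 1)).G := by
        rw [gr_eq, ← huw', tgr_self]
      rw [e1, heq]
      exact CM.const hcn' _
    -- membership of hanging pieces
    have hmem : ∀ (H : Finset (f n).V) (z : (f n).V), H ⊆ (f n).S → z ∈ H → Cn (f n).G H →
        (∀ x ∈ H, x ≠ z → ∀ y ∈ (f n).S, (f n).G.Adj x y → y ∈ H) →
        ((f n).u = z ∨ (f n).u ∉ H) → H ≠ (f n).S → full (f n).G H z z ∈ 𝓢 := by
      intro H z hH hz hcH hout hr hHne
      refine ⟨⟨rfl, hz, hcH, hK4.mono hH, hBook.mono hH⟩, n, ?_, ?_⟩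
      · have h1 := hang_le (e := (f n).e) hcn hH hz hout hr
        obtain ⟨φ, h2, h3, h4⟩ := h1
        refine ⟨φ, h2, ?_, ?_⟩
        · rw [← huw]; exact h2
        · have e1 : (⟨(f n).V, (f n).G, (f n).S, (f n).u, (f n).u, (f n).e⟩ : Ob).gr =
              (f n).gr := by
            rw [gr_eq, gr_eq, ← huw]
          rw [← e1]
          exact h4
      · exact Finset.card_lt_card (Finset.ssubset_iff_subset_ne.2 ⟨hH, hHne⟩)
    obtain ⟨r', S₁, M, S₂, A, d1, d2, d3, d4, d5, d6, d7, d8, d9, d10, d11, d12, d13, d14, d15,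
      d16⟩ := rooted_split huS hcn hne
    have huM : (f n).u ∈ M := by rw [d11]; simp
    have hr'M : r' ∈ M := by rw [d11]; simp
    have hS₁S : S₁ ⊆ (f n).S := fun x hx => (d1 x).2 (Or.inl hx)
    have hMS : M ⊆ (f n).S := fun x hx => (d1 x).2 (Or.inr (Or.inl hx))
    have hS₂S : S₂ ⊆ (f n).S := fun x hx => (d1 x).2 (Or.inr (Or.inr hx))
    have hur' : (f n).u ≠ r' := d10.ne
    have huS₂ : (f n).u ∉ S₂ := fun h' => d6 _ d3 h'
    have hr'S₁ : r' ∉ S₁ := fun h' => hur' (d5 r' h' hr'M).symm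
    refine ⟨r', S₁, M, S₂, d1, d2, d3, huM, hr'M, d4, d5, d6, d7, ?_, ?_, ?_⟩
    · apply hmem S₁ _ hS₁S d3 d8 _ (Or.inl rfl)
      · intro h'
        exact hr'S₁ (h' ▸ hS₂S d4)
      · intro x hx hxu y hy hxy
        rcases d2 x (hS₁S hx) y hy hxy with h1 | h1 | h1
        · exact h1.2
        · exact absurd (d5 x hx h1.1) hxu
        · exact (d6 x hx h1.1).elim
    · show Bd 𝓢 (q - 1) (full (f n).G M (f n).u r')
      subst d11
      have hL : (full (f n).G (A ∪ {(f n).u, r'}) (f n).u r').L = A := mk_L _ _ _ _ _ d12 d13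
      refine ⟨huM, hr'M, hur', ?_, ?_, Or.inl d10, ?_, ?_, ?_⟩
      · rw [hL]; exact d14
      · rw [hL]; exact d15
      · rintro ⟨A', B', C, E, h1, h2, h3, h4, h5, h6, h7, h8, h9, h10, h11, h12, h13, h14, h15,
          h16, h17, h18, h19, h20, h21⟩
        exact hK4 ⟨A', B', C, E, h3, h4, h5, h6, h7.trans hMS, h8.trans hMS, h9.trans hMS,
          h10.trans hMS, h11, h12, h13, h14, h15, h16, ⟨_, h1, _, h2, d10⟩, h17, h18, h19, h20,
          h21⟩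
      · rw [Nat.sub_add_cancel hq]
        rintro ⟨A', B', F, h1, h2, h3, h4, h5, h6, h7, h8, h9⟩
        exact hBook ⟨A', B', F, h3, h4, h5.trans hMS, h6.trans hMS, h7, ⟨_, h1, _, h2, d10⟩,
          fun i => ⟨(h8 i).1.trans hMS, (h8 i).2⟩, h9⟩
      · rw [hL]
        intro H z hH hz hcH hout
        have hHS : H ⊆ (f n).S := fun x hx => hMS (mem_union_left _ (hH hx))
        apply hmem H z hHS hz hcH
        · intro x hx hxz y hy hxy
          exact hout x hx hxz y (d16 x (hH hx) y hy hxy) hxy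
        · exact Or.inr fun h' => d12 (hH h')
        · intro h'
          exact d12 (hH (h' ▸ huS))
    · apply hmem S₂ _ hS₂S d4 d9 _ (Or.inr huS₂)
      · intro h'
        exact huS₂ (h' ▸ huS)
      · intro x hx hxr y hy hxy
        rcases d2 x (hS₂S hx) y hy hxy with h1 | h1 | h1
        · exact (d6 x h1.1 hx).elim
        · exact absurd (d7 x h1.1 hx) hxr
        · exact h1.2
  choose r' S₁ M S₂ d1 d2 d3 d4 d5 d6 d7 d8 d9 d10 d11 d12 using hdec
  have hp := hf3.prod (hB.prod hf3)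
  rw [Set.partiallyWellOrderedOn_iff_exists_lt] at hp
  obtain ⟨a, b, hab, k1, k2, k3⟩ := hp (fun n => (full (f n).G (S₁ n) (f n).u (f n).u,
    full (f n).G (M n) (f n).u (r' n), full (f n).G (S₂ n) (r' n) (r' n)))
    (fun n => ⟨d10 n, d11 n, d12 n⟩)
  apply hf2 a b hab
  obtain ⟨φ1, a1, a2, a3⟩ := k1
  obtain ⟨φ2, b1, b2, b3⟩ := k2
  obtain ⟨φ3, c1, c2, c3⟩ := k3
  rw [full_gr, full_gr] at a3 b3 c3
  have a1 : φ1 (f b).u = (f a).u := a1
  have a3 : CM (f b).G (S₁ b) (f a).G (S₁ a) φ1 := a3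
  have b1 : φ2 (f b).u = (f a).u := b1
  have b2 : φ2 (r' b) = r' a := b2
  have b3 : CM (f b).G (M b) (f a).G (M a) φ2 := b3
  have c1 : φ3 (r' b) = r' a := c1
  have c3 : CM (f b).G (S₂ b) (f a).G (S₂ a) φ3 := c3
  obtain ⟨Φ, e1, e2, e3, e4⟩ := CM.glue3 (f a).u a3 b3 c3 (d1 a) (d1 b) (d2 a) (d2 b)
    (fun v h1 h2 => by rw [d7 b v h1 h2, a1, b1])
    (fun v h1 h2 => (d8 b v h1 h2).elim)
    (fun v h1 h2 => by rw [d9 b v h1 h2, b2, c1])
    (fun x h1 h2 => ⟨(f b).u, d3 b, d4 b, by rw [a1, d7 a x h1 h2]⟩)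
    (fun x h1 h2 => (d8 a x h1 h2).elim)
    (fun x h1 h2 => ⟨r' b, d5 b, d6 b, by rw [b2, d9 a x h1 h2]⟩)
  have g1 : (f a).gr = (f a).G := by rw [gr_eq, ← (hf1 a).1, tgr_self]
  have g2 : (f b).gr = (f b).G := by rw [gr_eq, ← (hf1 b).1, tgr_self]
  refine ⟨Φ, ?_, ?_, ?_⟩
  · rw [e2 _ (d3 b), a1]
  · rw [← (hf1 b).1, ← (hf1 a).1, e2 _ (d3 b), a1]
  · rw [g1, g2]; exact e1

end Pool.Agent.Run7.h855
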