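import Pool.Agent.Run7.h855.Clq

/-! Connected graphs without a diamond contraction are well-quasi-ordered. -/

namespace Pool.Agent.Run7.h855

open Pool.Agent.H175R2 Finset Classical

/-- rooted graphs whose root has a clique block with hanging pieces -/
def CA (𝓢 : Set Ob) : Set Ob := {P | P.u = P.w ∧ ∃ (S₁ T K : Finset P.V) (L : List Ob),
  (∀ x, x ∈ P.S ↔ x ∈ S₁ ∨ x ∈ T) ∧
  (∀ x ∈ P.S, ∀ y ∈ P.S, P.G.Adj x y → (x ∈ S₁ ∧ y ∈ S₁) ∨ (x ∈ T ∧ y ∈ T)) ∧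
  P.u ∈ S₁ ∧ (∀ x, x ∈ S₁ → x ∈ T → x = P.u) ∧ full P.G S₁ P.u P.u ∈ 𝓢 ∧
  Cl P.G P.u T K L ∧ ∀ Q ∈ L, Q ∈ 𝓢}

/-- rooted graphs with a bundle at an edge of the root -/
def CB (𝓢 : Set Ob) (k : ℕ) : Set Ob := {P | P.u = P.w ∧
  ∃ (r' : P.V) (S₁ M S₂ : Finset P.V),
      (∀ x, x ∈ P.S ↔ x ∈ S₁ ∨ x ∈ M ∨ x ∈ S₂) ∧
      (∀ x ∈ P.S, ∀ y ∈ P.S, P.G.Adj x y →
        (x ∈ S₁ ∧ y ∈ S₁) ∨ (x ∈ M ∧ y ∈ M) ∨ (x ∈ S₂ ∧ y ∈ S₂)) ∧
      P.u ∈ S₁ ∧ P.u ∈ M ∧ r' ∈ M ∧ r' ∈ S₂ ∧ (∀ x, x ∈ S₁ → x ∈ M → x = P.u) ∧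
      (∀ x, x ∈ S₁ → x ∈ S₂ → False) ∧ (∀ x, x ∈ M → x ∈ S₂ → x = r') ∧
      full P.G S₁ P.u P.u ∈ 𝓢 ∧ full P.G M P.u r' ∈ {P | Bd 𝓢 k P} ∧ full P.G S₂ r' r' ∈ 𝓢}

lemma ca_pwo {𝓢 : Set Ob} (h𝓢 : 𝓢.PartiallyWellOrderedOn Le) :
    (CA 𝓢).PartiallyWellOrderedOn Le := by
  have hp := h𝓢.prod (Set.PartiallyWellOrderedOn.partiallyWellOrderedOn_sublistForall₂ Le h𝓢)
  rw [Set.partiallyWellOrderedOn_iff_exists_lt] at hp ⊢
  intro f hf
  choose huw S₁ T K L d1 d2 d3 d4 d5 d6 d7 using hf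
  obtain ⟨a, b, hab, k1, k2⟩ := hp (fun n => (full (f n).G (S₁ n) (f n).u (f n).u, L n))
    (fun n => ⟨d5 n, d7 n⟩)
  refine ⟨a, b, hab, ?_⟩
  obtain ⟨φ1, a1, a2, a3⟩ := k1
  rw [full_gr, full_gr] at a3
  have a1 : φ1 (f b).u = (f a).u := a1
  have a3 : CM (f b).G (S₁ b) (f a).G (S₁ a) φ1 := a3
  obtain ⟨φ2, b1, b2, b3⟩ := Cl.le k2 _ _ _ _ _ _ _ _ _ _ (d6 a) (d6 b)
  have huT : (f b).u ∈ T b := (d6 b).facts.2.1 (d6 b).facts.1
  obtain ⟨Φ, e1, e2, e3⟩ := CM.glue2 (Gt := (f a).G) (Gt' := (f b).G) (f a).u a3 b3 (d1 a) (d1 b)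
    (fun x hx y hy => ⟨fun h => ⟨h, d2 a x hx y hy h⟩, fun h => h.1⟩)
    (fun x hx y hy => ⟨fun h => ⟨h, d2 b x hx y hy h⟩, fun h => h.1⟩)
    (fun v h1 h2 => by rw [d4 b v h1 h2, a1, b1])
    (fun x h1 h2 => ⟨(f b).u, d3 b, huT, by rw [a1, d4 a x h1 h2]⟩)
  have g1 : (f a).gr = (f a).G := by rw [gr_eq, ← huw a, tgr_self]
  have g2 : (f b).gr = (f b).G := by rw [gr_eq, ← huw b, tgr_self]
  refine ⟨Φ, ?_, ?_, ?_⟩
  · rw [e2 _ (d3 b), a1]
  · rw [← huw b, ← huw a, e2 _ (d3 b), a1]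
  · rw [g1, g2]; exact e1

lemma cb_pwo {𝓢 : Set Ob} (h𝓢 : 𝓢.PartiallyWellOrderedOn Le) (k : ℕ) :
    (CB 𝓢 k).PartiallyWellOrderedOn Le := by
  have hp := h𝓢.prod ((bd_pwo h𝓢 k).prod h𝓢)
  rw [Set.partiallyWellOrderedOn_iff_exists_lt] at hp ⊢
  intro f hf
  choose huw r' S₁ M S₂ d1 d2 d3 d4 d5 d6 d7 d8 d9 d10 d11 d12 using hf
  obtain ⟨a, b, hab, k1, k2, k3⟩ := hp (fun n => (full (f n).G (S₁ n) (f n).u (f n).u,
    full (f n).G (M n) (f n).u (r' n), full (f n).G (S₂ n) (r' n) (r' n)))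
    (fun n => ⟨d10 n, d11 n, d12 n⟩)
  refine ⟨a, b, hab, ?_⟩
  obtain ⟨φ1, a1, a2, a3⟩ := k1
  obtain ⟨φ2, b1, b2, b3⟩ := k2
  obtain ⟨φ3, c1, c2, c3⟩ := k3
  rw [full_gr, full_gr] at a3 b3 c3
  have a1 : φ1 (f b).u = (f a).u := a1
  have a3 : CM (f b).G (S₁ b) (f a).G (S₁ a) φ1 := a3
  have b1 : φ2 (f b).u = (f a).u := b1
  have b2 : φ2 (r' b) = r' a := b2
  have b3 : CM (f b).G (M b) (f a).G (M a) φ2 := b3
  have c1 : φ3 (r' b) = r' a := c1
  have c3 : CM (f b).G (S₂ b) (f a).G (S₂ a) φ3 := c3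
  obtain ⟨Φ, e1, e2, e3, e4⟩ := CM.glue3 (f a).u a3 b3 c3 (d1 a) (d1 b) (d2 a) (d2 b)
    (fun v h1 h2 => by rw [d7 b v h1 h2, a1, b1])
    (fun v h1 h2 => (d8 b v h1 h2).elim)
    (fun v h1 h2 => by rw [d9 b v h1 h2, b2, c1])
    (fun x h1 h2 => ⟨(f b).u, d3 b, d4 b, by rw [a1, d7 a x h1 h2]⟩)
    (fun x h1 h2 => (d8 a x h1 h2).elim)
    (fun x h1 h2 => ⟨r' b, d5 b, d6 b, by rw [b2, d9 a x h1 h2]⟩)
  have g1 : (f a).gr = (f a).G := by rw [gr_eq, ← huw a, tgr_self]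
  have g2 : (f b).gr = (f b).G := by rw [gr_eq, ← huw b, tgr_self]
  refine ⟨Φ, ?_, ?_, ?_⟩
  · rw [e2 _ (d3 b), a1]
  · rw [← huw b, ← huw a, e2 _ (d3 b), a1]
  · rw [g1, g2]; exact e1

/-- rooted connected graphs without diamond -/
def Rd : Set Ob := {P | P.u = P.w ∧ P.u ∈ P.S ∧ Cn P.G P.S ∧ NoDia P.G P.S}

/-- the structure of a rooted graph without diamond, if the root has at least three neighbours in
some component -/
lemma dia_case {V : Type} {G : SimpleGraph V} {S : Finset V} {r r' : V} {𝓢 : Set Ob} (hr : r ∈ S)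
    (hS : Cn G S) (hD : NoDia G S) (hr'S : r' ∈ S) (hadj : G.Adj r r')
    (hmem : ∀ (H : Finset V) (z : V), H ⊆ S → z ∈ H → Cn G H →
        (∀ x ∈ H, x ≠ z → ∀ y ∈ S, G.Adj x y → y ∈ H) →
        (r = z ∨ r ∉ H) → H ≠ S → full G H z z ∈ 𝓢)
    (h3 : 3 ≤ ((cpt G (S.erase r) r').filter (fun x => G.Adj r x)).card) :
    ∃ (S₁ T K : Finset V) (L : List Ob),
      (∀ x, x ∈ S ↔ x ∈ S₁ ∨ x ∈ T) ∧
      (∀ x ∈ S, ∀ y ∈ S, G.Adj x y → (x ∈ S₁ ∧ y ∈ S₁) ∨ (x ∈ T ∧ y ∈ T)) ∧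
      r ∈ S₁ ∧ (∀ x, x ∈ S₁ → x ∈ T → x = r) ∧ full G S₁ r r ∈ 𝓢 ∧
      Cl G r T K L ∧ ∀ Q ∈ L, Q ∈ 𝓢 := by
  have hr'e : r' ∈ S.erase r := mem_erase.2 ⟨hadj.ne.symm, hr'S⟩
  set K := cpt G (S.erase r) r' with hK
  set N := K.filter (fun x => G.Adj r x) with hN
  have hKc : Cn G K := cn_cpt hr'e
  have hr'K : r' ∈ K := mem_cpt_self hr'e
  have hrK : r ∉ K := fun h => (mem_erase.1 (cpt_subset h)).1 rfl
  have hKS : K ⊆ S := cpt_subset.trans (erase_subset _ _)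
  have hKadj : ∀ x ∈ K, ∀ y ∈ S, G.Adj x y → y ≠ r → y ∈ K := by
    intro x hx y hy hxy hyr
    by_contra hyK
    exact not_adj_cpt hr'e hx (mem_erase.2 ⟨hyr, hy⟩) hyK hxy
  have hNK : N ⊆ K := filter_subset _ _
  have hNadj : ∀ x ∈ N, G.Adj r x := fun x hx => (mem_filter.1 hx).2
  have hNadj' : ∀ x ∈ K, G.Adj r x → x ∈ N := fun x hx h => mem_filter.2 ⟨hx, h⟩
  have hNne : N.Nonempty := by rw [← card_pos]; omega
  obtain ⟨p, hp⟩ := exists_prt hKc hNK hNne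
  have htc : ∀ i ∈ N, ∀ j ∈ N, i ≠ j →
      Tc G (K.filter (fun x => p x = i)) (K.filter (fun x => p x = j)) :=
    fun i hi j hj hij => hp.tc hD hKc hKS hr hrK hNK hNadj hi hj hij
  have honly : ∀ x ∈ K, ∀ y ∈ K, G.Adj x y → p x ≠ p y → x = p x :=
    fun x hx y hy hxy hne => hp.only hD hKc hKS hr hrK hNK hNadj hNadj' h3 hx hy hxy hne
  obtain ⟨L, hL1, hL2⟩ := exists_cl (𝓢 := 𝓢) hp hrK hNK hNadj hNadj' htc honly (by
    intro v hv
    have hvY : v ∈ K.filter (fun x => p x = v) := mem_filter.2 ⟨hNK hv, hp.fix v hv⟩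
    have hYK : K.filter (fun x => p x = v) ⊆ K := filter_subset _ _
    have hrY : r ∉ K.filter (fun x => p x = v) := fun h' => hrK (hYK h')
    apply hmem _ v (hYK.trans hKS) hvY (hp.cn v hv)
    · intro x hx hxv y hy hxy
      obtain ⟨hxK, hxp⟩ := mem_filter.1 hx
      have hyr : y ≠ r := by
        intro h'
        subst h'
        have hxN := hNadj' x hxK hxy.symm
        exact hxv ((hp.fix x hxN).symm.trans hxp)
      have hyK := hKadj x hxK y hy hxy hyr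
      refine mem_filter.2 ⟨hyK, ?_⟩
      by_contra hyv
      have := honly x hxK y hyK hxy (by rw [hxp]; exact fun h' => hyv h'.symm)
      exact hxv (this.trans hxp)
    · exact Or.inr hrY
    · intro h'
      exact hrY (h' ▸ hr)) N (Subset.refl _)
  have eT : ({r} : Finset V) ∪ K.filter (fun x => p x ∈ N) = {r} ∪ K := by
    congr 1
    rw [filter_eq_self]
    exact hp.mem
  rw [eT] at hL1
  have mT : ∀ x, x ∈ ({r} : Finset V) ∪ K ↔ x = r ∨ x ∈ K := by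
    intro x; rw [mem_union, mem_singleton]
  -- `S \ K` is connected
  have hS₁ : Cn G (S \ K) := by
    have := cn_rest (G := G) (S := S) (H := K ∪ {r}) (z := r) hS
      (union_subset hKS (by simpa using hr)) (by simp) (by
        intro x hx hxr y hy hxy
        have hxK : x ∈ K := by
          rcases mem_union.1 hx with h1 | h1
          · exact h1
          · exact absurd (mem_singleton.1 h1) hxr
        by_cases hyr : y = r
        · rw [hyr]; simp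
        · exact mem_union_left _ (hKadj x hxK y hy hxy hyr))
    have he : (S \ (K ∪ {r})) ∪ {r} = S \ K := by
      ext x
      simp only [mem_union, mem_sdiff, mem_singleton, not_or]
      constructor
      · rintro (h1 | rfl)
        · exact ⟨h1.1, h1.2.1⟩
        · exact ⟨hr, hrK⟩
      · rintro ⟨h1, h2⟩
        by_cases hxr : x = r
        · exact Or.inr hxr
        · exact Or.inl ⟨h1, h2, hxr⟩
    rw [he] at this
    exact this
  refine ⟨S \ K, {r} ∪ K, {r} ∪ N, L, ?_, ?_, mem_sdiff.2 ⟨hr, hrK⟩, ?_, ?_, hL1, hL2⟩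
  · intro x
    rw [mT, mem_sdiff]
    constructor
    · intro hx
      by_cases h1 : x ∈ K
      · exact Or.inr (Or.inr h1)
      · exact Or.inl ⟨hx, h1⟩
    · rintro (h1 | h1 | h1)
      · exact h1.1
      · rw [h1]; exact hr
      · exact hKS h1
  · have half : ∀ x ∈ S, ∀ y ∈ S, G.Adj x y → x ∈ K → (x ∈ ({r} : Finset V) ∪ K ∧ y ∈ ({r} : Finset V) ∪ K) := by
      intro x hx y hy hxy hxK
      rw [mT, mT]
      refine ⟨Or.inr hxK, ?_⟩
      by_cases hyr : y = r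
      · exact Or.inl hyr
      · exact Or.inr (hKadj x hxK y hy hxy hyr)
    intro x hx y hy hxy
    by_cases hxK : x ∈ K
    · exact Or.inr (half x hx y hy hxy hxK)
    · by_cases hyK : y ∈ K
      · have := half y hy x hx hxy.symm hyK
        exact Or.inr ⟨this.2, this.1⟩
      · exact Or.inl ⟨mem_sdiff.2 ⟨hx, hxK⟩, mem_sdiff.2 ⟨hy, hyK⟩⟩
  · intro x h1 h2
    rcases (mT x).1 h2 with h3 | h3
    · exact h3
    · exact absurd h3 (mem_sdiff.1 h1).2
  · apply hmem _ r sdiff_subset (mem_sdiff.2 ⟨hr, hrK⟩) hS₁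
    · intro x hx hxr y hy hxy
      obtain ⟨hxS, hxK⟩ := mem_sdiff.1 hx
      refine mem_sdiff.2 ⟨hy, fun hyK => hxK ?_⟩
      exact hKadj y hyK x hxS hxy.symm hxr
    · exact Or.inl rfl
    · intro h'
      have : r' ∈ S \ K := by rw [h']; exact hr'S
      exact (mem_sdiff.1 this).2 hr'K

theorem rd_pwo : Rd.PartiallyWellOrderedOn Le := by
  by_contra hbad
  obtain ⟨f, hf1, hf2, hf3⟩ := exists_min_bad Le (fun P => P.S.card) _ hbad
  set 𝓢 : Set Ob := {x | x ∈ Rd ∧ ∃ n, Le x (f n) ∧ x.S.card < (f n).S.card} with h𝓢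
  have hU := (ca_pwo hf3).union (cb_pwo hf3 1)
  rw [Set.partiallyWellOrderedOn_iff_exists_lt] at hU
  suffices hdec : ∀ n, f n ∈ CA 𝓢 ∪ CB 𝓢 1 by
    obtain ⟨a, b, hab, h⟩ := hU f hdec
    exact hf2 a b hab h
  intro n
  obtain ⟨huw, huS, hcn, hDia⟩ := hf1 n
  have hne : (f n).S ≠ {(f n).u} := by
    intro heq
    apply hf2 n (n + 1) (by omega)
    obtain ⟨huw', huS', hcn', -⟩ := hf1 (n + 1)
    refine ⟨fun _ => (f n).u, rfl, huw, ?_⟩
    have e1 : (f (n + 1)).gr = (f (n + 1)).G := by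
      rw [gr_eq, ← huw', tgr_self]
    rw [e1, heq]
    exact CM.const hcn' _
  -- membership of hanging pieces
  have hmem : ∀ (H : Finset (f n).V) (z : (f n).V), H ⊆ (f n).S → z ∈ H → Cn (f n).G H →
      (∀ x ∈ H, x ≠ z → ∀ y ∈ (f n).S, (f n).G.Adj x y → y ∈ H) →
      ((f n).u = z ∨ (f n).u ∉ H) → H ≠ (f n).S → full (f n).G H z z ∈ 𝓢 := by
    intro H z hH hz hcH hout hr hHne
    refine ⟨⟨rfl, hz, hcH, hDia.mono hH⟩, n, ?_, ?_⟩
    · have h1 := hang_le (e := (f n).e) hcn hH hz hout hr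
      obtain ⟨φ, h2, h3, h4⟩ := h1
      refine ⟨φ, h2, ?_, ?_⟩
      · rw [← huw]; exact h2
      · have e1 : (⟨(f n).V, (f n).G, (f n).S, (f n).u, (f n).u, (f n).e⟩ : Ob).gr =
            (f n).gr := by
          rw [gr_eq, gr_eq, ← huw]
        rw [← e1]
        exact h4
    · exact Finset.card_lt_card (Finset.ssubset_iff_subset_ne.2 ⟨hH, hHne⟩)
  by_cases hcase : ∃ r' ∈ (f n).S, (f n).G.Adj (f n).u r' ∧
      3 ≤ ((cpt (f n).G ((f n).S.erase (f n).u) r').filter (fun x => (f n).G.Adj (f n).u x)).card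
  · left
    obtain ⟨r', hr'S, hadj, h3⟩ := hcase
    exact ⟨huw, dia_case huS hcn hDia hr'S hadj hmem h3⟩
  · right
    refine ⟨huw, ?_⟩
    obtain ⟨r', S₁, M, S₂, A, d1, d2, d3, d4, d5, d6, d7, d8, d9, d10, d11, d12, d13, d14, d15,
      d16⟩ := rooted_split huS hcn hne
    have huM : (f n).u ∈ M := by rw [d11]; simp
    have hr'M : r' ∈ M := by rw [d11]; simp
    have hS₁S : S₁ ⊆ (f n).S := fun x hx => (d1 x).2 (Or.inl hx)
    have hMS : M ⊆ (f n).S := fun x hx => (d1 x).2 (Or.inr (Or.inl hx))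
    have hS₂S : S₂ ⊆ (f n).S := fun x hx => (d1 x).2 (Or.inr (Or.inr hx))
    have hur' : (f n).u ≠ r' := d10.ne
    have huS₂ : (f n).u ∉ S₂ := fun h' => d6 _ d3 h'
    have hr'S₁ : r' ∉ S₁ := fun h' => hur' (d5 r' h' hr'M).symm
    -- at most one further neighbour of the root
    have hv : ∃ v, ∀ x ∈ M, (f n).G.Adj (f n).u x → x = r' ∨ x = v := by
      by_contra hcon
      push Not at hcon
      apply hcase
      refine ⟨r', hS₂S d4, d10, ?_⟩
      obtain ⟨x, hxM, hxu, hxr, -⟩ := hcon r'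
      obtain ⟨y, hyM, hyu, hyr, hyx⟩ := hcon x
      have hr'e : r' ∈ (f n).S.erase (f n).u := mem_erase.2 ⟨hur'.symm, hS₂S d4⟩
      have hin : ∀ z ∈ M, (f n).G.Adj (f n).u z → z ≠ r' →
          z ∈ cpt (f n).G ((f n).S.erase (f n).u) r' := by
        intro z hzM hzu hzr
        have hzA : z ∈ A := by
          rw [d11, mem_union, mem_insert, mem_singleton] at hzM
          rcases hzM with h' | h' | h'
          · exact h'
          · exact absurd h'.symm hzu.ne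
          · exact absurd h' hzr
        obtain ⟨a, ha, har⟩ := d15 z hzA
        have hsub : cpt (f n).G A z ∪ {r'} ⊆ (f n).S.erase (f n).u := by
          intro t ht
          rcases mem_union.1 ht with h' | h'
          · have htA := cpt_subset h'
            refine mem_erase.2 ⟨fun h'' => d12 (h'' ▸ htA), hMS ?_⟩
            rw [d11]; exact mem_union_left _ htA
          · rw [mem_singleton] at h'
            rw [h']; exact hr'e
        exact subset_cpt hsub ((cn_cpt hzA).union (Cn.singleton r') (Or.inl ⟨a, ha, r', by simp, har⟩))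
          (mem_union_right _ (by simp)) (mem_union_left _ (mem_cpt_self hzA))
      have hsub : ({r', x, y} : Finset (f n).V) ⊆
          (cpt (f n).G ((f n).S.erase (f n).u) r').filter (fun x => (f n).G.Adj (f n).u x) := by
        intro z hz
        rw [mem_insert, mem_insert, mem_singleton] at hz
        rcases hz with h' | h' | h'
        · rw [h']; exact mem_filter.2 ⟨mem_cpt_self hr'e, d10⟩
        · rw [h']; exact mem_filter.2 ⟨hin x hxM hxu hxr, hxu⟩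
        · rw [h']; exact mem_filter.2 ⟨hin y hyM hyu hyr, hyu⟩
      have hcard : ({r', x, y} : Finset (f n).V).card = 3 :=
        card_eq_three.2 ⟨r', x, y, hxr.symm, hyr.symm, hyx.symm, rfl⟩
      rw [← hcard]
      exact card_le_card hsub
    refine ⟨r', S₁, M, S₂, d1, d2, d3, huM, hr'M, d4, d5, d6, d7, ?_, ?_, ?_⟩
    · apply hmem S₁ _ hS₁S d3 d8 _ (Or.inl rfl)
      · intro h'
        exact hr'S₁ (h' ▸ hS₂S d4)
      · intro x hx hxu y hy hxy
        rcases d2 x (hS₁S hx) y hy hxy with h1 | h1 | h1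
        · exact h1.2
        · exact absurd (d5 x hx h1.1) hxu
        · exact (d6 x hx h1.1).elim
    · show Bd 𝓢 1 (full (f n).G M (f n).u r')
      have hDM : NoDia (f n).G M := hDia.mono hMS
      obtain ⟨v, hv⟩ := hv
      subst d11
      have hL : (full (f n).G (A ∪ {(f n).u, r'}) (f n).u r').L = A := mk_L _ _ _ _ _ d12 d13
      refine ⟨huM, hr'M, hur', ?_, ?_, Or.inl d10, ?_, ?_, ?_⟩
      · rw [hL]; exact d14
      · rw [hL]; exact d15
      · exact hDM.no_K4B huM d10 hv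
      · rintro ⟨A', B', F, h1, h2, h3, h4, h5, h6, h7, h8, h9⟩
        exact hDM.noBook ⟨A', B', F, h3, h4, h5, h6, h7, ⟨_, h1, _, h2, d10⟩, h8, h9⟩
      · rw [hL]
        intro H z hH hz hcH hout
        have hHS : H ⊆ (f n).S := fun x hx => hMS (mem_union_left _ (hH hx))
        apply hmem H z hHS hz hcH
        · intro x hx hxz y hy hxy
          exact hout x hx hxz y (d16 x (hH hx) y hy hxy) hxy
        · exact Or.inr fun h' => d12 (hH h')
        · intro h'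
          exact d12 (hH (h' ▸ huS))
    · apply hmem S₂ _ hS₂S d4 d9 _ (Or.inr huS₂)
      · intro h'
        exact huS₂ (h' ▸ huS)
      · intro x hx hxr y hy hxy
        rcases d2 x (hS₂S hx) y hy hxy with h1 | h1 | h1
        · exact (d6 x h1.1 hx).elim
        · exact absurd (d7 x h1.1 hx) hxr
        · exact h1.2

end Pool.Agent.Run7.h855
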