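import Pool.Agent.Run7.h855.P3
import Pool.Agent.Run7.h855.Nec

/-! Sufficiency for the pairs with a star. -/

namespace Pool.Agent.Run7.h855

open Pool.Agent.H175R2

variable {V₁ V₂ : Type} {H₁ : SimpleGraph V₁} {H₂ : SimpleGraph V₂}

/-- `J r 1` contracts onto `J r 0` -/
lemma J1_J0 {r : ℕ} (hr : 1 ≤ r) : IsContraction (J r 1) (J r 0) := by
  let z : Fin r := ⟨0, hr⟩
  let f : Fin r ⊕ Fin 1 × Fin 2 → Fin r ⊕ Fin 0 × Fin 2 := fun x => match x with
    | .inl i => .inl i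
    | .inr _ => .inl z
  refine ⟨f, wit_of_center (G := J r 1) (H := J r 0) f (fun x => match x with
    | .inl i => .inl i
    | .inr p => p.1.elim0) ?_ ?_ ?_ ?_⟩
  · rintro (i | p)
    · rfl
    · exact p.1.elim0
  · rintro (i | p)
    · exact SimpleGraph.Reachable.refl _
    · apply SimpleGraph.Adj.reachable
      show (J r 1).Adj (.inr p) (.inl z)
      refine ⟨by simp, ?_⟩
      rintro ⟨i, a, b, -, h⟩
      exact absurd h (by simp)
  · intro x y hxy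
    by_cases h : f x = f y
    · exact Or.inl h
    · right
      refine ⟨h, ?_⟩
      rintro ⟨i, -⟩
      exact i.elim0
  · rintro (i | p) (j | q) h
    · refine ⟨.inl i, .inl j, rfl, rfl, ?_, ?_⟩
      · intro h'
        exact h.1 (by rw [Sum.inl.inj h'])
      · rintro ⟨i, a, b, h', -⟩
        exact absurd h' (by simp)
    · exact q.1.elim0
    · exact p.1.elim0
    · exact p.1.elim0

/-- well-quasi-ordering in terms of bag maps -/
lemma wqo_iff : Wqo H₁ H₂ ↔ ∀ (V : ℕ → Type) (_ : ∀ i, Finite (V i)) (G : ∀ i, SimpleGraph (V i)),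
    (∀ i, (G i).Connected ∧ ¬ IsContraction (G i) H₁ ∧ ¬ IsContraction (G i) H₂) →
      ∃ i j, i < j ∧ IsContraction (G j) (G i) := by
  constructor
  · intro h V hV G hG
    obtain ⟨i, j, hij, hc⟩ := h V hV G (fun i => by
      have := hV i
      rw [contracts_iff, contracts_iff]
      exact hG i)
    have := hV j
    rw [contracts_iff] at hc
    exact ⟨i, j, hij, hc⟩
  · intro h V hV G hG
    obtain ⟨i, j, hij, hc⟩ := h V hV G (fun i => by
      have := hV i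
      have := hG i
      rw [contracts_iff, contracts_iff] at this
      exact this)
    have := hV j
    refine ⟨i, j, hij, ?_⟩
    rw [contracts_iff]
    exact hc

/-- monotonicity -/
lemma Wqo.of_contr {W₁ W₂ : Type} {K₁ : SimpleGraph W₁} {K₂ : SimpleGraph W₂} (h : Wqo K₁ K₂)
    (h1 : IsContraction K₁ H₁) (h2 : IsContraction K₂ H₂) : Wqo H₁ H₂ := by
  rw [wqo_iff] at h ⊢
  intro V hV G hG
  exact h V hV G (fun i => ⟨(hG i).1, fun h' => (hG i).2.1 (h'.trans h1),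
    fun h' => (hG i).2.2 (h'.trans h2)⟩)

theorem wqo_P2 (s t : ℕ) (ht : 1 ≤ t) : Wqo (B 1 s) (J t 1) := by
  rw [wqo_iff]
  intro V hV G hG
  exact P2 s t ht V hV G hG

theorem wqo_P3 (r : ℕ) (hr : 1 ≤ r) : Wqo (B 1 3) (J r 2) := by
  rw [wqo_iff]
  intro V hV G hG
  exact P3 r hr V hV G hG

theorem wqo_star {q r m : ℕ} (hr : 1 ≤ r) (h1 : Nonempty (H₁ ≃g B 1 q))
    (h2 : Nonempty (H₂ ≃g J r m)) (hm : m ≤ 1 ∨ (m = 2 ∧ q = 3)) : Wqo H₁ H₂ := by
  obtain ⟨e1⟩ := h1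
  obtain ⟨e2⟩ := h2
  rcases hm with hm | ⟨rfl, rfl⟩
  · have hm' : m = 0 ∨ m = 1 := by omega
    rcases hm' with rfl | rfl
    · exact (wqo_P2 q r hr).of_contr (IsContraction.of_iso e1.symm)
        ((J1_J0 hr).trans (IsContraction.of_iso e2.symm))
    · exact (wqo_P2 q r hr).of_contr (IsContraction.of_iso e1.symm) (IsContraction.of_iso e2.symm)
  · exact (wqo_P3 r hr).of_contr (IsContraction.of_iso e1.symm) (IsContraction.of_iso e2.symm)

/-- the pairs with a star -/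
def StarPair {V W : Type} (H : SimpleGraph V) (H' : SimpleGraph W) : Prop :=
  ∃ q r m : ℕ, 3 ≤ q ∧ 1 ≤ r ∧ Nonempty (H ≃g B 1 q) ∧ Nonempty (H' ≃g J r m) ∧
    (m ≤ 1 ∨ (m = 2 ∧ q = 3))

/-- the pairs `(K_{1,1,q}, K₄)` -/
def BookPair {V W : Type} (H : SimpleGraph V) (H' : SimpleGraph W) : Prop :=
  ∃ q : ℕ, 3 ≤ q ∧ Nonempty (H ≃g B 2 q) ∧ Nonempty (H' ≃g J 4 0)

theorem classification1 (h1 : ¬ Small H₁) (h2 : ¬ Small H₂) (h3 : ¬ BookPair H₁ H₂)
    (h4 : ¬ BookPair H₂ H₁) : Wqo H₁ H₂ ↔ StarPair H₁ H₂ ∨ StarPair H₂ H₁ := by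
  constructor
  · intro h
    rcases necessity h with h | h | ⟨q, hq, h | h⟩ | ⟨q, hq, h | h⟩
    · exact absurd h h1
    · exact absurd h h2
    · exact absurd ⟨q, hq, h.1, h.2⟩ h3
    · obtain ⟨h5, r, m, h6, h7, h8⟩ := h
      exact Or.inl ⟨q, r, m, hq, h6, h5, h7, h8⟩
    · exact absurd ⟨q, hq, h.1, h.2⟩ h4
    · obtain ⟨h5, r, m, h6, h7, h8⟩ := h
      exact Or.inr ⟨q, r, m, hq, h6, h5, h7, h8⟩
  · rintro (⟨q, r, m, hq, hr, h5, h6, h7⟩ | ⟨q, r, m, hq, hr, h5, h6, h7⟩)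
    · exact wqo_star hr h5 h6 h7
    · exact (wqo_star hr h5 h6 h7).symm

end Pool.Agent.Run7.h855
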