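import Pool.Agent.Run7.h855.Outer
import Pool.Agent.Run7.h855.Suf1

/-! `C(K_{1,1,q}, K₄)` is well-quasi-ordered. -/

namespace Pool.Agent.Run7.h855

open Pool.Agent.H175R2 Finset Classical

variable {V W : Type} {G : SimpleGraph V} {H : SimpleGraph W}

/-- an induced model of `H` in `G`, possibly with uncovered vertices -/
def Mdl (G : SimpleGraph V) (H : SimpleGraph W) (X : W → Finset V) : Prop :=
  (∀ w, Cn G (X w)) ∧ ∀ w w', w ≠ w' → Disjoint (X w) (X w') ∧ (H.Adj w w' ↔ Tc G (X w) (X w'))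

lemma Mdl.contr [Fintype V] {X : W → Finset V} (h : Mdl G H X)
    (hc : ∀ v, ∃ w, v ∈ X w) : IsContraction G H := by
  choose f hf using hc
  have hfw : ∀ v w, f v = w ↔ v ∈ X w := by
    intro v w
    constructor
    · rintro rfl; exact hf v
    · intro hv
      by_contra hne
      exact (disjoint_left.1 (h.2 _ _ hne).1) (hf v) hv
  refine ⟨f, wit_of_cn (f := f) (H := H) ?_ ?_⟩
  · intro w
    have : univ.filter (fun v => f v = w) = X w := by
      ext v; simp [hfw]
    rw [this]; exact h.1 w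
  · intro w w' hne
    rw [(h.2 w w' hne).2]
    constructor
    · rintro ⟨x, hx, y, hy, hxy⟩
      exact ⟨x, y, (hfw _ _).2 hx, (hfw _ _).2 hy, hxy⟩
    · rintro ⟨x, y, hx, hy, hxy⟩
      exact ⟨x, (hfw _ _).1 hx, y, (hfw _ _).1 hy, hxy⟩

lemma Mdl.upd {X : W → Finset V} (h : Mdl G H X) {w₀ : W} {y : V} (hy : ∀ w, y ∉ X w)
    (hadj : Tc G {y} (X w₀)) (hw : ∀ w, w ≠ w₀ → Tc G {y} (X w) → H.Adj w₀ w) :
    Mdl G H (Function.update X w₀ (X w₀ ∪ {y})) := by
  have e1 : Function.update X w₀ (X w₀ ∪ {y}) w₀ = X w₀ ∪ {y} := Function.update_self _ _ _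
  have e2 : ∀ w, w ≠ w₀ → Function.update X w₀ (X w₀ ∪ {y}) w = X w :=
    fun w hw => Function.update_of_ne hw _ _
  refine ⟨fun w => ?_, ?_⟩
  · by_cases h1 : w = w₀
    · rw [h1, e1]
      exact (h.1 w₀).union (Cn.singleton y) (Or.inl hadj.symm)
    · rw [e2 w h1]; exact h.1 w
  · have half : ∀ w, w₀ ≠ w → Disjoint (X w₀ ∪ {y}) (X w) ∧
        (H.Adj w₀ w ↔ Tc G (X w₀ ∪ {y}) (X w)) := by
      intro w hne
      refine ⟨?_, ?_⟩
      · rw [disjoint_union_left]
        exact ⟨(h.2 _ _ hne).1, by simpa using hy w⟩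
      · rw [Tc.union_left, (h.2 _ _ hne).2]
        constructor
        · exact Or.inl
        · rintro (h1 | h1)
          · exact h1
          · exact (h.2 _ _ hne).2.1 (hw w hne.symm h1)
    intro w w' hne
    by_cases h1 : w = w₀
    · subst h1
      rw [e1, e2 w' hne.symm]
      exact half w' hne
    · by_cases h2 : w' = w₀
      · subst h2
        rw [e1, e2 w hne]
        obtain ⟨h3, h4⟩ := half w hne.symm
        exact ⟨h3.symm, by rw [SimpleGraph.adj_comm, h4, Tc.comm]⟩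
      · rw [e2 w h1, e2 w' h2]
        exact h.2 w w' hne

lemma Mdl.cover [Fintype V] (hG : Cn G univ) [Nonempty W]
    (step : ∀ X, Mdl G H X → ∀ y, (∀ w, y ∉ X w) → (∃ w, Tc G {y} (X w)) →
      ∃ w₀, Tc G {y} (X w₀) ∧ ∀ w, w ≠ w₀ → Tc G {y} (X w) → H.Adj w₀ w) (n : ℕ) :
    ∀ X : W → Finset V, Mdl G H X → (univ.filter (fun v => ∀ w, v ∉ X w)).card = n →
      IsContraction G H := by
  induction n using Nat.strong_induction_on with
  | _ n ih =>
    intro X h hn
    by_cases hc : ∀ v, ∃ w, v ∈ X w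
    · exact h.contr hc
    · push Not at hc
      obtain ⟨v, hv⟩ := hc
      obtain ⟨w1⟩ := (inferInstance : Nonempty W)
      obtain ⟨x1, hx1⟩ := (h.1 w1).1
      obtain ⟨x, hx, y, hy, hxy⟩ := hG.2 (univ.filter (fun v => ∃ w, v ∈ X w)) (subset_univ _)
        ⟨x1, mem_filter.2 ⟨mem_univ _, w1, hx1⟩⟩ ⟨v, by
          rw [mem_sdiff, mem_filter]
          refine ⟨mem_univ _, ?_⟩
          rintro ⟨-, w, hw⟩
          exact hv w hw⟩
      obtain ⟨-, w2, hx2⟩ := mem_filter.1 hx
      have hy' : ∀ w, y ∉ X w := by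
        intro w hw
        exact (mem_sdiff.1 hy).2 (mem_filter.2 ⟨mem_univ _, w, hw⟩)
      obtain ⟨w₀, hw₀, hw₀'⟩ := step X h y hy' ⟨w2, y, by simp, x, hx2, hxy.symm⟩
      refine ih _ ?_ _ (h.upd hy' hw₀ hw₀') rfl
      rw [← hn]
      apply card_lt_card
      refine ⟨?_, ?_⟩
      · intro z hz
        obtain ⟨-, hz⟩ := mem_filter.1 hz
        refine mem_filter.2 ⟨mem_univ _, fun w hzw => ?_⟩
        have := hz w
        by_cases h1 : w = w₀
        · subst h1
          rw [Function.update_self] at this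
          exact this (mem_union_left _ hzw)
        · rw [Function.update_of_ne h1] at this
          exact this hzw
      · intro hsub
        have := hsub (mem_filter.2 ⟨mem_univ y, hy'⟩)
        obtain ⟨-, h3⟩ := mem_filter.1 this
        have h4 := h3 w₀
        rw [Function.update_self] at h4
        exact h4 (by simp)

lemma noK4_of [Fintype V] (hG : Cn G univ) (h : ¬ IsContraction G (J 4 0)) : NoK4 G univ := by
  rintro ⟨A, B', C, E, h1, h2, h3, h4, -, -, -, -, h5, h6, h7, h8, h9, h10, h11, h12, h13, h14,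
    h15, h16⟩
  apply h
  have hJ : ∀ w w' : Fin 4 ⊕ Fin 0 × Fin 2, w ≠ w' → (J 4 0).Adj w w' := by
    intro w w' hne
    refine ⟨hne, ?_⟩
    rintro ⟨i, -⟩
    exact i.elim0
  let X : Fin 4 ⊕ Fin 0 × Fin 2 → Finset V := Sum.elim ![A, B', C, E] (fun p => p.1.elim0)
  have hX : Mdl G (J 4 0) X := by
    refine ⟨?_, ?_⟩
    · rintro (i | ⟨i, -⟩)
      · fin_cases i
        · exact h1
        · exact h2
        · exact h3
        · exact h4
      · exact i.elim0
    · intro w w' hne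
      suffices hs : Disjoint (X w) (X w') ∧ Tc G (X w) (X w') from
        ⟨hs.1, fun _ => hs.2, fun _ => hJ _ _ hne⟩
      rcases w with (i | ⟨i, -⟩)
      · rcases w' with (j | ⟨j, -⟩)
        · have key : ∀ i j : Fin 4, i < j → Disjoint (X (.inl i)) (X (.inl j)) ∧
              Tc G (X (.inl i)) (X (.inl j)) := by
            intro i j hij
            fin_cases i <;> fin_cases j <;> first
              | exact absurd hij (by decide)
              | exact ⟨h5, h11⟩
              | exact ⟨h6, h12.symm⟩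
              | exact ⟨h7, h14.symm⟩
              | exact ⟨h8, h13.symm⟩
              | exact ⟨h9, h15.symm⟩
              | exact ⟨h10, h16⟩
          have hij : i ≠ j := fun h' => hne (by rw [h'])
          rcases lt_or_gt_of_ne hij with h' | h'
          · exact key i j h'
          · exact ⟨(key j i h').1.symm, (key j i h').2.symm⟩
        · exact j.elim0
      · exact i.elim0
  refine Mdl.cover hG ?_ _ X hX rfl
  intro X _ y _ hy
  obtain ⟨w, hw⟩ := hy
  exact ⟨w, hw, fun w' hne _ => hJ _ _ hne.symm⟩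

lemma noBook_of [Fintype V] (hG : Cn G univ) {q : ℕ} (h4 : NoK4 G univ)
    (h : ¬ IsContraction G (B 2 q)) : NoBook q G univ := by
  rintro ⟨A, B', F, h1, h2, -, -, h5, h6, h7, h8⟩
  apply h
  let X : Fin 2 ⊕ Fin q → Finset V := Sum.elim ![A, B'] F
  have aRR : ∀ i j : Fin q, ¬ (B 2 q).Adj (.inr i) (.inr j) := by
    intro i j h'
    exact h'.2 ⟨⟨i, rfl⟩, ⟨j, rfl⟩⟩
  have aL : ∀ (i : Fin 2) (w : Fin 2 ⊕ Fin q), w ≠ .inl i → (B 2 q).Adj (.inl i) w := by
    intro i w hne
    refine ⟨hne.symm, ?_⟩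
    rintro ⟨⟨j, hj⟩, -⟩
    exact absurd hj (by simp)
  have hX : Mdl G (B 2 q) X := by
    refine ⟨?_, ?_⟩
    · rintro (i | i)
      · fin_cases i
        · exact h1
        · exact h2
      · exact (h7 i).2.1
    · have k1 : Disjoint (X (.inl 0)) (X (.inl 1)) ∧ Tc G (X (.inl 0)) (X (.inl 1)) := ⟨h5, h6⟩
      have k2 : ∀ j, Disjoint (X (.inl 0)) (X (.inr j)) ∧ Tc G (X (.inl 0)) (X (.inr j)) :=
        fun j => ⟨(h7 j).2.2.1.symm, (h7 j).2.2.2.2.1.symm⟩
      have k3 : ∀ j, Disjoint (X (.inl 1)) (X (.inr j)) ∧ Tc G (X (.inl 1)) (X (.inr j)) :=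
        fun j => ⟨(h7 j).2.2.2.1.symm, (h7 j).2.2.2.2.2.symm⟩
      have k : ∀ (i : Fin 2) (w : Fin 2 ⊕ Fin q), w ≠ .inl i →
          Disjoint (X (.inl i)) (X w) ∧ Tc G (X (.inl i)) (X w) := by
        intro i w hne
        rcases w with (j | j)
        · fin_cases i <;> fin_cases j
          · exact absurd rfl hne
          · exact k1
          · exact ⟨k1.1.symm, k1.2.symm⟩
          · exact absurd rfl hne
        · fin_cases i
          · exact k2 j
          · exact k3 j
      intro w w' hne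
      rcases w with (i | i)
      · exact ⟨(k i w' hne.symm).1, fun _ => (k i w' hne.symm).2, fun _ => aL i w' hne.symm⟩
      · rcases w' with (j | j)
        · exact ⟨(k j _ hne).1.symm, fun _ => (k j _ hne).2.symm, fun _ => (aL j _ hne).symm⟩
        · have hij : i ≠ j := fun h' => hne (by rw [h'])
          exact ⟨(h8 i j hij).1, fun h' => absurd h' (aRR i j), fun h' => absurd h' (h8 i j hij).2⟩
  refine Mdl.cover hG ?_ _ X hX rfl
  intro X hX y hyX hy
  by_cases c0 : Tc G {y} (X (.inl 0))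
  · exact ⟨_, c0, fun w hw _ => aL 0 w hw⟩
  by_cases c1 : Tc G {y} (X (.inl 1))
  · exact ⟨_, c1, fun w hw _ => aL 1 w hw⟩
  obtain ⟨w, hw⟩ := hy
  rcases w with (i | i)
  · exfalso
    fin_cases i
    · exact c0 hw
    · exact c1 hw
  refine ⟨_, hw, ?_⟩
  rintro (j | j) hne hj
  · exact (aL j _ hne.symm).symm
  · exfalso
    have hadj : ∀ (a : Fin 2) (w : Fin 2 ⊕ Fin q), w ≠ .inl a →
        Disjoint (X (.inl a)) (X w) ∧ Tc G (X (.inl a)) (X w) := by
      intro a w hne
      exact ⟨(hX.2 _ _ hne.symm).1, (hX.2 _ _ hne.symm).2.1 (aL a w hne)⟩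
    have hy' : ∀ w, Disjoint {y} (X w) := by
      intro w
      rw [disjoint_singleton_left]
      exact hyX w
    refine h4 ⟨X (.inl 0), X (.inl 1), X (.inr i) ∪ {y}, X (.inr j), hX.1 _, hX.1 _, ?_, hX.1 _,
      subset_univ _, subset_univ _, subset_univ _, subset_univ _, (hadj 0 _ (by simp)).1, ?_,
      (hadj 0 _ (by simp)).1, ?_, (hadj 1 _ (by simp)).1, ?_, (hadj 0 _ (by simp)).2, ?_, ?_,
      (hadj 0 _ (by simp)).2.symm, (hadj 1 _ (by simp)).2.symm, ?_⟩
    · exact (hX.1 _).union (Cn.singleton y) (Or.inl hw.symm)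
    · rw [disjoint_union_right]
      exact ⟨(hadj 0 _ (by simp)).1, (hy' _).symm⟩
    · rw [disjoint_union_right]
      exact ⟨(hadj 1 _ (by simp)).1, (hy' _).symm⟩
    · rw [disjoint_union_left]
      exact ⟨(hX.2 _ _ hne.symm).1, hy' _⟩
    · exact (hadj 0 _ (by simp)).2.symm.mono subset_union_left (Subset.refl _)
    · exact (hadj 1 _ (by simp)).2.symm.mono subset_union_left (Subset.refl _)
    · exact hj.mono subset_union_right (Subset.refl _)

theorem wqo_P1 (q : ℕ) (hq : 1 ≤ q) : Wqo (B 2 q) (J 4 0) := by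
  rw [wqo_iff]
  intro V hV G hG
  have hF : ∀ i, Fintype (V i) := fun i => Fintype.ofFinite _
  have hne : ∀ i, Nonempty (V i) := fun i => (hG i).1.nonempty
  choose r _ using fun i => (⟨Classical.choice (hne i), trivial⟩ : ∃ _ : V i, True)
  let P : ℕ → Ob := fun i => ⟨V i, G i, univ, r i, r i, False⟩
  have hP : ∀ i, P i ∈ Rt q := by
    intro i
    have h1 := cn_univ (hG i).1
    have h2 := noK4_of h1 (hG i).2.2
    exact ⟨rfl, mem_univ _, h1, h2, noBook_of h1 h2 (hG i).2.1⟩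
  have hw := rooted_pwo q hq
  rw [Set.partiallyWellOrderedOn_iff_exists_lt] at hw
  obtain ⟨a, b, hab, φ, -, -, h3⟩ := hw P hP
  refine ⟨a, b, hab, φ, ?_⟩
  rw [gr_eq, gr_eq] at h3
  have h4 : CM (tgr (G b) (r b) (r b) False) univ (tgr (G a) (r a) (r a) False) univ φ := h3
  rw [tgr_self, tgr_self] at h4
  refine wit_of_cn (f := φ) (H := G a) ?_ ?_
  · intro w
    convert h4.cn w (mem_univ _)
  · intro w w' hne
    rw [h4.adj w (mem_univ _) w' (mem_univ _) hne]
    constructor
    · rintro ⟨x, -, y, -, h⟩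
      exact ⟨x, y, h⟩
    · rintro ⟨x, y, h⟩
      exact ⟨x, mem_univ _, y, mem_univ _, h⟩

end Pool.Agent.Run7.h855
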