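import Pool.Agent.Run7.h855.Cliq

/-! `C(K_{1,s}, K_{t+2} - e)` is well-quasi-ordered. -/

namespace Pool.Agent.Run7.h855

open Pool.Agent.H175R2 Finset Classical

variable {V : Type} {G : SimpleGraph V} {X D : Finset V}

/-- many disjoint induced paths with cliques of ends give `J t 1` -/
lemma contr_J1 [Fintype V] {C : Finset V} (hC : Cn G C)
    (hdom : ∀ v, v ∉ C → ∃ c ∈ C, G.Adj v c) {t : ℕ} (ht : 1 ≤ t) (p : Fin t → V × V × V)
    (hp : ∀ i, IsP3 G Cᶜ (p i)) (hdisj : ∀ i j, i ≠ j → Disjoint (sp (p i)) (sp (p j)))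
    (ha : ∀ i j, i ≠ j → G.Adj (p i).1 (p j).1) (hc : ∀ i j, i ≠ j → G.Adj (p i).2.2 (p j).2.2) :
    IsContraction G (J t 1) := by
  let z : Fin t := ⟨0, ht⟩
  let β : Fin t ⊕ Fin 1 × Fin 2 → Finset V := fun w => match w with
    | .inl i => sp (p i)
    | .inr (_, a) => if a = 0 then {(p z).1} else {(p z).2.2}
  have hspC : ∀ i, Disjoint (sp (p i)) C := by
    intro i
    rw [disjoint_left]
    intro v hv
    obtain ⟨h1, h2, h3, -⟩ := hp i
    simp only [sp, mem_insert, mem_singleton] at hv
    rcases hv with rfl | rfl | rfl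
    · exact mem_compl.1 h1
    · exact mem_compl.1 h2
    · exact mem_compl.1 h3
  have hsub : ∀ (k : Fin 1) (a : Fin 2), β (.inr (k, a)) ⊆ sp (p z) := by
    intro k a
    show (if a = 0 then {(p z).1} else {(p z).2.2} : Finset V) ⊆ _
    split_ifs <;> simp [sp]
  refine contr_center hC hdom (H := J t 1) (.inl z) ?_ β ?_ ?_ ?_ ?_
  · intro w hw
    refine ⟨Ne.symm hw, ?_⟩
    rintro ⟨i, a, b, h, -⟩
    exact absurd h (by simp)
  · rintro (i | ⟨k, a⟩) _
    · exact (hp i).cn
    · show Cn G (if a = 0 then {(p z).1} else {(p z).2.2})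
      split_ifs <;> exact Cn.singleton _
  · rintro (i | ⟨k, a⟩) _
    · exact hspC i
    · exact (hspC z).mono_left (hsub k a)
  · rintro (i | ⟨k, a⟩) (j | ⟨l, b⟩) hw hw' hne
    · exact hdisj i j (fun h => hne (by rw [h]))
    · exact (hdisj i z (fun h => hw (by rw [h]))).mono_right (hsub l b)
    · exact (hdisj z j (fun h => hw' (by rw [h]))).mono_left (hsub k a)
    · have hab : a ≠ b := by
        rintro rfl
        exact hne (by rw [Subsingleton.elim k l])
      have h1 := (hp z).2.2.2.2.2.1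
      show Disjoint (if a = 0 then {(p z).1} else {(p z).2.2} : Finset V)
        (if b = 0 then {(p z).1} else {(p z).2.2} : Finset V)
      by_cases ha0 : a = 0 <;> by_cases hb0 : b = 0
      · exact absurd (ha0.trans hb0.symm) hab
      · simp only [ha0, hb0, if_true, if_false, disjoint_singleton]; exact h1
      · simp only [ha0, hb0, if_true, if_false, disjoint_singleton]; exact Ne.symm h1
      · omega
  · rintro (i | ⟨k, a⟩) (j | ⟨l, b⟩) hw hw' hne
    · have hij : i ≠ j := fun h => hne (by rw [h])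
      constructor
      · intro _
        exact ⟨(p i).1, by simp [β, sp], (p j).1, by simp [β, sp], ha i j hij⟩
      · intro _
        refine ⟨hne, ?_⟩
        rintro ⟨i, a, b, h, -⟩
        exact absurd h (by simp)
    · have hij : i ≠ z := fun h => hw (by rw [h])
      constructor
      · intro _
        by_cases hb0 : b = 0
        · exact ⟨(p i).1, by simp [β, sp], (p z).1, by simp [β, hb0], ha i z hij⟩
        · exact ⟨(p i).2.2, by simp [β, sp], (p z).2.2, by simp [β, hb0], hc i z hij⟩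
      · intro _
        refine ⟨hne, ?_⟩
        rintro ⟨i, a, b, h, -⟩
        exact absurd h (by simp)
    · have hij : z ≠ j := fun h => hw' (by rw [h])
      constructor
      · intro _
        by_cases ha0 : a = 0
        · exact ⟨(p z).1, by simp [β, ha0], (p j).1, by simp [β, sp], ha z j hij⟩
        · exact ⟨(p z).2.2, by simp [β, ha0], (p j).2.2, by simp [β, sp], hc z j hij⟩
      · intro _
        refine ⟨hne, ?_⟩
        rintro ⟨i, a, b, -, h⟩
        exact absurd h (by simp)
    · have hab : a ≠ b := by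
        rintro rfl
        exact hne (by rw [Subsingleton.elim k l])
      constructor
      · rintro ⟨-, h⟩
        exact absurd ⟨k, a, b, rfl, by rw [Subsingleton.elim l k]⟩ h
      · intro h
        exfalso
        have h1 := (hp z).2.2.2.2.2.2
        obtain ⟨x, hx, y, hy, hxy⟩ := h
        by_cases ha0 : a = 0 <;> by_cases hb0 : b = 0
        · exact hab (ha0.trans hb0.symm)
        · simp only [β, ha0, hb0, if_true, if_false, mem_singleton] at hx hy
          subst hx hy
          exact h1 hxy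
        · simp only [β, ha0, hb0, if_true, if_false, mem_singleton] at hx hy
          subst hx hy
          exact h1 hxy.symm
        · omega

/-- in a graph without `K_{1,s}` and `J t 1`, the number of disjoint induced paths is bounded -/
lemma fam_bound (s t : ℕ) (ht : 1 ≤ t) : ∃ R : ℕ, ∀ (V : Type) [Fintype V] (G : SimpleGraph V)
    (C : Finset V), Cn G C → (∀ v, v ∉ C → ∃ c ∈ C, G.Adj v c) → NoStar G s →
    ¬ IsContraction G (J t 1) → ∀ F : Finset (V × V × V), (∀ p ∈ F, IsP3 G Cᶜ p) →
    (∀ p ∈ F, ∀ q ∈ F, p ≠ q → Disjoint (sp p) (sp q)) → F.card < R := by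
  obtain ⟨R1, hR1⟩ := ramsey s t
  obtain ⟨R2, hR2⟩ := ramsey s R1
  refine ⟨R2, ?_⟩
  intro V _ G C hC hdom hs hJ F hF hdisj
  by_contra hcon
  rw [not_lt] at hcon
  -- independent families of images
  have hind : ∀ (g : V × V × V → V), (∀ p, g p ∈ sp p) → ∀ U ⊆ F, U.card = s →
      (∀ i ∈ U, ∀ j ∈ U, i ≠ j → ¬ G.Adj (g i) (g j)) → False := by
    intro g hg U hUF hUc hU
    have hinj : Set.InjOn g U := by
      intro i hi j hj hij
      by_contra hne
      exact disjoint_left.1 (hdisj i (hUF hi) j (hUF hj) hne) (hg i) (hij ▸ hg j)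
    have h1 : (U.image g).card = s := by rw [card_image_of_injOn hinj, hUc]
    have h2 := alpha_of hC hdom hs (U := U.image g) (by
      intro u hu v hv
      obtain ⟨i, hi, rfl⟩ := mem_image.1 hu
      obtain ⟨j, hj, rfl⟩ := mem_image.1 hv
      by_cases hij : i = j
      · rw [hij]; exact fun h => h.ne rfl
      · exact hU i hi j hj hij) (by
      intro v hv
      obtain ⟨i, hi, rfl⟩ := mem_image.1 hv
      have h3 := hg i
      obtain ⟨h4, h5, h6, -⟩ := hF i (hUF hi)
      simp only [sp, mem_insert, mem_singleton] at h3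
      rcases h3 with h3 | h3 | h3 <;> rw [h3] <;> assumption)
    omega
  rcases hR2 (V × V × V) (fun p q => G.Adj p.1 q.1) (fun _ _ h => h.symm) F hcon with
    ⟨U, hUF, hUc, hU⟩ | ⟨U, hUF, hUc, hU⟩
  · exact hind (fun p => p.1) (fun p => by simp [sp]) U hUF hUc hU
  rcases hR1 (V × V × V) (fun p q => G.Adj p.2.2 q.2.2) (fun _ _ h => h.symm) U hUc.ge with
    ⟨U', hU'U, hU'c, hU'⟩ | ⟨U', hU'U, hU'c, hU'⟩
  · exact hind (fun p => p.2.2) (fun p => by simp [sp]) U' (hU'U.trans hUF) hU'c hU'
  · apply hJ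
    have ecard : Fintype.card {x // x ∈ U'} = Fintype.card (Fin t) := by simp [hU'c]
    let e : {x // x ∈ U'} ≃ Fin t := Fintype.equivOfCardEq ecard
    have hne : ∀ i j, i ≠ j → (e.symm i).1 ≠ (e.symm j).1 := fun i j hij h =>
      hij (e.symm.injective (Subtype.ext h))
    refine contr_J1 hC hdom ht (fun i => (e.symm i).1) ?_ ?_ ?_ ?_
    · intro i
      exact hF _ (hUF (hU'U (e.symm i).2))
    · intro i j hij
      exact hdisj _ (hUF (hU'U (e.symm i).2)) _ (hUF (hU'U (e.symm j).2)) (hne i j hij)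
    · intro i j hij
      exact hU _ (hU'U (e.symm i).2) _ (hU'U (e.symm j).2) (hne i j hij)
    · intro i j hij
      exact hU' _ (e.symm i).2 _ (e.symm j).2 (hne i j hij)

theorem P2 (s t : ℕ) (ht : 1 ≤ t) (V : ℕ → Type) (hV : ∀ i, Finite (V i))
    (G : ∀ i, SimpleGraph (V i)) (hG : ∀ i, (G i).Connected ∧ ¬ IsContraction (G i) (B 1 s) ∧
      ¬ IsContraction (G i) (J t 1)) : ∃ i j, i < j ∧ IsContraction (G j) (G i) := by
  obtain ⟨R, hR⟩ := fam_bound s t ht
  apply mod_wqo' (bd s + R * 3) s (fun _ => True) V G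
  intro i
  have := Fintype.ofFinite (V i)
  obtain ⟨hconn, hB, hJ⟩ := hG i
  have hs := noStar_of hconn hB
  obtain ⟨X, D, hstr, hXc, hcn, hdom⟩ := exists_str hconn hs
  obtain ⟨F, hF1, hF2, hF3⟩ := max_fam (G i) (X ∪ D)ᶜ
  have hFR := hR (V i) (G i) (X ∪ D) hcn hdom hs hJ F hF1 hF2
  have hspW : ∀ p ∈ F, ∀ v ∈ sp p, v ∉ X ∪ D := by
    intro p hp v hv
    obtain ⟨h4, h5, h6, -⟩ := hF1 p hp
    simp only [sp, mem_insert, mem_singleton] at hv
    rcases hv with rfl | rfl | rfl
    · exact mem_compl.1 h4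
    · exact mem_compl.1 h5
    · exact mem_compl.1 h6
  have hdisj : Disjoint (X ∪ F.biUnion sp) D := by
    rw [disjoint_union_left]
    refine ⟨hstr.disj, ?_⟩
    rw [disjoint_left]
    intro v hv hvD
    obtain ⟨p, hp, hvp⟩ := mem_biUnion.1 hv
    exact hspW p hp v hvp (mem_union_right _ hvD)
  have hstr' := hstr.enlarge (X' := X ∪ F.biUnion sp) subset_union_left hdisj
  have hW : ((X ∪ F.biUnion sp) ∪ D)ᶜ = (X ∪ D)ᶜ \ F.biUnion sp := by
    ext v
    simp only [mem_compl, mem_union, mem_sdiff, not_or]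
    tauto
  refine ⟨(X ∪ F.biUnion sp).card, ?_, ?_⟩
  · have h1 := card_union_le X (F.biUnion sp)
    have h2 : (F.biUnion sp).card ≤ F.card * 3 :=
      card_biUnion_le_card_mul _ _ _ (fun p _ => sp_card p)
    omega
  · apply modP_cliques hconn hstr'
    · intro p hp
      rw [hW] at hp
      exact hF3 p hp
    · intro U hU hUW
      have := alpha_of hcn hdom hs hU (hUW.trans (by
        rw [hW]; exact sdiff_subset))
      omega

end Pool.Agent.Run7.h855
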