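import Pool.Agent.Run7.h855.P3a

/-! `C(K_{1,3}, K_r * C_4)` is well-quasi-ordered. -/

namespace Pool.Agent.Run7.h855

open Pool.Agent.H175R2 Finset Classical

variable {V : Type} {G : SimpleGraph V} {X D : Finset V}

/-- the three consecutive indices -/
def T5 (i k : Fin 5) : Bool := decide (k = i - 1) || decide (k = i) || decide (k = i + 1)

/-- adjacency of the six classes -/
def d5 (a b : Fin 6) : Bool := decide (a.val = 5) || decide (b.val = 5) || decide (a = b) ||
  decide ((a.val + 1) % 5 = b.val) || decide ((b.val + 1) % 5 = a.val)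

lemma types5 : ∀ b : Fin 5 → Bool, (∀ i, b i = true ∨ b (i + 2) = true) →
    (∀ i, b (i - 1) = true → b (i + 1) = true → b i = true) →
    (∀ i, b i = true) ∨ ∃ i, ∀ k, b k = T5 i k := by
  decide

lemma d5_lem1 : ∀ i j : Fin 5, d5 i.castSucc j.castSucc = true →
    ∃ k, T5 i k = false ∧ T5 j k = false := by decide

lemma d5_lem2 : ∀ i j : Fin 5, d5 i.castSucc j.castSucc = false →
    ∃ k, (T5 i k = true ∧ T5 i (k + 1) = false ∧ T5 j (k + 1) = true ∧ T5 j k = false) ∨
      (T5 j k = true ∧ T5 j (k + 1) = false ∧ T5 i (k + 1) = true ∧ T5 i k = false) := by decide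

lemma d5_refl : ∀ i, d5 i i = true := by decide
lemma d5_symm : ∀ i j, d5 i j = true → d5 j i = true := by decide

/-- the case with an induced five-cycle -/
lemma modP_c5 [Fintype V] (hG : G.Connected) (h : Str G X D) (hW : C4F G (X ∪ D)ᶜ)
    {c : Fin 5 → V} (hc : IsC5 G (X ∪ D)ᶜ c) : ModP X.card 6 (fun i => i = 0) G := by
  set W := (X ∪ D)ᶜ with hWd
  obtain ⟨hcW, hc1, hc2, hc3⟩ := hc
  let b : V → Fin 5 → Bool := fun w k => decide (w = c k ∨ G.Adj w (c k))
  have hb : ∀ w k, b w k = true ↔ (w = c k ∨ G.Adj w (c k)) := fun w k => by simp [b]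
  have hb' : ∀ w k, b w k = false ↔ (w ≠ c k ∧ ¬ G.Adj w (c k)) := fun w k => by
    simp [b, not_or]
  have e1 : ∀ k : Fin 5, k - 1 + 1 = k := by decide
  have e2 : ∀ k : Fin 5, k - 1 + 2 = k + 1 := by decide
  have n1 : ∀ w ∈ W, ∀ i, b w i = true ∨ b w (i + 2) = true := by
    intro w hw i
    by_contra hcon
    push Not at hcon
    simp only [ne_eq, Bool.not_eq_true, hb'] at hcon
    exact hW.alpha w hw (c i) (hcW _) (c (i + 2)) (hcW _) hcon.1.1 (hc3 i) hcon.2.1 hcon.1.2
      (hc2 i) hcon.2.2
  have n2 : ∀ w ∈ W, ∀ i, b w (i - 1) = true → b w (i + 1) = true → b w i = true := by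
    intro w hw i h1 h2
    by_contra hcon
    simp only [Bool.not_eq_true, hb'] at hcon
    rw [hb] at h1 h2
    have a1 : G.Adj (c (i - 1)) (c i) := by
      have := hc1 (i - 1)
      rwa [e1] at this
    have a2 : G.Adj w (c (i - 1)) := by
      rcases h1 with h1 | h1
      · exact absurd (h1 ▸ a1) hcon.2
      · exact h1
    have a3 : G.Adj w (c (i + 1)) := by
      rcases h2 with h2 | h2
      · exact absurd (h2 ▸ (hc1 i).symm) hcon.2
      · exact h2
    have a4 : c (i - 1) ≠ c (i + 1) := by have := hc3 (i - 1); rwa [e2] at this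
    have a5 : ¬ G.Adj (c (i - 1)) (c (i + 1)) := by have := hc2 (i - 1); rwa [e2] at this
    exact hW.c4 w hw (c (i - 1)) (hcW _) (c i) (hcW _) (c (i + 1)) (hcW _) a2 a1 (hc1 i) a3.symm
      hcon.1 a4 hcon.2 a5
  have hty : ∀ w : V, ∃ t : Fin 6, w ∈ W → (t = 5 ∧ ∀ k, b w k = true) ∨
      ∃ i : Fin 5, t = i.castSucc ∧ ∀ k, b w k = T5 i k := by
    intro w
    by_cases hw : w ∈ W
    · rcases types5 (b w) (n1 w hw) (n2 w hw) with h1 | ⟨i, h1⟩
      · exact ⟨5, fun _ => Or.inl ⟨rfl, h1⟩⟩
      · exact ⟨i.castSucc, fun _ => Or.inr ⟨i, rfl, h1⟩⟩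
    · exact ⟨0, fun h => absurd h hw⟩
  choose ty hty using hty
  have N1 : ∀ w ∈ W, ∀ w' ∈ W, w ≠ w' → ¬ G.Adj w w' → ∀ k, b w k = true ∨ b w' k = true := by
    intro w hw w' hw' hne hadj k
    by_contra hcon
    push Not at hcon
    simp only [ne_eq, Bool.not_eq_true, hb'] at hcon
    exact hW.alpha w hw w' hw' (c k) (hcW _) hne hcon.2.1 hcon.1.1 hadj hcon.2.2 hcon.1.2
  have hreal : ∀ w k, b w k = true → b w (k + 2) = true → G.Adj w (c k) ∧ G.Adj w (c (k + 2)) := by
    intro w k h1 h2
    rw [hb] at h1 h2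
    constructor
    · rcases h1 with h1 | h1
      · exfalso
        subst h1
        rcases h2 with h2 | h2
        · exact hc3 k h2
        · exact hc2 k h2
      · exact h1
    · rcases h2 with h2 | h2
      · exfalso
        subst h2
        rcases h1 with h1 | h1
        · exact hc3 k h1.symm
        · exact hc2 k h1.symm
      · exact h2
  have N2 : ∀ w ∈ W, ∀ w' ∈ W, w ≠ w' → ¬ G.Adj w w' → ∀ k, b w k = true → b w (k + 2) = true →
      b w' k = true → b w' (k + 2) = true → False := by
    intro w hw w' hw' hne hadj k h1 h2 h3 h4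
    obtain ⟨r1, r2⟩ := hreal w k h1 h2
    obtain ⟨r3, r4⟩ := hreal w' k h3 h4
    exact hW.c4 w hw (c k) (hcW _) w' hw' (c (k + 2)) (hcW _) r1 r3.symm r4 r2.symm hne (hc3 k)
      hadj (hc2 k)
  have N3 : ∀ w ∈ W, ∀ w' ∈ W, G.Adj w w' → ∀ k, b w k = true → b w (k + 1) = false →
      b w' (k + 1) = true → b w' k = false → False := by
    intro w hw w' hw' hadj k h1 h2 h3 h4
    rw [hb] at h1 h3
    rw [hb'] at h2 h4
    have r1 : G.Adj w (c k) := by
      rcases h1 with h1 | h1
      · exact absurd (h1 ▸ hc1 k) h2.2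
      · exact h1
    have r2 : G.Adj w' (c (k + 1)) := by
      rcases h3 with h3 | h3
      · exact absurd (h3 ▸ (hc1 k).symm) h4.2
      · exact h3
    exact hW.c4 w hw w' hw' (c (k + 1)) (hcW _) (c k) (hcW _) hadj r2 (hc1 k).symm r1.symm h2.1
      h4.1 h2.2 h4.2
  have key : ∀ w ∈ W, ∀ w' ∈ W, w ≠ w' → (G.Adj w w' ↔ d5 (ty w) (ty w') = true) := by
    intro w hw w' hw' hne
    rcases hty w hw with ⟨ht, hk⟩ | ⟨i, ht, hk⟩ <;> rcases hty w' hw' with ⟨ht', hk'⟩ | ⟨j, ht', hk'⟩
    · constructor
      · intro _; rw [ht, ht']; decide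
      · intro _
        by_contra hcon
        exact N2 w hw w' hw' hne hcon 0 (hk _) (hk _) (hk' _) (hk' _)
    · constructor
      · intro _; rw [ht, ht']; simp [d5]
      · intro _
        by_contra hcon
        refine N2 w hw w' hw' hne hcon (j - 1) (hk _) (hk _) ?_ ?_
        · rw [hk']; simp [T5]
        · rw [hk', e2]; simp [T5]
    · constructor
      · intro _; rw [ht, ht']; simp [d5]
      · intro _
        by_contra hcon
        refine N2 w hw w' hw' hne hcon (i - 1) ?_ ?_ (hk' _) (hk' _)
        · rw [hk]; simp [T5]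
        · rw [hk, e2]; simp [T5]
    · rw [ht, ht']
      constructor
      · intro hadj
        by_contra hcon
        rw [Bool.not_eq_true] at hcon
        obtain ⟨k, hkk⟩ := d5_lem2 i j hcon
        rw [← hk, ← hk', ← hk', ← hk] at hkk
        rcases hkk with ⟨h1, h2, h3, h4⟩ | ⟨h1, h2, h3, h4⟩
        · exact N3 w hw w' hw' hadj k h1 h2 h3 h4
        · exact N3 w' hw' w hw hadj.symm k h1 h2 h3 h4
      · intro hd
        by_contra hcon
        obtain ⟨k, h1, h2⟩ := d5_lem1 i j hd
        rw [← hk] at h1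
        rw [← hk'] at h2
        rcases N1 w hw w' hw' hne hcon k with h3 | h3
        · rw [h1] at h3; exact absurd h3 (by simp)
        · rw [h2] at h3; exact absurd h3 (by simp)
  let ws : Fin W.card → V := fun p => (W.equivFin.symm p).1
  have hwsW : ∀ p, ws p ∈ W := fun p => (W.equivFin.symm p).2
  have hinj : Function.Injective ws := by
    intro p q hpq
    exact W.equivFin.symm.injective (Subtype.ext hpq)
  refine modP_of hG h ws hinj ?_ (fun p => ty (ws p)) d5 ?_ _ d5_refl
    (fun i j hij => Or.inl (d5_symm i j hij))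
  · intro v
    constructor
    · intro hv
      have hvW : v ∈ W := by rw [hWd, mem_compl]; exact hv
      exact ⟨W.equivFin ⟨v, hvW⟩, by simp [ws]⟩
    · rintro ⟨p, rfl⟩
      have := hwsW p
      rw [hWd, mem_compl] at this
      exact this
  · intro p q hpq
    exact key _ (hwsW p) _ (hwsW q) (fun h => (ne_of_lt hpq) (hinj h))

/-- an induced four-cycle and many disjoint induced paths give `J r 2` -/
lemma contr_J2 [Fintype V] {C : Finset V} (hC : Cn G C)
    (hdom : ∀ v, v ∉ C → ∃ c ∈ C, G.Adj v c)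
    (hα : ∀ a ∈ Cᶜ, ∀ b ∈ Cᶜ, ∀ c ∈ Cᶜ, a ≠ b → b ≠ c → a ≠ c → ¬ G.Adj a b → ¬ G.Adj b c →
      ¬ G.Adj a c → False) {r : ℕ} (hr : 1 ≤ r) (p : Fin r → V × V × V)
    (hp : ∀ i, IsP3 G Cᶜ (p i)) (hdisj : ∀ i j, i ≠ j → Disjoint (sp (p i)) (sp (p j)))
    (v : Fin 2 × Fin 2 → V) (hv : ∀ x, v x ∈ Cᶜ) (hvp : ∀ x i, v x ∉ sp (p i))
    (hvi : Function.Injective v) (hva : ∀ i a j b, G.Adj (v (i, a)) (v (j, b)) ↔ i ≠ j) :
    IsContraction G (J r 2) := by
  let z : Fin r := ⟨0, hr⟩
  let β : Fin r ⊕ Fin 2 × Fin 2 → Finset V := fun w => match w with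
    | .inl i => sp (p i)
    | .inr x => {v x}
  have hspC : ∀ i, ∀ u ∈ sp (p i), u ∈ Cᶜ := by
    intro i u hu
    obtain ⟨h1, h2, h3, -⟩ := hp i
    simp only [sp, mem_insert, mem_singleton] at hu
    rcases hu with rfl | rfl | rfl
    · exact h1
    · exact h2
    · exact h3
  -- every outside vertex is adjacent to every path
  have hpd : ∀ i, ∀ u ∈ Cᶜ, u ∉ sp (p i) → ∃ x ∈ sp (p i), G.Adj u x := by
    intro i u hu hup
    obtain ⟨h1, h2, h3, -, -, h4, h5⟩ := hp i
    simp only [sp, mem_insert, mem_singleton, not_or] at hup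
    by_contra hcon
    push Not at hcon
    exact hα u hu _ h1 _ h3 hup.1 h4 hup.2.2 (hcon _ (by simp [sp])) h5 (hcon _ (by simp [sp]))
  refine contr_center hC hdom (H := J r 2) (.inl z) ?_ β ?_ ?_ ?_ ?_
  · intro w hw
    refine ⟨Ne.symm hw, ?_⟩
    rintro ⟨i, a, b, h, -⟩
    exact absurd h (by simp)
  · rintro (i | x) _
    · exact (hp i).cn
    · exact Cn.singleton _
  · rintro (i | x) _
    · rw [disjoint_left]
      intro u hu
      exact mem_compl.1 (hspC i u hu)
    · rw [disjoint_left]
      intro u hu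
      have hu : u = v x := by simpa [β] using hu
      rw [hu]
      exact mem_compl.1 (hv x)
  · rintro (i | x) (j | y) hw hw' hne
    · exact hdisj i j (fun h => hne (by rw [h]))
    · show Disjoint (sp (p i)) {v y}
      rw [disjoint_singleton_right]
      exact hvp y i
    · show Disjoint {v x} (sp (p j))
      rw [disjoint_singleton_left]
      exact hvp x j
    · show Disjoint {v x} {v y}
      rw [disjoint_singleton]
      exact fun h => hne (by rw [hvi h])
  · rintro (i | x) (j | y) hw hw' hne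
    · constructor
      · intro _
        have hij : i ≠ j := fun h => hne (by rw [h])
        have h1 : (p j).1 ∈ sp (p j) := by simp [sp]
        obtain ⟨x, hx, hxa⟩ := hpd i (p j).1 (hspC j _ h1)
          (fun h => disjoint_left.1 (hdisj i j hij) h h1)
        exact ⟨x, hx, (p j).1, h1, hxa.symm⟩
      · intro _
        refine ⟨hne, ?_⟩
        rintro ⟨i, a, b, h, -⟩
        exact absurd h (by simp)
    · constructor
      · intro _
        obtain ⟨x, hx, hxa⟩ := hpd i (v y) (hv y) (hvp y i)
        exact ⟨x, hx, v y, by simp [β], hxa.symm⟩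
      · intro _
        refine ⟨hne, ?_⟩
        rintro ⟨i, a, b, h, -⟩
        exact absurd h (by simp)
    · constructor
      · intro _
        obtain ⟨u, hu, hua⟩ := hpd j (v x) (hv x) (hvp x j)
        exact ⟨v x, by simp [β], u, hu, hua⟩
      · intro _
        refine ⟨hne, ?_⟩
        rintro ⟨i, a, b, -, h⟩
        exact absurd h (by simp)
    · obtain ⟨i, a⟩ := x
      obtain ⟨j, b⟩ := y
      constructor
      · rintro ⟨-, h⟩
        refine ⟨v (i, a), by simp [β], v (j, b), by simp [β], ?_⟩
        rw [hva]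
        rintro rfl
        exact h ⟨i, a, b, rfl, rfl⟩
      · rintro ⟨x, hx, y, hy, hxy⟩
        simp only [β, mem_singleton] at hx hy
        subst hx hy
        rw [hva] at hxy
        refine ⟨hne, ?_⟩
        rintro ⟨i', a', b', h1, h2⟩
        simp only [Sum.inr.injEq, Prod.mk.injEq] at h1 h2
        exact hxy (h1.1.trans h2.1.symm)

theorem P3 (r : ℕ) (hr : 1 ≤ r) (V : ℕ → Type) (hV : ∀ i, Finite (V i))
    (G : ∀ i, SimpleGraph (V i)) (hG : ∀ i, (G i).Connected ∧ ¬ IsContraction (G i) (B 1 3) ∧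
      ¬ IsContraction (G i) (J r 2)) : ∃ i j, i < j ∧ IsContraction (G j) (G i) := by
  apply mod_wqo' (bd 3 + (4 + r * 3)) 6 (fun i => i = 0) V G
  intro i
  have := Fintype.ofFinite (V i)
  obtain ⟨hconn, hB, hJ⟩ := hG i
  have hs := noStar_of hconn hB
  obtain ⟨X, D, hstr, hXc, hcn, hdom⟩ := exists_str hconn hs
  set W := (X ∪ D)ᶜ with hW
  have hα : ∀ a ∈ W, ∀ b ∈ W, ∀ c ∈ W, a ≠ b → b ≠ c → a ≠ c → ¬ (G i).Adj a b →
      ¬ (G i).Adj b c → ¬ (G i).Adj a c → False := by
    intro a ha b hb c hc hab hbc hac nab nbc nac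
    have := alpha_of hcn hdom hs (U := {a, b, c}) (by
      intro x hx y hy
      simp only [mem_insert, mem_singleton] at hx hy
      rcases hx with rfl | rfl | rfl <;> rcases hy with rfl | rfl | rfl <;>
        first
        | exact fun h => h.ne rfl
        | assumption
        | exact fun h => nab h.symm
        | exact fun h => nbc h.symm
        | exact fun h => nac h.symm) (by
      intro x hx
      simp only [mem_insert, mem_singleton] at hx
      rcases hx with rfl | rfl | rfl <;> assumption)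
    have h3 : ({a, b, c} : Finset (V i)).card = 3 := card_eq_three.2 ⟨a, b, c, hab, hac, hbc, rfl⟩
    omega
  by_cases hc4 : ∀ a ∈ W, ∀ b ∈ W, ∀ c ∈ W, ∀ d ∈ W, (G i).Adj a b → (G i).Adj b c →
    (G i).Adj c d → (G i).Adj d a → a ≠ c → b ≠ d → ¬ (G i).Adj a c → ¬ (G i).Adj b d → False
  · -- no induced four-cycle
    have hC4 : C4F (G i) W := ⟨hα, hc4⟩
    refine ⟨X.card, by omega, ?_⟩
    by_cases h5 : ∃ c, IsC5 (G i) W c
    · obtain ⟨c, hc⟩ := h5
      exact modP_c5 hconn hstr hC4 hc
    · push Not at h5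
      obtain ⟨A, B', hAB, hd, hA, hB'⟩ := two_cliques hC4 h5
      exact modP_nested hconn hstr hAB hd hA hB' hC4
  · push Not at hc4
    obtain ⟨a, ha, b, hb, c, hc, d, hd, hab, hbc, hcd, hda, hac, hbd, nac, nbd, -⟩ := hc4
    set Q : Finset (V i) := {a, b, c, d} with hQ
    have hQW : Q ⊆ W := by
      intro x hx
      simp only [hQ, mem_insert, mem_singleton] at hx
      rcases hx with rfl | rfl | rfl | rfl <;> assumption
    obtain ⟨F, hF1, hF2, hF3⟩ := max_fam (G i) (W \ Q)
    have hFW : ∀ p ∈ F, IsP3 (G i) W p := by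
      intro p hp
      obtain ⟨h1, h2, h3, h4⟩ := hF1 p hp
      exact ⟨(mem_sdiff.1 h1).1, (mem_sdiff.1 h2).1, (mem_sdiff.1 h3).1, h4⟩
    have hspWQ : ∀ p ∈ F, ∀ v ∈ sp p, v ∈ W \ Q := by
      intro p hp v hv
      obtain ⟨h4, h5, h6, -⟩ := hF1 p hp
      simp only [sp, mem_insert, mem_singleton] at hv
      rcases hv with rfl | rfl | rfl
      · exact h4
      · exact h5
      · exact h6
    have hFr : F.card < r := by
      by_contra hcon
      rw [not_lt] at hcon
      apply hJ
      obtain ⟨U, hUF, hUc⟩ := exists_subset_card_eq hcon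
      have ecard : Fintype.card {x // x ∈ U} = Fintype.card (Fin r) := by simp [hUc]
      let e : {x // x ∈ U} ≃ Fin r := Fintype.equivOfCardEq ecard
      have hne : ∀ i j, i ≠ j → (e.symm i).1 ≠ (e.symm j).1 := fun i j hij h =>
        hij (e.symm.injective (Subtype.ext h))
      let v : Fin 2 × Fin 2 → V i := fun x =>
        if x.1 = 0 then (if x.2 = 0 then a else c) else (if x.2 = 0 then b else d)
      have hvQ : ∀ x, v x ∈ Q := by
        rintro ⟨x, y⟩
        simp only [v, hQ]
        split_ifs <;> simp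
      refine contr_J2 hcn hdom hα hr (fun i => (e.symm i).1) ?_ ?_ v ?_ ?_ ?_ ?_
      · intro i
        exact hFW _ (hUF (e.symm i).2)
      · intro i j hij
        exact hF2 _ (hUF (e.symm i).2) _ (hUF (e.symm j).2) (hne i j hij)
      · intro x
        exact hQW (hvQ x)
      · intro x i hx
        exact (mem_sdiff.1 (hspWQ _ (hUF (e.symm i).2) _ hx)).2 (hvQ x)
      · have n1 := hab.ne
        have n2 := hbc.ne
        have n3 := hcd.ne
        have n4 := hda.ne
        rintro ⟨x, y⟩ ⟨x', y'⟩ h
        fin_cases x <;> fin_cases y <;> fin_cases x' <;> fin_cases y' <;>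
          simp only [v, Fin.zero_eta, Fin.mk_one, Fin.isValue, if_true, one_ne_zero, if_false,
            reduceCtorEq] at h ⊢ <;>
          first
          | rfl
          | exact absurd h hac
          | exact absurd h.symm hac
          | exact absurd h hbd
          | exact absurd h.symm hbd
          | exact absurd h n1
          | exact absurd h.symm n1
          | exact absurd h n2
          | exact absurd h.symm n2
          | exact absurd h n3
          | exact absurd h.symm n3
          | exact absurd h n4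
          | exact absurd h.symm n4
      · intro x y x' y'
        fin_cases x <;> fin_cases y <;> fin_cases x' <;> fin_cases y' <;>
          simp only [v, Fin.zero_eta, Fin.mk_one, Fin.isValue, if_true, one_ne_zero, if_false,
            ne_eq, not_true, not_false_iff, iff_false, iff_true, zero_ne_one] <;>
          first
          | exact fun h => h.ne rfl
          | assumption
          | exact fun h => nac h.symm
          | exact fun h => nbd h.symm
          | exact hab.symm
          | exact hbc.symm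
          | exact hcd.symm
          | exact hda.symm
    have hdisj : Disjoint (X ∪ (Q ∪ F.biUnion sp)) D := by
      rw [disjoint_left]
      intro v hv hvD
      rcases mem_union.1 hv with h1 | h1
      · exact disjoint_left.1 hstr.disj h1 hvD
      · have hvW : v ∈ W := by
          rcases mem_union.1 h1 with h2 | h2
          · exact hQW h2
          · obtain ⟨p, hp, hvp⟩ := mem_biUnion.1 h2
            exact (mem_sdiff.1 (hspWQ p hp v hvp)).1
        rw [hW, mem_compl] at hvW
        exact hvW (mem_union_right _ hvD)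
    have hstr' := hstr.enlarge (X' := X ∪ (Q ∪ F.biUnion sp)) subset_union_left hdisj
    have hW' : ((X ∪ (Q ∪ F.biUnion sp)) ∪ D)ᶜ = (W \ Q) \ F.biUnion sp := by
      ext v
      simp only [hW, mem_compl, mem_union, mem_sdiff, not_or]
      tauto
    refine ⟨(X ∪ (Q ∪ F.biUnion sp)).card, ?_, ?_⟩
    · have h1 := card_union_le X (Q ∪ F.biUnion sp)
      have h2 := card_union_le Q (F.biUnion sp)
      have h3 : (F.biUnion sp).card ≤ F.card * 3 :=
        card_biUnion_le_card_mul _ _ _ (fun p _ => sp_card p)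
      have h4 : Q.card ≤ 4 := card_le_four
      omega
    · apply modP_cliques hconn hstr'
      · intro p hp
        rw [hW'] at hp
        exact hF3 p hp
      · intro U hU hUW
        have := alpha_of hcn hdom hs hU (hUW.trans (by
          rw [hW']; exact sdiff_subset.trans sdiff_subset))
        omega

end Pool.Agent.Run7.h855
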