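import Pool.Agent.Run7.h855.P2

/-! `C(K_{1,3}, K_r * C_4)`: structure of the remainder. -/

namespace Pool.Agent.Run7.h855

open Pool.Agent.H175R2 Finset Classical

variable {V : Type} {G : SimpleGraph V} {X D : Finset V}

/-- no three independent vertices and no induced four-cycle -/
structure C4F (G : SimpleGraph V) (W : Finset V) : Prop where
  alpha : ∀ a ∈ W, ∀ b ∈ W, ∀ c ∈ W, a ≠ b → b ≠ c → a ≠ c → ¬ G.Adj a b → ¬ G.Adj b c →
    ¬ G.Adj a c → False
  c4 : ∀ a ∈ W, ∀ b ∈ W, ∀ c ∈ W, ∀ d ∈ W, G.Adj a b → G.Adj b c → G.Adj c d → G.Adj d a →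
    a ≠ c → b ≠ d → ¬ G.Adj a c → ¬ G.Adj b d → False

/-- classes: `0`, `1` -/
def dNest (i j : Fin 6) : Bool := decide (i = j) || (decide (i = 0) && decide (j = 1))

/-- two cliques, no induced four-cycle: the model with two classes -/
lemma modP_nested [Fintype V] (hG : G.Connected) (h : Str G X D) {A B' : Finset V}
    (hAB : A ∪ B' = (X ∪ D)ᶜ) (hd : Disjoint A B')
    (hA : ∀ a ∈ A, ∀ a' ∈ A, a ≠ a' → G.Adj a a') (hB : ∀ b ∈ B', ∀ b' ∈ B', b ≠ b' → G.Adj b b')
    (hW : C4F G (X ∪ D)ᶜ) : ModP X.card 6 (fun i => i = 0) G := by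
  set W := (X ∪ D)ᶜ with hWd
  have hAW : ∀ a ∈ A, a ∈ W := fun a ha => by rw [← hAB]; exact mem_union_left _ ha
  have hBW : ∀ a ∈ B', a ∈ W := fun a ha => by rw [← hAB]; exact mem_union_right _ ha
  let n : V → ℕ := fun b => (A.filter (fun a => G.Adj a b)).card
  let S : V → Set ℕ := fun a => {k | (∃ b ∈ B', G.Adj a b ∧ n b = k) ∨ k = A.card + 1}
  have hS : ∀ a, (S a).Nonempty := fun a => ⟨A.card + 1, Or.inr rfl⟩
  let ρ : V → ℕ := fun a => sInf (S a)
  let K : V → ℕ := fun v => if v ∈ A then 2 * ρ v else 2 * n v + 1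
  have hadj : ∀ a ∈ A, ∀ b ∈ B', G.Adj a b ↔ ρ a ≤ n b := by
    intro a ha b hb
    constructor
    · intro hab
      exact Nat.sInf_le (Or.inl ⟨b, hb, hab, rfl⟩)
    · intro hle
      by_contra hab
      have hn : n b ≤ A.card := card_filter_le _ _
      rcases Nat.sInf_mem (hS a) with ⟨b', hb', hab', hnb'⟩ | h1
      · have hρ : ρ a = n b' := hnb'.symm
        have hbb : b ≠ b' := by rintro rfl; exact hab hab'
        have hsub : A.filter (fun a => G.Adj a b) ⊆ (A.filter (fun a => G.Adj a b')).erase a := by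
          intro x hx
          obtain ⟨hxA, hxb⟩ := mem_filter.1 hx
          have hxa : x ≠ a := by rintro rfl; exact hab hxb
          rw [mem_erase, mem_filter]
          refine ⟨hxa, hxA, ?_⟩
          by_contra hxb'
          exact hW.c4 a (hAW a ha) x (hAW x hxA) b (hBW b hb) b' (hBW b' hb')
            (hA a ha x hxA (Ne.symm hxa)) hxb (hB b hb b' hb' hbb) hab'.symm
            (fun h' => disjoint_left.1 hd ha (h' ▸ hb)) (fun h' => disjoint_left.1 hd hxA (h' ▸ hb'))
            hab hxb'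
        have h2 := card_le_card hsub
        have hmem : a ∈ A.filter (fun a => G.Adj a b') := mem_filter.2 ⟨ha, hab'⟩
        have h3 : ((A.filter (fun a => G.Adj a b')).erase a).card =
            (A.filter (fun a => G.Adj a b')).card - 1 := card_erase_of_mem hmem
        have h4 : 0 < (A.filter (fun a => G.Adj a b')).card := card_pos.2 ⟨a, hmem⟩
        have h5 : n b = (A.filter (fun a => G.Adj a b)).card := rfl
        have h6 : n b' = (A.filter (fun a => G.Adj a b')).card := rfl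
        omega
      · have hρ : ρ a = A.card + 1 := h1
        omega
  let σ := Tuple.sort (fun p : Fin W.card => K (W.equivFin.symm p).1)
  have hσ := Tuple.monotone_sort (fun p : Fin W.card => K (W.equivFin.symm p).1)
  let ws : Fin W.card → V := fun p => (W.equivFin.symm (σ p)).1
  have hwsW : ∀ p, ws p ∈ W := fun p => (W.equivFin.symm (σ p)).2
  have hinj : Function.Injective ws := by
    intro p q hpq
    exact σ.injective (W.equivFin.symm.injective (Subtype.ext hpq))
  have hmono : ∀ p q, p < q → K (ws p) ≤ K (ws q) := fun p q hpq => hσ (le_of_lt hpq)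
  have hcase : ∀ p, ws p ∈ A ∨ (ws p ∉ A ∧ ws p ∈ B') := by
    intro p
    have := hwsW p
    rw [← hAB] at this
    by_cases hpA : ws p ∈ A
    · exact Or.inl hpA
    · exact Or.inr ⟨hpA, (mem_union.1 this).resolve_left hpA⟩
  refine modP_of hG h ws hinj ?_ (fun p => if ws p ∈ A then 0 else 1) dNest ?_ _ (by decide)
    (by decide)
  · intro v
    constructor
    · intro hv
      have hvW : v ∈ W := by rw [hWd, mem_compl]; exact hv
      exact ⟨σ.symm (W.equivFin ⟨v, hvW⟩), by simp [ws]⟩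
    · rintro ⟨p, rfl⟩
      have := hwsW p
      rw [hWd, mem_compl] at this
      exact this
  · intro p q hpq
    have hne : ws p ≠ ws q := fun h => (ne_of_lt hpq) (hinj h)
    have hK := hmono p q hpq
    rcases hcase p with hp | ⟨hp, hp'⟩ <;> rcases hcase q with hq | ⟨hq, hq'⟩
    · simp only [hp, hq, if_true]
      exact ⟨fun _ => by decide, fun _ => hA _ hp _ hq hne⟩
    · simp only [hp, hq, if_true, if_false]
      refine ⟨fun _ => by decide, fun _ => ?_⟩
      rw [hadj _ hp _ hq']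
      simp only [K, hp, hq, if_true, if_false] at hK
      omega
    · simp only [hp, hq, if_true, if_false]
      constructor
      · intro h'
        exfalso
        have := (hadj _ hq _ hp').1 h'.symm
        simp only [K, hp, hq, if_true, if_false] at hK
        omega
      · intro h'
        exact absurd h' (by decide)
    · simp only [hp, hq, if_false]
      exact ⟨fun _ => by decide, fun _ => hB _ hp' _ hq' hne⟩

/-- an induced five-cycle -/
def IsC5 (G : SimpleGraph V) (W : Finset V) (c : Fin 5 → V) : Prop :=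
  (∀ i, c i ∈ W) ∧ (∀ i, G.Adj (c i) (c (i + 1))) ∧ (∀ i, ¬ G.Adj (c i) (c (i + 2))) ∧
    ∀ i, c i ≠ c (i + 2)

/-- without an induced five-cycle there are two cliques -/
lemma two_cliques {W : Finset V} (hW : C4F G W) (h5 : ∀ c, ¬ IsC5 G W c) :
    ∃ A B' : Finset V, A ∪ B' = W ∧ Disjoint A B' ∧ (∀ a ∈ A, ∀ a' ∈ A, a ≠ a' → G.Adj a a') ∧
      (∀ b ∈ B', ∀ b' ∈ B', b ≠ b' → G.Adj b b') := by
  by_cases hcl : ∀ u ∈ W, ∀ v ∈ W, u ≠ v → G.Adj u v
  · exact ⟨W, ∅, by simp, by simp, hcl, by simp⟩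
  push Not at hcl
  obtain ⟨u, hu, v, hv, huv, hnadj⟩ := hcl
  set A₀ := W.filter (fun w => w ≠ v ∧ ¬ G.Adj w v) with hA₀
  set B₀ := W.filter (fun w => w ≠ u ∧ ¬ G.Adj w u) with hB₀
  set M := W.filter (fun w => G.Adj w u ∧ G.Adj w v) with hM
  have mA : ∀ w, w ∈ A₀ ↔ w ∈ W ∧ w ≠ v ∧ ¬ G.Adj w v := fun w => by simp [hA₀]
  have mB : ∀ w, w ∈ B₀ ↔ w ∈ W ∧ w ≠ u ∧ ¬ G.Adj w u := fun w => by simp [hB₀]
  have mM : ∀ w, w ∈ M ↔ w ∈ W ∧ G.Adj w u ∧ G.Adj w v := fun w => by simp [hM]
  have uA : u ∈ A₀ := (mA u).2 ⟨hu, huv, hnadj⟩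
  have vB : v ∈ B₀ := (mB v).2 ⟨hv, Ne.symm huv, fun h => hnadj h.symm⟩
  have hAB : ∀ w, w ∈ A₀ → w ∈ B₀ → False := by
    intro w h1 h2
    rw [mA] at h1
    rw [mB] at h2
    exact hW.alpha w h1.1 u hu v hv h2.2.1 huv h1.2.1 h2.2.2 hnadj h1.2.2
  have hAcl : ∀ a ∈ A₀, ∀ a' ∈ A₀, a ≠ a' → G.Adj a a' := by
    intro a ha a' ha' hne
    rw [mA] at ha ha'
    by_contra hcon
    exact hW.alpha a ha.1 a' ha'.1 v hv hne ha'.2.1 ha.2.1 hcon ha'.2.2 ha.2.2
  have hBcl : ∀ a ∈ B₀, ∀ a' ∈ B₀, a ≠ a' → G.Adj a a' := by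
    intro a ha a' ha' hne
    rw [mB] at ha ha'
    by_contra hcon
    exact hW.alpha a ha.1 a' ha'.1 u hu hne ha'.2.1 ha.2.1 hcon ha'.2.2 ha.2.2
  have hMcl : ∀ a ∈ M, ∀ a' ∈ M, a ≠ a' → G.Adj a a' := by
    intro a ha a' ha' hne
    rw [mM] at ha ha'
    by_contra hcon
    exact hW.c4 a ha.1 u hu a' ha'.1 v hv ha.2.1 ha'.2.1.symm ha'.2.2 ha.2.2.symm hne huv hcon hnadj
  have hcov : ∀ w ∈ W, w ∈ A₀ ∨ w ∈ B₀ ∨ w ∈ M := by
    intro w hw
    rw [mA, mB, mM]
    by_cases h1 : w = u
    · left; rw [h1]; exact ⟨hu, huv, hnadj⟩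
    by_cases h2 : w = v
    · right; left; rw [h2]; exact ⟨hv, Ne.symm huv, fun h => hnadj h.symm⟩
    by_cases h3 : G.Adj w v
    · by_cases h4 : G.Adj w u
      · exact Or.inr (Or.inr ⟨hw, h4, h3⟩)
      · exact Or.inr (Or.inl ⟨hw, h1, h4⟩)
    · exact Or.inl ⟨hw, h2, h3⟩
  have hMA : ∀ m ∈ M, m ∉ A₀ := by
    intro m hm hA
    rw [mM] at hm
    rw [mA] at hA
    exact hA.2.2 hm.2.2
  have hMB : ∀ m ∈ M, m ∉ B₀ := by
    intro m hm hB
    rw [mM] at hm
    rw [mB] at hB
    exact hB.2.2 hm.2.1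
  -- complete to one of the sides
  have hcomp : ∀ m ∈ M, (∃ a ∈ A₀, ¬ G.Adj m a) → ∀ b ∈ B₀, G.Adj m b := by
    rintro m hm ⟨a, ha, hma⟩ b hb
    by_contra hmb
    have hm' := (mM m).1 hm
    have ha' := (mA a).1 ha
    have hb' := (mB b).1 hb
    have hau : a ≠ u := by rintro rfl; exact hma hm'.2.1
    have hbv : b ≠ v := by rintro rfl; exact hmb hm'.2.2
    have hma' : m ≠ a := by rintro rfl; exact hMA _ hm ha
    have hmb' : m ≠ b := by rintro rfl; exact hMB _ hm hb
    have hab' : a ≠ b := by rintro rfl; exact hAB _ ha hb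
    have hab : G.Adj a b := by
      by_contra hcon
      exact hW.alpha m hm'.1 a ha'.1 b hb'.1 hma' hab' hmb' hma hcon hmb
    apply h5 ![u, a, b, v, m]
    refine ⟨?_, ?_, ?_, ?_⟩
    · intro i
      fin_cases i
      · exact hu
      · exact ha'.1
      · exact hb'.1
      · exact hv
      · exact hm'.1
    · intro i
      fin_cases i
      · exact hAcl u uA a ha (Ne.symm hau)
      · exact hab
      · exact hBcl b hb v vB hbv
      · exact hm'.2.2.symm
      · exact hm'.2.1
    · intro i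
      fin_cases i
      · exact fun h => hb'.2.2 h.symm
      · exact ha'.2.2
      · exact fun h => hmb h.symm
      · exact fun h => hnadj h.symm
      · exact hma
    · intro i
      fin_cases i
      · exact Ne.symm hb'.2.1
      · exact ha'.2.1
      · exact Ne.symm hmb'
      · exact Ne.symm huv
      · exact hma'
  refine ⟨A₀ ∪ M.filter (fun m => ∀ a ∈ A₀, G.Adj m a), B₀ ∪ M.filter (fun m => ¬ ∀ a ∈ A₀, G.Adj m a),
    ?_, ?_, ?_, ?_⟩
  · ext w
    simp only [mem_union, mem_filter]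
    constructor
    · rintro ((h | h) | (h | h))
      · exact ((mA w).1 h).1
      · exact ((mM w).1 h.1).1
      · exact ((mB w).1 h).1
      · exact ((mM w).1 h.1).1
    · intro hw
      rcases hcov w hw with h | h | h
      · exact Or.inl (Or.inl h)
      · exact Or.inr (Or.inl h)
      · by_cases hc : ∀ a ∈ A₀, G.Adj w a
        · exact Or.inl (Or.inr ⟨h, hc⟩)
        · exact Or.inr (Or.inr ⟨h, hc⟩)
  · rw [disjoint_left]
    intro w h1 h2
    simp only [mem_union, mem_filter] at h1 h2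
    rcases h1 with h1 | h1 <;> rcases h2 with h2 | h2
    · exact hAB w h1 h2
    · exact hMA w h2.1 h1
    · exact hMB w h1.1 h2
    · exact h2.2 h1.2
  · intro a ha a' ha' hne
    simp only [mem_union, mem_filter] at ha ha'
    rcases ha with ha | ha <;> rcases ha' with ha' | ha'
    · exact hAcl a ha a' ha' hne
    · exact (ha'.2 a ha).symm
    · exact ha.2 a' ha'
    · exact hMcl a ha.1 a' ha'.1 hne
  · intro a ha a' ha' hne
    simp only [mem_union, mem_filter] at ha ha'
    rcases ha with ha | ha <;> rcases ha' with ha' | ha'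
    · exact hBcl a ha a' ha' hne
    · have := ha'.2
      push Not at this
      exact (hcomp a' ha'.1 this a ha).symm
    · have := ha.2
      push Not at this
      exact hcomp a ha.1 this a' ha'
    · exact hMcl a ha.1 a' ha'.1 hne

end Pool.Agent.Run7.h855
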