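import Pool.Agent.Run7.h855.Tail

/-! Parallel composition of components. -/

namespace Pool.Agent.Run7.h855

open Pool.Agent.H175R2 Finset Classical

/-- the piece of a component, without the edge of the terminals -/
noncomputable def cmp (P : Ob) (D : Finset P.V) : Ob := ⟨P.V, P.G, D ∪ {P.u, P.w}, P.u, P.w, False⟩

/-- parallel decomposition -/
structure Par (P : Ob) {m : ℕ} (D : Fin m → Finset P.V) : Prop where
  ne : P.u ≠ P.w
  cov : ∀ x, x ∈ P.S ↔ (x = P.u ∨ x = P.w ∨ ∃ i, x ∈ D i)
  hu : ∀ i, P.u ∉ D i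
  hw : ∀ i, P.w ∉ D i
  disj : ∀ i j, i ≠ j → Disjoint (D i) (D j)
  nadj : ∀ i j, i ≠ j → ∀ x ∈ D i, ∀ y ∈ D j, ¬ P.G.Adj x y

lemma Par.gr_iff {P : Ob} {m : ℕ} {D : Fin m → Finset P.V} (h : Par P D) (x y : P.V)
    (hx : x ∈ P.S) (hy : y ∈ P.S) :
    P.gr.Adj x y ↔ ∃ o : Option (Fin m),
      x ∈ (Option.elim o ({P.u, P.w} : Finset P.V) (fun i => (cmp P (D i)).S)) ∧
      y ∈ (Option.elim o ({P.u, P.w} : Finset P.V) (fun i => (cmp P (D i)).S)) ∧
      (Option.elim o P.gr (fun i => (cmp P (D i)).gr)).Adj x y := by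
  constructor
  · intro hxy
    by_cases hp : P.pr x y
    · refine ⟨none, ?_, ?_, hxy⟩
      · show x ∈ ({P.u, P.w} : Finset P.V)
        rw [mem_insert, mem_singleton]
        rcases hp with hp | hp
        · exact Or.inl hp.1
        · exact Or.inr hp.1
      · show y ∈ ({P.u, P.w} : Finset P.V)
        rw [mem_insert, mem_singleton]
        rcases hp with hp | hp
        · exact Or.inr hp.2
        · exact Or.inl hp.2
    · have hG : P.G.Adj x y := by
        rcases hxy.2 with h1 | h1
        · exact h1.2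
        · exact absurd h1.1 hp
      have key : ∃ i, x ∈ (cmp P (D i)).S ∧ y ∈ (cmp P (D i)).S := by
        show ∃ i, x ∈ D i ∪ {P.u, P.w} ∧ y ∈ D i ∪ {P.u, P.w}
        simp only [mem_union, mem_insert, mem_singleton]
        rcases (h.cov x).1 hx with h1 | h1 | ⟨i, hi⟩ <;>
          rcases (h.cov y).1 hy with h2 | h2 | ⟨j, hj⟩
        · exact absurd (h1.trans h2.symm) hxy.1
        · exact absurd (Or.inl ⟨h1, h2⟩) hp
        · exact ⟨j, Or.inr (Or.inl h1), Or.inl hj⟩
        · exact absurd (Or.inr ⟨h1, h2⟩) hp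
        · exact absurd (h1.trans h2.symm) hxy.1
        · exact ⟨j, Or.inr (Or.inr h1), Or.inl hj⟩
        · exact ⟨i, Or.inl hi, Or.inr (Or.inl h2)⟩
        · exact ⟨i, Or.inl hi, Or.inr (Or.inr h2)⟩
        · by_cases hij : i = j
          · subst hij
            exact ⟨i, Or.inl hi, Or.inl hj⟩
          · exact absurd hG (h.nadj i j hij x hi y hj)
      obtain ⟨i, h1, h2⟩ := key
      exact ⟨some i, h1, h2, hxy.1, Or.inl ⟨hp, hG⟩⟩
  · rintro ⟨_ | i, h1, h2, h3⟩
    · exact h3
    · refine ⟨h3.1, ?_⟩
      rcases h3.2 with h4 | h4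
      · exact Or.inl h4
      · exact absurd h4.2 (fun h => h)

theorem Par.le {P P' : Ob} {m : ℕ} {D : Fin m → Finset P.V} {D' : Fin m → Finset P'.V}
    (h : Par P D) (h' : Par P' D') (he : P.e ↔ P'.e)
    (hle : ∀ i, Le (cmp P (D i)) (cmp P' (D' i))) : Le P P' := by
  choose φ a1 a2 a3 using hle
  have a1 : ∀ i, φ i P'.u = P.u := a1
  have a2 : ∀ i, φ i P'.w = P.w := a2
  let φ0 : P'.V → P.V := fun v => if v = P'.u then P.u else P.w
  have f1 : φ0 P'.u = P.u := by simp [φ0]
  have f2 : φ0 P'.w = P.w := by simp [φ0, h'.ne.symm]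
  have c0 : CM P'.gr {P'.u, P'.w} P.gr {P.u, P.w} φ0 := by
    refine ⟨?_, ?_, ?_⟩
    · intro v hv
      simp only [mem_insert, mem_singleton] at hv ⊢
      rcases hv with rfl | rfl
      · exact Or.inl f1
      · exact Or.inr f2
    · intro x hx
      simp only [mem_insert, mem_singleton] at hx
      rcases hx with rfl | rfl
      · have : (({P'.u, P'.w} : Finset P'.V).filter (fun v => φ0 v = P.u)) = {P'.u} := by
          ext v
          simp only [mem_filter, mem_insert, mem_singleton]
          constructor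
          · rintro ⟨rfl | rfl, h2⟩
            · rfl
            · rw [f2] at h2; exact absurd h2.symm h.ne
          · rintro rfl
            exact ⟨Or.inl rfl, f1⟩
        rw [this]
        exact Cn.singleton _
      · have : (({P'.u, P'.w} : Finset P'.V).filter (fun v => φ0 v = P.w)) = {P'.w} := by
          ext v
          simp only [mem_filter, mem_insert, mem_singleton]
          constructor
          · rintro ⟨rfl | rfl, h2⟩
            · rw [f1] at h2; exact absurd h2 h.ne
            · rfl
          · rintro rfl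
            exact ⟨Or.inr rfl, f2⟩
        rw [this]
        exact Cn.singleton _
    · have keyP : ∀ (Q : Ob), Q.u ≠ Q.w → (Q.gr.Adj Q.u Q.w ↔ Q.e) := by
        intro Q hQ
        constructor
        · rintro ⟨-, h1 | h1⟩
          · exact absurd (Or.inl ⟨rfl, rfl⟩) h1.1
          · exact h1.2
        · intro hq
          exact ⟨hQ, Or.inr ⟨Or.inl ⟨rfl, rfl⟩, hq⟩⟩
      have k1 := keyP P h.ne
      have k2 := keyP P' h'.ne
      have main : P.gr.Adj P.u P.w ↔ P'.gr.Adj P'.u P'.w := by rw [k1, k2, he]
      intro x hx y hy hne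
      simp only [mem_insert, mem_singleton] at hx hy
      rcases hx with rfl | rfl <;> rcases hy with rfl | rfl
      · exact absurd rfl hne
      · constructor
        · intro h1
          exact ⟨P'.u, by simp, P'.w, by simp, f1, f2, main.1 h1⟩
        · rintro ⟨a, ha, b, hb, h1, h2, h3⟩
          simp only [mem_insert, mem_singleton] at ha hb
          rcases ha with rfl | rfl <;> rcases hb with rfl | rfl
          · exact absurd rfl h3.ne
          · exact main.2 h3
          · exact main.2 h3.symm
          · exact absurd rfl h3.ne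
      · constructor
        · intro h1
          exact ⟨P'.w, by simp, P'.u, by simp, f2, f1, (main.1 h1.symm).symm⟩
        · rintro ⟨a, ha, b, hb, h1, h2, h3⟩
          simp only [mem_insert, mem_singleton] at ha hb
          rcases ha with rfl | rfl <;> rcases hb with rfl | rfl
          · exact absurd rfl h3.ne
          · exact (main.2 h3).symm
          · exact (main.2 h3.symm).symm
          · exact absurd rfl h3.ne
      · exact absurd rfl hne
  have hcov : ∀ (Q : Ob) (E : Fin m → Finset Q.V), Par Q E → ∀ x, x ∈ Q.S ↔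
      ∃ o : Option (Fin m),
        x ∈ (Option.elim o ({Q.u, Q.w} : Finset Q.V) (fun i => (cmp Q (E i)).S)) := by
    intro Q E hQ x
    rw [hQ.cov]
    constructor
    · rintro (h1 | h1 | ⟨i, hi⟩)
      · exact ⟨none, by simp [h1]⟩
      · exact ⟨none, by simp [h1]⟩
      · exact ⟨some i, mem_union_left _ hi⟩
    · rintro ⟨_ | i, h1⟩
      · simp only [Option.elim, mem_insert, mem_singleton] at h1
        tauto
      · simp only [Option.elim, cmp, mem_union, mem_insert, mem_singleton] at h1
        rcases h1 with h1 | h1 | h1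
        · exact Or.inr (Or.inr ⟨i, h1⟩)
        · exact Or.inl h1
        · exact Or.inr (Or.inl h1)
  -- overlaps
  have hover : ∀ (Q : Ob) (E : Fin m → Finset Q.V), Par Q E → ∀ (o o' : Option (Fin m)) (x : Q.V),
      o ≠ o' → x ∈ (Option.elim o ({Q.u, Q.w} : Finset Q.V) (fun i => (cmp Q (E i)).S)) →
      x ∈ (Option.elim o' ({Q.u, Q.w} : Finset Q.V) (fun i => (cmp Q (E i)).S)) →
      x = Q.u ∨ x = Q.w := by
    intro Q E hQ o o' x hne h1 h2
    rcases o with _ | i
    · simpa using h1
    rcases o' with _ | j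
    · simpa using h2
    simp only [Option.elim, cmp, mem_union, mem_insert, mem_singleton] at h1 h2
    rcases h1 with h1 | h1
    · rcases h2 with h2 | h2
      · exact absurd h2 (disjoint_left.1 (hQ.disj i j (fun h => hne (by rw [h]))) h1)
      · exact h2
    · exact h1
  have hmem : ∀ (Q : Ob) (E : Fin m → Finset Q.V) (o : Option (Fin m)),
      Q.u ∈ (Option.elim o ({Q.u, Q.w} : Finset Q.V) (fun i => (cmp Q (E i)).S)) ∧
      Q.w ∈ (Option.elim o ({Q.u, Q.w} : Finset Q.V) (fun i => (cmp Q (E i)).S)) := by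
    intro Q E o
    rcases o with _ | i
    · simp
    · simp [cmp]
  have g1 : ∀ o : Option (Fin m), (Option.elim o φ0 φ) P'.u = P.u := by
    rintro (_ | i)
    · exact f1
    · exact a1 i
  have g2 : ∀ o : Option (Fin m), (Option.elim o φ0 φ) P'.w = P.w := by
    rintro (_ | i)
    · exact f2
    · exact a2 i
  obtain ⟨Φ, hΦ, hΦ'⟩ := CM.glue (ι := Option (Fin m)) (G := P.gr) (G' := P'.gr) (S := P.S)
    (S' := P'.S)
    (P := fun o => Option.elim o ({P.u, P.w} : Finset P.V) (fun i => (cmp P (D i)).S))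
    (P' := fun o => Option.elim o ({P'.u, P'.w} : Finset P'.V) (fun i => (cmp P' (D' i)).S))
    (Q := fun o => Option.elim o P.gr (fun i => (cmp P (D i)).gr))
    (Q' := fun o => Option.elim o P'.gr (fun i => (cmp P' (D' i)).gr))
    (φ := fun o => Option.elim o φ0 φ) P.u
    (by
      rintro (_ | i)
      · exact c0
      · exact a3 i)
    (hcov P D h) (hcov P' D' h')
    (fun x hx y hy => h.gr_iff x y hx hy) (fun x hx y hy => h'.gr_iff x y hx hy)
    (by
      intro o o' v h1 h2
      by_cases ho : o = o'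
      · rw [ho]
      · rcases hover P' D' h' o o' v ho h1 h2 with rfl | rfl
        · rw [g1, g1]
        · rw [g2, g2])
    (by
      intro o o' x ho h1 h2
      rcases hover P D h o o' x ho h1 h2 with rfl | rfl
      · exact ⟨P'.u, (hmem P' D' o).1, (hmem P' D' o').1, g1 o⟩
      · exact ⟨P'.w, (hmem P' D' o).2, (hmem P' D' o').2, g2 o⟩)
  refine ⟨Φ, ?_, ?_, hΦ⟩
  · rw [hΦ' none _ (hmem P' D' none).1]
    exact f1
  · rw [hΦ' none _ (hmem P' D' none).2]
    exact f2

end Pool.Agent.Run7.h855
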