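import Pool.Agent.Run7.h855.Star3

/-! The paths of a structured graph. -/

namespace Pool.Agent.Run7.h855

open Pool.Agent.H175R2 Finset Classical

variable {V : Type} {G : SimpleGraph V} {X D : Finset V}

lemma Str.path_from (h : Str G X D) {x d₀ : V} (hx : x ∈ X) (hd₀ : d₀ ∈ D) (hadj : G.Adj x d₀) :
    ∃ (n : ℕ) (q : ℕ → V), 1 ≤ n ∧ q 0 = x ∧ q (n + 1) ∈ X ∧ (∀ t, 1 ≤ t → t ≤ n → q t ∈ D) ∧
      (∀ s t, s ≤ n → t ≤ n → q s = q t → s = t) ∧
      (∀ t, 1 ≤ t → t ≤ n → ∀ v, G.Adj (q t) v ↔ (v = q (t - 1) ∨ v = q (t + 1))) := by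
  have hxD : x ∉ D := fun h' => disjoint_left.1 h.disj hx h'
  let P : ℕ → Prop := fun n => ∃ q : ℕ → V, q 0 = x ∧ (∀ t, 1 ≤ t → t ≤ n → q t ∈ D) ∧
    (∀ t, t < n → G.Adj (q t) (q (t + 1))) ∧ (∀ s t, s ≤ n → t ≤ n → q s = q t → s = t)
  have hP1 : P 1 := by
    refine ⟨fun t => if t = 0 then x else d₀, by simp, ?_, ?_, ?_⟩
    · intro t h1 h2
      have : t ≠ 0 := by omega
      simp [this, hd₀]
    · intro t ht
      have : t = 0 := by omega
      subst this
      simpa using hadj
    · intro s t hs ht hst
      have hne : x ≠ d₀ := hadj.ne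
      by_cases h1 : s = 0 <;> by_cases h2 : t = 0
      · omega
      · simp [h1, h2] at hst; exact absurd hst hne
      · simp [h1, h2] at hst; exact absurd hst.symm hne
      · omega
  have hbound : ∀ n, P n → n ≤ D.card := by
    rintro n ⟨q, -, h2, -, h4⟩
    have : (Finset.range n).card ≤ D.card := by
      apply card_le_card_of_injOn (fun t => q (t + 1))
      · intro t ht
        have := mem_range.1 ht
        exact h2 _ (by omega) (by omega)
      · intro s hs t ht hst
        have h5 : s < n := by simpa using hs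
        have h6 : t < n := by simpa using ht
        have := h4 (s + 1) (t + 1) (by omega) (by omega) hst
        omega
    simpa using this
  have hgr : P (Nat.findGreatest P D.card) :=
    Nat.findGreatest_spec (hbound 1 hP1) hP1
  set n := Nat.findGreatest P D.card with hn
  have hn1 : 1 ≤ n := Nat.le_findGreatest (hbound 1 hP1) hP1
  have hmax : ¬ P (n + 1) := by
    intro h'
    have := Nat.le_findGreatest (hbound _ h') h'
    omega
  obtain ⟨q, hq0, hqD, hqadj, hqinj⟩ := hgr
  have hqXD : ∀ t, t ≤ n → q t ∈ X ∪ D := by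
    intro t ht
    rcases Nat.eq_zero_or_pos t with rfl | h0
    · rw [hq0]; exact mem_union_left _ hx
    · exact mem_union_right _ (hqD t h0 ht)
  have hprev : ∀ t, 1 ≤ t → t ≤ n → G.Adj (q t) (q (t - 1)) := by
    intro t h1 h2
    have := hqadj (t - 1) (by omega)
    rw [Nat.sub_add_cancel h1] at this
    exact this.symm
  -- the other neighbour of `q n`
  obtain ⟨z, hz, hzne⟩ : ∃ z ∈ nb G (X ∪ D) (q n), z ≠ q (n - 1) := by
    have h2 := h.deg (q n) (hqD n hn1 (le_refl _))
    obtain ⟨a, b, hab, he⟩ := card_eq_two.1 h2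
    by_cases ha : a = q (n - 1)
    · exact ⟨b, by rw [he]; simp, by rw [← ha]; exact hab.symm⟩
    · exact ⟨a, by rw [he]; simp, ha⟩
  obtain ⟨hzXD, hzadj⟩ := mem_nb.1 hz
  have hzX : z ∈ X := by
    rcases mem_union.1 hzXD with h1 | h1
    · exact h1
    exfalso
    by_cases hex : ∃ j, j ≤ n ∧ z = q j
    · obtain ⟨j, hj, rfl⟩ := hex
      have hj0 : j ≠ 0 := by
        rintro rfl
        rw [hq0] at h1
        exact hxD h1
      have hjn : j ≠ n := by
        rintro rfl
        exact hzadj.ne rfl
      have hjn1 : j ≠ n - 1 := by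
        rintro rfl
        exact hzne rfl
      have h3 := h.deg (q j) (hqD j (by omega) hj)
      have hsub : ({q (j - 1), q (j + 1), q n} : Finset V) ⊆ nb G (X ∪ D) (q j) := by
        intro v hv
        simp only [mem_insert, mem_singleton] at hv
        rcases hv with rfl | rfl | rfl
        · exact mem_nb.2 ⟨hqXD _ (by omega), hprev j (by omega) hj⟩
        · exact mem_nb.2 ⟨hqXD _ (by omega), hqadj j (by omega)⟩
        · exact mem_nb.2 ⟨hqXD _ (by omega), hzadj.symm⟩
      have h4 := card_le_card hsub
      have h5 : ({q (j - 1), q (j + 1), q n} : Finset V).card = 3 := by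
        rw [card_eq_three]
        refine ⟨_, _, _, ?_, ?_, ?_, rfl⟩
        · intro h'
          have := hqinj _ _ (by omega) (by omega) h'
          omega
        · intro h'
          have := hqinj _ _ (by omega) (by omega) h'
          omega
        · intro h'
          have := hqinj _ _ (by omega) (by omega) h'
          omega
      omega
    · push Not at hex
      apply hmax
      refine ⟨fun t => if t = n + 1 then z else q t, ?_, ?_, ?_, ?_⟩
      · have : (0 : ℕ) ≠ n + 1 := by omega
        simp [this, hq0]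
      · intro t h2 h3
        by_cases ht : t = n + 1
        · simp [ht, h1]
        · simp only [ht, if_false]; exact hqD t h2 (by omega)
      · intro t ht
        have h2 : t ≠ n + 1 := by omega
        by_cases h3 : t = n
        · subst h3; simpa using hzadj
        · have h4 : t + 1 ≠ n + 1 := by omega
          simp only [h2, h4, if_false]
          exact hqadj t (by omega)
      · intro s t hs ht hst
        by_cases h2 : s = n + 1 <;> by_cases h3 : t = n + 1
        · omega
        · simp only [h2, h3, if_true, if_false] at hst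
          exact absurd hst (hex t (by omega))
        · simp only [h2, h3, if_true, if_false] at hst
          exact absurd hst.symm (hex s (by omega))
        · simp only [h2, h3, if_false] at hst
          exact hqinj s t (by omega) (by omega) hst
  refine ⟨n, fun t => if t = n + 1 then z else q t, hn1, ?_, ?_, ?_, ?_, ?_⟩
  · have : (0 : ℕ) ≠ n + 1 := by omega
    simp [this, hq0]
  · simpa using hzX
  · intro t h1 h2
    have : t ≠ n + 1 := by omega
    simp only [this, if_false]
    exact hqD t h1 h2
  · intro s t hs ht hst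
    have h1 : s ≠ n + 1 := by omega
    have h2 : t ≠ n + 1 := by omega
    simp only [h1, h2, if_false] at hst
    exact hqinj s t hs ht hst
  · intro t h1 h2 v
    have e1 : t ≠ n + 1 := by omega
    have e2 : t - 1 ≠ n + 1 := by omega
    simp only [e1, e2, if_false]
    have hdeg := h.deg (q t) (hqD t h1 h2)
    set y := (if t + 1 = n + 1 then z else q (t + 1)) with hy
    have hyne : q (t - 1) ≠ y := by
      by_cases ht : t = n
      · simp only [hy, ht, if_true]
        exact hzne.symm
      · have e3 : t + 1 ≠ n + 1 := by omega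
        simp only [hy, e3, if_false]
        intro h'
        have := hqinj _ _ (by omega) (by omega) h'
        omega
    have hyadj : G.Adj (q t) y := by
      by_cases ht : t = n
      · simp only [hy, ht, if_true]
        exact hzadj
      · have e3 : t + 1 ≠ n + 1 := by omega
        simp only [hy, e3, if_false]
        exact hqadj t (by omega)
    have hsub : ({q (t - 1), y} : Finset V) ⊆ nb G (X ∪ D) (q t) := by
      intro v hv
      simp only [mem_insert, mem_singleton] at hv
      rcases hv with rfl | rfl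
      · exact mem_nb.2 ⟨hqXD _ (by omega), hprev t h1 h2⟩
      · exact mem_nb.2 ⟨h.out _ (hqD t h1 h2) _ hyadj, hyadj⟩
    have heq := eq_of_subset_of_card_le hsub (by rw [hdeg, card_pair hyne])
    constructor
    · intro hv
      have : v ∈ nb G (X ∪ D) (q t) := mem_nb.2 ⟨h.out _ (hqD t h1 h2) _ hv, hv⟩
      rw [← heq] at this
      simpa using this
    · rintro (rfl | rfl)
      · exact hprev t h1 h2
      · exact hyadj

/-- the path from `x` is the component of its unique neighbour in `D` -/
lemma Str.path_cpt (h : Str G X D) {n : ℕ} {q : ℕ → V} (hn : 1 ≤ n) (hx : q 0 ∈ X)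
    (hy : q (n + 1) ∈ X) (hD : ∀ t, 1 ≤ t → t ≤ n → q t ∈ D)
    (hadj : ∀ t, 1 ≤ t → t ≤ n → ∀ v, G.Adj (q t) v ↔ (v = q (t - 1) ∨ v = q (t + 1))) (v : V) :
    v ∈ cpt G D (q 1) ↔ ∃ t, 1 ≤ t ∧ t ≤ n ∧ v = q t := by
  have h1D : q 1 ∈ D := hD 1 (le_refl _) hn
  have hXD : ∀ v, v ∈ X → v ∉ D := fun v h1 h2 => disjoint_left.1 h.disj h1 h2
  constructor
  · intro hv
    by_contra hcon
    set T := (cpt G D (q 1)).filter (fun v => ∃ t, 1 ≤ t ∧ t ≤ n ∧ v = q t) with hT
    obtain ⟨a, ha, b, hb, hab⟩ := (cn_cpt h1D).2 T (filter_subset _ _)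
      ⟨q 1, mem_filter.2 ⟨mem_cpt_self h1D, 1, le_refl _, hn, rfl⟩⟩
      ⟨v, mem_sdiff.2 ⟨hv, fun h' => hcon (mem_filter.1 h').2⟩⟩
    obtain ⟨ha1, t, ht1, htn, rfl⟩ := mem_filter.1 ha
    obtain ⟨hb1, hb2⟩ := mem_sdiff.1 hb
    have hbD : b ∈ D := cpt_subset hb1
    apply hb2
    refine mem_filter.2 ⟨hb1, ?_⟩
    rcases (hadj t ht1 htn b).1 hab with rfl | rfl
    · rcases Nat.eq_zero_or_pos (t - 1) with h0 | h0
      · rw [h0] at hbD
        exact absurd hbD (hXD _ hx)
      · exact ⟨t - 1, h0, by omega, rfl⟩
    · by_cases h0 : t = n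
      · subst h0
        exact absurd hbD (hXD _ hy)
      · exact ⟨t + 1, by omega, by omega, rfl⟩
  · rintro ⟨t, ht1, htn, rfl⟩
    induction t with
    | zero => omega
    | succ t ih =>
      rcases Nat.eq_zero_or_pos t with rfl | h0
      · exact mem_cpt_self h1D
      · have h1 := ih h0 (by omega)
        by_contra hcon
        exact not_adj_cpt h1D h1 (hD (t + 1) ht1 htn) hcon
          ((hadj t h0 (by omega) _).2 (Or.inr rfl))

end Pool.Agent.Run7.h855
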