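import Pool.Agent.Run7.h855.Defs

/-!
# MP_07dfc7_co: plan of the full classification (helper855)

Final theorem:  `Wqo H₁ H₂ ↔ Small H₁ ∨ Small H₂ ∨ Pair H₁ H₂ ∨ Pair H₂ H₁`.

Tools in the starting tree (copy with their imports): `Pool.Agent.H175R2.Conn` (`Cn` = connected
finset, `Tc` = touching, `cpt` = component, `Cn.extend`), `Pool.Agent.H175R2.Menger` (`Cn.menger`),
`Pool.Agent.H175R2.Contr` (`Contracts`, `IsContraction`, `Wit`, `contracts_iff`, `Wit.trans`),
`Pool.Agent.H175R2.Sp` (`Term`, `Term.step`, `sp_rec`: the series-parallel recursion, exactly the
one needed in P1), Mathlib: `Set.PartiallyWellOrderedOn`, minimal bad sequences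
(`exists_min_bad_of_exists_bad`), Higman's lemma (`partiallyWellOrderedOn_sublistForall₂`).

Pieces still free: P0, P1 (statements below).  helper855 does necessity, P2, P3 and the assembly.

## P0: connected diamond-contraction-free graphs are wqo  (`wqo_diamond`)

Rooted pieces `(G, S, r)`: `S` a finset, `Cn G S`, `r ∈ S`; order `(G,S,r) ≤ (G',S',r')` iff there
is a contraction map of `G'[S']` onto `G[S]` taking `r'` to `r`.  Nash-Williams: take a minimal bad
sequence (by `S.card`) of rooted pieces without diamond contraction; the rooted pieces that are
`≤` and smaller than some member form a partially-well-ordered set.  Decompose `(S, r)`,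
`2 ≤ S.card`:
* glue: `S \ r` not connected: `S = S₁ ∪ S₂`, `S₁ ∩ S₂ = {r}`, no other edges between.
* `D = S \ r` connected, `N = N(r) ∩ D`.
  - `N = {v}`: `(D, v)`.
  - `|N| ≥ 3`: for every partition of `D` into connected `Y_i ∋ v_i` (one for each `v_i ∈ N`; exists
    by extension) any two `Y_i, Y_j` touch (otherwise an induced path `Y_i - Y_l - Y_j` in the
    quotient, and with `r` a diamond with poles `r`, `Y_l`).  Moreover the only edge between `Y_i`
    and `Y_j` is `v_i v_j`: if `a ∈ Y_i`, `a ≠ v_i` touches `Y_j` let `K` be the component of `a` in
    `Y_i - v_i`, `Y_i' = Y_i \ K`; `r` and `K` do not touch; poles `Y_i'` and `Y_j ∪ (the other Y_l)`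
    are connected and touch, leaves `r`, `K`: diamond.  So block = clique `{r} ∪ N` with hanging
    rooted pieces `(Y_i, v_i)`; all smaller and `≤ (S, r)`.
  - `|N| = 2`, `N = {u, w}`: `D` is a chain of bridges: invariant: `D` connected, `u, w ∈ D`, `O`
    connected, disjoint from `D`, whose only edges to `D` go to `u` and to `w` (both present).  If
    `u = w` stop (list of one hang).  Let `K` be the component of `w` in `D - u`, `H_u = D \ K`
    (connected, contains `u`); `u` has exactly one neighbour `a` in `K` (two neighbours `a, b`:
    extend to a partition `K = Y ∪ C`, `a ∈ Y`, `b ∈ C`, say `w ∈ Y`: poles `H_u`, `Y`, leaves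
    `O`, `C`: diamond).  Continue with `(K; a, w)`, `O' = O ∪ H_u`.  So the block is a cycle with
    a list of hanging rooted pieces.
* list order: `SublistForall₂`; cycles: image list of length at least 2, the skipped hangs are
  contracted into the next kept vertex (the ones after the last kept one into the last kept one);
  cliques: the skipped hangs are contracted into `r`.

## P1: connected graphs without `K₄` and `K_{1,1,q}` contraction are wqo (`wqo_K4_book`)

Two-terminal bundles `β = (G, L, u, w, e)`: `u ≠ w` not in the finset `L`, all neighbours of `L`
outside `L` are in `{u, w}`, every component of `G[L]` is adjacent to both `u` and `w`, `e : Prop`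
says whether the edge `uw` counts; `e = False → L ≠ ∅`.  Order `β ≤ β'`: a map `φ`, `φ u' = u`,
`φ w' = w`, `φ (L') ⊆ L ∪ {u,w}`, fibres over `x ∈ L` connected, `{u'} ∪ (fibre of u in L')`
connected, same for `w`, adjacency exactly induced (the pair `u w` is adjacent iff
`e' ∨` some other edge of `β'` joins the two fibres).
Context (structure `Term` of `H175R2.Sp`): connected `U ∋ u`, `W ∋ w` outside `L`, disjoint,
touching.  Rank of `(L; u, w)`: largest `k` such that there are disjoint connected `A ∋ u`, `B ∋ w`
in `L ∪ {u,w}` and `k` pairwise non-touching connected sets in `L \ (A ∪ B)` each touching `A`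
and `B`.  In context a rank `≥ q` gives a `K_{1,1,q}` contraction of the whole graph.  If `L` has at
least two components, each component has smaller rank (add the leaf given by another component).
Sub-bundles occurring in series decompositions have rank at most that of the whole.

Chains.  Let `D` be connected, adjacent to `u` and to `w`, in context, `K₄` not a contraction.
By Menger (`Cn.menger`) there is `z ∈ D` such that no component of `D - z` is adjacent to both `u`
and `w`.  `D = 𝒜 ⊔ H_z ⊔ ℬ`, `𝒜` = union of the components of `D - z` adjacent to `u`, `ℬ` = same
for `w`, `H_z` = `z` and the other components.  `(𝒜; u, z; Adj u z)` and `(ℬ; z, w; Adj z w)` are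
bundles (nonempty or with edge, as `D` is connected and adjacent to `u`, `w`).  Call a bundle a
*link* if `e` holds or it has at least two components; a non-link is a connected set again, so by
induction on the size `D` is a list `L₀ (H₁,z₁) L₁ (H₂,z₂) ... (H_n,z_n) L_n`, `n ≥ 1`, of links
(terminals `z_i, z_{i+1}`, `z₀ = u`, `z_{n+1} = w`) and rooted hangs `(H_i, z_i)`.
If the lists satisfy `SublistForall₂` (first links matched too, same lengths not needed, image
`n ≥ 1`) then the chains are related by `≤`: contract the skipped (hang, link) pairs completely.

Wqo.  Outer minimal bad sequence on vertex-rooted graphs `(G, r)` (order: rooted contraction).  For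
`(G, r)` with at least two vertices choose a neighbour `r'` of `r`: `G` = hang at `r` (components
of `G - r` not containing `r'`), hang at `r'`, and the bundle `(L; r, r'; e = True)`, `L` = the
vertices whose component in `G - {r, r'}` touches both.  All hanging rooted pieces occurring here or
inside the chains are smaller and `≤ (G, r)` (contract everything outside into the attaching
vertex), so they form a wqo set `𝓢`.  Fix `𝓢`.  By induction on `k`: bundles in context of rank
`≤ k` with hangs in `𝓢` are wqo:
 (i) links with at least two components (number of components `≤ k`): every component has rank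
     `≤ k-1`, finite products of the previous class;
 (ii) links with one component and `e`: second minimal bad sequence (by `L.card`): the chain of its
     component is a list of links; the links of the list which are of type (ii) are smaller and
     `≤` the link itself (contract everything else onto its terminals; the edge is there anyway),
     the others are of type (i) or a single edge; Higman;
 (iii) a non-link bundle is a chain of links: Higman.
-/

namespace Pool.Agent.Run7.h855

open Pool.Agent.H175R2 (Contracts IsContraction)

/-- every sequence of finite connected graphs satisfying `P` has a good pair -/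
def WqoOn (P : ∀ V : Type, SimpleGraph V → Prop) : Prop :=
  ∀ (V : ℕ → Type) (_ : ∀ i, Finite (V i)) (G : ∀ i, SimpleGraph (V i)),
    (∀ i, (G i).Connected ∧ P (V i) (G i)) → ∃ i j, i < j ∧ IsContraction (G j) (G i)

/-- statement of P0 -/
def P0Statement : Prop := WqoOn (fun _ G => ¬ IsContraction G (B 2 2))

/-- statement of P1 -/
def P1Statement : Prop := ∀ q : ℕ,
  WqoOn (fun _ G => ¬ IsContraction G (B 2 q) ∧ ¬ IsContraction G (J 4 0))

/-- statement of P2 -/
def P2Statement : Prop := ∀ s t : ℕ,
  WqoOn (fun _ G => ¬ IsContraction G (B 1 s) ∧ ¬ IsContraction G (J t 1))

/-- statement of P3 -/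
def P3Statement : Prop := ∀ r : ℕ,
  WqoOn (fun _ G => ¬ IsContraction G (B 1 3) ∧ ¬ IsContraction G (J r 2))

end Pool.Agent.Run7.h855
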