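import Pool.Agent.Run7.h855.Par
import Pool.Agent.H175R2.Menger

/-! Series decomposition of a connected piece between two terminals. -/

namespace Pool.Agent.Run7.h855

open Pool.Agent.H175R2 Finset Classical

variable {V : Type} {G : SimpleGraph V}

/-- `K` has a neighbour of `u` -/
def tch (G : SimpleGraph V) (K : Finset V) (u : V) : Prop := ∃ a ∈ K, G.Adj a u

/-- the vertices of `L - z` whose component touches `u` -/
noncomputable def sd (G : SimpleGraph V) (L : Finset V) (z u : V) : Finset V :=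
  (L.erase z).filter (fun v => tch G (cpt G (L.erase z) v) u)

/-- rank at least `k` -/
def Rk (G : SimpleGraph V) (S : Finset V) (u w : V) (k : ℕ) : Prop :=
  ∃ (A B' : Finset V) (F : Fin k → Finset V), u ∈ A ∧ w ∈ B' ∧ Cn G A ∧ Cn G B' ∧ A ⊆ S ∧ B' ⊆ S ∧
    Disjoint A B' ∧
    (∀ i, F i ⊆ S ∧ Cn G (F i) ∧ Disjoint (F i) A ∧ Disjoint (F i) B' ∧ Tc G (F i) A ∧
      Tc G (F i) B') ∧
    ∀ i j, i ≠ j → Disjoint (F i) (F j) ∧ ¬ Tc G (F i) (F j)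

/-- a `K₄` whose first two bags contain `u` and `w` -/
def K4B (G : SimpleGraph V) (S : Finset V) (u w : V) : Prop :=
  ∃ A B' C E : Finset V, u ∈ A ∧ w ∈ B' ∧ Cn G A ∧ Cn G B' ∧ Cn G C ∧ Cn G E ∧
    A ⊆ S ∧ B' ⊆ S ∧ C ⊆ S ∧ E ⊆ S ∧ Disjoint A B' ∧ Disjoint A C ∧ Disjoint A E ∧
    Disjoint B' C ∧ Disjoint B' E ∧ Disjoint C E ∧
    Tc G C A ∧ Tc G C B' ∧ Tc G E A ∧ Tc G E B' ∧ Tc G C E

lemma Rk.mono {S S' : Finset V} {u w : V} {k : ℕ} (h : Rk G S u w k) (hS : S ⊆ S') :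
    Rk G S' u w k := by
  obtain ⟨A, B', F, h1, h2, h3, h4, h5, h6, h7, h8, h9⟩ := h
  exact ⟨A, B', F, h1, h2, h3, h4, h5.trans hS, h6.trans hS, h7,
    fun i => ⟨(h8 i).1.trans hS, (h8 i).2⟩, h9⟩

lemma K4B.mono {S S' : Finset V} {u w : V} (h : K4B G S u w) (hS : S ⊆ S') : K4B G S' u w := by
  obtain ⟨A, B', C, E, h1, h2, h3, h4, h5, h6, h7, h8, h9, h10, h11⟩ := h
  exact ⟨A, B', C, E, h1, h2, h3, h4, h5, h6, h7.trans hS, h8.trans hS, h9.trans hS, h10.trans hS,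
    h11⟩

lemma Rk.symm {S : Finset V} {u w : V} {k : ℕ} (h : Rk G S u w k) : Rk G S w u k := by
  obtain ⟨A, B', F, h1, h2, h3, h4, h5, h6, h7, h8, h9⟩ := h
  exact ⟨B', A, F, h2, h1, h4, h3, h6, h5, h7.symm,
    fun i => ⟨(h8 i).1, (h8 i).2.1, (h8 i).2.2.2.1, (h8 i).2.2.1, (h8 i).2.2.2.2.2,
      (h8 i).2.2.2.2.1⟩, h9⟩

lemma K4B.symm {S : Finset V} {u w : V} (h : K4B G S u w) : K4B G S w u := by
  obtain ⟨A, B', C, E, h1, h2, h3, h4, h5, h6, h7, h8, h9, h10, h11, h12, h13, h14, h15, h16, h17,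
    h18, h19, h20, h21⟩ := h
  exact ⟨B', A, C, E, h2, h1, h4, h3, h5, h6, h8, h7, h9, h10, h11.symm, h14, h15, h12, h13, h16,
    h18, h17, h20, h19, h21⟩

lemma Rk.le {S : Finset V} {u w : V} {k k' : ℕ} (h : Rk G S u w k) (hk : k' ≤ k) :
    Rk G S u w k' := by
  obtain ⟨A, B', F, h1, h2, h3, h4, h5, h6, h7, h8, h9⟩ := h
  refine ⟨A, B', fun i => F (Fin.castLE hk i), h1, h2, h3, h4, h5, h6, h7, fun i => h8 _, ?_⟩
  intro i j hij
  apply h9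
  intro h
  exact hij (Fin.castLE_injective hk h)

/-- extending the second bag -/
lemma Rk.extend {S M R : Finset V} {u z w : V} {k : ℕ} (h : Rk G M u z k) (hM : M ⊆ S)
    (hR : R ⊆ S) (hRc : Cn G R) (hzR : z ∈ R) (hwR : w ∈ R) (hMR : ∀ x ∈ M, x ∈ R → x = z) :
    Rk G S u w k := by
  obtain ⟨A, B', F, h1, h2, h3, h4, h5, h6, h7, h8, h9⟩ := h
  have hd : ∀ X : Finset V, X ⊆ M → Disjoint X B' → Disjoint X (B' ∪ R) := by
    intro X hX hXB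
    rw [disjoint_union_right]
    refine ⟨hXB, ?_⟩
    rw [disjoint_left]
    intro x hx hxR
    have := hMR x (hX hx) hxR
    subst this
    exact disjoint_left.1 hXB hx h2
  refine ⟨A, B' ∪ R, F, h1, mem_union_right _ hwR, h3,
    h4.union hRc (Or.inr ⟨z, mem_inter.2 ⟨h2, hzR⟩⟩), h5.trans hM,
    union_subset (h6.trans hM) hR, hd A h5 h7, ?_, h9⟩
  intro i
  obtain ⟨k1, k2, k3, k4, k5, k6⟩ := h8 i
  exact ⟨k1.trans hM, k2, k3, hd _ k1 k4, k5, k6.mono (Subset.refl _) subset_union_left⟩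

lemma K4B.extend {S M R : Finset V} {u z w : V} (h : K4B G M u z) (hM : M ⊆ S)
    (hR : R ⊆ S) (hRc : Cn G R) (hzR : z ∈ R) (hwR : w ∈ R) (hMR : ∀ x ∈ M, x ∈ R → x = z) :
    K4B G S u w := by
  obtain ⟨A, B', C, E, h1, h2, h3, h4, h5, h6, h7, h8, h9, h10, h11, h12, h13, h14, h15, h16, h17,
    h18, h19, h20, h21⟩ := h
  have hd : ∀ X : Finset V, X ⊆ M → Disjoint B' X → Disjoint (B' ∪ R) X := by
    intro X hX hXB
    rw [disjoint_union_left]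
    refine ⟨hXB, ?_⟩
    rw [disjoint_left]
    intro x hxR hx
    have := hMR x (hX hx) hxR
    subst this
    exact disjoint_left.1 hXB h2 hx
  exact ⟨A, B' ∪ R, C, E, h1, mem_union_right _ hwR, h3,
    h4.union hRc (Or.inr ⟨z, mem_inter.2 ⟨h2, hzR⟩⟩), h5, h6, h7.trans hM,
    union_subset (h8.trans hM) hR, h9.trans hM, h10.trans hM,
    (hd A h7 h11.symm).symm, h12, h13, hd C h9 h14, hd E h10 h15, h16,
    h17, h18.mono (Subset.refl _) subset_union_left, h19,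
    h20.mono (Subset.refl _) subset_union_left, h21⟩

section sdfacts

variable {L : Finset V} {z u w : V}

lemma mem_sd {v : V} : v ∈ sd G L z u ↔ v ∈ L.erase z ∧ tch G (cpt G (L.erase z) v) u := by
  simp [sd]

lemma sd_sub : sd G L z u ⊆ L.erase z := filter_subset _ _

lemma sd_subL : sd G L z u ⊆ L := sd_sub.trans (erase_subset _ _)

lemma z_notMem_sd : z ∉ sd G L z u := fun h => (mem_erase.1 (sd_sub h)).1 rfl

lemma sd_cpt {v x : V} (hv : v ∈ sd G L z u) (hx : x ∈ cpt G (L.erase z) v) :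
    x ∈ sd G L z u := by
  obtain ⟨h1, h2⟩ := mem_sd.1 hv
  rw [mem_sd]
  refine ⟨cpt_subset hx, ?_⟩
  rw [cpt_eq_of_mem h1 hx]
  exact h2

lemma cpt_adj {S : Finset V} {x y : V} (hx : x ∈ S) (hy : y ∈ S) (hxy : G.Adj x y) :
    y ∈ cpt G S x := by
  by_contra h
  exact not_adj_cpt hx (mem_cpt_self hx) hy h hxy

lemma sd_closed {x y : V} (hx : x ∈ sd G L z u) (hy : y ∈ L) (hyz : y ≠ z) (hxy : G.Adj x y) :
    y ∈ sd G L z u :=
  sd_cpt hx (cpt_adj (mem_sd.1 hx).1 (mem_erase.2 ⟨hyz, hy⟩) hxy)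

lemma sd_of_adj {x : V} (hx : x ∈ L) (hxz : x ≠ z) (hxu : G.Adj x u) : x ∈ sd G L z u := by
  rw [mem_sd]
  exact ⟨mem_erase.2 ⟨hxz, hx⟩, x, mem_cpt_self (mem_erase.2 ⟨hxz, hx⟩), hxu⟩

/-- every component of `L - z` touches `z` -/
lemma cpt_touch (hL : Cn G L) (hz : z ∈ L) {v : V} (hv : v ∈ L.erase z) :
    tch G (cpt G (L.erase z) v) z := by
  obtain ⟨x, hx, y, hy, hxy⟩ := hL.2 (cpt G (L.erase z) v) (cpt_subset.trans (erase_subset _ _))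
    ⟨v, mem_cpt_self hv⟩ ⟨z, mem_sdiff.2 ⟨hz, fun h => (mem_erase.1 (cpt_subset h)).1 rfl⟩⟩
  obtain ⟨hyL, hyc⟩ := mem_sdiff.1 hy
  by_cases hyz : y = z
  · exact ⟨x, hx, hyz ▸ hxy⟩
  · exact absurd hxy (not_adj_cpt hv hx (mem_erase.2 ⟨hyz, hyL⟩) hyc)

/-- a union of components of `L - z` together with `z` is connected -/
lemma cn_closed (hL : Cn G L) (hz : z ∈ L) {X : Finset V} (hX : X ⊆ L) (hzX : z ∈ X)
    (hcl : ∀ v ∈ X, v ≠ z → cpt G (L.erase z) v ⊆ X) : Cn G X := by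
  refine ⟨⟨z, hzX⟩, fun T hT hn hn' => ?_⟩
  by_cases hzT : z ∈ T
  · -- a vertex outside T
    obtain ⟨b, hb⟩ := hn'
    obtain ⟨hbX, hbT⟩ := mem_sdiff.1 hb
    have hbz : b ≠ z := by rintro rfl; exact hbT hzT
    have hbe : b ∈ L.erase z := mem_erase.2 ⟨hbz, hX hbX⟩
    by_cases hsub : cpt G (L.erase z) b ⊆ X \ T
    · obtain ⟨a, ha, haz⟩ := cpt_touch hL hz hbe
      exact ⟨z, hzT, a, hsub ha, haz.symm⟩
    · -- the component is split
      have : ∃ c ∈ cpt G (L.erase z) b, c ∈ T := by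
        by_contra hcon
        push Not at hcon
        exact hsub fun c hc => mem_sdiff.2 ⟨hcl b hbX hbz hc, hcon c hc⟩
      obtain ⟨c, hc, hcT⟩ := this
      obtain ⟨x, hx, y, hy, hxy⟩ := (cn_cpt hbe).2 (cpt G (L.erase z) b ∩ T) inter_subset_left
        ⟨c, mem_inter.2 ⟨hc, hcT⟩⟩ ⟨b, mem_sdiff.2 ⟨mem_cpt_self hbe, fun h => hbT (mem_inter.1 h).2⟩⟩
      obtain ⟨hy1, hy2⟩ := mem_sdiff.1 hy
      exact ⟨x, (mem_inter.1 hx).2, y, mem_sdiff.2 ⟨hcl b hbX hbz hy1,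
        fun h => hy2 (mem_inter.2 ⟨hy1, h⟩)⟩, hxy⟩
  · obtain ⟨b, hbT⟩ := hn
    have hbX := hT hbT
    have hbz : b ≠ z := by rintro rfl; exact hzT hbT
    have hbe : b ∈ L.erase z := mem_erase.2 ⟨hbz, hX hbX⟩
    by_cases hsub : cpt G (L.erase z) b ⊆ T
    · obtain ⟨a, ha, haz⟩ := cpt_touch hL hz hbe
      exact ⟨a, hsub ha, z, mem_sdiff.2 ⟨hzX, hzT⟩, haz⟩
    · rw [not_subset] at hsub
      obtain ⟨c, hc, hcT⟩ := hsub
      obtain ⟨x, hx, y, hy, hxy⟩ := (cn_cpt hbe).2 (cpt G (L.erase z) b ∩ T) inter_subset_left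
        ⟨b, mem_inter.2 ⟨mem_cpt_self hbe, hbT⟩⟩ ⟨c, mem_sdiff.2 ⟨hc, fun h => hcT (mem_inter.1 h).2⟩⟩
      obtain ⟨hy1, hy2⟩ := mem_sdiff.1 hy
      exact ⟨x, (mem_inter.1 hx).2, y, mem_sdiff.2 ⟨hcl b hbX hbz hy1,
        fun h => hy2 (mem_inter.2 ⟨hy1, h⟩)⟩, hxy⟩

end sdfacts

/-- a connected set between two terminals -/
structure Raw (G : SimpleGraph V) (L : Finset V) (u w : V) : Prop where
  uL : u ∉ L
  wL : w ∉ L
  ne : u ≠ w
  cn : Cn G L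
  tu : tch G L u
  tw : tch G L w

/-- `z` separates `u` from `w` in `L` -/
def Sep (G : SimpleGraph V) (L : Finset V) (u w z : V) : Prop :=
  z ∈ L ∧ ∀ v, v ∈ sd G L z u → v ∈ sd G L z w → False

lemma Raw.exists_sep {L : Finset V} {u w : V} (h : Raw G L u w)
    (h4 : ¬ K4B G (L ∪ {u, w}) u w) : ∃ z, Sep G L u w z := by
  by_contra hcon
  push Not at hcon
  apply h4
  obtain ⟨Y, C, hYC, hd, hY, hC, h1, h2, h3, h4'⟩ := h.cn.menger
    (A := L.filter (fun v => G.Adj v u)) (B := L.filter (fun v => G.Adj v w)) (by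
    intro z hz
    have := hcon z
    unfold Sep at this
    push Not at this
    obtain ⟨v, hv1, hv2, -⟩ := this hz
    obtain ⟨hv3, a, ha, hau⟩ := mem_sd.1 hv1
    obtain ⟨_, b, hb, hbw⟩ := mem_sd.1 hv2
    refine ⟨cpt G (L.erase z) v, cpt_subset, cn_cpt hv3, ?_, ?_⟩
    · exact ⟨a, mem_inter.2 ⟨ha, mem_filter.2 ⟨(mem_erase.1 (cpt_subset ha)).2, hau⟩⟩⟩
    · exact ⟨b, mem_inter.2 ⟨hb, mem_filter.2 ⟨(mem_erase.1 (cpt_subset hb)).2, hbw⟩⟩⟩)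
  have hYL : Y ⊆ L := by rw [← hYC]; exact subset_union_left
  have hCL : C ⊆ L := by rw [← hYC]; exact subset_union_right
  have tc : ∀ (X : Finset V) (t : V), (X ∩ L.filter (fun v => G.Adj v t)).Nonempty →
      Tc G X {t} := by
    rintro X t ⟨x, hx⟩
    obtain ⟨hx1, hx2⟩ := mem_inter.1 hx
    exact ⟨x, hx1, t, mem_singleton_self _, (mem_filter.1 hx2).2⟩
  have ds : ∀ (X : Finset V) (t : V), X ⊆ L → t ∉ L → Disjoint ({t} : Finset V) X := by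
    intro X t hX ht
    rw [disjoint_singleton_left]
    exact fun h => ht (hX h)
  refine ⟨{u}, {w}, Y, C, by simp, by simp, Cn.singleton _, Cn.singleton _, hY, hC, by simp,
    by simp, hYL.trans subset_union_left, hCL.trans subset_union_left, ?_, ds Y u hYL h.uL,
    ds C u hCL h.uL, ds Y w hYL h.wL, ds C w hCL h.wL, hd, tc _ _ h1, tc _ _ h2, tc _ _ h3,
    tc _ _ h4', ?_⟩
  · rw [disjoint_singleton]; exact h.ne
  · exact h.cn.tc_of_cover hYC.symm hd hY.1 hC.1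

/-- the first part of the series decomposition -/
lemma Raw.first {L : Finset V} {u w z : V} (h : Raw G L u w) (hs : Sep G L u w z)
    (hcn : Cn G (sd G L z u)) : Raw G (sd G L z u) u z := by
  refine ⟨fun h' => h.uL (sd_subL h'), z_notMem_sd, ?_, hcn, ?_, ?_⟩
  · rintro rfl; exact h.uL hs.1
  · obtain ⟨v, hv⟩ := hcn.1
    obtain ⟨a, ha, hau⟩ := (mem_sd.1 hv).2
    exact ⟨a, sd_cpt hv ha, hau⟩
  · obtain ⟨v, hv⟩ := hcn.1
    obtain ⟨a, ha, haz⟩ := cpt_touch h.cn hs.1 (mem_sd.1 hv).1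
    exact ⟨a, sd_cpt hv ha, haz⟩

/-- the separator closest to `u` -/
lemma Raw.exists_sep_min {L : Finset V} {u w : V} (h : Raw G L u w)
    (h4 : ¬ K4B G (L ∪ {u, w}) u w)
    (h4' : ∀ z, Sep G L u w z → ¬ K4B G (sd G L z u ∪ {u, z}) u z) :
    ∃ z, Sep G L u w z ∧ (G.Adj u z ∨ ¬ Cn G (sd G L z u)) := by
  obtain ⟨z₀, hz₀⟩ := h.exists_sep h4
  obtain ⟨z, hz, hmin⟩ := exists_min_image (L.filter (fun z => Sep G L u w z))
    (fun z => (sd G L z u).card) ⟨z₀, mem_filter.2 ⟨hz₀.1, hz₀⟩⟩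
  have hz' := (mem_filter.1 hz).2
  refine ⟨z, hz', ?_⟩
  by_contra hcon
  push Not at hcon
  obtain ⟨huz, hcn⟩ := hcon
  obtain ⟨z₁, hz₁, hsep⟩ := (h.first hz' hcn).exists_sep (h4' z hz')
  set A := sd G L z u with hA
  have hz₁L : z₁ ∈ L := sd_subL hz₁
  have hz₁z : z₁ ≠ z := (mem_erase.1 (sd_sub hz₁)).1
  -- the main claim
  have key : ∀ v ∈ L.erase z₁, tch G (cpt G (L.erase z₁) v) u → z ∉ cpt G (L.erase z₁) v := by
    intro v hv ht hzK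
    obtain ⟨x, hxK, hxu⟩ := ht
    set K := cpt G (L.erase z₁) v with hK
    have hxe := cpt_subset hxK
    obtain ⟨hxz₁, hxL⟩ := mem_erase.1 hxe
    have hxz : x ≠ z := by rintro rfl; exact huz hxu.symm
    have hxA : x ∈ A := sd_of_adj hxL hxz hxu
    have hxA' : x ∈ A.erase z₁ := mem_erase.2 ⟨hxz₁, hxA⟩
    have hK'sub : cpt G (A.erase z₁) x ⊆ K := by
      apply subset_cpt_of_inter hv _ (cn_cpt hxA') ⟨x, mem_inter.2 ⟨mem_cpt_self hxA', hxK⟩⟩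
      intro y hy
      obtain ⟨h1, h2⟩ := mem_erase.1 (cpt_subset hy)
      exact mem_erase.2 ⟨h1, sd_subL h2⟩
    have hzK' : z ∉ cpt G (A.erase z₁) x := by
      intro h'
      exact z_notMem_sd (mem_erase.1 (cpt_subset h')).2
    obtain ⟨y, hy, y', hy', hyy⟩ := (cn_cpt hv).2 _ hK'sub ⟨x, mem_cpt_self hxA'⟩
      ⟨z, mem_sdiff.2 ⟨hzK, hzK'⟩⟩
    obtain ⟨hy'K, hy'n⟩ := mem_sdiff.1 hy'
    obtain ⟨hy'z₁, hy'L⟩ := mem_erase.1 (cpt_subset hy'K)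
    have hyA : y ∈ A := (mem_erase.1 (cpt_subset hy)).2
    by_cases hy'z : y' = z
    · -- touches both
      apply hsep x
      · rw [mem_sd]
        exact ⟨hxA', x, mem_cpt_self hxA', hxu⟩
      · rw [mem_sd]
        exact ⟨hxA', y, hy, hy'z ▸ hyy⟩
    · have hy'A : y' ∈ A := sd_closed hyA hy'L hy'z hyy
      exact not_adj_cpt hxA' hy (mem_erase.2 ⟨hy'z₁, hy'A⟩) hy'n hyy
  have key2 : ∀ v ∈ L.erase z₁, tch G (cpt G (L.erase z₁) v) u →
      cpt G (L.erase z₁) v ⊆ cpt G (L.erase z) v ∧ v ∈ L.erase z := by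
    intro v hv ht
    have hz := key v hv ht
    have hvz : v ∈ L.erase z := by
      refine mem_erase.2 ⟨?_, (mem_erase.1 hv).2⟩
      rintro rfl
      exact hz (mem_cpt_self hv)
    refine ⟨?_, hvz⟩
    apply subset_cpt _ (cn_cpt hv) (mem_cpt_self hv)
    intro y hy
    refine mem_erase.2 ⟨?_, (mem_erase.1 (cpt_subset hy)).2⟩
    rintro rfl
    exact hz hy
  have hs₁ : Sep G L u w z₁ := by
    refine ⟨hz₁L, fun v h1 h2 => ?_⟩
    obtain ⟨hv, ht⟩ := mem_sd.1 h1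
    obtain ⟨_, ht'⟩ := mem_sd.1 h2
    obtain ⟨hsub, hvz⟩ := key2 v hv ht
    obtain ⟨a, ha, hau⟩ := ht
    obtain ⟨b, hb, hbw⟩ := ht'
    exact hz'.2 v (mem_sd.2 ⟨hvz, a, hsub ha, hau⟩) (mem_sd.2 ⟨hvz, b, hsub hb, hbw⟩)
  have hlt : (sd G L z₁ u).card < A.card := by
    apply card_lt_card
    refine ⟨fun v hv => ?_, fun h' => z_notMem_sd (h' hz₁)⟩
    obtain ⟨hv1, ht⟩ := mem_sd.1 hv
    obtain ⟨hsub, hvz⟩ := key2 v hv1 ht
    obtain ⟨a, ha, hau⟩ := ht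
    exact mem_sd.2 ⟨hvz, a, hsub ha, hau⟩
  have := hmin z₁ (mem_filter.2 ⟨hz₁L, hs₁⟩)
  omega

end Pool.Agent.Run7.h855
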