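import Pool.Agent.Run7.h855.Basic
import Pool.Agent.H175R2.Conn
import Pool.Agent.H175R2.Quot

/-! Graphs without a `K_{1,s}` contraction: connected dominating sets and leaves. -/

namespace Pool.Agent.Run7.h855

open Pool.Agent.H175R2 Finset Classical

variable {V W : Type} {G : SimpleGraph V}

/-- neighbours of `v` in `D` -/
noncomputable def nb (G : SimpleGraph V) (D : Finset V) (v : V) : Finset V :=
  D.filter (fun y => G.Adj v y)

lemma mem_nb {D : Finset V} {v y : V} : y ∈ nb G D v ↔ y ∈ D ∧ G.Adj v y := by
  simp [nb]

/-- independent finite sets -/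
def Ind (G : SimpleGraph V) (U : Finset V) : Prop := ∀ u ∈ U, ∀ v ∈ U, ¬ G.Adj u v

lemma Cn.add_dom {S T : Finset V} (hS : Cn G S) (h : ∀ t ∈ T, ∃ y ∈ S, G.Adj t y) :
    Cn G (S ∪ T) := by
  induction T using Finset.induction_on with
  | empty => simpa using hS
  | insert a T ha ih =>
    have h1 := ih (fun t ht => h t (mem_insert_of_mem ht))
    obtain ⟨y, hy, hay⟩ := h a (mem_insert_self _ _)
    have h2 := h1.union (Cn.singleton a) (Or.inl ⟨y, mem_union_left _ hy, a, by simp, hay.symm⟩)
    have : S ∪ insert a T = S ∪ T ∪ {a} := by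
      ext z; simp only [mem_union, mem_insert, mem_singleton]; tauto
    rw [this]
    exact h2

lemma wit_of_cn [Fintype V] {H : SimpleGraph W} {f : V → W}
    (h1 : ∀ w, Cn G (univ.filter (fun v => f v = w)))
    (h2 : ∀ w w', w ≠ w' → (H.Adj w w' ↔ ∃ v v', f v = w ∧ f v' = w' ∧ G.Adj v v')) :
    Wit G H f := by
  refine ⟨fun w => ?_, h2⟩
  have := cn_iff_induce.1 (h1 w)
  have he : ((univ.filter (fun v => f v = w) : Finset V) : Set V) = {v | f v = w} := by
    ext; simp
  rw [he] at this
  exact this

lemma cn_univ [Fintype V] (hG : G.Connected) : Cn G univ := by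
  rw [cn_iff_induce]
  have : ((univ : Finset V) : Set V) = Set.univ := by simp
  rw [this]
  exact (SimpleGraph.induceUnivIso G).connected_iff.2 hG

/-- no star with `s` leaves: independent sets with connected complement have fewer than `s`
elements -/
def NoStar [Fintype V] (G : SimpleGraph V) (s : ℕ) : Prop :=
  ∀ U : Finset V, Ind G U → Cn G Uᶜ → U.card < s

lemma noStar_of [Fintype V] (hG : G.Connected) {s : ℕ} (h : ¬ IsContraction G (B 1 s)) :
    NoStar G s := by
  intro U hU hc
  by_contra hcard
  rw [not_lt] at hcard
  apply h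
  obtain ⟨U', hU', hU'c⟩ := exists_subset_card_eq hcard
  have hout : ∀ u ∈ U, ∃ y ∈ Uᶜ, G.Adj u y := by
    intro u hu
    have huniv := cn_univ hG
    obtain ⟨x, hx, y, hy, hxy⟩ := huniv.2 {u} (subset_univ _) ⟨u, by simp⟩ (by
      obtain ⟨z, hz⟩ := hc.1
      refine ⟨z, ?_⟩
      simp only [mem_sdiff, mem_univ, mem_singleton, true_and]
      rintro rfl
      exact (mem_compl.1 hz) hu)
    rw [mem_singleton] at hx
    subst hx
    refine ⟨y, ?_, hxy⟩
    rw [mem_compl]
    intro hyU
    exact hU x hu y hyU hxy
  have hcn : Cn G U'ᶜ := by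
    have : U'ᶜ = Uᶜ ∪ (U \ U') := by
      ext z
      simp only [mem_compl, mem_union, mem_sdiff]
      constructor
      · intro hz
        by_cases hzU : z ∈ U
        · exact Or.inr ⟨hzU, hz⟩
        · exact Or.inl hzU
      · rintro (hz | hz)
        · exact fun h => hz (hU' h)
        · exact hz.2
    rw [this]
    exact Cn.add_dom hc (fun t ht => hout t (mem_sdiff.1 ht).1)
  have hout' : ∀ u ∈ U', ∃ y ∈ U'ᶜ, G.Adj u y := by
    intro u hu
    obtain ⟨y, hy, h⟩ := hout u (hU' hu)
    refine ⟨y, ?_, h⟩
    rw [mem_compl] at hy ⊢
    exact fun h => hy (hU' h)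
  have ecard : Fintype.card {x // x ∈ U'} = Fintype.card (Fin s) := by simp [hU'c]
  let e : {x // x ∈ U'} ≃ Fin s := Fintype.equivOfCardEq ecard
  let f : V → Fin 1 ⊕ Fin s := fun v => if h : v ∈ U' then .inr (e ⟨v, h⟩) else .inl 0
  have f1 : ∀ v (hv : v ∈ U'), f v = .inr (e ⟨v, hv⟩) := fun v hv => by simp [f, hv]
  have f2 : ∀ v, v ∉ U' → f v = .inl 0 := fun v hv => by simp [f, hv]
  have f3 : ∀ v i, f v = .inl i ↔ v ∉ U' := by
    intro v i
    constructor
    · intro hv hvU
      rw [f1 v hvU] at hv
      exact absurd hv (by simp)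
    · intro hv
      rw [f2 v hv, Subsingleton.elim i 0]
  have f4 : ∀ v j, f v = .inr j ↔ v = (e.symm j).1 := by
    intro v j
    constructor
    · intro hv
      by_cases hvU : v ∈ U'
      · rw [f1 v hvU] at hv
        rw [← Sum.inr.inj hv]
        simp
      · rw [f2 v hvU] at hv
        exact absurd hv (by simp)
    · rintro rfl
      rw [f1 _ (e.symm j).2]
      simp
  refine ⟨f, wit_of_cn (f := f) (H := B 1 s) ?_ ?_⟩
  · rintro (i | j)
    · convert hcn using 1
      ext v; simp [f3]
    · convert Cn.singleton (G := G) (e.symm j).1 using 1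
      ext v; simp [f4]
  · rintro (i | j) (i' | j') hne
    · exact absurd (by rw [Subsingleton.elim i i']) hne
    · constructor
      · intro _
        obtain ⟨y, hy, h⟩ := hout' _ (e.symm j').2
        exact ⟨y, (e.symm j').1, (f3 _ _).2 (mem_compl.1 hy), (f4 _ _).2 rfl, h.symm⟩
      · rintro -
        exact ⟨hne, by rintro ⟨⟨i, hi⟩, -⟩; exact absurd hi (by simp)⟩
    · constructor
      · intro _
        obtain ⟨y, hy, h⟩ := hout' _ (e.symm j).2
        exact ⟨(e.symm j).1, y, (f4 _ _).2 rfl, (f3 _ _).2 (mem_compl.1 hy), h⟩
      · rintro -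
        exact ⟨hne, by rintro ⟨-, ⟨i, hi⟩⟩; exact absurd hi (by simp)⟩
    · constructor
      · intro h
        exact absurd ⟨⟨j, rfl⟩, ⟨j', rfl⟩⟩ h.2
      · rintro ⟨v, v', hv, hv', hadj⟩
        rw [f4] at hv hv'
        subst hv hv'
        exact absurd hadj (hU _ (hU' (e.symm j).2) _ (hU' (e.symm j').2))

/-- growing a connected set and its leaves -/
lemma grow {D : Finset V} (hD : Cn G D) {S₀ L₀ I : Finset V} (hS : S₀ ⊆ D) (hL : L₀ ⊆ S₀)
    (hc : Cn G (S₀ \ L₀)) (hdom : ∀ l ∈ L₀, ∃ y ∈ S₀ \ L₀, G.Adj l y) (hI : I ⊆ D)
    (h3 : ∀ i ∈ I, 3 ≤ (nb G D i).card)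
    (hdisj : ∀ i ∈ I, ∀ j ∈ I, i ≠ j → Disjoint (insert i (nb G D i)) (insert j (nb G D j)))
    (hdisj0 : ∀ i ∈ I, Disjoint (insert i (nb G D i)) S₀) :
    ∃ L ⊆ D, S₀ \ L₀ ⊆ D \ L ∧ Cn G (D \ L) ∧ (∀ l ∈ L, ∃ y ∈ D \ L, G.Adj l y) ∧
      L₀.card + I.card ≤ L.card := by
  let P : Finset V × Finset V → Prop := fun q =>
    q.1 ⊆ D ∧ q.2 ⊆ q.1 ∧ S₀ \ L₀ ⊆ q.1 \ q.2 ∧ Cn G (q.1 \ q.2) ∧
      (∀ l ∈ q.2, ∃ y ∈ q.1 \ q.2, G.Adj l y) ∧
      (∀ i ∈ I, insert i (nb G D i) ⊆ q.1 ∨ Disjoint (insert i (nb G D i)) q.1) ∧
      L₀.card + (I.filter (fun i => insert i (nb G D i) ⊆ q.1)).card ≤ q.2.card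
  have hP0 : P (S₀, L₀) := by
    refine ⟨hS, hL, Subset.refl _, hc, hdom, fun i hi => Or.inr (hdisj0 i hi), ?_⟩
    have : I.filter (fun i => insert i (nb G D i) ⊆ S₀) = ∅ := by
      apply filter_eq_empty_iff.2
      intro i hi hsub
      have h1 := hdisj0 i hi
      exact (disjoint_left.1 h1 (mem_insert_self _ _)) (hsub (mem_insert_self _ _))
    simp [this]
  obtain ⟨⟨S, L⟩, hm, hmax⟩ := exists_max_image ((D.powerset ×ˢ D.powerset).filter P)
    (fun q => q.1.card) ⟨(S₀, L₀), by
      simp only [mem_filter, mem_product, mem_powerset]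
      exact ⟨⟨hS, hL.trans hS⟩, hP0⟩⟩
  simp only [mem_filter, mem_product, mem_powerset] at hm
  obtain ⟨⟨hSD, hLD⟩, -, hLS, hSL, hcn, hd, hI', hcard⟩ := hm
  dsimp only at hSD hLD hLS hSL hcn hd hI' hcard
  have hmax' : ∀ q : Finset V × Finset V, P q → q.1.card ≤ S.card := by
    intro q hq
    apply hmax q
    simp only [mem_filter, mem_product, mem_powerset]
    exact ⟨⟨hq.1, hq.2.1.trans hq.1⟩, hq⟩
  have hSeq : S = D := by
    by_contra hne
    have hn : (D \ S).Nonempty := by
      by_contra hc'
      rw [not_nonempty_iff_eq_empty, sdiff_eq_empty_iff_subset] at hc'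
      exact hne (subset_antisymm hSD hc')
    obtain ⟨y, hy, x, hx, hyx⟩ := hD.2 S hSD ((hcn.1).mono sdiff_subset) hn
    obtain ⟨hxD, hxS⟩ := mem_sdiff.1 hx
    -- `S \ L` with `y` is connected
    have hcy : Cn G ((S \ L) ∪ {y}) := by
      by_cases hyL : y ∈ L
      · obtain ⟨z, hz, hyz⟩ := hd y hyL
        exact hcn.union (Cn.singleton y) (Or.inl ⟨z, hz, y, by simp, hyz.symm⟩)
      · have : (S \ L) ∪ {y} = S \ L := by
          ext z; simp only [mem_union, mem_singleton, mem_sdiff]
          constructor
          · rintro (h | rfl)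
            · exact h
            · exact ⟨hy, hyL⟩
          · exact Or.inl
        rw [this]; exact hcn
    by_cases hA : ∃ i ∈ I, x ∈ insert i (nb G D i)
    · -- a new centre
      obtain ⟨i, hi, hxi⟩ := hA
      have hdi : Disjoint (insert i (nb G D i)) S := by
        rcases hI' i hi with h | h
        · exact absurd (h hxi) hxS
        · exact h
      have hyi : y ∉ insert i (nb G D i) := fun h => disjoint_left.1 hdi h hy
      have hxi' : x ∈ nb G D i := by
        rcases mem_insert.1 hxi with h | h
        · exfalso
          apply hyi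
          rw [mem_insert]; right
          rw [mem_nb]
          exact ⟨hSD hy, by rw [← h]; exact hyx.symm⟩
        · exact h
      have hixadj : G.Adj i x := (mem_nb.1 hxi').2
      have hiN : i ∉ nb G D i := by
        rw [mem_nb]; rintro ⟨-, h⟩; exact h.ne rfl
      have hNS : ∀ z ∈ nb G D i, z ∉ S := fun z hz h =>
        disjoint_left.1 hdi (mem_insert_of_mem hz) h
      have hiS : i ∉ S := fun h => disjoint_left.1 hdi (mem_insert_self _ _) h
      set S' := S ∪ insert i (nb G D i) with hS'
      set L' := L.erase y ∪ (nb G D i).erase x with hL'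
      have hdiff : S' \ L' = ((S \ L) ∪ {y}) ∪ {x} ∪ {i} := by
        ext z
        simp only [hS', hL', mem_sdiff, mem_union, mem_insert, mem_erase, mem_singleton]
        constructor
        · rintro ⟨h1, h2⟩
          rcases h1 with h1 | h1 | h1
          · by_cases hzy : z = y
            · exact Or.inl (Or.inl (Or.inr hzy))
            · refine Or.inl (Or.inl (Or.inl ⟨h1, fun hzL => h2 (Or.inl ⟨hzy, hzL⟩)⟩))
          · exact Or.inr h1
          · by_cases hzx : z = x
            · exact Or.inl (Or.inr hzx)
            · exact absurd (Or.inr ⟨hzx, h1⟩) h2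
        · rintro (((⟨h1, h2⟩ | rfl) | rfl) | rfl)
          · refine ⟨Or.inl h1, ?_⟩
            rintro (h | h)
            · exact h2 h.2
            · exact hNS z h.2 h1
          · refine ⟨Or.inl hy, ?_⟩
            rintro (h | h)
            · exact h.1 rfl
            · exact hNS _ h.2 hy
          · refine ⟨Or.inr (Or.inr hxi'), ?_⟩
            rintro (h | h)
            · exact hxS (hLS h.2)
            · exact h.1 rfl
          · refine ⟨Or.inr (Or.inl rfl), ?_⟩
            rintro (h | h)
            · exact hiS (hLS h.2)
            · exact hiN h.2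
      have hP' : P (S', L') := by
        refine ⟨?_, ?_, ?_, ?_, ?_, ?_, ?_⟩
        · apply union_subset hSD
          intro z hz
          rcases mem_insert.1 hz with rfl | hz
          · exact hI hi
          · exact (mem_nb.1 hz).1
        · apply union_subset
          · exact (erase_subset _ _).trans (hLS.trans subset_union_left)
          · exact (erase_subset _ _).trans ((subset_insert _ _).trans subset_union_right)
        · dsimp only
          rw [hdiff]
          intro z hz
          exact mem_union_left _ (mem_union_left _ (mem_union_left _ (hSL hz)))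
        · dsimp only
          rw [hdiff]
          refine (hcy.union (Cn.singleton x) (Or.inl ⟨y, by simp, x, by simp, hyx⟩)).union
            (Cn.singleton i) (Or.inl ⟨x, by simp, i, by simp, hixadj.symm⟩)
        · dsimp only
          rw [hdiff]
          intro l hl
          rcases mem_union.1 hl with hl | hl
          · obtain ⟨z, hz, hlz⟩ := hd l (mem_of_mem_erase hl)
            exact ⟨z, mem_union_left _ (mem_union_left _ (mem_union_left _ hz)), hlz⟩
          · exact ⟨i, by simp, ((mem_nb.1 (mem_of_mem_erase hl)).2).symm⟩
        · intro j hj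
          by_cases hji : j = i
          · subst hji
            exact Or.inl subset_union_right
          · rcases hI' j hj with h | h
            · exact Or.inl (h.trans subset_union_left)
            · right
              dsimp only
              rw [hS', disjoint_union_right]
              exact ⟨h, hdisj j hj i hi hji⟩
        · have hsub : (I.filter (fun j => insert j (nb G D j) ⊆ S')) ⊆
              insert i (I.filter (fun j => insert j (nb G D j) ⊆ S)) := by
            intro j hj
            rw [mem_filter] at hj
            rw [mem_insert, mem_filter]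
            by_cases hji : j = i
            · exact Or.inl hji
            · right
              refine ⟨hj.1, ?_⟩
              intro z hz
              rcases mem_union.1 (hj.2 hz) with h | h
              · exact h
              · exact absurd h (disjoint_left.1 (hdisj j hj.1 i hi hji) hz)
          have h4 := (card_le_card hsub).trans (card_insert_le _ _)
          have h5 : L'.card = (L.erase y).card + ((nb G D i).erase x).card := by
            apply card_union_of_disjoint
            rw [disjoint_left]
            intro z hz hz'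
            exact hNS z (mem_of_mem_erase hz') (hLS (mem_of_mem_erase hz))
          have h6 : ((nb G D i).erase x).card = (nb G D i).card - 1 := card_erase_of_mem hxi'
          have h7 : L.card - 1 ≤ (L.erase y).card := pred_card_le_card_erase
          have h8 := h3 i hi
          dsimp only
          omega
      have := hmax' _ hP'
      have h9 : S ⊂ S' := by
        refine ⟨subset_union_left, fun h => hiS (h ?_)⟩
        exact mem_union_right _ (mem_insert_self _ _)
      have := card_lt_card h9
      dsimp only at *
      omega
    · -- a new vertex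
      push Not at hA
      have hdiff : (insert x S) \ (insert x (L.erase y)) = (S \ L) ∪ {y} := by
        ext z
        simp only [mem_sdiff, mem_union, mem_insert, mem_erase, mem_singleton]
        constructor
        · rintro ⟨h1, h2⟩
          rcases h1 with h1 | h1
          · exact absurd (Or.inl h1) h2
          · by_cases hzy : z = y
            · exact Or.inr hzy
            · exact Or.inl ⟨h1, fun h => h2 (Or.inr ⟨hzy, h⟩)⟩
        · rintro (⟨h1, h2⟩ | rfl)
          · refine ⟨Or.inr h1, ?_⟩
            rintro (rfl | h)
            · exact hxS h1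
            · exact h2 h.2
          · refine ⟨Or.inr hy, ?_⟩
            rintro (rfl | h)
            · exact hxS hy
            · exact h.1 rfl
      have hP' : P (insert x S, insert x (L.erase y)) := by
        refine ⟨?_, ?_, ?_, ?_, ?_, ?_, ?_⟩
        · exact insert_subset hxD hSD
        · exact insert_subset_insert _ ((erase_subset _ _).trans hLS)
        · dsimp only
          rw [hdiff]
          exact hSL.trans subset_union_left
        · dsimp only
          rw [hdiff]
          exact hcy
        · dsimp only
          rw [hdiff]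
          intro l hl
          rcases mem_insert.1 hl with rfl | hl
          · exact ⟨y, by simp, hyx.symm⟩
          · obtain ⟨z, hz, hlz⟩ := hd l (mem_of_mem_erase hl)
            exact ⟨z, mem_union_left _ hz, hlz⟩
        · intro j hj
          rcases hI' j hj with h | h
          · exact Or.inl (h.trans (subset_insert _ _))
          · right
            dsimp only
            rw [disjoint_insert_right]
            exact ⟨hA j hj, h⟩
        · have hsub : (I.filter (fun j => insert j (nb G D j) ⊆ insert x S)) ⊆
              (I.filter (fun j => insert j (nb G D j) ⊆ S)) := by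
            intro j hj
            rw [mem_filter] at hj ⊢
            refine ⟨hj.1, ?_⟩
            intro z hz
            rcases mem_insert.1 (hj.2 hz) with h | h
            · subst h
              exact absurd hz (hA j hj.1)
            · exact h
          have h4 := card_le_card hsub
          have h5 : (insert x (L.erase y)).card = (L.erase y).card + 1 := by
            apply card_insert_of_notMem
            intro h
            exact hxS (hLS (mem_of_mem_erase h))
          have h7 : L.card - 1 ≤ (L.erase y).card := pred_card_le_card_erase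
          dsimp only
          omega
      have := hmax' _ hP'
      have h9 : (insert x S).card = S.card + 1 := card_insert_of_notMem hxS
      dsimp only at *
      omega
  subst hSeq
  refine ⟨L, hLD, hSL, hcn, hd, ?_⟩
  have : I.filter (fun i => insert i (nb G S i) ⊆ S) = I := by
    apply filter_true_of_mem
    intro i hi z hz
    rcases mem_insert.1 hz with rfl | hz
    · exact hI hi
    · exact (mem_nb.1 hz).1
  rw [this] at hcard
  exact hcard

end Pool.Agent.Run7.h855
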