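import Pool.Agent.Run7.h855.Star

/-! Structure of connected graphs without a `K_{1,s}` contraction. -/

namespace Pool.Agent.Run7.h855

open Pool.Agent.H175R2 Finset Classical

variable {V : Type} [Fintype V] {G : SimpleGraph V}

/-- minimum connected dominating set -/
structure MCD (G : SimpleGraph V) (C : Finset V) : Prop where
  cn : Cn G C
  dom : ∀ v, v ∉ C → ∃ c ∈ C, G.Adj v c
  min : ∀ C', Cn G C' → (∀ v, v ∉ C' → ∃ c ∈ C', G.Adj v c) → C.card ≤ C'.card

lemma exists_MCD (hG : G.Connected) : ∃ C, MCD G C := by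
  obtain ⟨C, hC, hmin⟩ := exists_min_image
    ((univ : Finset (Finset V)).filter (fun C => Cn G C ∧ ∀ v, v ∉ C → ∃ c ∈ C, G.Adj v c))
    (fun C => C.card) ⟨univ, by
      rw [mem_filter]
      exact ⟨mem_univ _, cn_univ hG, fun v hv => absurd (mem_univ v) hv⟩⟩
  simp only [mem_filter, mem_univ, true_and] at hC hmin
  exact ⟨C, hC.1, hC.2, fun C' h1 h2 => hmin C' ⟨h1, h2⟩⟩

omit [Fintype V] in
lemma max_ind (G : SimpleGraph V) (R : Finset V) :
    ∃ U ⊆ R, Ind G U ∧ ∀ r ∈ R, r ∉ U → ∃ u ∈ U, G.Adj r u := by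
  obtain ⟨U, hU, hmax⟩ := exists_max_image (R.powerset.filter (fun U => Ind G U))
    (fun U => U.card) ⟨∅, by simp [Ind]⟩
  simp only [mem_filter, mem_powerset] at hU hmax
  refine ⟨U, hU.1, hU.2, ?_⟩
  intro r hr hrU
  by_contra hcon
  push Not at hcon
  have := hmax (insert r U) ⟨insert_subset hr hU.1, by
    intro u hu v hv
    rcases mem_insert.1 hu with hu' | hu'
    · subst hu'
      rcases mem_insert.1 hv with hv' | hv'
      · subst hv'
        exact fun h => h.ne rfl
      · exact hcon v hv'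
    · rcases mem_insert.1 hv with hv' | hv'
      · subst hv'
        exact fun h => hcon u hu' h.symm
      · exact hU.2 u hu' v hv'⟩
  rw [card_insert_of_notMem hrU] at this
  omega

lemma MCD.alpha {C : Finset V} (hC : MCD G C) {s : ℕ} (hs : NoStar G s) {U : Finset V}
    (hU : Ind G U) (hd : Disjoint U C) : U.card < s := by
  apply hs U hU
  have : Uᶜ = C ∪ (Uᶜ \ C) := by
    ext z
    simp only [mem_compl, mem_union, mem_sdiff]
    constructor
    · intro hz
      by_cases hzC : z ∈ C
      · exact Or.inl hzC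
      · exact Or.inr ⟨hz, hzC⟩
    · rintro (hz | hz)
      · exact fun h => disjoint_left.1 hd h hz
      · exact hz.1
  rw [this]
  exact Cn.add_dom hC.cn (fun t ht => hC.dom t (mem_sdiff.1 ht).2)

lemma MCD.leaves_le {C : Finset V} (hC : MCD G C) {s : ℕ} (hs : NoStar G s) {L : Finset V}
    (hL : L ⊆ C) (hc : Cn G (C \ L)) (hd : ∀ l ∈ L, ∃ y ∈ C \ L, G.Adj l y) :
    L.card ≤ 2 * (s - 1) := by
  obtain ⟨U, hUR, hU, hUmax⟩ := max_ind G
    (univ.filter (fun v => v ∉ C ∧ ∀ c ∈ C \ L, ¬ G.Adj v c))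
  have hUR' : ∀ u ∈ U, u ∉ C ∧ ∀ c ∈ C \ L, ¬ G.Adj u c := by
    intro u hu
    have := hUR hu
    simpa using this
  have hdisj : Disjoint U C := by
    rw [disjoint_left]
    exact fun u hu => (hUR' u hu).1
  have hUs := hC.alpha hs hU hdisj
  have hnb : ∀ u : V, ∃ c, u ∈ U → c ∈ L ∧ G.Adj u c := by
    intro u
    by_cases hu : u ∈ U
    · obtain ⟨c, hc, huc⟩ := hC.dom u (hUR' u hu).1
      refine ⟨c, fun _ => ⟨?_, huc⟩⟩
      by_contra hcL
      exact (hUR' u hu).2 c (mem_sdiff.2 ⟨hc, hcL⟩) huc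
    · exact ⟨u, fun h => absurd h hu⟩
  choose c hc' using hnb
  have h1 : Cn G ((C \ L) ∪ U.image c) := by
    apply Cn.add_dom hc
    intro t ht
    obtain ⟨u, hu, rfl⟩ := mem_image.1 ht
    exact hd _ (hc' u hu).1
  have h2 : Cn G (((C \ L) ∪ U.image c) ∪ U) := by
    apply Cn.add_dom h1
    intro u hu
    exact ⟨c u, mem_union_right _ (mem_image_of_mem _ hu), (hc' u hu).2⟩
  have h3 := hC.min _ h2 (by
    intro v hv
    simp only [mem_union, not_or] at hv
    obtain ⟨⟨hv1, hv2⟩, hv3⟩ := hv
    by_cases hvC : v ∈ C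
    · have hvL : v ∈ L := by
        by_contra h
        exact hv1 (mem_sdiff.2 ⟨hvC, h⟩)
      obtain ⟨y, hy, hvy⟩ := hd v hvL
      exact ⟨y, mem_union_left _ (mem_union_left _ hy), hvy⟩
    · by_cases hvR : ∀ c ∈ C \ L, ¬ G.Adj v c
      · obtain ⟨u, hu, hvu⟩ := hUmax v (by simp only [mem_filter, mem_univ, true_and]; exact ⟨hvC, hvR⟩) hv3
        exact ⟨u, mem_union_right _ hu, hvu⟩
      · push Not at hvR
        obtain ⟨c, hc, hvc⟩ := hvR
        exact ⟨c, mem_union_left _ (mem_union_left _ hc), hvc⟩)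
  have h4 := card_union_le ((C \ L) ∪ U.image c) U
  have h5 := card_union_le (C \ L) (U.image c)
  have h6 : (U.image c).card ≤ U.card := card_image_le
  have h7 : (C \ L).card = C.card - L.card := card_sdiff_of_subset hL
  have h8 := card_le_card hL
  omega

lemma MCD.deg_le {C : Finset V} (hC : MCD G C) {s : ℕ} (hs : NoStar G s) {v : V} (hv : v ∈ C) :
    (nb G C v).card ≤ 2 * (s - 1) := by
  have hvn : v ∉ nb G C v := by rw [mem_nb]; exact fun h => h.2.ne rfl
  have hsd : insert v (nb G C v) \ nb G C v = {v} := by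
    ext z
    simp only [mem_sdiff, mem_insert, mem_singleton]
    constructor
    · rintro ⟨h1 | h1, h2⟩
      · exact h1
      · exact absurd h1 h2
    · rintro rfl
      exact ⟨Or.inl rfl, hvn⟩
  obtain ⟨L, hL, -, hc, hd, hcard⟩ := grow hC.cn (S₀ := insert v (nb G C v)) (L₀ := nb G C v)
    (I := ∅) (by
      intro z hz
      rcases mem_insert.1 hz with rfl | hz
      · exact hv
      · exact (mem_nb.1 hz).1) (subset_insert _ _) (by rw [hsd]; exact Cn.singleton v)
    (by
      intro l hl
      rw [hsd]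
      exact ⟨v, by simp, (mem_nb.1 hl).2.symm⟩) (by simp) (by simp) (by simp) (by simp)
  have := hC.leaves_le hs hL hc hd
  simp at hcard
  omega

/-- the vertices of degree at least three in `G[C]` -/
lemma MCD.deg3 {C : Finset V} (hC : MCD G C) {s : ℕ} (hs : NoStar G s) :
    (C.filter (fun v => 3 ≤ (nb G C v).card)).card ≤ (2 * (s - 1) + 1) ^ 3 := by
  set k := 2 * (s - 1) with hk
  set T := C.filter (fun v => 3 ≤ (nb G C v).card) with hT
  let N : V → Finset V := fun v => insert v (nb G C v)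
  obtain ⟨I, hI, hmax⟩ := exists_max_image (T.powerset.filter (fun I =>
    ∀ i ∈ I, ∀ j ∈ I, i ≠ j → Disjoint (N i) (N j))) (fun I => I.card) ⟨∅, by simp⟩
  simp only [mem_filter, mem_powerset] at hI hmax
  obtain ⟨hIT, hId⟩ := hI
  have hNle : ∀ v ∈ C, (N v).card ≤ k + 1 := by
    intro v hv
    have h1 := card_insert_le v (nb G C v)
    have h2 := hC.deg_le hs hv
    show (insert v (nb G C v)).card ≤ _
    omega
  have hNC : ∀ v ∈ C, N v ⊆ C := by
    intro v hv z hz
    rcases mem_insert.1 hz with rfl | hz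
    · exact hv
    · exact (mem_nb.1 hz).1
  have hIk : I.card ≤ k := by
    rcases I.eq_empty_or_nonempty with rfl | ⟨i₀, hi₀⟩
    · simp
    have hi₀T := hIT hi₀
    have hi₀C : i₀ ∈ C := (mem_filter.1 hi₀T).1
    have hvn : i₀ ∉ nb G C i₀ := by rw [mem_nb]; exact fun h => h.2.ne rfl
    have hsd : insert i₀ (nb G C i₀) \ nb G C i₀ = {i₀} := by
      ext z
      simp only [mem_sdiff, mem_insert, mem_singleton]
      constructor
      · rintro ⟨h1 | h1, h2⟩
        · exact h1
        · exact absurd h1 h2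
      · rintro rfl
        exact ⟨Or.inl rfl, hvn⟩
    obtain ⟨L, hL, -, hc, hd, hcard⟩ := grow hC.cn (S₀ := insert i₀ (nb G C i₀))
      (L₀ := nb G C i₀) (I := I.erase i₀) (hNC i₀ hi₀C) (subset_insert _ _)
      (by rw [hsd]; exact Cn.singleton _)
      (by
        intro l hl
        rw [hsd]
        exact ⟨i₀, by simp, (mem_nb.1 hl).2.symm⟩)
      (by
        intro i hi
        exact (mem_filter.1 (hIT (mem_of_mem_erase hi))).1)
      (by
        intro i hi
        exact (mem_filter.1 (hIT (mem_of_mem_erase hi))).2)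
      (by
        intro i hi j hj hij
        exact hId i (mem_of_mem_erase hi) j (mem_of_mem_erase hj) hij)
      (by
        intro i hi
        exact hId i (mem_of_mem_erase hi) i₀ hi₀ (ne_of_mem_erase hi))
    have h1 := hC.leaves_le hs hL hc hd
    have h2 : (I.erase i₀).card = I.card - 1 := card_erase_of_mem hi₀
    have h3 := (mem_filter.1 hi₀T).2
    omega
  have hcov : T ⊆ I.biUnion (fun i => (N i).biUnion N) := by
    intro t ht
    simp only [mem_biUnion]
    have htC := (mem_filter.1 ht).1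
    by_cases htI : t ∈ I
    · exact ⟨t, htI, t, mem_insert_self _ _, mem_insert_self _ _⟩
    by_cases hall : ∀ i ∈ I, Disjoint (N t) (N i)
    · exfalso
      have := hmax (insert t I) ⟨insert_subset ht hIT, by
        intro i hi j hj hij
        rcases mem_insert.1 hi with hi' | hi'
        · rcases mem_insert.1 hj with hj' | hj'
          · exact absurd (hi'.trans hj'.symm) hij
          · rw [hi']; exact hall j hj'
        · rcases mem_insert.1 hj with hj' | hj'
          · rw [hj']; exact (hall i hi').symm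
          · exact hId i hi' j hj' hij⟩
      rw [card_insert_of_notMem htI] at this
      omega
    · push Not at hall
      obtain ⟨i, hi, hnd⟩ := hall
      rw [not_disjoint_iff] at hnd
      obtain ⟨z, hzt, hzi⟩ := hnd
      refine ⟨i, hi, z, hzi, ?_⟩
      rcases mem_insert.1 hzt with rfl | hz
      · exact mem_insert_self _ _
      · apply mem_insert_of_mem
        rw [mem_nb]
        exact ⟨htC, (mem_nb.1 hz).2.symm⟩
  calc T.card ≤ _ := card_le_card hcov
    _ ≤ I.card * ((k + 1) * (k + 1)) := by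
        apply card_biUnion_le_card_mul
        intro i hi
        have hiC : i ∈ C := (mem_filter.1 (hIT hi)).1
        calc ((N i).biUnion N).card ≤ (N i).card * (k + 1) := by
              apply card_biUnion_le_card_mul
              intro z hz
              exact hNle z (hNC i hiC hz)
          _ ≤ _ := Nat.mul_le_mul_right _ (hNle i hiC)
    _ ≤ (k + 1) * ((k + 1) * (k + 1)) := Nat.mul_le_mul_right _ (by omega)
    _ = _ := by ring

omit [Fintype V] in
/-- removing a vertex of degree at most one -/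
lemma Cn.erase_leaf {D : Finset V} (hD : Cn G D) {a : V} (ha : a ∈ D) (hne : D ≠ {a})
    (h1 : (nb G D a).card ≤ 1) : Cn G (D.erase a) := by
  have huniq : ∀ x ∈ D, ∀ y ∈ D, G.Adj a x → G.Adj a y → x = y := by
    intro x hx y hy hax hay
    exact card_le_one.1 h1 x (mem_nb.2 ⟨hx, hax⟩) y (mem_nb.2 ⟨hy, hay⟩)
  refine ⟨?_, ?_⟩
  · rw [nonempty_iff_ne_empty]
    intro h
    apply hne
    ext z
    rw [mem_singleton]
    constructor
    · intro hz
      by_contra hza
      have : z ∈ D.erase a := mem_erase.2 ⟨hza, hz⟩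
      rw [h] at this
      exact absurd this (notMem_empty _)
    · rintro rfl; exact ha
  · intro T hT hn hn'
    have haT : a ∉ T := fun h => (mem_erase.1 (hT h)).1 rfl
    have hTD : T ⊆ D := hT.trans (erase_subset _ _)
    by_cases hu : ∃ u ∈ T, G.Adj a u
    · obtain ⟨u, huT, hau⟩ := hu
      obtain ⟨q, hq⟩ := hn'
      obtain ⟨hq1, hq2⟩ := mem_sdiff.1 hq
      obtain ⟨x, hx, y, hy, hxy⟩ := hD.2 (insert a T) (insert_subset ha hTD)
        ⟨a, mem_insert_self _ _⟩ ⟨q, mem_sdiff.2 ⟨mem_of_mem_erase hq1, by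
          rw [mem_insert]; push Not; exact ⟨ne_of_mem_erase hq1, hq2⟩⟩⟩
      obtain ⟨hyD, hyT⟩ := mem_sdiff.1 hy
      rw [mem_insert] at hyT
      push Not at hyT
      rcases mem_insert.1 hx with rfl | hx
      · exfalso
        have := huniq y hyD u (hTD huT) hxy hau
        subst this
        exact hyT.2 huT
      · exact ⟨x, hx, y, mem_sdiff.2 ⟨mem_erase.2 ⟨hyT.1, hyD⟩, hyT.2⟩, hxy⟩
    · obtain ⟨q, hq⟩ := hn'
      obtain ⟨hq1, hq2⟩ := mem_sdiff.1 hq
      obtain ⟨x, hx, y, hy, hxy⟩ := hD.2 T hTD hn ⟨q, mem_sdiff.2 ⟨mem_of_mem_erase hq1, hq2⟩⟩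
      obtain ⟨hyD, hyT⟩ := mem_sdiff.1 hy
      refine ⟨x, hx, y, mem_sdiff.2 ⟨mem_erase.2 ⟨?_, hyD⟩, hyT⟩, hxy⟩
      rintro rfl
      exact hu ⟨x, hx, hxy.symm⟩

/-- the vertices of degree at most one in `G[C]` -/
lemma MCD.deg1 {C : Finset V} (hC : MCD G C) {s : ℕ} (hs : NoStar G s) :
    (C.filter (fun v => (nb G C v).card ≤ 1)).card ≤ 2 * (s - 1) + 2 := by
  set T := C.filter (fun v => (nb G C v).card ≤ 1) with hT
  by_cases hcard : C.card ≤ 2
  · have : T.card ≤ C.card := card_le_card (filter_subset (fun v => (nb G C v).card ≤ 1) C)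
    omega
  -- a vertex of degree at least two
  have hm : ∃ m ∈ C, 2 ≤ (nb G C m).card := by
    obtain ⟨a, ha⟩ := hC.cn.1
    have h1 : (C \ {a}).Nonempty := by
      rw [← card_pos, card_sdiff_of_subset (by simpa using ha)]
      simp; omega
    obtain ⟨a', ha', b, hb, hab⟩ := hC.cn.2 {a} (by simpa using ha) ⟨a, by simp⟩ h1
    rw [mem_singleton] at ha'
    subst ha'
    have hbC := (mem_sdiff.1 hb).1
    have hne : a' ≠ b := hab.ne
    have h2 : (C \ {a', b}).Nonempty := by
      rw [← card_pos, card_sdiff_of_subset (by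
        intro z hz
        simp only [mem_insert, mem_singleton] at hz
        rcases hz with rfl | rfl
        · exact ha
        · exact hbC)]
      have := card_le_two (a := a') (b := b)
      omega
    obtain ⟨x, hx, y, hy, hxy⟩ := hC.cn.2 {a', b} (by
      intro z hz
      simp only [mem_insert, mem_singleton] at hz
      rcases hz with rfl | rfl
      · exact ha
      · exact hbC) ⟨a', by simp⟩ h2
    obtain ⟨hyC, hy'⟩ := mem_sdiff.1 hy
    simp only [mem_insert, mem_singleton, not_or] at hx hy'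
    rcases hx with rfl | rfl
    · refine ⟨x, ha, ?_⟩
      have : ({b, y} : Finset V) ⊆ nb G C x := by
        intro z hz
        simp only [mem_insert, mem_singleton] at hz
        rcases hz with rfl | rfl
        · exact mem_nb.2 ⟨hbC, hab⟩
        · exact mem_nb.2 ⟨hyC, hxy⟩
      have h3 := card_le_card this
      rw [card_pair (Ne.symm hy'.2)] at h3
      exact h3
    · refine ⟨x, hbC, ?_⟩
      have : ({a', y} : Finset V) ⊆ nb G C x := by
        intro z hz
        simp only [mem_insert, mem_singleton] at hz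
        rcases hz with rfl | rfl
        · exact mem_nb.2 ⟨ha, hab.symm⟩
        · exact mem_nb.2 ⟨hyC, hxy⟩
      have h3 := card_le_card this
      rw [card_pair (Ne.symm hy'.1)] at h3
      exact h3
  obtain ⟨m, hmC, hm2⟩ := hm
  have hmT : m ∉ T := by
    rw [hT, mem_filter]; rintro ⟨-, h⟩; omega
  have hTC : T ⊆ C := filter_subset _ _
  have hcn : ∀ A : Finset V, A ⊆ T → Cn G (C \ A) := by
    intro A
    induction A using Finset.induction_on with
    | empty => intro _; simpa using hC.cn
    | insert a A ha ih =>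
      intro hA
      have h1 := ih ((subset_insert _ _).trans hA)
      have haT : a ∈ T := hA (mem_insert_self _ _)
      have haC : a ∈ C \ A := mem_sdiff.2 ⟨hTC haT, ha⟩
      have : C \ insert a A = (C \ A).erase a := by
        ext z; simp only [mem_sdiff, mem_insert, mem_erase]; tauto
      rw [this]
      apply Cn.erase_leaf h1 haC
      · intro h
        have hm' : m ∈ C \ A := mem_sdiff.2 ⟨hmC, fun h' => hmT (hA (mem_insert_of_mem h'))⟩
        rw [h, mem_singleton] at hm'
        subst hm'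
        exact hmT haT
      · refine le_trans (card_le_card ?_) (mem_filter.1 haT).2
        intro z hz
        rw [mem_nb] at hz ⊢
        exact ⟨(mem_sdiff.1 hz.1).1, hz.2⟩
  have h1 := hC.leaves_le hs hTC (hcn T (Subset.refl _)) (by
    intro t ht
    have htC := hTC ht
    -- t has a neighbour
    obtain ⟨t', ht', z, hz, htz⟩ := hC.cn.2 {t} (by simpa using htC) ⟨t, by simp⟩ ⟨m, by
      rw [mem_sdiff, mem_singleton]
      exact ⟨hmC, fun h => hmT (h ▸ ht)⟩⟩
    rw [mem_singleton] at ht'
    subst ht'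
    have hzC := (mem_sdiff.1 hz).1
    by_cases hzT : z ∈ T
    · exfalso
      obtain ⟨x, hx, y, hy, hxy⟩ := hC.cn.2 {t', z} (by
        intro z' hz'
        simp only [mem_insert, mem_singleton] at hz'
        rcases hz' with rfl | rfl
        · exact htC
        · exact hzC) ⟨t', by simp⟩ ⟨m, by
          simp only [mem_sdiff, mem_insert, mem_singleton, not_or]
          exact ⟨hmC, fun h => hmT (h ▸ ht), fun h => hmT (h ▸ hzT)⟩⟩
      obtain ⟨hyC, hy'⟩ := mem_sdiff.1 hy
      simp only [mem_insert, mem_singleton, not_or] at hx hy'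
      rcases hx with rfl | rfl
      · exact hy'.2 (card_le_one.1 (mem_filter.1 ht).2 y (mem_nb.2 ⟨hyC, hxy⟩) z
          (mem_nb.2 ⟨hzC, htz⟩))
      · exact hy'.1 (card_le_one.1 (mem_filter.1 hzT).2 y (mem_nb.2 ⟨hyC, hxy⟩) t'
          (mem_nb.2 ⟨htC, htz.symm⟩))
    · exact ⟨z, mem_sdiff.2 ⟨hzC, hzT⟩, htz⟩)
  omega

end Pool.Agent.Run7.h855
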