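import Pool.Agent.Run7.h855.Star2

/-! Structure of connected graphs without a `K_{1,s}` contraction. -/

namespace Pool.Agent.Run7.h855

open Pool.Agent.H175R2 Finset Classical

variable {V : Type} {G : SimpleGraph V}

/-- `X` is the core, `D` consists of paths attached to `X` at their ends. -/
structure Str (G : SimpleGraph V) (X D : Finset V) : Prop where
  disj : Disjoint X D
  ne : X.Nonempty
  deg : ∀ d ∈ D, (nb G (X ∪ D) d).card = 2
  out : ∀ d ∈ D, ∀ v, G.Adj d v → v ∈ X ∪ D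
  one : ∀ x ∈ X, (nb G D x).card ≤ 1

/-- bound for the number of vertices of degree different from two -/
def bd0 (s : ℕ) : ℕ := (2 * (s - 1) + 1) ^ 3 + (2 * (s - 1) + 2)

/-- bound for the core -/
def bd (s : ℕ) : ℕ := (bd0 s + s * (bd0 s + 4 * s) + 1) * (1 + 2 * (s - 1))

variable [Fintype V]

lemma MCD.bad {C : Finset V} (hC : MCD G C) {s : ℕ} (hs : NoStar G s) :
    (C.filter (fun v => (nb G C v).card ≠ 2)).card ≤ bd0 s := by
  have h1 := hC.deg3 hs
  have h2 := hC.deg1 hs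
  have : C.filter (fun v => (nb G C v).card ≠ 2) ⊆
      C.filter (fun v => 3 ≤ (nb G C v).card) ∪ C.filter (fun v => (nb G C v).card ≤ 1) := by
    intro z hz
    rw [mem_filter] at hz
    rw [mem_union, mem_filter, mem_filter]
    rcases lt_or_gt_of_ne hz.2 with h | h
    · exact Or.inr ⟨hz.1, by omega⟩
    · exact Or.inl ⟨hz.1, by omega⟩
  have h3 := (card_le_card this).trans (card_union_le _ _)
  unfold bd0
  omega

lemma MCD.touch {C : Finset V} (hC : MCD G C) {s : ℕ} (hs : NoStar G s) {u : V} (hu : u ∉ C) :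
    (C.filter (fun y => ∃ w, w ∉ C ∧ G.Adj y w ∧ (w = u ∨ G.Adj w u))).card ≤
      bd0 s + 4 * s := by
  set Y := C.filter (fun y => ∃ w, w ∉ C ∧ G.Adj y w ∧ (w = u ∨ G.Adj w u)) with hY
  have hw : ∀ y : V, ∃ w, y ∈ Y → w ∉ C ∧ G.Adj y w ∧ (w = u ∨ G.Adj w u) := by
    intro y
    by_cases hy : y ∈ Y
    · obtain ⟨w, hw⟩ := (mem_filter.1 hy).2
      exact ⟨w, fun _ => hw⟩
    · exact ⟨y, fun h => absurd h hy⟩
  choose w hw using hw
  have hYC : Y ⊆ C := filter_subset _ _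
  set Z : Finset V := {u} ∪ (Y.image w).filter (fun z => z ≠ u) with hZ
  have hZmem : ∀ z ∈ Z, z = u ∨ ∃ y ∈ Y, z = w y ∧ z ≠ u := by
    intro z hz
    rcases mem_union.1 hz with hz | hz
    · exact Or.inl (mem_singleton.1 hz)
    · right
      obtain ⟨h1, h2⟩ := mem_filter.1 hz
      obtain ⟨y, hy, rfl⟩ := mem_image.1 h1
      exact ⟨y, hy, rfl, h2⟩
  have hZw : ∀ y ∈ Y, w y ∈ Z := by
    intro y hy
    by_cases h : w y = u
    · rw [h]; exact mem_union_left _ (mem_singleton_self _)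
    · exact mem_union_right _ (mem_filter.2 ⟨mem_image_of_mem _ hy, h⟩)
  have hZcn : Cn G Z := by
    apply Cn.add_dom (Cn.singleton u)
    intro t ht
    obtain ⟨h1, h2⟩ := mem_filter.1 ht
    obtain ⟨y, hy, rfl⟩ := mem_image.1 h1
    exact ⟨u, mem_singleton_self _, ((hw y hy).2.2).resolve_left h2⟩
  have hZC : ∀ z ∈ Z, z ∉ C := by
    intro z hz
    rcases hZmem z hz with rfl | ⟨y, hy, rfl, -⟩
    · exact hu
    · exact (hw y hy).1
  have hDcn : Cn G (C ∪ Z) := Cn.add_dom hC.cn (fun t ht => hC.dom t (hZC t ht))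
  have hsd : (Z ∪ Y) \ Y = Z := by
    rw [union_sdiff_right]
    apply sdiff_eq_self_of_disjoint
    rw [disjoint_left]
    exact fun z hz h => hZC z hz (hYC h)
  obtain ⟨L, hLD, hZL, hcn, hd, hcard⟩ := grow hDcn (S₀ := Z ∪ Y) (L₀ := Y) (I := ∅)
    (union_subset subset_union_right (hYC.trans subset_union_left)) subset_union_right
    (by rw [hsd]; exact hZcn)
    (by
      intro l hl
      rw [hsd]
      exact ⟨w l, hZw l hl, (hw l hl).2.1⟩) (by simp) (by simp) (by simp) (by simp)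
  rw [hsd] at hZL
  simp only [card_empty, add_zero] at hcard
  have hLC : L ⊆ C := by
    intro z hz
    rcases mem_union.1 (hLD hz) with h | h
    · exact h
    · exact absurd hz (mem_sdiff.1 (hZL h)).2
  obtain ⟨U, hUR, hU, hUmax⟩ := max_ind G (univ \ C)
  have hUC : ∀ v ∈ U, v ∉ C := fun v hv => (mem_sdiff.1 (hUR hv)).2
  have hUs : U.card < s := hC.alpha hs hU (disjoint_left.2 hUC)
  have hnb : ∀ v : V, ∃ c, v ∈ U → c ∈ C ∧ G.Adj v c := by
    intro v
    by_cases hv : v ∈ U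
    · obtain ⟨c, hc, hvc⟩ := hC.dom v (hUC v hv)
      exact ⟨c, fun _ => ⟨hc, hvc⟩⟩
    · exact ⟨v, fun h => absurd h hv⟩
  choose c hc using hnb
  set Bad := C.filter (fun v => (nb G C v).card ≠ 2) with hBad
  obtain ⟨Q, hQL, hQ, hQmax⟩ := max_ind G (L \ (Bad ∪ U.image c))
  have hQL' : Q ⊆ L := hQL.trans sdiff_subset
  have h3 : (L \ (Bad ∪ U.image c)).card ≤ Q.card * 3 := by
    refine (card_le_card (t := Q.biUnion (fun q => insert q (nb G C q))) ?_).trans
      (card_biUnion_le_card_mul _ _ _ ?_)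
    · intro z hz
      rw [mem_biUnion]
      by_cases hzQ : z ∈ Q
      · exact ⟨z, hzQ, mem_insert_self _ _⟩
      · obtain ⟨q, hq, hzq⟩ := hQmax z hz hzQ
        exact ⟨q, hq, mem_insert_of_mem (mem_nb.2 ⟨hLC (mem_sdiff.1 hz).1, hzq.symm⟩)⟩
    · intro q hq
      have h4 : (nb G C q).card = 2 := by
        by_contra hne
        have h5 := (mem_sdiff.1 (hQL hq)).2
        exact h5 (mem_union_left _ (mem_filter.2 ⟨hLC (hQL' hq), hne⟩))
      have h5 := card_insert_le q (nb G C q)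
      omega
  have h4 : L.card ≤ (L \ (Bad ∪ U.image c)).card + (Bad.card + U.card) := by
    have h5 := card_le_card_sdiff_add_card (s := L) (t := Bad ∪ U.image c)
    have h6 := card_union_le Bad (U.image c)
    have h7 : (U.image c).card ≤ U.card := card_image_le
    omega
  have h5 : Bad.card ≤ bd0 s := hC.bad hs
  have hQs : Q.card < s := by
    apply hs Q hQ
    have g1 : Cn G ((C ∪ Z) \ Q) := by
      have : (C ∪ Z) \ Q = ((C ∪ Z) \ L) ∪ (L \ Q) := by
        ext z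
        simp only [mem_sdiff, mem_union (s := _ \ _)]
        constructor
        · rintro ⟨h1, h2⟩
          by_cases hzL : z ∈ L
          · exact Or.inr ⟨hzL, h2⟩
          · exact Or.inl ⟨h1, hzL⟩
        · rintro (⟨h1, h2⟩ | ⟨h1, h2⟩)
          · exact ⟨h1, fun h => h2 (hQL' h)⟩
          · exact ⟨hLD h1, h2⟩
      rw [this]
      exact Cn.add_dom hcn (fun t ht => hd t (mem_sdiff.1 ht).1)
    have g2 : Cn G (((C ∪ Z) \ Q) ∪ U) := by
      apply Cn.add_dom g1
      intro v hv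
      refine ⟨c v, ?_, (hc v hv).2⟩
      rw [mem_sdiff]
      refine ⟨mem_union_left _ (hc v hv).1, fun h => ?_⟩
      exact (mem_sdiff.1 (hQL h)).2 (mem_union_right _ (mem_image_of_mem _ hv))
    have g3 : Qᶜ = (((C ∪ Z) \ Q) ∪ U) ∪ (Qᶜ \ (((C ∪ Z) \ Q) ∪ U)) := by
      rw [union_sdiff_of_subset]
      intro z hz
      rw [mem_compl]
      rcases mem_union.1 hz with hz | hz
      · exact (mem_sdiff.1 hz).2
      · exact fun h => hUC z hz (hLC (hQL' h))
    rw [g3]
    apply Cn.add_dom g2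
    intro t ht
    rw [mem_sdiff, mem_compl, mem_union, mem_sdiff, mem_union] at ht
    obtain ⟨h1, h2⟩ := ht
    have htC : t ∉ C := fun h => h2 (Or.inl ⟨Or.inl h, h1⟩)
    have htU : t ∉ U := fun h => h2 (Or.inr h)
    obtain ⟨v, hv, htv⟩ := hUmax t (mem_sdiff.2 ⟨mem_univ _, htC⟩) htU
    exact ⟨v, mem_union_right _ hv, htv⟩
  omega

/-- structure theorem -/
theorem exists_str (hG : G.Connected) {s : ℕ} (hs : NoStar G s) :
    ∃ X D : Finset V, Str G X D ∧ X.card ≤ bd s ∧ Cn G (X ∪ D) ∧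
      ∀ v, v ∉ X ∪ D → ∃ c ∈ X ∪ D, G.Adj v c := by
  obtain ⟨C, hC⟩ := exists_MCD hG
  obtain ⟨c₀, hc₀⟩ := hC.cn.1
  obtain ⟨U, hUR, hU, hUmax⟩ := max_ind G (univ \ C)
  have hUC : ∀ v ∈ U, v ∉ C := fun v hv => (mem_sdiff.1 (hUR hv)).2
  have hUs : U.card < s := hC.alpha hs hU (disjoint_left.2 hUC)
  set Bad := C.filter (fun v => (nb G C v).card ≠ 2) with hBad
  set Y := C.filter (fun y => ∃ w, w ∉ C ∧ G.Adj y w) with hY
  have hYcard : Y.card ≤ s * (bd0 s + 4 * s) := by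
    have h1 : Y ⊆ U.biUnion (fun u => C.filter (fun y => ∃ w, w ∉ C ∧ G.Adj y w ∧
        (w = u ∨ G.Adj w u))) := by
      intro y hy
      obtain ⟨hyC, w, hw, hyw⟩ := mem_filter.1 hy
      rw [mem_biUnion]
      by_cases hwU : w ∈ U
      · exact ⟨w, hwU, mem_filter.2 ⟨hyC, w, hw, hyw, Or.inl rfl⟩⟩
      · obtain ⟨u, hu, hwu⟩ := hUmax w (mem_sdiff.2 ⟨mem_univ _, hw⟩) hwU
        exact ⟨u, hu, mem_filter.2 ⟨hyC, w, hw, hyw, Or.inr hwu⟩⟩
    refine (card_le_card h1).trans ((card_biUnion_le_card_mul _ _ (bd0 s + 4 * s) ?_).trans ?_)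
    · intro u hu
      exact hC.touch hs (hUC u hu)
    · exact Nat.mul_le_mul_right _ (by omega)
  set X₀ := Bad ∪ Y ∪ {c₀} with hX₀
  have hX₀C : X₀ ⊆ C := by
    apply union_subset (union_subset (filter_subset _ _) (filter_subset _ _))
    simpa using hc₀
  have hX₀card : X₀.card ≤ bd0 s + s * (bd0 s + 4 * s) + 1 := by
    have h1 : X₀.card ≤ (Bad ∪ Y).card + ({c₀} : Finset V).card := card_union_le (Bad ∪ Y) {c₀}
    have h2 := card_union_le Bad Y
    have h3 : Bad.card ≤ bd0 s := hC.bad hs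
    rw [card_singleton] at h1
    omega
  set X := X₀ ∪ C.filter (fun v => ∃ x ∈ X₀, G.Adj v x) with hX
  have hXC : X ⊆ C := union_subset hX₀C (filter_subset _ _)
  have hXcard : X.card ≤ bd s := by
    have h1 : X.card ≤ X₀.card + (C.filter (fun v => ∃ x ∈ X₀, G.Adj v x)).card :=
      card_union_le X₀ (C.filter (fun v => ∃ x ∈ X₀, G.Adj v x))
    have h2 : (C.filter (fun v => ∃ x ∈ X₀, G.Adj v x)).card ≤ X₀.card * (2 * (s - 1)) := by
      refine (card_le_card (t := X₀.biUnion (fun x => nb G C x)) ?_).trans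
        (card_biUnion_le_card_mul _ _ _ ?_)
      · intro z hz
        obtain ⟨hzC, x, hx, hzx⟩ := mem_filter.1 hz
        rw [mem_biUnion]
        exact ⟨x, hx, mem_nb.2 ⟨hzC, hzx.symm⟩⟩
      · intro x hx
        exact hC.deg_le hs (hX₀C hx)
    calc X.card ≤ X₀.card * (1 + 2 * (s - 1)) := by rw [Nat.mul_add, Nat.mul_one]; omega
      _ ≤ _ := Nat.mul_le_mul_right _ hX₀card
  have hXD : X ∪ (C \ X) = C := union_sdiff_of_subset hXC
  refine ⟨X, C \ X, ⟨disjoint_sdiff, ⟨c₀, ?_⟩, ?_, ?_, ?_⟩, hXcard, ?_, ?_⟩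
  · exact mem_union_left _ (mem_union_right _ (mem_singleton_self _))
  · intro d hd
    rw [hXD]
    obtain ⟨hdC, hdX⟩ := mem_sdiff.1 hd
    by_contra hne
    exact hdX (mem_union_left _ (mem_union_left _ (mem_union_left _
      (mem_filter.2 ⟨hdC, hne⟩))))
  · intro d hd v hdv
    rw [hXD]
    obtain ⟨hdC, hdX⟩ := mem_sdiff.1 hd
    by_contra hv
    exact hdX (mem_union_left _ (mem_union_left _ (mem_union_right _
      (mem_filter.2 ⟨hdC, v, hv, hdv⟩))))
  · intro x hx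
    by_cases hx0 : x ∈ X₀
    · have : nb G (C \ X) x = ∅ := by
        rw [eq_empty_iff_forall_notMem]
        intro d hd
        obtain ⟨hd1, hxd⟩ := mem_nb.1 hd
        obtain ⟨hdC, hdX⟩ := mem_sdiff.1 hd1
        exact hdX (mem_union_right _ (mem_filter.2 ⟨hdC, x, hx0, hxd.symm⟩))
      rw [this]; simp
    · have hxf := (mem_union.1 hx).resolve_left hx0
      obtain ⟨hxC, x₀, hx₀, hxx₀⟩ := mem_filter.1 hxf
      have h2 : (nb G C x).card = 2 := by
        by_contra hne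
        exact hx0 (mem_union_left _ (mem_union_left _ (mem_filter.2 ⟨hxC, hne⟩)))
      have h3 : nb G (C \ X) x ⊆ (nb G C x).erase x₀ := by
        intro d hd
        obtain ⟨hd1, hxd⟩ := mem_nb.1 hd
        obtain ⟨hdC, hdX⟩ := mem_sdiff.1 hd1
        rw [mem_erase]
        refine ⟨?_, mem_nb.2 ⟨hdC, hxd⟩⟩
        rintro rfl
        exact hdX (mem_union_left _ hx₀)
      have h4 := card_le_card h3
      have h5 : ((nb G C x).erase x₀).card = (nb G C x).card - 1 :=
        card_erase_of_mem (mem_nb.2 ⟨hX₀C hx₀, hxx₀⟩)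
      omega
  · rw [hXD]; exact hC.cn
  · rw [hXD]; exact hC.dom

end Pool.Agent.Run7.h855
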