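import Pool.Agent.Run7.h855.CMap

/-! Chains of links and hanging pieces. -/

namespace Pool.Agent.Run7.h855

open Pool.Agent.H175R2 Finset Classical

section

variable {V V' : Type} {G Gt : SimpleGraph V} {G' Gt' : SimpleGraph V'}

/-- gluing two pieces -/
lemma CM.glue2 (x₀ : V) {S M T : Finset V} {S' M' T' : Finset V'} {φM φT : V' → V}
    (cM : CM G' M' G M φM) (cT : CM G' T' G T φT)
    (hS : ∀ x, x ∈ S ↔ x ∈ M ∨ x ∈ T) (hS' : ∀ x, x ∈ S' ↔ x ∈ M' ∨ x ∈ T')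
    (hG : ∀ x ∈ S, ∀ y ∈ S, Gt.Adj x y ↔ G.Adj x y ∧ ((x ∈ M ∧ y ∈ M) ∨ (x ∈ T ∧ y ∈ T)))
    (hG' : ∀ x ∈ S', ∀ y ∈ S', Gt'.Adj x y ↔
      G'.Adj x y ∧ ((x ∈ M' ∧ y ∈ M') ∨ (x ∈ T' ∧ y ∈ T')))
    (o : ∀ v, v ∈ M' → v ∈ T' → φM v = φT v)
    (p : ∀ x, x ∈ M → x ∈ T → ∃ t, t ∈ M' ∧ t ∈ T' ∧ φM t = x) :
    ∃ Φ : V' → V, CM Gt' S' Gt S Φ ∧ (∀ v ∈ M', Φ v = φM v) ∧ (∀ v ∈ T', Φ v = φT v) := by
  obtain ⟨Φ, h1, h2⟩ := CM.glue (ι := Bool) (G := Gt) (G' := Gt') (S := S) (S' := S')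
    (P := fun b => if b then M else T) (P' := fun b => if b then M' else T')
    (Q := fun _ => G) (Q' := fun _ => G') (φ := fun b => if b then φM else φT) x₀
    (by rintro (_ | _) <;> simpa) (by intro x; simp [hS, or_comm]) (by intro x; simp [hS', or_comm])
    (by
      intro x hx y hy
      rw [hG x hx y hy]
      constructor
      · rintro ⟨h, h' | h'⟩
        · exact ⟨true, h'.1, h'.2, h⟩
        · exact ⟨false, h'.1, h'.2, h⟩
      · rintro ⟨_ | _, h1, h2, h3⟩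
        · exact ⟨h3, Or.inr ⟨h1, h2⟩⟩
        · exact ⟨h3, Or.inl ⟨h1, h2⟩⟩)
    (by
      intro x hx y hy
      rw [hG' x hx y hy]
      constructor
      · rintro ⟨h, h' | h'⟩
        · exact ⟨true, h'.1, h'.2, h⟩
        · exact ⟨false, h'.1, h'.2, h⟩
      · rintro ⟨_ | _, h1, h2, h3⟩
        · exact ⟨h3, Or.inr ⟨h1, h2⟩⟩
        · exact ⟨h3, Or.inl ⟨h1, h2⟩⟩)
    (by
      rintro (_ | _) (_ | _) v h1 h2
      · rfl
      · exact (o v h2 h1).symm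
      · exact o v h1 h2
      · rfl)
    (by
      rintro (_ | _) (_ | _) x hne h1 h2
      · exact absurd rfl hne
      · obtain ⟨t, h3, h4, h5⟩ := p x h2 h1
        exact ⟨t, h4, h3, (o t h3 h4).symm.trans h5⟩
      · exact p x h1 h2
      · exact absurd rfl hne)
  exact ⟨Φ, h1, fun v hv => h2 true v hv, fun v hv => h2 false v hv⟩

/-- gluing three pieces -/
lemma CM.glue3 (x₀ : V) {S H M T : Finset V} {S' H' M' T' : Finset V'} {φH φM φT : V' → V}
    (cH : CM G' H' G H φH) (cM : CM G' M' G M φM) (cT : CM G' T' G T φT)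
    (hS : ∀ x, x ∈ S ↔ x ∈ H ∨ x ∈ M ∨ x ∈ T) (hS' : ∀ x, x ∈ S' ↔ x ∈ H' ∨ x ∈ M' ∨ x ∈ T')
    (hG : ∀ x ∈ S, ∀ y ∈ S, G.Adj x y → (x ∈ H ∧ y ∈ H) ∨ (x ∈ M ∧ y ∈ M) ∨ (x ∈ T ∧ y ∈ T))
    (hG' : ∀ x ∈ S', ∀ y ∈ S', G'.Adj x y →
      (x ∈ H' ∧ y ∈ H') ∨ (x ∈ M' ∧ y ∈ M') ∨ (x ∈ T' ∧ y ∈ T'))
    (o1 : ∀ v, v ∈ H' → v ∈ M' → φH v = φM v) (o2 : ∀ v, v ∈ H' → v ∈ T' → φH v = φT v)
    (o3 : ∀ v, v ∈ M' → v ∈ T' → φM v = φT v)
    (p1 : ∀ x, x ∈ H → x ∈ M → ∃ t, t ∈ H' ∧ t ∈ M' ∧ φH t = x)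
    (p2 : ∀ x, x ∈ H → x ∈ T → ∃ t, t ∈ H' ∧ t ∈ T' ∧ φH t = x)
    (p3 : ∀ x, x ∈ M → x ∈ T → ∃ t, t ∈ M' ∧ t ∈ T' ∧ φM t = x) :
    ∃ Φ : V' → V, CM G' S' G S Φ ∧ (∀ v ∈ H', Φ v = φH v) ∧ (∀ v ∈ M', Φ v = φM v) ∧
      (∀ v ∈ T', Φ v = φT v) := by
  -- first glue `H` and `M`
  obtain ⟨Φ, h1, h2⟩ := CM.glue (ι := Fin 3) (G := G) (G' := G') (S := S) (S' := S')
    (P := ![H, M, T]) (P' := ![H', M', T'])
    (Q := fun _ => G) (Q' := fun _ => G') (φ := ![φH, φM, φT]) x₀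
    (by
      intro i
      fin_cases i
      · exact cH
      · exact cM
      · exact cT)
    (by
      intro x
      rw [hS, Fin.exists_fin_succ, Fin.exists_fin_two]
      rfl)
    (by
      intro x
      rw [hS', Fin.exists_fin_succ, Fin.exists_fin_two]
      rfl)
    (by
      intro x hx y hy
      rw [Fin.exists_fin_succ, Fin.exists_fin_two]
      constructor
      · intro h
        rcases hG x hx y hy h with h' | h' | h'
        · exact Or.inl ⟨h'.1, h'.2, h⟩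
        · exact Or.inr (Or.inl ⟨h'.1, h'.2, h⟩)
        · exact Or.inr (Or.inr ⟨h'.1, h'.2, h⟩)
      · rintro (h | h | h) <;> exact h.2.2)
    (by
      intro x hx y hy
      rw [Fin.exists_fin_succ, Fin.exists_fin_two]
      constructor
      · intro h
        rcases hG' x hx y hy h with h' | h' | h'
        · exact Or.inl ⟨h'.1, h'.2, h⟩
        · exact Or.inr (Or.inl ⟨h'.1, h'.2, h⟩)
        · exact Or.inr (Or.inr ⟨h'.1, h'.2, h⟩)
      · rintro (h | h | h) <;> exact h.2.2)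
    (by
      intro i j v h1 h2
      fin_cases i <;> fin_cases j
      · rfl
      · exact o1 v h1 h2
      · exact o2 v h1 h2
      · exact (o1 v h2 h1).symm
      · rfl
      · exact o3 v h1 h2
      · exact (o2 v h2 h1).symm
      · exact (o3 v h2 h1).symm
      · rfl)
    (by
      intro i j x hne h1 h2
      fin_cases i <;> fin_cases j
      · exact absurd rfl hne
      · exact p1 x h1 h2
      · exact p2 x h1 h2
      · obtain ⟨t, h3, h4, h5⟩ := p1 x h2 h1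
        exact ⟨t, h4, h3, (o1 t h3 h4).symm.trans h5⟩
      · exact absurd rfl hne
      · exact p3 x h1 h2
      · obtain ⟨t, h3, h4, h5⟩ := p2 x h2 h1
        exact ⟨t, h4, h3, (o2 t h3 h4).symm.trans h5⟩
      · obtain ⟨t, h3, h4, h5⟩ := p3 x h2 h1
        exact ⟨t, h4, h3, (o3 t h3 h4).symm.trans h5⟩
      · exact absurd rfl hne)
  exact ⟨Φ, h1, fun v hv => h2 0 v hv, fun v hv => h2 1 v hv, fun v hv => h2 2 v hv⟩

end

/-- A tail: a hanging piece at `z`, a link from `z` to `z'`, a tail starting at `z'`, ..., ending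
at `w`. -/
inductive Tail {V : Type} (G : SimpleGraph V) (w : V) : Finset V → V → List (Ob × Ob) → Prop
  | nil : Tail G w {w} w []
  | cons (S H M T : Finset V) (z z' : V) (l : List (Ob × Ob))
      (hS : ∀ x, x ∈ S ↔ x ∈ H ∨ x ∈ M ∨ x ∈ T)
      (hzH : z ∈ H) (hzM : z ∈ M) (hz'M : z' ∈ M)
      (hHM : ∀ x, x ∈ H → x ∈ M → x = z) (hHT : ∀ x, x ∈ H → x ∈ T → False)
      (hMT : ∀ x, x ∈ M → x ∈ T → x = z') (hH : Cn G H) (hM : Cn G M)
      (hadj : ∀ x ∈ S, ∀ y ∈ S, G.Adj x y →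
        (x ∈ H ∧ y ∈ H) ∨ (x ∈ M ∧ y ∈ M) ∨ (x ∈ T ∧ y ∈ T))
      (h : Tail G w T z' l) : Tail G w S z ((full G H z z, full G M z z') :: l)

lemma Tail.facts {V : Type} {G : SimpleGraph V} {w : V} {S : Finset V} {z : V}
    {l : List (Ob × Ob)} (h : Tail G w S z l) : z ∈ S ∧ w ∈ S ∧ Cn G S := by
  induction h with
  | nil => exact ⟨mem_singleton_self _, mem_singleton_self _, Cn.singleton _⟩
  | cons S H M T z z' l hS hzH hzM hz'M hHM hHT hMT hH hM hadj h ih =>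
    refine ⟨(hS z).2 (Or.inl hzH), (hS w).2 (Or.inr (Or.inr ih.2.1)), ?_⟩
    have h1 : Cn G (H ∪ M) := hH.union hM (Or.inr ⟨z, mem_inter.2 ⟨hzH, hzM⟩⟩)
    have h2 : Cn G ((H ∪ M) ∪ T) := h1.union ih.2.2
      (Or.inr ⟨z', mem_inter.2 ⟨mem_union_right _ hz'M, ih.1⟩⟩)
    have : S = (H ∪ M) ∪ T := by
      ext x; rw [hS, mem_union, mem_union]; tauto
    rw [this]
    exact h2

/-- the componentwise order on pairs -/
def Le2 (p q : Ob × Ob) : Prop := Le p.1 q.1 ∧ Le p.2 q.2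

theorem Tail.le {V V' : Type} {G : SimpleGraph V} {G' : SimpleGraph V'} {w : V} {w' : V'}
    {l l' : List (Ob × Ob)} (hl : List.SublistForall₂ Le2 l l') :
    ∀ {S : Finset V} {S' : Finset V'} {z : V} {z' : V'}, Tail G w S z l → Tail G' w' S' z' l' →
      Le (full G S z w) (full G' S' z' w') := by
  induction hl with
  | nil =>
    intro S S' z z' h h'
    cases h
    refine ⟨fun _ => w, rfl, rfl, ?_⟩
    rw [full_gr, full_gr]
    exact CM.const h'.facts.2.2 w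
  | cons hab _ ih =>
    intro S S' z z' h h'
    cases h with
    | cons _ H M T _ z₁ l hS hzH hzM hz'M hHM hHT hMT hH hM hadj h =>
    cases h' with
    | cons _ H' M' T' _ z₁' l' hS' hzH' hzM' hz'M' hHM' hHT' hMT' hH' hM' hadj' h' =>
    obtain ⟨⟨φH, a1, a2, a3⟩, ⟨φM, b1, b2, b3⟩⟩ := hab
    obtain ⟨φT, c1, c2, c3⟩ := ih h h'
    rw [full_gr, full_gr] at a3 b3 c3
    have a1 : φH z' = z := a1
    have b1 : φM z' = z := b1
    have b2 : φM z₁' = z₁ := b2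
    have c1 : φT z₁' = z₁ := c1
    have c2 : φT w' = w := c2
    have a3 : CM G' H' G H φH := a3
    have b3 : CM G' M' G M φM := b3
    have c3 : CM G' T' G T φT := c3
    obtain ⟨Φ, d1, d2, d3, d4⟩ := CM.glue3 z a3 b3 c3 hS hS' hadj hadj'
      (fun v h1 h2 => by rw [hHM' v h1 h2, a1, b1])
      (fun v h1 h2 => (hHT' v h1 h2).elim)
      (fun v h1 h2 => by rw [hMT' v h1 h2, b2, c1])
      (fun x h1 h2 => ⟨z', hzH', hzM', by rw [a1, hHM x h1 h2]⟩)
      (fun x h1 h2 => (hHT x h1 h2).elim)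
      (fun x h1 h2 => ⟨z₁', hz'M', h'.facts.1, by rw [b2, hMT x h1 h2]⟩)
    refine ⟨Φ, ?_, ?_, ?_⟩
    · show Φ z' = z
      rw [d2 z' hzH', a1]
    · show Φ w' = w
      rw [d4 w' h'.facts.2.1, c2]
    · rw [full_gr, full_gr]
      exact d1
  | cons_right _ ih =>
    intro S S' z z' h h'
    cases h' with
    | cons _ H' M' T' _ z₁' l' hS' hzH' hzM' hz'M' hHM' hHT' hMT' hH' hM' hadj' h' =>
    obtain ⟨φT, c1, c2, c3⟩ := ih h h'
    rw [full_gr, full_gr] at c3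
    have c1 : φT z₁' = z := c1
    have c2 : φT w' = w := c2
    have c3 : CM G' T' G S φT := c3
    have hcn : Cn G' (H' ∪ M') := hH'.union hM' (Or.inr ⟨z', mem_inter.2 ⟨hzH', hzM'⟩⟩)
    obtain ⟨Φ, d1, d2, d3⟩ := CM.glue2 (Gt := G) (Gt' := G') (S := S) (S' := S') z
      (CM.const (G := G) hcn z) c3
      (fun x => by
        rw [mem_singleton]
        constructor
        · exact Or.inr
        · rintro (rfl | hx)
          · exact h.facts.1
          · exact hx)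
      (fun x => by rw [hS', mem_union]; tauto)
      (fun x hx y hy => by
        constructor
        · intro hxy; exact ⟨hxy, Or.inr ⟨hx, hy⟩⟩
        · exact fun h => h.1)
      (fun x hx y hy => by
        constructor
        · intro hxy
          refine ⟨hxy, ?_⟩
          rcases hadj' x hx y hy hxy with h1 | h1 | h1
          · exact Or.inl ⟨mem_union_left _ h1.1, mem_union_left _ h1.2⟩
          · exact Or.inl ⟨mem_union_right _ h1.1, mem_union_right _ h1.2⟩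
          · exact Or.inr h1
        · exact fun h => h.1)
      (fun v h1 h2 => by
        rcases mem_union.1 h1 with h3 | h3
        · exact (hHT' v h3 h2).elim
        · rw [hMT' v h3 h2, c1])
      (fun x h1 h2 => ⟨z₁', mem_union_right _ hz'M', h'.facts.1, by
        rw [mem_singleton] at h1; exact h1.symm⟩)
    refine ⟨Φ, ?_, ?_, ?_⟩
    · show Φ z' = z
      rw [d2 z' (mem_union_left _ hzH')]
    · show Φ w' = w
      rw [d3 w' h'.facts.2.1, c2]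
    · rw [full_gr, full_gr]
      exact d1

/-- a chain: a link from `u` to `z`, then a tail from `z` to `w` -/
structure Chain (P : Ob) (M T : Finset P.V) (z : P.V) (l : List (Ob × Ob)) : Prop where
  ne : ¬ P.e
  cov : ∀ x, x ∈ P.S ↔ x ∈ M ∨ x ∈ T
  uM : P.u ∈ M
  zM : z ∈ M
  tail : Tail P.G P.w T z l
  MT : ∀ x, x ∈ M → x ∈ T → x = z
  uT : P.u ∉ T
  wM : P.w ∉ M
  adj : ∀ x ∈ P.S, ∀ y ∈ P.S, P.gr.Adj x y → (x ∈ M ∧ y ∈ M) ∨ (x ∈ T ∧ y ∈ T)

theorem Chain.le {P P' : Ob} {M T : Finset P.V} {z : P.V} {M' T' : Finset P'.V} {z' : P'.V}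
    {l l' : List (Ob × Ob)} (h : Chain P M T z l) (h' : Chain P' M' T' z' l')
    (hM : Le (full P.G M P.u z) (full P'.G M' P'.u z')) (hl : List.SublistForall₂ Le2 l l') :
    Le P P' := by
  obtain ⟨φM, a1, a2, a3⟩ := hM
  obtain ⟨φT, b1, b2, b3⟩ := Tail.le hl h.tail h'.tail
  rw [full_gr, full_gr] at a3 b3
  have a1 : φM P'.u = P.u := a1
  have a2 : φM z' = z := a2
  have a3 : CM P'.G M' P.G M φM := a3
  have b1 : φT z' = z := b1
  have b2 : φT P'.w = P.w := b2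
  have b3 : CM P'.G T' P.G T φT := b3
  have key : ∀ (P : Ob) (M T : Finset P.V) (z : P.V) (l : List (Ob × Ob)), Chain P M T z l →
      ∀ x ∈ P.S, ∀ y ∈ P.S, P.gr.Adj x y ↔
        P.G.Adj x y ∧ ((x ∈ M ∧ y ∈ M) ∨ (x ∈ T ∧ y ∈ T)) := by
    intro P M T z l h x hx y hy
    constructor
    · intro hxy
      refine ⟨?_, h.adj x hx y hy hxy⟩
      rcases hxy.2 with h1 | h1
      · exact h1.2
      · exact absurd h1.2 h.ne
    · rintro ⟨hxy, h1⟩
      refine ⟨hxy.ne, Or.inl ⟨?_, hxy⟩⟩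
      rintro (⟨rfl, rfl⟩ | ⟨rfl, rfl⟩)
      · rcases h1 with h1 | h1
        · exact h.wM h1.2
        · exact h.uT h1.1
      · rcases h1 with h1 | h1
        · exact h.wM h1.1
        · exact h.uT h1.2
  obtain ⟨Φ, d1, d2, d3⟩ := CM.glue2 (Gt := P.gr) (Gt' := P'.gr) z a3 b3 h.cov h'.cov
    (key P M T z l h) (key P' M' T' z' l' h')
    (fun v h1 h2 => by rw [h'.MT v h1 h2, a2, b1])
    (fun x h1 h2 => ⟨z', h'.zM, h'.tail.facts.1, by rw [a2, h.MT x h1 h2]⟩)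
  refine ⟨Φ, ?_, ?_, d1⟩
  · rw [d2 _ h'.uM, a1]
  · rw [d3 _ h'.tail.facts.2.1, b2]

end Pool.Agent.Run7.h855
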